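import Mathlib
import Pool.Agent.Helper27.Har.P_global_ode

set_option autoImplicit false
open Set Filter Topology

namespace H535R3

/-- `φ` solves `φ' = b + a cos t - ε sin φ` on the whole line. -/
def Sol (b a ε : ℝ) (φ : ℝ → ℝ) : Prop :=
  ∀ t, HasDerivAt φ (b + a * Real.cos t - ε * Real.sin (φ t)) t

/-- The vector field. -/
noncomputable def vf (b a ε : ℝ) (t x : ℝ) : ℝ := b + a * Real.cos t - ε * Real.sin x

/-- Lipschitz constant. -/
noncomputable def KK (ε : ℝ) : NNReal := ⟨|ε| + 1, by positivity⟩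

lemma vf_lip (b a ε t : ℝ) : LipschitzWith (KK ε) (vf b a ε t) := by
  refine LipschitzWith.of_dist_le_mul fun x y => ?_
  simp only [vf, Real.dist_eq]
  have h0 : b + a * Real.cos t - ε * Real.sin x - (b + a * Real.cos t - ε * Real.sin y)
      = -(ε * (Real.sin x - Real.sin y)) := by ring
  rw [h0, abs_neg, abs_mul]
  have h := Real.abs_sin_sub_sin_le x y
  calc |ε| * |Real.sin x - Real.sin y| ≤ |ε| * |x - y| :=
        mul_le_mul_of_nonneg_left h (abs_nonneg _)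
    _ ≤ (|ε| + 1) * |x - y| := mul_le_mul_of_nonneg_right (by linarith) (abs_nonneg _)

lemma exists_sol (b a ε x : ℝ) : ∃ φ, φ 0 = x ∧ Sol b a ε φ :=
  Haraux.global_ode (vf b a ε) (KK ε) (vf_lip b a ε) (by
    unfold vf Function.uncurry
    fun_prop) x

lemma Sol.unique {b a ε t0 : ℝ} {φ ψ : ℝ → ℝ} (h1 : Sol b a ε φ) (h2 : Sol b a ε ψ)
    (h : φ t0 = ψ t0) : φ = ψ :=
  ODE_solution_unique_univ (v := vf b a ε) (s := fun _ => univ) (K := KK ε)
    (fun t => (vf_lip b a ε t).lipschitzOnWith) (fun t => ⟨h1 t, trivial⟩)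
    (fun t => ⟨h2 t, trivial⟩) h

lemma Sol.cont {b a ε : ℝ} {φ : ℝ → ℝ} (h1 : Sol b a ε φ) : Continuous φ :=
  continuous_iff_continuousAt.2 fun t => (h1 t).continuousAt

/-- The solution with `φ 0 = x`. -/
noncomputable def fl (b a ε x : ℝ) : ℝ → ℝ := Classical.choose (exists_sol b a ε x)

lemma fl_zero (b a ε x : ℝ) : fl b a ε x 0 = x := (Classical.choose_spec (exists_sol b a ε x)).1
lemma fl_sol (b a ε x : ℝ) : Sol b a ε (fl b a ε x) :=
  (Classical.choose_spec (exists_sol b a ε x)).2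

lemma Sol.eq_fl {b a ε : ℝ} {φ : ℝ → ℝ} (h1 : Sol b a ε φ) : φ = fl b a ε (φ 0) :=
  h1.unique (fl_sol b a ε _) (t0 := 0) (fl_zero _ _ _ _).symm

/-- Time `2π` map. -/
noncomputable def P (b a ε x : ℝ) : ℝ := fl b a ε x (2 * Real.pi)

/-- First zero. -/
lemma first_zero {f : ℝ → ℝ} {a b : ℝ} (hab : a ≤ b) (hf : ContinuousOn f (Icc a b))
    (ha : 0 < f a) (hb : f b ≤ 0) : ∃ s, a < s ∧ s ≤ b ∧ f s = 0 ∧ ∀ t, a ≤ t → t < s → 0 < f t := by
  have hcl : IsClosed (Icc a b ∩ f ⁻¹' Iic 0) :=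
    hf.preimage_isClosed_of_isClosed isClosed_Icc isClosed_Iic
  have hcomp : IsCompact (Icc a b ∩ f ⁻¹' Iic 0) := isCompact_Icc.of_isClosed_subset hcl inter_subset_left
  obtain ⟨s, hs, hmin⟩ := hcomp.exists_isLeast ⟨b, ⟨hab, le_rfl⟩, hb⟩
  have hs0 : f s ≤ 0 := hs.2
  have has : a < s := by
    rcases hs.1.1.lt_or_eq with h | h
    · exact h
    · rw [← h] at hs0; linarith
  have hpos : ∀ t, a ≤ t → t < s → 0 < f t := by
    intro t h1 h2
    by_contra h3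
    have := hmin ⟨⟨h1, h2.le.trans hs.1.2⟩, not_lt.1 h3⟩
    linarith
  refine ⟨s, has, hs.1.2, le_antisymm hs0 ?_, hpos⟩
  by_contra h3
  push Not at h3
  have hcs : ContinuousWithinAt f (Icc a s) s :=
    (hf s hs.1).mono (Icc_subset_Icc le_rfl hs.1.2)
  have h4 : Tendsto f (𝓝[Ico a s] s) (𝓝 (f s)) := hcs.mono_left (nhdsWithin_mono _ Ico_subset_Icc_self)
  have : (𝓝[Ico a s] s).NeBot := by
    rw [nhdsWithin_Ico_eq_nhdsLT has]
    infer_instance
  have h5 : 0 ≤ f s := ge_of_tendsto h4 (by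
    filter_upwards [self_mem_nhdsWithin] with t ht
    exact (hpos t ht.1 ht.2).le)
  linarith

/-- Sign of the derivative at a first zero. -/
lemma deriv_nonpos_of_first {f : ℝ → ℝ} {f' a s : ℝ} (has : a < s) (hd : HasDerivAt f f' s)
    (h0 : f s = 0) (hpos : ∀ t, a ≤ t → t < s → 0 < f t) : f' ≤ 0 := by
  have h1 := (hasDerivAt_iff_tendsto_slope.1 hd).mono_left
    (nhdsWithin_mono s (fun t (ht : t ∈ Iio s) => (ne_of_lt ht : t ≠ s)))
  refine le_of_tendsto h1 ?_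
  filter_upwards [Ico_mem_nhdsLT has] with t ht
  rw [slope_def_field, h0]
  have := hpos t ht.1 ht.2
  exact (div_neg_of_pos_of_neg (by linarith) (by linarith [ht.2])).le

/-- A function which has positive derivative at each of its zeros in `(0,∞)` and ... stays positive. -/
lemma stay_pos {f f' : ℝ → ℝ} (hd : ∀ t, HasDerivAt f (f' t) t) (h0 : 0 ≤ f 0)
    (hz : ∀ t, 0 ≤ t → f t = 0 → 0 < f' t) {t : ℝ} (ht : 0 < t) : 0 < f t := by
  have hc : Continuous f := continuous_iff_continuousAt.2 fun t => (hd t).continuousAt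
  by_contra hcon
  push Not at hcon
  -- find t0 in (0,t) with f t0 > 0
  obtain ⟨t0, h1, h2, h3⟩ : ∃ t0, 0 ≤ t0 ∧ t0 < t ∧ 0 < f t0 := by
    rcases h0.lt_or_eq with h | h
    · exact ⟨0, le_rfl, ht, h⟩
    · have hp := hz 0 le_rfl h.symm
      have h4 := (hasDerivAt_iff_tendsto_slope.1 (hd 0)).mono_left
        (nhdsWithin_mono 0 (fun t (ht : t ∈ Ioi (0:ℝ)) => (ne_of_gt ht : t ≠ 0)))
      have h5 : ∀ᶠ x in 𝓝[>] (0:ℝ), 0 < slope f 0 x := h4.eventually (lt_mem_nhds hp)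
      obtain ⟨x, hx1, hx2⟩ := (h5.and (Ioo_mem_nhdsGT ht)).exists
      rw [slope_def_field, ← h, sub_zero, sub_zero] at hx1
      refine ⟨x, hx2.1.le, hx2.2, ?_⟩
      have := mul_pos hx1 hx2.1
      rwa [div_mul_cancel₀ _ hx2.1.ne'] at this
  obtain ⟨s, hs1, hs2, hs3, hs4⟩ := first_zero h2.le hc.continuousOn h3 hcon
  have h6 := deriv_nonpos_of_first hs1 (hd s) hs3 hs4
  linarith [hz s (h1.trans hs1.le) hs3]

lemma Sol.lt_of_lt {b a ε : ℝ} {φ ψ : ℝ → ℝ} (h1 : Sol b a ε φ) (h2 : Sol b a ε ψ) {s : ℝ}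
    (h : φ s < ψ s) (t : ℝ) : φ t < ψ t := by
  by_contra hcon
  push Not at hcon
  have hc : Continuous fun t => ψ t - φ t := h2.cont.sub h1.cont
  obtain ⟨u, hu⟩ := mem_range_of_exists_le_of_exists_ge hc (c := 0) ⟨t, by linarith⟩ ⟨s, by linarith⟩
  have := h1.unique h2 (t0 := u) (by linarith)
  rw [this] at h
  exact lt_irrefl _ h

lemma Sol.lt_of_b_lt {b b' a ε : ℝ} {φ ψ : ℝ → ℝ} (h1 : Sol b a ε φ) (h2 : Sol b' a ε ψ)
    (hb : b < b') (h : φ 0 ≤ ψ 0) {t : ℝ} (ht : 0 < t) : φ t < ψ t := by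
  have := stay_pos (f := fun t => ψ t - φ t) (fun t => (h2 t).sub (h1 t)) (by simpa using h)
    (fun t _ h0 => by
      have : ψ t = φ t := by linarith [h0]
      rw [this]; linarith) ht
  linarith

lemma Sol.add_two_pi {b a ε : ℝ} {φ : ℝ → ℝ} (h1 : Sol b a ε φ) (m : ℤ) :
    Sol b a ε (fun t => φ t + 2 * Real.pi * m) := by
  intro t
  have h := (h1 t).add_const (2 * Real.pi * m)
  have h2 : Real.sin (φ t + 2 * Real.pi * m) = Real.sin (φ t) := by
    rw [mul_comm (2 * Real.pi)]; exact Real.sin_add_int_mul_two_pi _ _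
  rw [h2]; exact h

lemma Sol.shift {b a ε : ℝ} {φ : ℝ → ℝ} (h1 : Sol b a ε φ) :
    Sol b a ε (fun t => φ (t + 2 * Real.pi)) := by
  intro t
  have h := (h1 (t + 2 * Real.pi)).comp_add_const t (2 * Real.pi)
  rw [Real.cos_add_two_pi] at h
  exact h

lemma Sol.reflect {b a ε : ℝ} {φ : ℝ → ℝ} (h1 : Sol b a ε φ) :
    Sol b a ε (fun t => Real.pi - φ (-t)) := by
  intro t
  have h := ((h1 (-t)).scomp t (hasDerivAt_neg t)).const_sub Real.pi
  have h3 : Real.sin (Real.pi - φ (-t)) = Real.sin (φ (-t)) := Real.sin_pi_sub _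
  rw [h3]
  refine h.congr_deriv ?_
  simp [Real.cos_neg]

lemma Sol.add_pi {b a ε : ℝ} {φ : ℝ → ℝ} (h1 : Sol b a ε φ) :
    Sol b a (-ε) (fun t => φ t + Real.pi) := by
  intro t
  have h := (h1 t).add_const Real.pi
  rw [Real.sin_add_pi]
  refine h.congr_deriv ?_
  ring

lemma fl_add (b a ε x : ℝ) (m : ℤ) (t : ℝ) :
    fl b a ε (x + 2 * Real.pi * m) t = fl b a ε x t + 2 * Real.pi * m := by
  have h := ((fl_sol b a ε x).add_two_pi m).eq_fl
  simp only [fl_zero] at h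
  exact (congrFun h t).symm

lemma P_add (b a ε x : ℝ) (m : ℤ) : P b a ε (x + 2 * Real.pi * m) = P b a ε x + 2 * Real.pi * m :=
  fl_add _ _ _ _ _ _

lemma fl_shift (b a ε x t : ℝ) : fl b a ε x (t + 2 * Real.pi) = fl b a ε (P b a ε x) t := by
  have h := ((fl_sol b a ε x).shift).eq_fl
  simp only [zero_add] at h
  exact congrFun h t

lemma fl_mono (b a ε : ℝ) {x y : ℝ} (h : x < y) (t : ℝ) : fl b a ε x t < fl b a ε y t :=
  (fl_sol b a ε x).lt_of_lt (fl_sol b a ε y) (s := 0) (by rwa [fl_zero, fl_zero]) t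

lemma P_mono (b a ε : ℝ) : StrictMono (P b a ε) := fun _ _ h => fl_mono b a ε h _

lemma P_lt_of_b {b b' a ε x : ℝ} (h : b < b') : P b a ε x < P b' a ε x :=
  (fl_sol b a ε x).lt_of_b_lt (fl_sol b' a ε x) h (by rw [fl_zero, fl_zero]) Real.two_pi_pos

lemma fl_per {b a ε x : ℝ} {m : ℤ} (h : P b a ε x = x + 2 * Real.pi * m) (t : ℝ) :
    fl b a ε x (t + 2 * Real.pi) = fl b a ε x t + 2 * Real.pi * m := by
  rw [fl_shift, h, fl_add]

end H535R3
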