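import Pool.Agent.H535R3.JA

set_option autoImplicit false
open Set Filter Topology

namespace H535R3

lemma fl_dist (b a ε x b' a' ε' x' : ℝ) :
    ∀ t ∈ Icc 0 (2 * Real.pi), dist (fl b a ε x t) (fl b' a' ε' x' t) ≤
      gronwallBound (dist x x') (KK ε) (0 + (|b' - b| + |a' - a| + |ε' - ε|)) (t - 0) := by
  refine dist_le_of_approx_trajectories_ODE (v := vf b a ε) (f := fl b a ε x)
    (g := fl b' a' ε' x') (K := KK ε) (f' := fun t => vf b a ε t (fl b a ε x t))
    (g' := fun t => vf b' a' ε' t (fl b' a' ε' x' t)) (fun t => vf_lip b a ε t)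
    (fl_sol b a ε x).cont.continuousOn (fun t _ => (fl_sol b a ε x t).hasDerivWithinAt)
    (fun t _ => (dist_self _).le) (fl_sol b' a' ε' x').cont.continuousOn
    (fun t _ => (fl_sol b' a' ε' x' t).hasDerivWithinAt) (fun t _ => ?_) (by rw [fl_zero, fl_zero])
  simp only [vf, Real.dist_eq]
  set s := Real.sin (fl b' a' ε' x' t)
  have h0 : b' + a' * Real.cos t - ε' * s - (b + a * Real.cos t - ε * s)
      = (b' - b) + (a' - a) * Real.cos t - (ε' - ε) * s := by ring
  rw [h0]
  have h1 : |(a' - a) * Real.cos t| ≤ |a' - a| := by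
    rw [abs_mul]
    exact mul_le_of_le_one_right (abs_nonneg _) (Real.abs_cos_le_one t)
  have h2 : |(ε' - ε) * s| ≤ |ε' - ε| := by
    rw [abs_mul]
    exact mul_le_of_le_one_right (abs_nonneg _) (Real.abs_sin_le_one _)
  have h3 := abs_sub (b' - b + (a' - a) * Real.cos t) ((ε' - ε) * s)
  have h4 := abs_add_le (b' - b) ((a' - a) * Real.cos t)
  linarith

lemma P_dist (b a ε x b' a' ε' x' : ℝ) :
    dist (P b a ε x) (P b' a' ε' x') ≤
      dist x x' * Real.exp ((|ε| + 1) * (2 * Real.pi)) +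
       (|b' - b| + |a' - a| + |ε' - ε|) / (|ε| + 1) * (Real.exp ((|ε| + 1) * (2 * Real.pi)) - 1) := by
  have h := fl_dist b a ε x b' a' ε' x' (2 * Real.pi) ⟨Real.two_pi_pos.le, le_rfl⟩
  have hK : ((KK ε : NNReal) : ℝ) = |ε| + 1 := rfl
  rw [gronwallBound_of_K_ne_0 (by rw [hK]; positivity), hK, sub_zero, zero_add] at h
  exact h

lemma continuous_P : Continuous fun p : ℝ × ℝ × ℝ × ℝ => P p.1 p.2.1 p.2.2.1 p.2.2.2 := by
  rw [continuous_iff_continuousAt]
  rintro ⟨b, a, ε, x⟩
  rw [ContinuousAt, tendsto_iff_dist_tendsto_zero]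
  have hb : Tendsto (fun p : ℝ × ℝ × ℝ × ℝ =>
      dist x p.2.2.2 * Real.exp ((|ε| + 1) * (2 * Real.pi)) +
       (|p.1 - b| + |p.2.1 - a| + |p.2.2.1 - ε|) / (|ε| + 1) *
        (Real.exp ((|ε| + 1) * (2 * Real.pi)) - 1)) (𝓝 (b, a, ε, x)) (𝓝 0) := by
    have hc : Continuous (fun p : ℝ × ℝ × ℝ × ℝ =>
      dist x p.2.2.2 * Real.exp ((|ε| + 1) * (2 * Real.pi)) +
       (|p.1 - b| + |p.2.1 - a| + |p.2.2.1 - ε|) / (|ε| + 1) *
        (Real.exp ((|ε| + 1) * (2 * Real.pi)) - 1)) := by fun_prop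
    have := hc.tendsto (b, a, ε, x)
    simpa using this
  refine squeeze_zero (fun _ => dist_nonneg) (fun p => ?_) hb
  rw [dist_comm]
  exact P_dist b a ε x _ _ _ _

lemma continuous_Px (b a ε : ℝ) : Continuous (P b a ε) :=
  continuous_P.comp (f := fun x => (b, a, ε, x)) (by fun_prop)

/-- Reduce mod `2π`. -/
lemma exists_shift (x0 x : ℝ) : ∃ m : ℤ, x0 ≤ x + 2 * Real.pi * m ∧
    x + 2 * Real.pi * m < x0 + 2 * Real.pi := by
  obtain ⟨m, hm, -⟩ := existsUnique_add_zsmul_mem_Ico Real.two_pi_pos x x0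
  refine ⟨m, ?_⟩
  rw [zsmul_eq_mul, mul_comm] at hm
  rw [mul_comm (2 * Real.pi), mul_comm (m : ℝ)] 
  exact ⟨by linarith [hm.1], by linarith [hm.2]⟩

/-- Locking in terms of all the solutions. -/
def Lk (r : ℤ) (b a ε : ℝ) : Prop :=
  ∀ φ, Sol b a ε φ → Tendsto (fun t => φ t / t) atTop (𝓝 (r : ℝ))

lemma Lk_of_fixed {r : ℤ} {b a ε x : ℝ} (h : P b a ε x = x + 2 * Real.pi * r) : Lk r b a ε := by
  intro φ hφ
  have hper : Function.Periodic (fun t => fl b a ε x t - r * t) (2 * Real.pi) := by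
    intro t
    simp only [fl_per h t]; ring
  have hcont : Continuous (fun t => fl b a ε x t - r * t) :=
    (fl_sol b a ε x).cont.sub (by fun_prop)
  obtain ⟨C, hC⟩ := (hper.isBounded_of_continuous Real.two_pi_pos.ne' hcont).exists_norm_le
  obtain ⟨m, hm1, hm2⟩ := exists_shift x (φ 0)
  have hφ0 : φ = fl b a ε (φ 0) := hφ.eq_fl
  have hψ : Sol b a ε (fun t => φ t + 2 * Real.pi * m) := hφ.add_two_pi m
  have hbd : ∀ t, |φ t - r * t| ≤ C + 2 * Real.pi + |2 * Real.pi * m| := by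
    intro t
    have h1 : fl b a ε x t ≤ φ t + 2 * Real.pi * m := by
      rcases hm1.lt_or_eq with h1 | h1
      · exact ((fl_sol b a ε x).lt_of_lt hψ (s := 0) (by rwa [fl_zero]) t).le
      · exact (congrFun ((fl_sol b a ε x).unique hψ (t0 := 0) (by rwa [fl_zero])) t).le
    have h2 : φ t + 2 * Real.pi * m < fl b a ε x t + 2 * Real.pi := by
      have := hψ.lt_of_lt ((fl_sol b a ε x).add_two_pi 1) (s := 0)
        (by simp only [fl_zero]; push_cast; linarith) t
      push_cast at this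
      linarith
    have h3 := hC _ (mem_range_self t)
    rw [Real.norm_eq_abs] at h3
    have h4 := abs_le.1 h3
    have h5 := abs_le.1 (le_refl |2 * Real.pi * (m : ℝ)|)
    have h6 := Real.two_pi_pos
    rw [abs_le]
    constructor <;> linarith [h4.1, h4.2, h5.1, h5.2]
  set D := C + 2 * Real.pi + |2 * Real.pi * m|
  rw [tendsto_iff_dist_tendsto_zero]
  refine squeeze_zero' (g := fun t => D / t) (Eventually.of_forall fun _ => dist_nonneg) ?_
    (tendsto_const_nhds.div_atTop tendsto_id)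
  filter_upwards [eventually_gt_atTop (0 : ℝ)] with t ht
  have h1 : φ t / t - r = (φ t - r * t) / t := by field_simp
  rw [Real.dist_eq, h1, abs_div, abs_of_pos ht]
  exact div_le_div_of_nonneg_right (hbd t) ht.le

lemma Sol.iter {b a ε : ℝ} {φ : ℝ → ℝ} (h1 : Sol b a ε φ) (n : ℕ) :
    φ (2 * Real.pi * (n + 1)) = P b a ε (φ (2 * Real.pi * n)) := by
  have h2 : ∀ n : ℕ, Sol b a ε (fun t => φ (t + 2 * Real.pi * n)) := by
    intro n
    induction n with
    | zero => simpa using h1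
    | succ n ih =>
      have := ih.shift
      refine fun t => ?_
      have h3 := this t
      have h4 : (fun t => φ (t + 2 * Real.pi + 2 * Real.pi * n)) =
        (fun t => φ (t + 2 * Real.pi * ((n + 1 : ℕ) : ℝ))) := by
        funext t; congr 1; push_cast; ring
      rw [h4] at h3
      exact h3
  have h3 := congrFun (h2 n).eq_fl (2 * Real.pi)
  simp only [zero_add] at h3
  rw [P, ← h3]
  congr 1; ring

lemma exists_pos_lower {b a ε : ℝ} {g : ℝ → ℝ} (hc : Continuous g) (hp : ∀ x, 0 < g x)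
    (hper : ∀ x (m : ℤ), g (x + 2 * Real.pi * m) = g x) (_ : Sol b a ε (fl b a ε 0)) :
    ∃ c, 0 < c ∧ ∀ x, c ≤ g x := by
  obtain ⟨z, hz, hmin⟩ := (isCompact_Icc (a := (0:ℝ)) (b := 2 * Real.pi)).exists_isMinOn
    ⟨0, ⟨le_rfl, Real.two_pi_pos.le⟩⟩ hc.continuousOn
  refine ⟨g z, hp z, fun x => ?_⟩
  obtain ⟨m, hm1, hm2⟩ := exists_shift 0 x
  rw [← hper x m]
  exact hmin ⟨hm1, by linarith⟩

lemma fixed_of_Lk {r : ℤ} {b a ε : ℝ} (h : Lk r b a ε) : ∃ x, P b a ε x = x + 2 * Real.pi * r := by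
  by_contra hno
  push Not at hno
  have hc : Continuous fun x => P b a ε x - x - 2 * Real.pi * r :=
    ((continuous_Px b a ε).sub continuous_id).sub continuous_const
  have hper : ∀ x (m : ℤ), P b a ε (x + 2 * Real.pi * m) - (x + 2 * Real.pi * m) - 2 * Real.pi * r
      = P b a ε x - x - 2 * Real.pi * r := by
    intro x m; rw [P_add]; ring
  have hsign : (∀ x, 0 < P b a ε x - x - 2 * Real.pi * r) ∨
      (∀ x, 0 < -(P b a ε x - x - 2 * Real.pi * r)) := by
    by_contra hcon
    push Not at hcon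
    obtain ⟨⟨u, hu⟩, ⟨v, hv⟩⟩ := hcon
    obtain ⟨w, hw⟩ := mem_range_of_exists_le_of_exists_ge hc (c := 0) ⟨u, hu⟩ ⟨v, by linarith⟩
    exact hno w (by simp only at hw; linarith)
  have hlim := h _ (fl_sol b a ε 0)
  have hseq : Tendsto (fun n : ℕ => 2 * Real.pi * (n : ℝ)) atTop atTop :=
    tendsto_natCast_atTop_atTop.const_mul_atTop Real.two_pi_pos
  have hlim2 := hlim.comp hseq
  have hpi := Real.two_pi_pos
  rcases hsign with hs | hs
  · obtain ⟨c, hc0, hcl⟩ := exists_pos_lower hc hs hper (fl_sol b a ε 0)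
    have hge : ∀ n : ℕ, (n : ℝ) * (2 * Real.pi * r + c) ≤ fl b a ε 0 (2 * Real.pi * n) := by
      intro n
      induction n with
      | zero => simp [fl_zero]
      | succ n ih =>
        have h1 := (fl_sol b a ε 0).iter n
        have h2 := hcl (fl b a ε 0 (2 * Real.pi * n))
        push_cast
        rw [h1]
        linarith
    have h3 : (r : ℝ) + c / (2 * Real.pi) ≤ r := by
      refine ge_of_tendsto hlim2 ?_
      filter_upwards [eventually_gt_atTop 0] with n hn
      have hn' : (0:ℝ) < n := by exact_mod_cast hn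
      simp only [Function.comp]
      rw [le_div_iff₀ (by positivity)]
      refine le_trans (le_of_eq ?_) (hge n)
      field_simp
    have : 0 < c / (2 * Real.pi) := by positivity
    linarith
  · obtain ⟨c, hc0, hcl⟩ := exists_pos_lower hc.neg hs (fun x m => by rw [Pi.neg_apply, Pi.neg_apply, hper]) (fl_sol b a ε 0)
    have hge : ∀ n : ℕ, fl b a ε 0 (2 * Real.pi * n) ≤ (n : ℝ) * (2 * Real.pi * r - c) := by
      intro n
      induction n with
      | zero => simp [fl_zero]
      | succ n ih =>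
        have h1 := (fl_sol b a ε 0).iter n
        have h2 := hcl (fl b a ε 0 (2 * Real.pi * n))
        simp only [Pi.neg_apply] at h2
        push_cast
        rw [h1]
        linarith
    have h3 : (r : ℝ) ≤ r - c / (2 * Real.pi) := by
      refine le_of_tendsto hlim2 ?_
      filter_upwards [eventually_gt_atTop 0] with n hn
      have hn' : (0:ℝ) < n := by exact_mod_cast hn
      simp only [Function.comp]
      rw [div_le_iff₀ (by positivity)]
      refine le_trans (hge n) (le_of_eq ?_)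
      field_simp
    have : 0 < c / (2 * Real.pi) := by positivity
    linarith

lemma Lk_iff {r : ℤ} {b a ε : ℝ} : Lk r b a ε ↔ ∃ x, P b a ε x = x + 2 * Real.pi * r :=
  ⟨fixed_of_Lk, fun ⟨_, h⟩ => Lk_of_fixed h⟩


/-- The integral of `cos φ`. -/
noncomputable def Cc (φ : ℝ → ℝ) (t : ℝ) : ℝ := ∫ s in (0:ℝ)..t, Real.cos (φ s)

lemma Cc_zero (φ : ℝ → ℝ) : Cc φ 0 = 0 := by simp [Cc]

lemma Cc_deriv {φ : ℝ → ℝ} (h : Continuous φ) (t : ℝ) : HasDerivAt (Cc φ) (Real.cos (φ t)) t :=
  (Real.continuous_cos.comp h).integral_hasStrictDerivAt 0 t |>.hasDerivAt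

lemma mob {b a ε : ℝ} {φ ψ : ℝ → ℝ} (h1 : Sol b a ε φ) (h2 : Sol b a ε ψ) (t : ℝ) :
    Real.sin ((φ t - ψ t) / 2) =
      Real.sin ((φ 0 - ψ 0) / 2) * Real.exp (-(ε / 2 * (Cc φ t + Cc ψ t))) := by
  have hd : ∀ t, HasDerivAt (fun t => Real.sin ((φ t - ψ t) / 2) *
      Real.exp (ε / 2 * (Cc φ t + Cc ψ t))) 0 t := by
    intro t
    have ha := (((h1 t).sub (h2 t)).div_const 2).sin
    have hb := (((Cc_deriv h1.cont t).add (Cc_deriv h2.cont t)).const_mul (ε / 2)).exp
    refine (ha.mul hb).congr_deriv ?_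
    simp only [Pi.sub_apply, Pi.add_apply]
    have e1 : Real.sin (φ t) - Real.sin (ψ t) =
      2 * Real.sin ((φ t - ψ t) / 2) * Real.cos ((φ t + ψ t) / 2) := Real.sin_sub_sin _ _
    have e2 : Real.cos (φ t) + Real.cos (ψ t) =
      2 * Real.cos ((φ t + ψ t) / 2) * Real.cos ((φ t - ψ t) / 2) := Real.cos_add_cos _ _
    rw [e2]
    have e3 : b + a * Real.cos t - ε * Real.sin (φ t) - (b + a * Real.cos t - ε * Real.sin (ψ t))
      = - ε * (Real.sin (φ t) - Real.sin (ψ t)) := by ring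
    rw [e3, e1]
    ring
  have hc := is_const_of_deriv_eq_zero (fun t => (hd t).differentiableAt) (fun t => (hd t).deriv) t 0
  simp only [Cc_zero, add_zero, mul_zero, Real.exp_zero, mul_one] at hc
  rw [← hc, mul_assoc, ← Real.exp_add]
  simp

/-- `K x`. -/
noncomputable def Kx (b a ε x : ℝ) : ℝ := ε / 2 * Cc (fl b a ε x) (2 * Real.pi)

lemma mobP (b a ε x y : ℝ) : Real.sin ((P b a ε x - P b a ε y) / 2) =
    Real.sin ((x - y) / 2) * Real.exp (-(Kx b a ε x + Kx b a ε y)) := by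
  have := mob (fl_sol b a ε x) (fl_sol b a ε y) (2 * Real.pi)
  rw [fl_zero, fl_zero] at this
  rw [P, P, this, Kx, Kx, mul_add]

lemma K_add_zero {b a ε x y : ℝ} {m : ℤ} (hx : P b a ε x = x + 2 * Real.pi * m)
    (hy : P b a ε y = y + 2 * Real.pi * m) (h : Real.sin ((x - y) / 2) ≠ 0) :
    Kx b a ε x + Kx b a ε y = 0 := by
  have h1 := mobP b a ε x y
  rw [hx, hy, show x + 2 * Real.pi * m - (y + 2 * Real.pi * m) = x - y by ring] at h1
  have h2 : Real.exp (-(Kx b a ε x + Kx b a ε y)) = 1 := by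
    have h3 : Real.sin ((x - y) / 2) * Real.exp (-(Kx b a ε x + Kx b a ε y))
      = Real.sin ((x - y) / 2) * 1 := by rw [mul_one]; exact h1.symm
    exact mul_left_cancel₀ h h3
  rw [Real.exp_eq_one_iff] at h2
  linarith

lemma close {b a ε x1 x : ℝ} {m : ℤ} (hx : P b a ε x1 = x1 + 2 * Real.pi * m) :
    |P b a ε x - 2 * Real.pi * m - x| < 2 * Real.pi := by
  obtain ⟨j, hj1, hj2⟩ := exists_shift x1 x
  have h1 := (P_mono b a ε).monotone hj1
  have h2 := (P_mono b a ε) hj2
  have h3 := P_add b a ε x1 1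
  push_cast at h3
  rw [mul_one] at h3
  rw [h3, hx] at h2
  rw [hx] at h1
  rw [P_add] at h1 h2
  rw [abs_lt]
  constructor <;> linarith

/-- Key identity. -/
lemma key {b a ε x1 x2 : ℝ} {m : ℤ} (hx1 : P b a ε x1 = x1 + 2 * Real.pi * m)
    (hx2 : P b a ε x2 = x2 + 2 * Real.pi * m) (x : ℝ) :
    Real.sin ((P b a ε x - 2 * Real.pi * m - x) / 2) * Real.sin ((x2 - x1) / 2) =
      Real.sin ((x - x1) / 2) * Real.sin ((x - x2) / 2) *
      (Real.exp (-(Kx b a ε x + Kx b a ε x2)) - Real.exp (-(Kx b a ε x + Kx b a ε x1))) := by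
  have h1 := mobP b a ε x x1
  have h2 := mobP b a ε x x2
  rw [hx1] at h1
  rw [hx2] at h2
  set y := P b a ε x - 2 * Real.pi * m
  have e1 : P b a ε x - (x1 + 2 * Real.pi * m) = y - x1 := by ring
  have e2 : P b a ε x - (x2 + 2 * Real.pi * m) = y - x2 := by ring
  rw [e1] at h1
  rw [e2] at h2
  rw [mul_sub, mul_assoc (Real.sin ((x - x1) / 2)), ← h2]
  have e3 : Real.sin ((x - x1) / 2) * Real.sin ((x - x2) / 2) *
    Real.exp (-(Kx b a ε x + Kx b a ε x1)) = Real.sin ((y - x1) / 2) * Real.sin ((x - x2) / 2) := by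
    rw [h1]; ring
  rw [e3]
  have f1 : (y - x) / 2 = (y - x1) / 2 - (x - x1) / 2 := by ring
  have f2 : (x - x2) / 2 = (x - x1) / 2 - (x2 - x1) / 2 := by ring
  have f3 : (y - x2) / 2 = (y - x1) / 2 - (x2 - x1) / 2 := by ring
  rw [f1, f2, f3]
  generalize (y - x1) / 2 = q
  generalize (x - x1) / 2 = p
  generalize (x2 - x1) / 2 = d
  rw [Real.sin_sub, Real.sin_sub, Real.sin_sub]
  have hp := Real.sin_sq_add_cos_sq p
  ring

/-- Dichotomy for two distinct periodic solutions. -/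
lemma dich {b a ε x1 x2 : ℝ} {m : ℤ} (hx1 : P b a ε x1 = x1 + 2 * Real.pi * m)
    (hx2 : P b a ε x2 = x2 + 2 * Real.pi * m) (hne : Real.sin ((x2 - x1) / 2) ≠ 0) :
    ((∀ x, P b a ε x = x + 2 * Real.pi * m) ∧ True) ∨
    (Kx b a ε x1 ≠ 0 ∧ (∃ x, x + 2 * Real.pi * m < P b a ε x) ∧
      (∃ x, P b a ε x < x + 2 * Real.pi * m)) := by
  have hpi := Real.pi_pos
  have hK := K_add_zero hx2 hx1 hne
  by_cases hK1 : Kx b a ε x1 = 0
  · left
    refine ⟨fun x => ?_, trivial⟩
    have h := key hx1 hx2 x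
    rw [hK1] at h hK
    rw [add_zero] at hK
    rw [hK, sub_self, mul_zero] at h
    have h2 := (mul_eq_zero.1 h).resolve_right hne
    have h3 := close (x := x) hx1
    have h4 := abs_lt.1 h3
    have h5 := (Real.sin_eq_zero_iff_of_lt_of_lt (by linarith [h4.1]) (by linarith [h4.2])).1 h2
    linarith
  · right
    refine ⟨hK1, ?_⟩
    obtain ⟨j, hj1, hj2⟩ := exists_shift x1 x2
    -- replace x2
    set z := x2 + 2 * Real.pi * j with hz
    have hPz : P b a ε z = z + 2 * Real.pi * m := by rw [hz, P_add, hx2]; ring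
    have hzne : Real.sin ((z - x1) / 2) ≠ 0 := by
      intro h0
      have hr : (z - x1) / 2 = 0 := by
        rcases hj1.lt_or_eq with h | h
        · exact absurd h0 (Real.sin_pos_of_pos_of_lt_pi (by linarith) (by linarith)).ne'
        · rw [h]; simp
      apply hne
      have : (x2 - x1) / 2 = 0 - j * Real.pi := by
        rw [← hr, hz]; ring
      rw [this, zero_sub, Real.sin_neg, Real.sin_int_mul_pi, neg_zero]
    have hz1 : x1 < z := by
      rcases hj1.lt_or_eq with h | h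
      · exact h
      · exact absurd (by rw [h]; simp) hzne
    have hKz := K_add_zero hPz hx1 hzne
    have hsd : 0 < Real.sin ((z - x1) / 2) :=
      Real.sin_pos_of_pos_of_lt_pi (by linarith) (by linarith)
    -- sign lemma
    have hcl : ∀ x, 0 < Real.sin ((P b a ε x - 2 * Real.pi * m - x) / 2) →
        x + 2 * Real.pi * m < P b a ε x := by
      intro x hx
      have h4 := abs_lt.1 (close (x := x) hx1)
      by_contra hcon
      push Not at hcon
      have := Real.sin_nonpos_of_nonpos_of_neg_pi_le (x := (P b a ε x - 2 * Real.pi * m - x) / 2)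
        (by linarith) (by linarith [h4.1])
      linarith
    have hcl2 : ∀ x, Real.sin ((P b a ε x - 2 * Real.pi * m - x) / 2) < 0 →
        P b a ε x < x + 2 * Real.pi * m := by
      intro x hx
      have h4 := abs_lt.1 (close (x := x) hx1)
      by_contra hcon
      push Not at hcon
      have := Real.sin_nonneg_of_nonneg_of_le_pi (x := (P b a ε x - 2 * Real.pi * m - x) / 2)
        (by linarith) (by linarith [h4.2])
      linarith
    set u := (x1 + z) / 2 with hu
    set v := (z + x1 + 2 * Real.pi) / 2 with hv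
    have hu1 : 0 < Real.sin ((u - x1) / 2) :=
      Real.sin_pos_of_pos_of_lt_pi (by rw [hu]; linarith) (by rw [hu]; linarith)
    have hu2 : Real.sin ((u - z) / 2) < 0 :=
      Real.sin_neg_of_neg_of_neg_pi_lt (by rw [hu]; linarith) (by rw [hu]; linarith)
    have hv1 : 0 < Real.sin ((v - x1) / 2) :=
      Real.sin_pos_of_pos_of_lt_pi (by rw [hv]; linarith) (by rw [hv]; linarith)
    have hv2 : 0 < Real.sin ((v - z) / 2) :=
      Real.sin_pos_of_pos_of_lt_pi (by rw [hv]; linarith) (by rw [hv]; linarith)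
    have ku := key hx1 hPz u
    have kv := key hx1 hPz v
    rcases lt_or_gt_of_ne hK1 with hlt | hgt
    · -- K1 < 0, Kz > 0 : E2 - E1 < 0
      have e1 : Real.exp (-(Kx b a ε u + Kx b a ε z)) - Real.exp (-(Kx b a ε u + Kx b a ε x1)) < 0 :=
        sub_neg.2 (Real.exp_lt_exp.2 (by linarith))
      have e2 : Real.exp (-(Kx b a ε v + Kx b a ε z)) - Real.exp (-(Kx b a ε v + Kx b a ε x1)) < 0 :=
        sub_neg.2 (Real.exp_lt_exp.2 (by linarith))
      refine ⟨⟨u, hcl u ?_⟩, ⟨v, hcl2 v ?_⟩⟩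
      · have h5 : 0 < Real.sin ((P b a ε u - 2 * Real.pi * m - u) / 2) * Real.sin ((z - x1) / 2) := by
          rw [ku]
          exact mul_pos_of_neg_of_neg (mul_neg_of_pos_of_neg hu1 hu2) e1
        exact (pos_iff_pos_of_mul_pos h5).2 hsd
      · have h5 : Real.sin ((P b a ε v - 2 * Real.pi * m - v) / 2) * Real.sin ((z - x1) / 2) < 0 := by
          rw [kv]
          exact mul_neg_of_pos_of_neg (mul_pos hv1 hv2) e2
        by_contra hcon
        push Not at hcon
        linarith [mul_nonneg hcon hsd.le]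
    · have e1 : 0 < Real.exp (-(Kx b a ε u + Kx b a ε z)) - Real.exp (-(Kx b a ε u + Kx b a ε x1)) :=
        sub_pos.2 (Real.exp_lt_exp.2 (by linarith))
      have e2 : 0 < Real.exp (-(Kx b a ε v + Kx b a ε z)) - Real.exp (-(Kx b a ε v + Kx b a ε x1)) :=
        sub_pos.2 (Real.exp_lt_exp.2 (by linarith))
      refine ⟨⟨v, hcl v ?_⟩, ⟨u, hcl2 u ?_⟩⟩
      · have h5 : 0 < Real.sin ((P b a ε v - 2 * Real.pi * m - v) / 2) * Real.sin ((z - x1) / 2) := by
          rw [kv]
          exact mul_pos (mul_pos hv1 hv2) e2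
        exact (pos_iff_pos_of_mul_pos h5).2 hsd
      · have h5 : Real.sin ((P b a ε u - 2 * Real.pi * m - u) / 2) * Real.sin ((z - x1) / 2) < 0 := by
          rw [ku]
          exact mul_neg_of_neg_of_pos (mul_neg_of_pos_of_neg hu1 hu2) e1
        by_contra hcon
        push Not at hcon
        linarith [mul_nonneg hcon hsd.le]

end H535R3
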