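import Pool.Agent.H535R3.JB

set_option autoImplicit false
open Set Filter Topology

namespace H535R3

/-- The locked set. -/
def Ls (r : ℤ) (ε : ℝ) : Set (ℝ × ℝ) := {q | ∃ x, P q.1 q.2 ε x = x + 2 * Real.pi * r}

lemma isClosed_Ls (r : ℤ) (ε : ℝ) : IsClosed (Ls r ε) := by
  have h1 : Ls r ε = Prod.snd '' {p : Icc (0:ℝ) (2 * Real.pi) × (ℝ × ℝ) |
      P p.2.1 p.2.2 ε p.1 = p.1 + 2 * Real.pi * r} := by
    ext q
    constructor
    · rintro ⟨x, hx⟩
      obtain ⟨m, hm1, hm2⟩ := exists_shift 0 x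
      refine ⟨(⟨x + 2 * Real.pi * m, hm1, by linarith⟩, q), ?_, rfl⟩
      simp only [mem_ofPred_eq]
      rw [P_add, hx]; ring
    · rintro ⟨⟨x, q'⟩, hx, rfl⟩
      exact ⟨x, hx⟩
  rw [h1]
  refine isClosedMap_snd_of_compactSpace _ (isClosed_eq ?_ (by fun_prop))
  exact continuous_P.comp (f := fun p : Icc (0:ℝ) (2 * Real.pi) × (ℝ × ℝ) =>
    (p.2.1, p.2.2, ε, (p.1 : ℝ))) (by fun_prop)

lemma cont_q (ε x : ℝ) : Continuous fun q : ℝ × ℝ => P q.1 q.2 ε x :=
  continuous_P.comp (f := fun q : ℝ × ℝ => (q.1, q.2, ε, x)) (by fun_prop)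

lemma mem_Ls_of {r : ℤ} {ε : ℝ} {q : ℝ × ℝ} {u v : ℝ} (h1 : u + 2 * Real.pi * r ≤ P q.1 q.2 ε u)
    (h2 : P q.1 q.2 ε v ≤ v + 2 * Real.pi * r) : q ∈ Ls r ε := by
  obtain ⟨w, hw⟩ := mem_range_of_exists_le_of_exists_ge
    (f := fun x => P q.1 q.2 ε x - x) (c := 2 * Real.pi * r)
    ((continuous_Px _ _ _).sub continuous_id) ⟨v, by linarith⟩ ⟨u, by linarith⟩
  exact ⟨w, by simp only at hw; linarith⟩

lemma mem_interior_Ls {r : ℤ} {ε : ℝ} {q : ℝ × ℝ} {u v : ℝ}
    (h1 : u + 2 * Real.pi * r < P q.1 q.2 ε u)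
    (h2 : P q.1 q.2 ε v < v + 2 * Real.pi * r) : q ∈ interior (Ls r ε) := by
  rw [mem_interior_iff_mem_nhds]
  filter_upwards [(cont_q ε u).continuousAt.eventually (lt_mem_nhds h1),
    (cont_q ε v).continuousAt.eventually (gt_mem_nhds h2)] with q' h3 h4
  exact mem_Ls_of h3.le h4.le

lemma not_mem_of_lt {r : ℤ} {ε b b' a : ℝ} (hb : b < b')
    (h : ∀ x, x + 2 * Real.pi * r ≤ P b a ε x) : (b', a) ∉ Ls r ε := by
  rintro ⟨x, hx⟩
  have := P_lt_of_b (a := a) (ε := ε) (x := x) hb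
  simp only at hx
  linarith [h x]

lemma not_mem_of_gt {r : ℤ} {ε b b' a : ℝ} (hb : b' < b)
    (h : ∀ x, P b a ε x ≤ x + 2 * Real.pi * r) : (b', a) ∉ Ls r ε := by
  rintro ⟨x, hx⟩
  have := P_lt_of_b (a := a) (ε := ε) (x := x) hb
  simp only at hx
  linarith [h x]

lemma P_reflect {b a ε x : ℝ} {m : ℤ} (h : P b a ε x = x + 2 * Real.pi * m) :
    P b a ε (Real.pi - x) = Real.pi - x + 2 * Real.pi * m := by
  have h1 := ((fl_sol b a ε x).reflect).eq_fl
  simp only [neg_zero, fl_zero] at h1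
  have h2 := congrFun h1 (2 * Real.pi)
  have h3 := fl_per h (-(2 * Real.pi))
  rw [neg_add_cancel, fl_zero] at h3
  rw [P, ← h2]
  linarith

/-- A boundary point whose slice is not a single point carries a symmetric periodic solution. -/
lemma sym_of_frontier {r : ℤ} {ε b a : ℝ} (hf : (b, a) ∈ frontier (Ls r ε))
    (hs : {q : ℝ × ℝ | q ∈ Ls r ε ∧ q.2 = a} ≠ {(b, a)}) :
    P b a ε (Real.pi / 2) = Real.pi / 2 + 2 * Real.pi * r ∨
    P b a ε (-(Real.pi / 2)) = -(Real.pi / 2) + 2 * Real.pi * r := by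
  have hmem : (b, a) ∈ Ls r ε := by
    have := (isClosed_Ls r ε).closure_eq ▸ hf.1
    exact this
  have hint : (b, a) ∉ interior (Ls r ε) := hf.2
  obtain ⟨x0, hx0⟩ := hmem
  have hrefl := P_reflect hx0
  by_cases hne : Real.sin (((Real.pi - x0) - x0) / 2) = 0
  · have h1 : Real.cos x0 = 0 := by
      rw [show ((Real.pi - x0) - x0) / 2 = Real.pi / 2 - x0 by ring, Real.sin_pi_div_two_sub] at hne
      exact hne
    rw [Real.cos_eq_zero_iff] at h1
    obtain ⟨k, hk⟩ := h1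
    rcases Int.even_or_odd k with ⟨j, hj⟩ | ⟨j, hj⟩
    · left
      have h2 := P_add b a ε (Real.pi / 2) j
      have h3 : Real.pi / 2 + 2 * Real.pi * j = x0 := by
        rw [hk, hj]; push_cast; ring
      rw [h3, hx0, ← h3] at h2
      linarith
    · right
      have h2 := P_add b a ε (-(Real.pi / 2)) (j + 1)
      have h3 : -(Real.pi / 2) + 2 * Real.pi * ((j + 1 : ℤ) : ℝ) = x0 := by
        rw [hk, hj]; push_cast; ring
      rw [h3, hx0, ← h3] at h2
      linarith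
  · exfalso
    rcases dich hx0 hrefl hne with ⟨h1, -⟩ | ⟨-, ⟨u, hu⟩, ⟨v, hv⟩⟩
    · apply hs
      ext ⟨b', a'⟩
      simp only [mem_ofPred_eq, mem_singleton_iff, Prod.mk.injEq]
      constructor
      · rintro ⟨h2, rfl⟩
        refine ⟨?_, rfl⟩
        by_contra hbb
        rcases lt_or_gt_of_ne hbb with h3 | h3
        · exact not_mem_of_gt h3 (fun x => (h1 x).le) h2
        · exact not_mem_of_lt h3 (fun x => (h1 x).ge) h2
      · rintro ⟨rfl, rfl⟩
        exact ⟨⟨x0, hx0⟩, rfl⟩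
    · exact hint (mem_interior_Ls (q := (b, a)) hu hv)

/-- A parabolic point. -/
lemma frontier_of_parabolic {r : ℤ} {ε b a x0 : ℝ} (hx0 : P b a ε x0 = x0 + 2 * Real.pi * r)
    (hK : Kx b a ε x0 = 0) (hne : ¬ ∀ x, P b a ε x = x + 2 * Real.pi * r) :
    (b, a) ∈ frontier (Ls r ε) ∧ {q : ℝ × ℝ | q ∈ Ls r ε ∧ q.2 = a} ≠ {(b, a)} := by
  have hpi := Real.pi_pos
  have hsign : (∀ x, x + 2 * Real.pi * r ≤ P b a ε x) ∨ (∀ x, P b a ε x ≤ x + 2 * Real.pi * r) := by
    by_contra hcon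
    push Not at hcon
    obtain ⟨⟨u, hu⟩, ⟨v, hv⟩⟩ := hcon
    obtain ⟨i, hi1, hi2⟩ := exists_shift x0 u
    obtain ⟨j, hj1, hj2⟩ := exists_shift x0 v
    set u' := u + 2 * Real.pi * i with hu'
    set v' := v + 2 * Real.pi * j with hv'
    have hu2 : P b a ε u' < u' + 2 * Real.pi * r := by rw [hu', P_add]; linarith
    have hv2 : v' + 2 * Real.pi * r < P b a ε v' := by rw [hv', P_add]; linarith
    have hu3 : x0 < u' := by
      rcases hi1.lt_or_eq with h | h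
      · exact h
      · rw [← h, hx0] at hu2; exact absurd hu2 (lt_irrefl _)
    have hv3 : x0 < v' := by
      rcases hj1.lt_or_eq with h | h
      · exact h
      · rw [← h, hx0] at hv2; exact absurd hv2 (lt_irrefl _)
    have hc : Continuous fun x => P b a ε x - x := (continuous_Px _ _ _).sub continuous_id
    obtain ⟨w, hw1, hw2⟩ : ∃ w ∈ uIcc u' v', P b a ε w - w = 2 * Real.pi * r := by
      have := intermediate_value_uIcc (a := u') (b := v') hc.continuousOn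
      have hmem : 2 * Real.pi * r ∈ uIcc (P b a ε u' - u') (P b a ε v' - v') := by
        rw [mem_uIcc]; left; constructor <;> linarith
      obtain ⟨w, hw1, hw2⟩ := this hmem
      exact ⟨w, hw1, hw2⟩
    have hw3 : x0 < w ∧ w < x0 + 2 * Real.pi := by
      rw [mem_uIcc] at hw1
      rcases hw1 with ⟨h1, h2⟩ | ⟨h1, h2⟩ <;> constructor <;> linarith
    have hw4 : P b a ε w = w + 2 * Real.pi * r := by linarith
    have hs : Real.sin ((w - x0) / 2) ≠ 0 :=
      (Real.sin_pos_of_pos_of_lt_pi (by linarith [hw3.1]) (by linarith [hw3.2])).ne'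
    rcases dich hx0 hw4 hs with ⟨h1, -⟩ | ⟨h1, -⟩
    · exact hne h1
    · exact h1 hK
  have hmem : (b, a) ∈ Ls r ε := ⟨x0, hx0⟩
  have hcb : ∀ x, Continuous fun b' => P b' a ε x := fun x =>
    continuous_P.comp (f := fun b' : ℝ => (b', a, ε, x)) (by fun_prop)
  push Not at hne
  obtain ⟨u, hu⟩ := hne
  rcases hsign with hs | hs
  · constructor
    · refine ⟨subset_closure hmem, fun hint => ?_⟩
      rw [mem_interior_iff_mem_nhds] at hint
      have hc : Continuous fun b' : ℝ => (b', a) := by fun_prop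
      have h1 : ∀ᶠ b' in 𝓝 b, (b', a) ∈ Ls r ε := hc.continuousAt.eventually hint
      have h2 : ∀ᶠ b' in 𝓝[>] b, (b', a) ∈ Ls r ε := h1.filter_mono nhdsWithin_le_nhds
      obtain ⟨b', h3, h4⟩ := (h2.and self_mem_nhdsWithin).exists
      exact not_mem_of_lt h4 hs h3
    · intro heq
      have hu' : u + 2 * Real.pi * r < P b a ε u := lt_of_le_of_ne (hs u) (Ne.symm hu)
      have h1 : ∀ᶠ b' in 𝓝 b, u + 2 * Real.pi * r < P b' a ε u :=
        (hcb u).continuousAt.eventually (lt_mem_nhds hu')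
      have h2 : ∀ᶠ b' in 𝓝[<] b, u + 2 * Real.pi * r < P b' a ε u := h1.filter_mono nhdsWithin_le_nhds
      obtain ⟨b', h3, h4⟩ := (h2.and self_mem_nhdsWithin).exists
      have h5 : P b' a ε x0 < x0 + 2 * Real.pi * r := hx0 ▸ P_lt_of_b h4
      have h6 : (b', a) ∈ Ls r ε := mem_Ls_of (q := (b', a)) h3.le h5.le
      have h7 : (b', a) ∈ {q : ℝ × ℝ | q ∈ Ls r ε ∧ q.2 = a} := ⟨h6, rfl⟩
      rw [heq, mem_singleton_iff, Prod.mk.injEq] at h7
      exact absurd h7.1 (ne_of_lt h4)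
  · constructor
    · refine ⟨subset_closure hmem, fun hint => ?_⟩
      rw [mem_interior_iff_mem_nhds] at hint
      have hc : Continuous fun b' : ℝ => (b', a) := by fun_prop
      have h1 : ∀ᶠ b' in 𝓝 b, (b', a) ∈ Ls r ε := hc.continuousAt.eventually hint
      have h2 : ∀ᶠ b' in 𝓝[<] b, (b', a) ∈ Ls r ε := h1.filter_mono nhdsWithin_le_nhds
      obtain ⟨b', h3, h4⟩ := (h2.and self_mem_nhdsWithin).exists
      exact not_mem_of_gt h4 hs h3
    · intro heq
      have hu' : P b a ε u < u + 2 * Real.pi * r := lt_of_le_of_ne (hs u) hu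
      have h1 : ∀ᶠ b' in 𝓝 b, P b' a ε u < u + 2 * Real.pi * r :=
        (hcb u).continuousAt.eventually (gt_mem_nhds hu')
      have h2 : ∀ᶠ b' in 𝓝[>] b, P b' a ε u < u + 2 * Real.pi * r := h1.filter_mono nhdsWithin_le_nhds
      obtain ⟨b', h3, h4⟩ := (h2.and self_mem_nhdsWithin).exists
      have h5 : x0 + 2 * Real.pi * r < P b' a ε x0 := hx0 ▸ P_lt_of_b h4
      have h6 : (b', a) ∈ Ls r ε := mem_Ls_of (q := (b', a)) h5.le h3.le
      have h7 : (b', a) ∈ {q : ℝ × ℝ | q ∈ Ls r ε ∧ q.2 = a} := ⟨h6, rfl⟩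
      rw [heq, mem_singleton_iff, Prod.mk.injEq] at h7
      exact absurd h7.1 (ne_of_gt h4)

end H535R3
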