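import Pool.Agent.H535R3.JC

set_option autoImplicit false
open Set Filter Topology Complex ComplexConjugate

namespace H535R3

/-- Right-hand side of the real-linear equation. -/
noncomputable def lv (n : ℕ) (μ ε : ℝ) (t : ℝ) (Z : ℂ) : ℂ :=
  I * n * Z + I * μ * exp (-(I * t)) * Z - I * (ε / 2 : ℝ) * exp (I * ((n : ℂ) - 1) * t) * conj Z

/-- Linear equation. -/
def LSol (n : ℕ) (μ ε : ℝ) (H : ℝ → ℂ) : Prop := ∀ t, HasDerivAt H (lv n μ ε t (H t)) t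

lemma norm_e1 (t : ℝ) : ‖exp (-(I * t))‖ = 1 := by
  rw [show -(I * (t:ℂ)) = ((-t : ℝ) : ℂ) * I by push_cast; ring]
  exact norm_exp_ofReal_mul_I _

lemma norm_e2 (n : ℕ) (t : ℝ) : ‖exp (I * ((n : ℂ) - 1) * t)‖ = 1 := by
  rw [show I * ((n : ℂ) - 1) * (t:ℂ) = ((((n:ℝ) - 1) * t : ℝ) : ℂ) * I by push_cast; ring]
  exact norm_exp_ofReal_mul_I _

lemma lv_sub (n : ℕ) (μ ε t : ℝ) (Z W : ℂ) : lv n μ ε t Z - lv n μ ε t W = lv n μ ε t (Z - W) := by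
  simp only [lv, map_sub]; ring

lemma lv_smul (n : ℕ) (μ ε t : ℝ) (Z : ℂ) (κ : ℝ) : lv n μ ε t (κ * Z) = κ * lv n μ ε t Z := by
  simp only [lv, map_mul, conj_ofReal]; ring

lemma lv_norm (n : ℕ) (μ ε t : ℝ) (Z : ℂ) : ‖lv n μ ε t Z‖ ≤ (n + |μ| + |ε / 2|) * ‖Z‖ := by
  unfold lv
  have h1 : ‖I * n * Z‖ = n * ‖Z‖ := by simp
  have h2 : ‖I * μ * exp (-(I * t)) * Z‖ = |μ| * ‖Z‖ := by
    rw [norm_mul, norm_mul, norm_e1, norm_mul]; simp
  have h3 : ‖I * (ε / 2 : ℝ) * exp (I * ((n : ℂ) - 1) * t) * conj Z‖ = |ε / 2| * ‖Z‖ := by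
    rw [norm_mul, norm_mul, norm_e2, norm_mul, Complex.norm_real, norm_I, Complex.norm_conj]
    simp [abs_div]
  calc _ ≤ ‖I * n * Z + I * μ * exp (-(I * t)) * Z‖ +
        ‖I * (ε / 2 : ℝ) * exp (I * ((n : ℂ) - 1) * t) * conj Z‖ := norm_sub_le _ _
    _ ≤ ‖I * n * Z‖ + ‖I * μ * exp (-(I * t)) * Z‖ +
        ‖I * (ε / 2 : ℝ) * exp (I * ((n : ℂ) - 1) * t) * conj Z‖ := by
          gcongr; exact norm_add_le _ _
    _ = _ := by rw [h1, h2, h3]; ring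

/-- Lipschitz constant. -/
noncomputable def KL (n : ℕ) (μ ε : ℝ) : NNReal := ⟨n + |μ| + |ε / 2|, by positivity⟩

lemma LSol.unique {n : ℕ} {μ ε : ℝ} {G H : ℝ → ℂ} (h1 : LSol n μ ε G) (h2 : LSol n μ ε H) {t0 : ℝ}
    (h : G t0 = H t0) : G = H :=
  ODE_solution_unique_univ (v := lv n μ ε) (s := fun _ => univ) (K := KL n μ ε)
    (fun t => (LipschitzWith.of_dist_le_mul fun Z W => by
      rw [dist_eq_norm, dist_eq_norm, lv_sub]; exact lv_norm n μ ε t _).lipschitzOnWith)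
    (fun t => ⟨h1 t, trivial⟩) (fun t => ⟨h2 t, trivial⟩) h

lemma LSol.smul {n : ℕ} {μ ε : ℝ} {G : ℝ → ℂ} (h1 : LSol n μ ε G) (κ : ℝ) :
    LSol n μ ε (fun t => κ * G t) := by
  intro t
  rw [lv_smul]
  exact (h1 t).const_mul _

/-- exponent of `G`. -/
noncomputable def gg (n : ℕ) (μ ε : ℝ) (φ : ℝ → ℝ) (t : ℝ) : ℂ :=
  ((ε / 2 * Cc φ t - μ * Real.cos t : ℝ) : ℂ) +
    I * (((φ t - Real.pi / 2 - (1 - n) * t) / 2 : ℝ) : ℂ)

/-- `G`. -/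
noncomputable def GG (n : ℕ) (μ ε : ℝ) (φ : ℝ → ℝ) (t : ℝ) : ℂ := exp (gg n μ ε φ t)

lemma GG_sol {n : ℕ} {μ ε : ℝ} {φ : ℝ → ℝ} (h : Sol (n + 1) (2 * μ) ε φ) :
    LSol n μ ε (GG n μ ε φ) := by
  intro t
  have h1 : HasDerivAt (fun t => ε / 2 * Cc φ t - μ * Real.cos t)
      (ε / 2 * Real.cos (φ t) - μ * (-Real.sin t)) t :=
    ((Cc_deriv h.cont t).const_mul _).sub ((Real.hasDerivAt_cos t).const_mul μ)
  have h2 : HasDerivAt (fun t => (φ t - Real.pi / 2 - (1 - (n:ℝ)) * t) / 2)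
      (((n + 1 + 2 * μ * Real.cos t - ε * Real.sin (φ t)) - (1 - (n:ℝ)) * 1) / 2) t :=
    (((h t).sub_const (Real.pi / 2)).sub ((hasDerivAt_id t).const_mul (1 - (n:ℝ)))).div_const 2
  have h3 : HasDerivAt (gg n μ ε φ) (((ε / 2 * Real.cos (φ t) - μ * (-Real.sin t) : ℝ) : ℂ) +
      I * ((((n + 1 + 2 * μ * Real.cos t - ε * Real.sin (φ t)) - (1 - (n:ℝ)) * 1) / 2 : ℝ) : ℂ)) t :=
    h1.ofReal_comp.add (h2.ofReal_comp.const_mul I)
  refine h3.cexp.congr_deriv ?_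
  have e0 : exp (gg n μ ε φ t) = GG n μ ε φ t := rfl
  rw [e0]
  have e1 : exp (-(I * t)) = Real.cos t - I * Real.sin t := by
    rw [show -(I * (t:ℂ)) = ((-t : ℝ) : ℂ) * I by push_cast; ring, exp_mul_I]
    push_cast
    rw [Complex.cos_neg, Complex.sin_neg]; ring
  have e2 : exp (I * ((n : ℂ) - 1) * t) * conj (GG n μ ε φ t) =
      I * (Real.cos (φ t) - I * Real.sin (φ t)) * GG n μ ε φ t := by
    have e3 : (Real.cos (φ t) - I * Real.sin (φ t) : ℂ) = exp (-(I * (φ t : ℝ))) := by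
      rw [show -(I * ((φ t : ℝ):ℂ)) = ((-(φ t) : ℝ) : ℂ) * I by push_cast; ring, exp_mul_I]
      push_cast
      rw [Complex.cos_neg, Complex.sin_neg]; ring
    have e4 : (I : ℂ) = exp (I * (Real.pi / 2 : ℝ)) := by
      rw [mul_comm, exp_mul_I]
      push_cast
      rw [Complex.cos_pi_div_two, Complex.sin_pi_div_two]; ring
    rw [e3]
    nth_rewrite 2 [e4]
    rw [GG, ← exp_conj, ← exp_add, ← exp_add, ← exp_add]
    congr 1
    simp only [gg, map_add, map_mul, conj_ofReal, conj_I]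
    push_cast
    ring
  have e5 : lv n μ ε t (GG n μ ε φ t) = I * n * GG n μ ε φ t + I * μ * exp (-(I * t)) * GG n μ ε φ t
      - I * (ε / 2 : ℝ) * (exp (I * ((n : ℂ) - 1) * t) * conj (GG n μ ε φ t)) := by
    unfold lv; ring
  rw [e5, e2, e1]
  push_cast
  have hI : I * I = -1 := I_mul_I
  linear_combination ((GG n μ ε φ t) * μ * Complex.sin t + GG n μ ε φ t * (ε / 2) *
    Complex.cos (φ t) - GG n μ ε φ t * (ε / 2) * I * Complex.sin (φ t)) * hI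

lemma GG_zero {n : ℕ} {μ ε : ℝ} {φ : ℝ → ℝ} (h : φ 0 = Real.pi / 2) :
    GG n μ ε φ 0 = (Real.exp (-μ) : ℝ) := by
  rw [GG, gg, h, Cc_zero]
  simp

/-- From a periodic solution of the linear equation to the nonlinear one. -/
lemma of_LSol {n : ℕ} {μ ε κ0 : ℝ} {H : ℝ → ℂ} (h : LSol n μ ε H) (h0 : H 0 = (κ0 : ℂ))
    (hper : H (2 * Real.pi) = H 0) {t1 : ℝ} (hne : H t1 ≠ 0) :
    (∃ κ : ℝ, κ ≠ 0 ∧ ∀ t, H t = κ * GG n μ ε (fl (n + 1) (2 * μ) ε (Real.pi / 2)) t) ∧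
    Kx (n + 1) (2 * μ) ε (Real.pi / 2) = 0 ∧
    ∃ m : ℤ, P (n + 1) (2 * μ) ε (Real.pi / 2) = Real.pi / 2 + 2 * Real.pi * (1 - n + 2 * m) := by
  set φ := fl (n + 1) (2 * μ) ε (Real.pi / 2) with hφ
  have hG := GG_sol (fl_sol (n + 1) (2 * μ) ε (Real.pi / 2))
  rw [← hφ] at hG
  have hG0 : GG n μ ε φ 0 = (Real.exp (-μ) : ℝ) := GG_zero (by rw [hφ, fl_zero])
  have heq : H = fun t => ((κ0 * Real.exp μ : ℝ) : ℂ) * GG n μ ε φ t := by
    refine h.unique (hG.smul _) (t0 := 0) ?_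
    rw [h0, hG0, ← ofReal_mul, mul_assoc, ← Real.exp_add]
    simp
  have hκ : κ0 * Real.exp μ ≠ 0 := by
    intro hz
    apply hne
    rw [heq]
    simp only [hz, ofReal_zero, zero_mul]
  refine ⟨⟨_, hκ, fun t => congrFun heq t⟩, ?_⟩
  have h2 : GG n μ ε φ (2 * Real.pi) = GG n μ ε φ 0 := by
    rw [heq] at hper
    exact mul_left_cancel₀ (ofReal_ne_zero.2 hκ) hper
  rw [GG, GG, exp_eq_exp_iff_exists_int] at h2
  obtain ⟨m, hm⟩ := h2
  have hre := congrArg Complex.re hm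
  have him := congrArg Complex.im hm
  have hφ0 : φ 0 = Real.pi / 2 := by rw [hφ, fl_zero]
  simp only [gg, hφ0, Cc_zero, add_re, mul_re, mul_im, I_re, I_im, ofReal_re, ofReal_im, intCast_re,
    intCast_im, Real.cos_two_pi, Real.cos_zero, re_ofNat, im_ofNat] at hre
  simp only [gg, hφ0, Cc_zero, add_im, mul_im, mul_re, I_re, I_im, ofReal_re, ofReal_im, intCast_re,
    intCast_im, re_ofNat, im_ofNat] at him
  constructor
  · rw [Kx, ← hφ]; linarith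
  · refine ⟨m, ?_⟩
    rw [P, ← hφ]
    linarith

end H535R3
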