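import Pool.Agent.H535R3.JD

set_option autoImplicit false
open Set Filter Topology Complex ComplexConjugate

namespace H535R3

lemma exp_per (k : ℤ) (t : ℝ) : exp (-(I * k * ((t + 2 * Real.pi : ℝ) : ℂ))) = exp (-(I * k * t)) := by
  rw [exp_eq_exp_iff_exists_int]
  exact ⟨-k, by push_cast; ring⟩

/-- Fourier coefficient. -/
noncomputable def cf (G : ℝ → ℂ) (k : ℤ) : ℂ :=
  ((1 / (2 * Real.pi) : ℝ) : ℂ) * ∫ t in (-Real.pi)..Real.pi, G t * exp (-(I * k * t))

lemma cf_conj {G : ℝ → ℂ} (hsym : ∀ t, G (-t) = conj (G t)) (k : ℤ) : conj (cf G k) = cf G k := by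
  unfold cf
  rw [map_mul, conj_ofReal, ← intervalIntegral.intervalIntegral_conj]
  congr 1
  have h1 : ∀ t : ℝ, conj (G t * exp (-(I * k * t))) = (fun s : ℝ => G s * exp (-(I * k * s))) (-t) := by
    intro t
    simp only
    rw [map_mul, hsym, ← exp_conj]
    congr 2
    simp only [map_neg, map_mul, conj_I, conj_ofReal, map_intCast]
    push_cast; ring
  simp_rw [h1]
  rw [intervalIntegral.integral_comp_neg (fun s : ℝ => G s * exp (-(I * k * s))), neg_neg]

lemma cf_rec {n : ℕ} {μ ε : ℝ} {G : ℝ → ℂ} (hG : LSol n μ ε G)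
    (hper : ∀ t, G (t + 2 * Real.pi) = G t) (hsym : ∀ t, G (-t) = conj (G t)) (k : ℤ) :
    μ * cf G (k + 1) + ((n : ℂ) - k) * cf G k = ((ε / 2 : ℝ) : ℂ) * cf G (n - 1 - k) := by
  have hcont : Continuous G := continuous_iff_continuousAt.2 fun t => (hG t).continuousAt
  have hd : ∀ t : ℝ, HasDerivAt (fun t : ℝ => G t * exp (-(I * k * t)))
      (lv n μ ε t (G t) * exp (-(I * k * t)) + G t * (exp (-(I * k * t)) * (-(I * k)))) t := by
    intro t
    have h1 : HasDerivAt (fun t : ℝ => exp (-(I * k * (t : ℂ)))) (exp (-(I * k * t)) * (-(I * k))) t := by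
      have h2 : HasDerivAt (fun t : ℝ => -(I * k * (t : ℂ))) (-(I * k * 1)) t :=
        ((ofRealCLM.hasDerivAt (x := t)).const_mul (I * k)).neg
      rw [mul_one] at h2
      exact h2.cexp
    exact (hG t).mul h1
  have hlc : Continuous fun t : ℝ => lv n μ ε t (G t) := by unfold lv; fun_prop
  have hint := intervalIntegral.integral_eq_sub_of_hasDerivAt (a := -Real.pi) (b := Real.pi)
    (fun t _ => hd t) (Continuous.intervalIntegrable (by fun_prop) _ _)
  have hbd : G Real.pi * exp (-(I * k * (Real.pi : ℝ))) =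
      G (-Real.pi) * exp (-(I * k * ((-Real.pi : ℝ) : ℂ))) := by
    have h1 := hper (-Real.pi)
    have h2 := exp_per k (-Real.pi)
    rw [show -Real.pi + 2 * Real.pi = Real.pi by ring] at h1 h2
    rw [h1, h2]
  rw [hbd, sub_self] at hint
  have hint2 : ∫ t in (-Real.pi)..Real.pi, ((I * ((n : ℂ) - k)) * (G t * exp (-(I * k * t))) +
      (I * μ) * (G t * exp (-(I * ((k + 1 : ℤ) : ℂ) * t))) - (I * (ε / 2 : ℝ)) *
        ((fun s : ℝ => G s * exp (-(I * ((n - 1 - k : ℤ) : ℂ) * s))) (-t))) = 0 := by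
    rw [← hint]
    congr 1
    funext t
    simp only [lv, hsym]
    have e1 : exp (-(I * ((k + 1 : ℤ) : ℂ) * t)) = exp (-(I * t)) * exp (-(I * k * t)) := by
      rw [← exp_add]; congr 1; push_cast; ring
    have e2 : exp (-(I * ((n - 1 - k : ℤ) : ℂ) * ((-t : ℝ) : ℂ))) =
        exp (I * ((n : ℂ) - 1) * t) * exp (-(I * k * t)) := by
      rw [← exp_add]; congr 1; push_cast; ring
    rw [e1, e2]
    ring
  rw [intervalIntegral.integral_sub, intervalIntegral.integral_add,
    intervalIntegral.integral_const_mul, intervalIntegral.integral_const_mul,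
    intervalIntegral.integral_const_mul,
    intervalIntegral.integral_comp_neg (fun s : ℝ => G s * exp (-(I * ((n - 1 - k : ℤ) : ℂ) * s))),
    neg_neg] at hint2
  rotate_left
  · exact Continuous.intervalIntegrable (by fun_prop) _ _
  · exact Continuous.intervalIntegrable (by fun_prop) _ _
  · exact Continuous.intervalIntegrable (by fun_prop) _ _
  · exact Continuous.intervalIntegrable (by fun_prop) _ _
  unfold cf
  have hI : (I : ℂ) ≠ 0 := I_ne_zero
  have h3 : I * ((μ : ℂ) * (∫ t in (-Real.pi)..Real.pi, G t * exp (-(I * ((k + 1 : ℤ) : ℂ) * t))) +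
    ((n : ℂ) - k) * (∫ t in (-Real.pi)..Real.pi, G t * exp (-(I * k * t))) -
    ((ε / 2 : ℝ) : ℂ) * (∫ t in (-Real.pi)..Real.pi, G t * exp (-(I * ((n - 1 - k : ℤ) : ℂ) * t)))) = 0 := by
    linear_combination hint2
  have h4 := (mul_eq_zero.1 h3).resolve_left hI
  linear_combination ((1 / (2 * Real.pi) : ℝ) : ℂ) * h4

lemma cf_bound {G : ℝ → ℂ} {C : ℝ} (hC : ∀ t, ‖G t‖ ≤ C) (k : ℤ) : ‖cf G k‖ ≤ C := by
  unfold cf
  have hpi := Real.pi_pos
  have h1 : ‖∫ t in (-Real.pi)..Real.pi, G t * exp (-(I * k * t))‖ ≤ C * |Real.pi - (-Real.pi)| := by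
    refine intervalIntegral.norm_integral_le_of_norm_le_const fun t _ => ?_
    rw [norm_mul]
    have : ‖exp (-(I * k * (t : ℂ)))‖ = 1 := by
      rw [show -(I * k * (t:ℂ)) = ((-(k * t) : ℝ) : ℂ) * I by push_cast; ring]
      exact norm_exp_ofReal_mul_I _
    rw [this, mul_one]
    exact hC t
  rw [norm_mul, Complex.norm_real, Real.norm_of_nonneg (by positivity)]
  rw [show Real.pi - -Real.pi = 2 * Real.pi by ring, abs_of_pos Real.two_pi_pos] at h1
  calc 1 / (2 * Real.pi) * _ ≤ 1 / (2 * Real.pi) * (C * (2 * Real.pi)) := by gcongr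
    _ = C := by field_simp

instance fact2pi : Fact (0 < 2 * Real.pi) := ⟨Real.two_pi_pos⟩

lemma cf_expand {G : ℝ → ℂ} (hcont : Continuous G) (hper : ∀ t, G (t + 2 * Real.pi) = G t)
    (hs : Summable (cf G)) (t : ℝ) : HasSum (fun k : ℤ => cf G k * exp (I * k * t)) (G t) := by
  have hper' : Function.Periodic G (2 * Real.pi) := hper
  let f : C(AddCircle (2 * Real.pi), ℂ) := ⟨hper'.lift, continuous_coinduced_dom.2 hcont⟩
  have hf : ∀ x : ℝ, f (x : AddCircle (2 * Real.pi)) = G x := fun x => hper'.lift_coe x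
  have hcoef : ∀ k, fourierCoeff f k = cf G k := by
    intro k
    rw [fourierCoeff_eq_intervalIntegral f k (-Real.pi), cf, real_smul]
    congr 1
    rw [show -Real.pi + 2 * Real.pi = Real.pi by ring]
    congr 1
    funext x
    rw [hf, fourier_coe_apply, smul_eq_mul, mul_comm]
    congr 2
    have : (Real.pi : ℂ) ≠ 0 := by exact_mod_cast Real.pi_ne_zero
    push_cast
    field_simp
  have hs' : Summable (fourierCoeff f) := by
    rw [show fourierCoeff f = cf G from funext hcoef]; exact hs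
  have h := has_pointwise_sum_fourier_series_of_summable hs' (t : AddCircle (2 * Real.pi))
  rw [hf] at h
  convert h using 2 with k
  rw [hcoef, fourier_coe_apply, smul_eq_mul]
  congr 2
  have : (Real.pi : ℂ) ≠ 0 := by exact_mod_cast Real.pi_ne_zero
  push_cast
  field_simp

/-- Real recursion. -/
def RRec (n : ℕ) (μ e : ℝ) (c : ℤ → ℝ) : Prop :=
  ∀ k : ℤ, μ * c (k + 1) + ((n : ℝ) - k) * c k = e * c (n - 1 - k)

lemma sym_sol {b a ε : ℝ} (t : ℝ) :
    fl b a ε (Real.pi / 2) (-t) = Real.pi - fl b a ε (Real.pi / 2) t := by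
  have h := (fl_sol b a ε (Real.pi / 2)).reflect.eq_fl
  simp only [neg_zero, fl_zero] at h
  rw [show Real.pi - Real.pi / 2 = Real.pi / 2 by ring] at h
  have := congrFun h t
  linarith

lemma Cc_even {b a ε : ℝ} (t : ℝ) :
    Cc (fl b a ε (Real.pi / 2)) (-t) = Cc (fl b a ε (Real.pi / 2)) t := by
  set φ := fl b a ε (Real.pi / 2)
  have hφ : Continuous φ := (fl_sol b a ε (Real.pi / 2)).cont
  have hd : ∀ t, HasDerivAt (fun t => Cc φ (-t) - Cc φ t) 0 t := by
    intro t
    have h1 := ((Cc_deriv hφ (-t)).scomp t (hasDerivAt_neg t)).sub (Cc_deriv hφ t)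
    refine h1.congr_deriv ?_
    have : Real.cos (φ (-t)) = - Real.cos (φ t) := by
      rw [show φ (-t) = Real.pi - φ t from sym_sol t, Real.cos_pi_sub]
    rw [this]; simp
  have := is_const_of_deriv_eq_zero (fun t => (hd t).differentiableAt) (fun t => (hd t).deriv) t 0
  simp [Cc_zero] at this
  linarith

lemma Cc_per {b a ε : ℝ} {m : ℤ} (h : P b a ε (Real.pi / 2) = Real.pi / 2 + 2 * Real.pi * m) :
    Cc (fl b a ε (Real.pi / 2)) (2 * Real.pi) = 0 ∧
    ∀ t, Cc (fl b a ε (Real.pi / 2)) (t + 2 * Real.pi) = Cc (fl b a ε (Real.pi / 2)) t := by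
  set φ := fl b a ε (Real.pi / 2) with hφd
  have hφ : Continuous φ := (fl_sol b a ε (Real.pi / 2)).cont
  have hd : ∀ t, HasDerivAt (fun t => Cc φ (t + 2 * Real.pi) - Cc φ t) 0 t := by
    intro t
    have h1 := ((Cc_deriv hφ (t + 2 * Real.pi)).comp_add_const t (2 * Real.pi)).sub (Cc_deriv hφ t)
    refine h1.congr_deriv ?_
    have : Real.cos (φ (t + 2 * Real.pi)) = Real.cos (φ t) := by
      rw [hφd, fl_per h, mul_comm (2 * Real.pi), Real.cos_add_int_mul_two_pi]
    rw [this]; simp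
  have hc : ∀ t, Cc φ (t + 2 * Real.pi) - Cc φ t = Cc φ (2 * Real.pi) := by
    intro t
    have := is_const_of_deriv_eq_zero (fun t => (hd t).differentiableAt) (fun t => (hd t).deriv) t 0
    simp [Cc_zero] at this
    linarith
  have h0 : Cc φ (2 * Real.pi) = 0 := by
    have h1 := hc (-Real.pi)
    rw [show -Real.pi + 2 * Real.pi = Real.pi by ring, Cc_even, sub_self] at h1
    exact h1.symm
  exact ⟨h0, fun t => by linarith [hc t]⟩

lemma Kx_sym {b a ε : ℝ} {m : ℤ} (h : P b a ε (Real.pi / 2) = Real.pi / 2 + 2 * Real.pi * m) :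
    Kx b a ε (Real.pi / 2) = 0 := by
  rw [Kx, (Cc_per h).1, mul_zero]

/-- Fourier data of a symmetric periodic solution. -/
lemma fourier_data {n : ℕ} {μ ε : ℝ}
    (h : P (n + 1) (2 * μ) ε (Real.pi / 2) = Real.pi / 2 + 2 * Real.pi * ((n + 1 : ℤ) : ℝ)) :
    ∃ c : ℤ → ℝ, RRec n μ (ε / 2) c ∧ (∃ C, ∀ k, |c k| ≤ C) ∧
      (Summable c → ∀ t : ℝ, HasSum (fun k : ℤ => (c k : ℂ) * exp (I * k * t))
        (GG n μ ε (fl (n + 1) (2 * μ) ε (Real.pi / 2)) t)) := by
  set φ := fl (n + 1) (2 * μ) ε (Real.pi / 2) with hφ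
  set G := GG n μ ε φ with hG
  have hsol : LSol n μ ε G := GG_sol (fl_sol (n + 1) (2 * μ) ε (Real.pi / 2))
  have hcont : Continuous G := continuous_iff_continuousAt.2 fun t => (hsol t).continuousAt
  have hper : ∀ t, G (t + 2 * Real.pi) = G t := by
    intro t
    rw [hG, GG, GG, exp_eq_exp_iff_exists_int]
    refine ⟨n, ?_⟩
    rw [gg, gg, hφ, (Cc_per h).2, fl_per h, Real.cos_add_two_pi]
    push_cast
    ring
  have hsym : ∀ t, G (-t) = conj (G t) := by
    intro t
    rw [hG, GG, GG, ← exp_conj]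
    congr 1
    rw [gg, gg, hφ, Cc_even, sym_sol, Real.cos_neg]
    simp only [map_add, map_mul, conj_ofReal, conj_I]
    push_cast
    ring
  have hreal : ∀ k, ((cf G k).re : ℂ) = cf G k := fun k => conj_eq_iff_re.1 (cf_conj hsym k)
  have hper' : Function.Periodic G (2 * Real.pi) := hper
  obtain ⟨C, hC⟩ := (hper'.isBounded_of_continuous Real.two_pi_pos.ne' hcont).exists_norm_le
  refine ⟨fun k => (cf G k).re, ?_, ⟨C, fun k => ?_⟩, ?_⟩
  · intro k
    have h1 := cf_rec hsol hper hsym k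
    rw [← hreal, ← hreal k, ← hreal (n - 1 - k)] at h1
    exact_mod_cast h1
  · exact (abs_re_le_norm _).trans (cf_bound (fun t => hC _ (mem_range_self t)) k)
  · intro hs t
    have hs2 : Summable (cf G) := by
      have : (cf G) = fun k => (((cf G k).re : ℝ) : ℂ) := funext fun k => (hreal k).symm
      rw [this]
      exact_mod_cast hs
    have := cf_expand hcont hper hs2 t
    simp_rw [hreal]
    exact this

end H535R3
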