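import Pool.Agent.H535R3.JE

set_option autoImplicit false
open Set Filter Topology Complex ComplexConjugate

namespace H535R3

/-- One step of decay. -/
lemma decay_step {n : ℕ} {μ e : ℝ} {c : ℤ → ℝ} (h : RRec n μ e c) {j : ℕ} {C : ℝ} (hC0 : 0 ≤ C)
    (hC : ∀ k : ℤ, |c k| * (1 + |(k:ℝ)|) ^ j ≤ C) :
    ∃ D, 0 ≤ D ∧ ∀ k : ℤ, |c k| * (1 + |(k:ℝ)|) ^ (j + 1) ≤ D := by
  set N : ℝ := n + 2 with hN
  have hN0 : 0 < N := by positivity
  refine ⟨N * (|e| * (N ^ j * C) + |μ| * (2 ^ j * C)) + |c n| * (1 + |(n:ℝ)|) ^ (j + 1), by positivity, ?_⟩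
  intro k
  by_cases hk : k = n
  · subst hk
    have : 0 ≤ N * (|e| * (N ^ j * C) + |μ| * (2 ^ j * C)) := by positivity
    push_cast
    linarith
  have h1 := h k
  have h2 : ((n:ℝ) - k) * c k = e * c (n - 1 - k) - μ * c (k + 1) := by linarith
  have h3 : |(n:ℝ) - k| * |c k| ≤ |e| * |c (n - 1 - k)| + |μ| * |c (k + 1)| := by
    rw [← abs_mul, h2, ← abs_mul, ← abs_mul]
    exact abs_sub _ _
  have hnk : (1:ℝ) ≤ |(n:ℝ) - k| := by
    have : (1:ℤ) ≤ |(n:ℤ) - k| := Int.one_le_abs (sub_ne_zero.2 (Ne.symm hk))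
    exact_mod_cast this
  have hn0 : (0:ℝ) ≤ n := n.cast_nonneg
  have h4 : 1 + |(k:ℝ)| ≤ N * |(n:ℝ) - k| := by
    have h5 : |(k:ℝ)| ≤ |(n:ℝ) - k| + n := by
      have := abs_sub_abs_le_abs_sub (k:ℝ) n
      rw [abs_sub_comm, abs_of_nonneg hn0] at this
      linarith
    rw [hN]
    nlinarith
  have h6 : 1 + |(k:ℝ)| ≤ N * (1 + |((n - 1 - k : ℤ):ℝ)|) := by
    have h5 : |(k:ℝ)| ≤ |((n - 1 - k : ℤ):ℝ)| + (n + 1) := by
      have h7 : (k:ℝ) = ((n:ℝ) - 1) - ((n - 1 - k : ℤ):ℝ) := by push_cast; ring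
      calc |(k:ℝ)| = |((n:ℝ) - 1) - ((n - 1 - k : ℤ):ℝ)| := by rw [← h7]
        _ ≤ |(n:ℝ) - 1| + |((n - 1 - k : ℤ):ℝ)| := abs_sub _ _
        _ ≤ _ := by
          have : |(n:ℝ) - 1| ≤ n + 1 := by rw [abs_le]; constructor <;> linarith
          linarith
    have := abs_nonneg ((n - 1 - k : ℤ):ℝ)
    rw [hN]
    nlinarith
  have h7 : 1 + |(k:ℝ)| ≤ 2 * (1 + |((k + 1 : ℤ):ℝ)|) := by
    have h8 : |(k:ℝ)| ≤ |((k + 1 : ℤ):ℝ)| + 1 := by
      have h9 : (k:ℝ) = ((k + 1 : ℤ):ℝ) - 1 := by push_cast; ring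
      calc |(k:ℝ)| = |((k + 1 : ℤ):ℝ) - 1| := by rw [← h9]
        _ ≤ |((k + 1 : ℤ):ℝ)| + |(1:ℝ)| := abs_sub _ _
        _ = _ := by rw [abs_one]
    have := abs_nonneg ((k + 1 : ℤ):ℝ)
    linarith
  have hp : 0 ≤ 1 + |(k:ℝ)| := by positivity
  have h8 : |c (n - 1 - k)| * (1 + |(k:ℝ)|) ^ j ≤ N ^ j * C := by
    calc |c (n - 1 - k)| * (1 + |(k:ℝ)|) ^ j ≤ |c (n - 1 - k)| * (N * (1 + |((n - 1 - k : ℤ):ℝ)|)) ^ j := by
          gcongr
      _ = N ^ j * (|c (n - 1 - k)| * (1 + |((n - 1 - k : ℤ):ℝ)|) ^ j) := by rw [mul_pow]; ring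
      _ ≤ N ^ j * C := by gcongr; exact hC _
  have h9 : |c (k + 1)| * (1 + |(k:ℝ)|) ^ j ≤ 2 ^ j * C := by
    calc |c (k + 1)| * (1 + |(k:ℝ)|) ^ j ≤ |c (k + 1)| * (2 * (1 + |((k + 1 : ℤ):ℝ)|)) ^ j := by
          gcongr
      _ = 2 ^ j * (|c (k + 1)| * (1 + |((k + 1 : ℤ):ℝ)|) ^ j) := by rw [mul_pow]; ring
      _ ≤ 2 ^ j * C := by gcongr; exact hC _
  have h10 : |c k| * (1 + |(k:ℝ)|) ^ (j + 1) ≤ N * (|e| * (N ^ j * C) + |μ| * (2 ^ j * C)) := by
    calc |c k| * (1 + |(k:ℝ)|) ^ (j + 1) = (1 + |(k:ℝ)|) * (|c k| * (1 + |(k:ℝ)|) ^ j) := by ring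
      _ ≤ (N * |(n:ℝ) - k|) * (|c k| * (1 + |(k:ℝ)|) ^ j) := by gcongr
      _ = N * ((|(n:ℝ) - k| * |c k|) * (1 + |(k:ℝ)|) ^ j) := by ring
      _ ≤ N * ((|e| * |c (n - 1 - k)| + |μ| * |c (k + 1)|) * (1 + |(k:ℝ)|) ^ j) := by gcongr
      _ = N * (|e| * (|c (n - 1 - k)| * (1 + |(k:ℝ)|) ^ j) + |μ| * (|c (k + 1)| * (1 + |(k:ℝ)|) ^ j)) := by ring
      _ ≤ N * (|e| * (N ^ j * C) + |μ| * (2 ^ j * C)) := by gcongr
  have : 0 ≤ |c n| * (1 + |(n:ℝ)|) ^ (j + 1) := by positivity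
  linarith

lemma decay {n : ℕ} {μ e : ℝ} {c : ℤ → ℝ} (h : RRec n μ e c) (hb : ∃ C, ∀ k, |c k| ≤ C) (j : ℕ) :
    ∃ D, 0 ≤ D ∧ ∀ k : ℤ, |c k| * (1 + |(k:ℝ)|) ^ j ≤ D := by
  induction j with
  | zero =>
    obtain ⟨C, hC⟩ := hb
    exact ⟨C, (abs_nonneg _).trans (hC 0), fun k => by simpa using hC k⟩
  | succ j ih =>
    obtain ⟨C, hC0, hC⟩ := ih
    exact decay_step h hC0 hC

lemma summable_inv_sq : Summable fun k : ℤ => 1 / (1 + |(k:ℝ)|) ^ 2 := by
  refine Summable.of_nonneg_of_le (fun k => by positivity) (fun k => ?_)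
    ((Real.summable_one_div_int_add_rpow 0 2).2 (by norm_num) |>.add
      (summable_of_ne_finset_zero (f := fun k : ℤ => if k = 0 then (1:ℝ) else 0) (s := {0}) (by
        intro k hk; simp at hk; simp [hk])))
  by_cases hk : k = 0
  · subst hk; simp
  · simp only [hk, if_false, add_zero]
    have h1 : (0:ℝ) < |(k:ℝ)| := abs_pos.2 (by exact_mod_cast hk)
    rw [Real.rpow_two]
    apply one_div_le_one_div_of_le (by positivity)
    apply pow_le_pow_left₀ h1.le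
    linarith

lemma summables {c : ℤ → ℝ} {D : ℝ} (hD : ∀ k : ℤ, |c k| * (1 + |(k:ℝ)|) ^ 3 ≤ D) :
    Summable (fun k : ℤ => (|(k:ℝ)| + 1) * |c k|) := by
  refine Summable.of_nonneg_of_le (fun k => by positivity) (fun k => ?_) (summable_inv_sq.mul_left D)
  have h1 : (0:ℝ) < 1 + |(k:ℝ)| := by positivity
  rw [mul_one_div, le_div_iff₀ (by positivity)]
  calc (|(k:ℝ)| + 1) * |c k| * (1 + |(k:ℝ)|) ^ 2 = |c k| * (1 + |(k:ℝ)|) ^ 3 := by ring
    _ ≤ D := hD k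

lemma summable_c {c : ℤ → ℝ} (h : Summable (fun k : ℤ => (|(k:ℝ)| + 1) * |c k|)) :
    Summable (fun k : ℤ => |c k|) :=
  Summable.of_nonneg_of_le (fun k => abs_nonneg _) (fun k => by
    have h1 : 0 ≤ |(k:ℝ)| * |c k| := by positivity
    linarith) h

/-- The series. -/
noncomputable def HH (c : ℤ → ℝ) (t : ℝ) : ℂ := ∑' k : ℤ, (c k : ℂ) * exp (I * k * t)

lemma norm_ek (k : ℤ) (t : ℝ) : ‖exp (I * k * t)‖ = 1 := by
  rw [show I * k * (t:ℂ) = ((k * t : ℝ) : ℂ) * I by push_cast; ring]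
  exact norm_exp_ofReal_mul_I _

lemma HH_summable {c : ℤ → ℝ} (h : Summable (fun k : ℤ => |c k|)) (t : ℝ) :
    Summable (fun k : ℤ => (c k : ℂ) * exp (I * k * t)) := by
  refine Summable.of_norm ?_
  simp_rw [norm_mul, norm_ek, mul_one, Complex.norm_real, Real.norm_eq_abs]
  exact h

lemma HH_sol {n : ℕ} {μ ε : ℝ} {c : ℤ → ℝ} (hr : RRec n μ (ε / 2) c)
    (h : Summable (fun k : ℤ => (|(k:ℝ)| + 1) * |c k|)) : LSol n μ ε (HH c) := by
  have hc := summable_c h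
  intro t
  have hd : HasDerivAt (HH c) (∑' k : ℤ, (c k : ℂ) * (exp (I * k * t) * (I * k))) t := by
    refine hasDerivAt_tsum (𝕜 := ℝ) (u := fun k : ℤ => (|(k:ℝ)| + 1) * |c k|) (y₀ := 0) h
      (g := fun (k : ℤ) (t : ℝ) => (c k : ℂ) * exp (I * k * t))
      (g' := fun (k : ℤ) (t : ℝ) => (c k : ℂ) * (exp (I * k * t) * (I * k))) ?_ ?_ (HH_summable hc 0) t
    · intro k t
      have h2 : HasDerivAt (fun t : ℝ => I * k * (t : ℂ)) (I * k * 1) t :=
        (ofRealCLM.hasDerivAt (x := t)).const_mul (I * k)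
      rw [mul_one] at h2
      exact h2.cexp.const_mul _
    · intro k t
      rw [norm_mul, norm_mul, norm_ek, norm_mul, norm_I, Complex.norm_real, Real.norm_eq_abs,
        one_mul, one_mul]
      have : ‖(k:ℂ)‖ = |(k:ℝ)| := Complex.norm_intCast k
      rw [this]
      nlinarith [abs_nonneg (c k)]
  refine hd.congr_deriv ?_
  -- the three series
  have s0 : Summable (fun k : ℤ => (c k : ℂ) * exp (I * k * t)) := HH_summable hc t
  have e1 : exp (-(I * t)) * HH c t = ∑' k : ℤ, (c (k + 1) : ℂ) * exp (I * k * t) := by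
    rw [HH, ← (Equiv.addRight (1:ℤ)).tsum_eq, ← tsum_mul_left]
    refine tsum_congr fun k => ?_
    simp only [Equiv.coe_addRight]
    rw [mul_left_comm, ← exp_add]
    congr 2
    push_cast; ring
  have e2 : exp (I * ((n : ℂ) - 1) * t) * conj (HH c t) =
      ∑' k : ℤ, (c (n - 1 - k) : ℂ) * exp (I * k * t) := by
    rw [HH, ← (Equiv.subLeft ((n:ℤ) - 1)).tsum_eq, conj_tsum, ← tsum_mul_left]
    refine tsum_congr fun k => ?_
    simp only [Equiv.subLeft_apply]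
    rw [map_mul, conj_ofReal, mul_left_comm, ← exp_conj, ← exp_add]
    congr 2
    simp only [map_mul, conj_I, conj_ofReal, map_intCast]
    push_cast; ring
  have s1 : Summable (fun k : ℤ => (c (k + 1) : ℂ) * exp (I * k * t)) := by
    have : Summable fun k : ℤ => |c (k + 1)| :=
      ((Equiv.addRight (1:ℤ)).summable_iff (f := fun k => |c k|)).2 hc
    exact HH_summable (c := fun k => c (k + 1)) this t
  have s2 : Summable (fun k : ℤ => (c (n - 1 - k) : ℂ) * exp (I * k * t)) := by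
    have : Summable fun k : ℤ => |c (n - 1 - k)| :=
      ((Equiv.subLeft ((n:ℤ) - 1)).summable_iff (f := fun k => |c k|)).2 hc
    exact HH_summable (c := fun k => c (n - 1 - k)) this t
  have e5 : lv n μ ε t (HH c t) = (I * n) * HH c t + (I * μ) * (exp (-(I * t)) * HH c t)
      - (I * (ε / 2 : ℝ)) * (exp (I * ((n : ℂ) - 1) * t) * conj (HH c t)) := by
    unfold lv; ring
  rw [e5, e1, e2, HH, ← tsum_mul_left, ← tsum_mul_left, ← tsum_mul_left,
    ← (s0.mul_left _).tsum_add (s1.mul_left _),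
    ← ((s0.mul_left _).add (s1.mul_left _)).tsum_sub (s2.mul_left _)]
  refine tsum_congr fun k => ?_
  have h3 : (μ : ℂ) * c (k + 1) + ((n : ℂ) - k) * c k = ((ε / 2 : ℝ) : ℂ) * c (n - 1 - k) := by
    exact_mod_cast hr k
  linear_combination (-I * exp (I * k * t)) * h3

lemma HH_real (c : ℤ → ℝ) : HH c 0 = ((∑' k, c k : ℝ) : ℂ) := by
  rw [HH, ofReal_tsum]
  refine tsum_congr fun k => ?_
  simp

lemma HH_per (c : ℤ → ℝ) (t : ℝ) : HH c (t + 2 * Real.pi) = HH c t := by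
  unfold HH
  refine tsum_congr fun k => ?_
  congr 1
  rw [exp_eq_exp_iff_exists_int]
  exact ⟨k, by push_cast; ring⟩

lemma int_ek (m : ℤ) : ∫ t in (-Real.pi)..Real.pi, exp (I * m * t) =
    if m = 0 then ((2 * Real.pi : ℝ) : ℂ) else (0 : ℂ) := by
  by_cases hm : m = 0
  · subst hm; simp; ring
  · rw [if_neg hm]
    have hc : (I * m : ℂ) ≠ 0 := mul_ne_zero I_ne_zero (by exact_mod_cast hm)
    rw [integral_exp_mul_complex hc]
    have : exp (I * m * (Real.pi : ℝ)) = exp (I * m * ((-Real.pi : ℝ) : ℂ)) := by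
      rw [exp_eq_exp_iff_exists_int]
      exact ⟨m, by push_cast; ring⟩
    rw [this, sub_self, zero_div]

lemma HH_coeff {c : ℤ → ℝ} (h : Summable (fun k : ℤ => |c k|)) (j : ℤ) : cf (HH c) j = c j := by
  have h1 : HasSum (fun k : ℤ => ∫ t in (-Real.pi)..Real.pi,
      ((c k : ℂ) * exp (I * k * t)) * exp (-(I * j * t)))
      (∫ t in (-Real.pi)..Real.pi, HH c t * exp (-(I * j * t))) := by
    refine intervalIntegral.hasSum_integral_of_dominated_convergence (fun k _ => |c k|) ?_ ?_ ?_ ?_ ?_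
    · intro k
      exact (by fun_prop : Continuous fun t : ℝ =>
        ((c k : ℂ) * exp (I * k * t)) * exp (-(I * j * t))).aestronglyMeasurable
    · intro k
      refine Eventually.of_forall fun t _ => ?_
      have : ‖exp (-(I * j * (t:ℂ)))‖ = 1 := by
        have := norm_ek (-j) t
        rw [← this]; congr 2; push_cast; ring
      rw [norm_mul, norm_mul, norm_ek, this, Complex.norm_real, Real.norm_eq_abs]
      simp
    · exact Eventually.of_forall fun t _ => h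
    · exact intervalIntegrable_const
    · exact Eventually.of_forall fun t _ => (HH_summable h t).hasSum.mul_right _
  have h2 : ∀ k : ℤ, ∫ t in (-Real.pi)..Real.pi, ((c k : ℂ) * exp (I * k * t)) * exp (-(I * j * t))
      = if k = j then (c j : ℂ) * (2 * Real.pi) else 0 := by
    intro k
    have h3 : ∀ t : ℝ, ((c k : ℂ) * exp (I * k * t)) * exp (-(I * j * t)) =
      (c k : ℂ) * exp (I * ((k - j : ℤ) : ℂ) * t) := by
      intro t
      rw [mul_assoc, ← exp_add]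
      congr 2
      push_cast; ring
    simp_rw [h3]
    rw [intervalIntegral.integral_const_mul, int_ek]
    by_cases hkj : k = j
    · subst hkj; simp
    · rw [if_neg hkj, if_neg (sub_ne_zero.2 hkj), mul_zero]
  simp_rw [h2] at h1
  have h4 := (hasSum_ite_eq j ((c j : ℂ) * (2 * Real.pi))).unique h1
  unfold cf
  rw [← h4]
  have : (Real.pi : ℂ) ≠ 0 := by exact_mod_cast Real.pi_ne_zero
  push_cast
  field_simp

lemma HH_ne {c : ℤ → ℝ} (h : Summable (fun k : ℤ => |c k|)) {j : ℤ} (hj : c j ≠ 0) :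
    ∃ t, HH c t ≠ 0 := by
  by_contra hcon
  push Not at hcon
  have h1 := HH_coeff h j
  unfold cf at h1
  simp only [hcon, zero_mul, intervalIntegral.integral_zero, mul_zero] at h1
  exact hj (by exact_mod_cast h1.symm)

end H535R3
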