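import Pool.Agent.H535R3.JF

set_option autoImplicit false
open Set Filter Topology Complex ComplexConjugate

namespace H535R3

lemma outer_zero {n : ℕ} {μ e : ℝ} {c : ℤ → ℝ} (h : RRec n μ e c) (hμ : μ ≠ 0) (h0 : c (-1) = 0)
    (k : ℤ) (hk : k < 0 ∨ n < k) : c k = 0 := by
  have key : ∀ j : ℕ, c (-1 - j) = 0 ∧ c (n + 1 + j) = 0 := by
    intro j
    induction j with
    | zero =>
      refine ⟨by simpa using h0, ?_⟩
      have h1 := h n
      have h2 : ((n:ℤ) - 1 - n) = -1 := by ring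
      rw [h2, h0, mul_zero] at h1
      push_cast at h1
      rw [sub_self, zero_mul, add_zero] at h1
      simpa using (mul_eq_zero.1 h1).resolve_left hμ
    | succ j ih =>
      have ha := h (-1 - (j + 1 : ℕ))
      have e1 : (-1 - ((j + 1 : ℕ) : ℤ) + 1) = -1 - j := by push_cast; ring
      have e2 : ((n:ℤ) - 1 - (-1 - ((j + 1 : ℕ) : ℤ))) = n + 1 + j := by push_cast; ring
      rw [e1, e2, ih.1, ih.2, mul_zero, mul_zero, zero_add] at ha
      have hne : ((n:ℝ) - ((-1 - ((j + 1 : ℕ) : ℤ) : ℤ) : ℝ)) ≠ 0 := by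
        push_cast
        have : (0:ℝ) ≤ n := n.cast_nonneg
        have : (0:ℝ) ≤ j := j.cast_nonneg
        intro hz
        linarith
      have h3 := (mul_eq_zero.1 ha).resolve_left hne
      refine ⟨h3, ?_⟩
      have hb := h (n + 1 + j)
      have e3 : ((n:ℤ) - 1 - (n + 1 + j)) = -1 - ((j + 1 : ℕ) : ℤ) := by push_cast; ring
      have e4 : ((n:ℤ) + 1 + j + 1) = n + 1 + ((j + 1 : ℕ) : ℤ) := by push_cast; ring
      rw [e3, e4, h3, ih.2, mul_zero, mul_zero, add_zero] at hb
      exact (mul_eq_zero.1 hb).resolve_left hμ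
  rcases hk with hk | hk
  · have := (key (-1 - k).toNat).1
    rwa [show (-1 - ((-1 - k).toNat : ℤ)) = k by omega] at this
  · have := (key (k - n - 1).toNat).2
    rwa [show ((n:ℤ) + 1 + ((k - n - 1).toNat : ℤ)) = k by omega] at this

/-- Extension by zero. -/
noncomputable def ext {n : ℕ} (m : Fin (n + 1) → ℝ) (k : ℤ) : ℝ :=
  if h : 0 ≤ k ∧ k ≤ n then m ⟨k.toNat, by omega⟩ else 0

lemma ext_add {n : ℕ} (m m' : Fin (n + 1) → ℝ) (k : ℤ) : ext (m + m') k = ext m k + ext m' k := by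
  unfold ext; split_ifs <;> simp

lemma ext_smul {n : ℕ} (a : ℝ) (m : Fin (n + 1) → ℝ) (k : ℤ) : ext (a • m) k = a * ext m k := by
  unfold ext; split_ifs <;> simp

lemma ext_of_lt {n : ℕ} (m : Fin (n + 1) → ℝ) {k : ℤ} (h : k < 0) : ext m k = 0 := by
  unfold ext; rw [dif_neg (by omega)]

lemma ext_of_gt {n : ℕ} (m : Fin (n + 1) → ℝ) {k : ℤ} (h : n < k) : ext m k = 0 := by
  unfold ext; rw [dif_neg (by omega)]

lemma ext_coe {n : ℕ} (m : Fin (n + 1) → ℝ) (i : Fin (n + 1)) : ext m (i : ℕ) = m i := by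
  unfold ext; rw [dif_pos ⟨by omega, by have := i.2; omega⟩]; congr 1

lemma ext_bound {n : ℕ} (m : Fin (n + 1) → ℝ) (k : ℤ) : |ext m k| ≤ ∑ i, |m i| := by
  unfold ext
  split_ifs with h
  · exact Finset.single_le_sum (f := fun i => |m i|) (fun i _ => abs_nonneg _) (Finset.mem_univ _)
  · rw [abs_zero]; exact Finset.sum_nonneg fun i _ => abs_nonneg _

/-- Flip of the outer part. -/
noncomputable def flp (n : ℕ) (c : ℤ → ℝ) (k : ℤ) : ℝ := if k < 0 then - c k else if (n:ℤ) < k then c k else 0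

lemma flip_exists {n : ℕ} {μ e : ℝ} {c : ℤ → ℝ} (h : RRec n μ e c) (h0 : c (-1) ≠ 0)
    (hb : ∃ C, ∀ k, |c k| ≤ C) :
    ∃ c' : ℤ → ℝ, RRec n μ (-e) c' ∧ (∃ C, ∀ k, |c' k| ≤ C) ∧ ∃ j, c' j ≠ 0 := by
  let Φ : (ℝ × (Fin (n + 1) → ℝ)) →ₗ[ℝ] (Fin (n + 1) → ℝ) :=
    { toFun := fun x i => μ * ext x.2 (i : ℕ) + ((n:ℝ) + 1 - (i : ℕ)) * ext x.2 ((i : ℕ) - 1) +
        e * ext x.2 (n - (i : ℕ)) - (if (i : ℕ) = 0 then x.1 * (n + 1) * c (-1) else 0)
      map_add' := by
        intro x y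
        funext i
        simp only [Prod.snd_add, Prod.fst_add, ext_add, Pi.add_apply]
        split_ifs <;> ring
      map_smul' := by
        intro a x
        funext i
        simp only [Prod.smul_snd, Prod.smul_fst, ext_smul, Pi.smul_apply, smul_eq_mul,
          RingHom.id_apply]
        split_ifs <;> ring }
  have hker : LinearMap.ker Φ ≠ ⊥ := by
    apply LinearMap.ker_ne_bot_of_finrank_lt
    simp
  obtain ⟨x, hx, hx0⟩ := Submodule.exists_mem_ne_zero_of_ne_bot hker
  obtain ⟨s, m⟩ := x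
  have hΦ : ∀ i : Fin (n + 1), μ * ext m (i : ℕ) + ((n:ℝ) + 1 - (i : ℕ)) * ext m ((i : ℕ) - 1) +
        e * ext m (n - (i : ℕ)) - (if (i : ℕ) = 0 then s * (n + 1) * c (-1) else 0) = 0 := by
    intro i
    have := congrFun (LinearMap.mem_ker.1 hx) i
    exact this
  refine ⟨fun k => ext m k + s * flp n c k, ?_, ?_, ?_⟩
  · intro k
    simp only
    have hk := h k
    rcases lt_trichotomy k (-1) with h1 | h1 | h1
    · rw [ext_of_lt m (by omega : k + 1 < 0), ext_of_lt m (by omega : k < 0),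
        ext_of_gt m (by omega : (n:ℤ) < n - 1 - k)]
      unfold flp
      rw [if_pos (by omega : k + 1 < 0), if_pos (by omega : k < 0), if_neg (by omega),
        if_pos (by omega : (n:ℤ) < n - 1 - k)]
      linear_combination (-s) * hk
    · subst h1
      have h2 := hΦ ⟨0, by omega⟩
      simp only [Nat.cast_zero, if_true] at h2
      rw [ext_of_lt m (by norm_num : (0:ℤ) - 1 < 0)] at h2
      have e1 : ((-1:ℤ) + 1) = 0 := by norm_num
      have e2 : ((n:ℤ) - 1 - -1) = n - 0 := by ring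
      rw [e1, e2, ext_of_lt m (by norm_num : (-1:ℤ) < 0)]
      unfold flp
      rw [if_neg (by norm_num), if_neg (by omega), if_pos (by norm_num), if_neg (by omega),
        if_neg (by omega)]
      push_cast
      linear_combination h2
    · by_cases h2 : k < n
      · have h3 := hΦ ⟨(k + 1).toNat, by omega⟩
        have e1 : (((k + 1).toNat : ℕ) : ℤ) = k + 1 := by omega
        have e1' : (((k + 1).toNat : ℕ) : ℝ) = k + 1 := by exact_mod_cast e1
        simp only at h3
        rw [if_neg (by omega), e1, e1', show k + 1 - 1 = k by ring,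
          show (n:ℤ) - (k + 1) = n - 1 - k by ring] at h3
        unfold flp
        rw [if_neg (by omega), if_neg (by omega), if_neg (by omega), if_neg (by omega),
          if_neg (by omega), if_neg (by omega)]
        linear_combination h3
      · by_cases h3 : k = n
        · subst h3
          rw [ext_of_gt m (by omega : (n:ℤ) < n + 1), ext_of_lt m (by omega : (n:ℤ) - 1 - n < 0)]
          unfold flp
          rw [if_neg (by omega), if_pos (by omega), if_neg (by omega), if_neg (by omega),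
            if_pos (by omega)]
          push_cast at hk ⊢
          linear_combination s * hk
        · rw [ext_of_gt m (by omega : (n:ℤ) < k + 1), ext_of_gt m (by omega : (n:ℤ) < k),
            ext_of_lt m (by omega : (n:ℤ) - 1 - k < 0)]
          unfold flp
          rw [if_neg (by omega), if_pos (by omega), if_neg (by omega), if_pos (by omega),
            if_pos (by omega)]
          linear_combination s * hk
  · obtain ⟨C, hC⟩ := hb
    refine ⟨(∑ i, |m i|) + |s| * C, fun k => ?_⟩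
    have h1 : |flp n c k| ≤ C := by
      have hC0 : 0 ≤ C := (abs_nonneg _).trans (hC 0)
      unfold flp
      split_ifs
      · rw [abs_neg]; exact hC k
      · exact hC k
      · rw [abs_zero]; exact hC0
    calc |ext m k + s * flp n c k| ≤ |ext m k| + |s * flp n c k| := abs_add_le _ _
      _ ≤ _ := by
        rw [abs_mul]
        have := ext_bound m k
        have := mul_le_mul_of_nonneg_left h1 (abs_nonneg s)
        linarith
  · by_cases hs : s = 0
    · have hm : m ≠ 0 := by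
        rintro rfl
        exact hx0 (by rw [hs]; rfl)
      obtain ⟨i, hi⟩ := Function.ne_iff.1 hm
      refine ⟨(i : ℕ), ?_⟩
      simp only [hs, zero_mul, add_zero, ext_coe]
      exact hi
    · refine ⟨-1, ?_⟩
      simp only [ext_of_lt m (by norm_num : (-1:ℤ) < 0), zero_add]
      unfold flp
      rw [if_pos (by norm_num)]
      exact mul_ne_zero hs (neg_ne_zero.2 h0)

/-- Change of sign of `ε`. -/
lemma P_neg (b a ε x : ℝ) : P b a ε x = P b a (-ε) (x + Real.pi) - Real.pi ∧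
    Kx b a ε x = Kx b a (-ε) (x + Real.pi) := by
  have h := (fl_sol b a ε x).add_pi.eq_fl
  simp only [fl_zero] at h
  constructor
  · have := congrFun h (2 * Real.pi)
    rw [P, P, ← this]; ring
  · unfold Kx
    rw [← h]
    unfold Cc
    simp only [Real.cos_add_pi, intervalIntegral.integral_neg]
    ring

/-- If the outer part does not vanish the time-`2π` map is a rotation. -/
lemma rot_of_outer {n : ℕ} {μ ε : ℝ} {c : ℤ → ℝ}
    (h : P (n + 1) (2 * μ) ε (Real.pi / 2) = Real.pi / 2 + 2 * Real.pi * ((n + 1 : ℤ) : ℝ))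
    (hr : RRec n μ (ε / 2) c) (hb : ∃ C, ∀ k, |c k| ≤ C) (h0 : c (-1) ≠ 0) (x : ℝ) :
    P (n + 1) (2 * μ) ε x = x + 2 * Real.pi * ((n + 1 : ℤ) : ℝ) := by
  obtain ⟨c', hr', hb', j, hj⟩ := flip_exists hr h0 hb
  rw [← neg_div] at hr'
  obtain ⟨D, -, hD⟩ := decay hr' hb' 3
  have hs := summables hD
  have hs' := summable_c hs
  have hsol := HH_sol hr' hs
  obtain ⟨t1, ht1⟩ := HH_ne hs' hj
  obtain ⟨-, hK, m, hm⟩ := of_LSol hsol (HH_real c') (by simpa using HH_per c' 0) ht1
  have h1 := P_neg (n + 1) (2 * μ) ε (-(Real.pi / 2))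
  have e1 : -(Real.pi / 2) + Real.pi = Real.pi / 2 := by ring
  rw [e1, hm, hK] at h1
  have hpi := Real.pi_pos
  have h2 : P (n + 1) (2 * μ) ε (-(Real.pi / 2)) < P (n + 1) (2 * μ) ε (Real.pi / 2) :=
    P_mono _ _ _ (by linarith)
  have h3 : P (n + 1) (2 * μ) ε (Real.pi / 2) < P (n + 1) (2 * μ) ε (-(Real.pi / 2) + 2 * Real.pi * (1 : ℤ)) :=
    P_mono _ _ _ (by push_cast; linarith)
  rw [P_add] at h3
  rw [h1.1, h] at h2 h3
  push_cast at h2 h3
  have h4 : (1 - (n:ℝ) + 2 * m) < n + 2 := by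
    by_contra hcon
    push Not at hcon
    nlinarith
  have h5 : (n:ℝ) < (1 - (n:ℝ) + 2 * m) := by
    by_contra hcon
    push Not at hcon
    nlinarith
  have h6 : (1 - (n:ℤ) + 2 * m) = n + 1 := by
    have h7 : (1 - (n:ℤ) + 2 * m) < n + 2 := by exact_mod_cast h4
    have h8 : (n:ℤ) < (1 - (n:ℤ) + 2 * m) := by exact_mod_cast h5
    omega
  have h7 : (1 - (n:ℝ) + 2 * m) = ((n + 1 : ℤ) : ℝ) := by exact_mod_cast h6
  have h8 : P (n + 1) (2 * μ) ε (-(Real.pi / 2)) = -(Real.pi / 2) + 2 * Real.pi * ((n + 1 : ℤ) : ℝ) := by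
    rw [h1.1, h7]; ring
  have hsin : Real.sin ((-(Real.pi / 2) - Real.pi / 2) / 2) ≠ 0 := by
    rw [show (-(Real.pi / 2) - Real.pi / 2) / 2 = -(Real.pi / 2) by ring, Real.sin_neg,
      Real.sin_pi_div_two]
    norm_num
  rcases dich h h8 hsin with ⟨h9, -⟩ | ⟨h9, -⟩
  · exact h9 x
  · exact absurd (Kx_sym h) h9

/-- A non-degenerate symmetric periodic solution comes from a polynomial. -/
lemma poly_of_simple {n : ℕ} {μ ε : ℝ} (hμ : μ ≠ 0)
    (h : P (n + 1) (2 * μ) ε (Real.pi / 2) = Real.pi / 2 + 2 * Real.pi * ((n + 1 : ℤ) : ℝ))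
    (hne : ¬ ∀ x, P (n + 1) (2 * μ) ε x = x + 2 * Real.pi * ((n + 1 : ℤ) : ℝ)) :
    ∃ c : ℤ → ℝ, RRec n μ (ε / 2) c ∧ (∀ k : ℤ, k < 0 ∨ n < k → c k = 0) ∧
      ∀ t : ℝ, GG n μ ε (fl (n + 1) (2 * μ) ε (Real.pi / 2)) t =
        ∑ k ∈ Finset.range (n + 1), (c k : ℂ) * exp (I * k * t) := by
  obtain ⟨c, hr, hb, hG⟩ := fourier_data h
  have h0 : c (-1) = 0 := by
    by_contra h0
    exact hne (rot_of_outer h hr hb h0)
  have hz := outer_zero hr hμ h0
  obtain ⟨D, -, hD⟩ := decay hr hb 3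
  have hs := (summable_c (summables hD)).of_abs
  refine ⟨c, hr, hz, fun t => ?_⟩
  have h1 := hG hs t
  have h2 : HasSum (fun k : ℤ => (c k : ℂ) * exp (I * k * t))
      (∑ k ∈ (Finset.range (n + 1)).map ⟨((↑) : ℕ → ℤ), Nat.cast_injective⟩,
        (c k : ℂ) * exp (I * k * t)) := by
    refine hasSum_sum_of_ne_finset_zero ?_
    intro k hk
    have : k < 0 ∨ n < k := by
      by_contra hcon
      push Not at hcon
      apply hk
      rw [Finset.mem_map]
      refine ⟨k.toNat, ?_, ?_⟩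
      · rw [Finset.mem_range]; omega
      · simp only [Function.Embedding.coeFn_mk]; omega
    rw [hz k this]; simp
  rw [h1.unique h2, Finset.sum_map]
  simp

end H535R3
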