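import Pool.Agent.H535R3.JG

set_option autoImplicit false
open Set Filter Topology Complex ComplexConjugate Polynomial Metric

namespace H535R3

lemma circ_inv {ζ : ℂ} (hζ : ‖ζ‖ ≠ 1) : ContinuousOn (fun z : ℂ => 1 / (z - ζ)) (sphere 0 1) ∧
    (∮ z in C(0, 1), 1 / (z - ζ)) = if ‖ζ‖ < 1 then 2 * Real.pi * I else 0 := by
  constructor
  · refine ContinuousOn.div continuousOn_const (by fun_prop) ?_
    intro z hz h0
    rw [sub_eq_zero] at h0
    rw [mem_sphere_zero_iff_norm, h0] at hz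
    exact hζ hz
  · split_ifs with h
    · simp_rw [one_div]
      exact circleIntegral.integral_sub_inv_of_mem_ball (by simpa using h)
    · have h1 : 1 < ‖ζ‖ := lt_of_le_of_ne (not_lt.1 h) (Ne.symm hζ)
      have hne : ∀ z ∈ closedBall (0:ℂ) 1, z - ζ ≠ 0 := by
        intro z hz h0
        rw [sub_eq_zero] at h0
        rw [mem_closedBall_zero_iff, h0] at hz
        linarith
      refine circleIntegral_eq_zero_of_differentiable_on_off_countable zero_le_one
        (countable_empty) ?_ ?_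
      · exact ContinuousOn.div continuousOn_const (by fun_prop) hne
      · intro z hz
        refine DifferentiableAt.div (by fun_prop) (by fun_prop) (hne z (ball_subset_closedBall hz.1))

lemma circ_sum (s : Multiset ℂ) (hs : ∀ ζ ∈ s, ‖ζ‖ ≠ 1) :
    ContinuousOn (fun z : ℂ => (s.map fun ζ => 1 / (z - ζ)).sum) (sphere 0 1) ∧
    (∮ z in C(0, 1), (s.map fun ζ => 1 / (z - ζ)).sum) =
      2 * Real.pi * I * ((s.filter (fun ζ : ℂ => ‖ζ‖ < 1)).card : ℂ) := by
  induction s using Multiset.induction_on with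
  | empty =>
    simp only [Multiset.map_zero, Multiset.sum_zero, Multiset.filter_zero, Multiset.card_zero,
      Nat.cast_zero, mul_zero]
    exact ⟨continuousOn_const, by simp [circleIntegral]⟩
  | cons a s ih =>
    have h1 := ih (fun ζ hζ => hs ζ (Multiset.mem_cons_of_mem hζ))
    have h2 := circ_inv (hs a (Multiset.mem_cons_self a s))
    simp only [Multiset.map_cons, Multiset.sum_cons]
    refine ⟨h2.1.add h1.1, ?_⟩
    rw [circleIntegral.integral_add (h2.1.circleIntegrable zero_le_one)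
      (h1.1.circleIntegrable zero_le_one), h1.2, h2.2, Multiset.filter_cons]
    split_ifs with h
    · rw [Multiset.card_add, Multiset.card_singleton]; push_cast; ring
    · rw [Multiset.card_add, Multiset.card_zero]; push_cast; ring

lemma roots_in {p : ℂ[X]} {g g' : ℝ → ℂ} {n : ℕ} (hp : p.natDegree ≤ n)
    (hg : ∀ t, HasDerivAt g (g' t) t) (hg'c : Continuous g')
    (h : ∀ t : ℝ, p.eval (exp (I * t)) = exp (g t))
    (hT : g (2 * Real.pi) - g 0 = 2 * Real.pi * I * n) :
    p.natDegree = n ∧ ∀ ζ ∈ p.roots, ‖ζ‖ < 1 := by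
  have hne : ∀ t : ℝ, p.eval (exp (I * t)) ≠ 0 := fun t => by rw [h]; exact exp_ne_zero _
  have hd : ∀ t : ℝ, g' t = exp (I * t) * I * (p.derivative.eval (exp (I * t)) / p.eval (exp (I * t))) := by
    intro t
    have h1 : HasDerivAt (fun t : ℝ => exp (I * t)) (exp (I * t) * I) t := by
      have h2 : HasDerivAt (fun t : ℝ => I * (t : ℂ)) (I * 1) t :=
        (ofRealCLM.hasDerivAt (x := t)).const_mul I
      rw [mul_one] at h2
      exact h2.cexp
    have h3 : HasDerivAt (fun t : ℝ => p.eval (exp (I * t)))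
        (p.derivative.eval (exp (I * t)) * (exp (I * t) * I)) t :=
      HasDerivAt.comp (h₂ := fun z : ℂ => p.eval z) (h := fun t : ℝ => exp (I * t)) t
        (p.hasDerivAt (exp (I * t))) h1
    have h4 : HasDerivAt (fun t : ℝ => p.eval (exp (I * t))) (exp (g t) * g' t) t := by
      have : (fun t : ℝ => p.eval (exp (I * t))) = fun t => exp (g t) := funext h
      rw [this]; exact (hg t).cexp
    have h5 := h3.unique h4
    rw [← h t] at h5
    field_simp [hne t]
    linear_combination -h5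
  have hp0 : p ≠ 0 := by
    rintro rfl
    exact hne 0 (by simp)
  have hroots : ∀ ζ ∈ p.roots, ‖ζ‖ ≠ 1 := by
    intro ζ hζ h1
    have h2 : p.eval ζ = 0 := (mem_roots hp0).1 hζ
    obtain ⟨θ, hθ⟩ := (norm_eq_one_iff ζ).1 h1
    apply hne θ
    rw [mul_comm, hθ, h2]
  obtain ⟨-, h6⟩ := circ_sum p.roots hroots
  have h7 : (∮ z in C(0, 1), (p.roots.map fun ζ => 1 / (z - ζ)).sum) = 2 * Real.pi * I * n := by
    rw [← hT, circleIntegral]
    have h8 := intervalIntegral.integral_eq_sub_of_hasDerivAt (a := 0) (b := 2 * Real.pi)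
      (fun t _ => hg t) (hg'c.intervalIntegrable _ _)
    rw [← h8]
    congr 1
    funext t
    have h9 : circleMap 0 1 t = exp (I * t) := by
      simp [circleMap, mul_comm]
    rw [deriv_circleMap, smul_eq_mul, h9, hd t,
      (IsAlgClosed.splits p).eval_derivative_div_eval_of_ne_zero (hne t)]
  rw [h6] at h7
  have hpi : (2 * Real.pi * I : ℂ) ≠ 0 := by simp [Real.pi_ne_zero]
  have h8 : (p.roots.filter (fun ζ : ℂ => ‖ζ‖ < 1)).card = n := by
    exact_mod_cast mul_left_cancel₀ hpi h7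
  have h9 := Multiset.card_le_card (Multiset.filter_le (fun ζ : ℂ => ‖ζ‖ < 1) p.roots)
  have h10 := p.card_roots'
  refine ⟨by omega, ?_⟩
  have h11 : p.roots.filter (fun ζ : ℂ => ‖ζ‖ < 1) = p.roots :=
    Multiset.eq_of_le_of_card_le (Multiset.filter_le _ _) (by omega)
  exact Multiset.filter_eq_self.1 h11

/-- derivative of the exponent -/
lemma gg_deriv {n : ℕ} {μ ε : ℝ} {φ : ℝ → ℝ} (h : Sol (n + 1) (2 * μ) ε φ) (t : ℝ) :
    HasDerivAt (gg n μ ε φ) (((ε / 2 * Real.cos (φ t) - μ * (-Real.sin t) : ℝ) : ℂ) +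
      I * ((((n + 1 + 2 * μ * Real.cos t - ε * Real.sin (φ t)) - (1 - (n:ℝ)) * 1) / 2 : ℝ) : ℂ)) t := by
  have h1 : HasDerivAt (fun t => ε / 2 * Cc φ t - μ * Real.cos t)
      (ε / 2 * Real.cos (φ t) - μ * (-Real.sin t)) t :=
    ((Cc_deriv h.cont t).const_mul _).sub ((Real.hasDerivAt_cos t).const_mul μ)
  have h2 : HasDerivAt (fun t => (φ t - Real.pi / 2 - (1 - (n:ℝ)) * t) / 2)
      (((n + 1 + 2 * μ * Real.cos t - ε * Real.sin (φ t)) - (1 - (n:ℝ)) * 1) / 2) t :=
    (((h t).sub_const (Real.pi / 2)).sub ((hasDerivAt_id t).const_mul (1 - (n:ℝ)))).div_const 2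
  exact h1.ofReal_comp.add (h2.ofReal_comp.const_mul I)

/-- The polynomial attached to the coefficients. -/
noncomputable def pol (n : ℕ) (c : ℤ → ℝ) : ℂ[X] := ∑ k ∈ Finset.range (n + 1), C ((c k : ℝ) : ℂ) * X ^ k

lemma pol_eval (n : ℕ) (c : ℤ → ℝ) (z : ℂ) :
    (pol n c).eval z = ∑ k ∈ Finset.range (n + 1), ((c k : ℝ) : ℂ) * z ^ k := by
  simp [pol, eval_finsetSum]

lemma pol_natDegree (n : ℕ) (c : ℤ → ℝ) : (pol n c).natDegree ≤ n := by
  refine natDegree_sum_le_of_forall_le _ _ fun k hk => ?_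
  exact (natDegree_C_mul_X_pow_le _ _).trans (Nat.lt_succ_iff.1 (Finset.mem_range.1 hk))

lemma pol_coeff (n : ℕ) (c : ℤ → ℝ) : (pol n c).coeff n = c n := by
  simp [pol, coeff_C_mul, coeff_X_pow]

/-- Zeros of the polynomial. -/
lemma no_zero {n : ℕ} {μ ε : ℝ} {c : ℤ → ℝ}
    (h : P (n + 1) (2 * μ) ε (Real.pi / 2) = Real.pi / 2 + 2 * Real.pi * ((n + 1 : ℤ) : ℝ))
    (hG : ∀ t : ℝ, GG n μ ε (fl (n + 1) (2 * μ) ε (Real.pi / 2)) t =
        ∑ k ∈ Finset.range (n + 1), (c k : ℂ) * exp (I * k * t)) :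
    c n ≠ 0 ∧ ∀ w : ℝ, 1 ≤ |w| → ∑ k ∈ Finset.range (n + 1), c k * w ^ k ≠ 0 := by
  set φ := fl (n + 1) (2 * μ) ε (Real.pi / 2) with hφ
  have hsol := fl_sol (n + 1) (2 * μ) ε (Real.pi / 2)
  rw [← hφ] at hsol
  have hev : ∀ t : ℝ, (pol n c).eval (exp (I * t)) = exp (gg n μ ε φ t) := by
    intro t
    have h1 := hG t
    rw [GG] at h1
    rw [h1, pol_eval]
    refine Finset.sum_congr rfl fun k _ => ?_
    rw [← exp_nat_mul]
    congr 2; push_cast; ring
  have hT : gg n μ ε φ (2 * Real.pi) - gg n μ ε φ 0 = 2 * Real.pi * I * n := by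
    have h0 : φ 0 = Real.pi / 2 := by rw [hφ, fl_zero]
    have h1 : φ (2 * Real.pi) = Real.pi / 2 + 2 * Real.pi * ((n + 1 : ℤ) : ℝ) := h
    have h2 : Cc φ (2 * Real.pi) = 0 := (Cc_per h).1
    rw [gg, gg, h0, h1, h2, Cc_zero, Real.cos_two_pi, Real.cos_zero]
    push_cast
    ring
  have hcont := hsol.cont
  obtain ⟨hdeg, hroots⟩ := roots_in (pol_natDegree n c) (gg_deriv hsol) (by fun_prop) hev hT
  have hp0 : pol n c ≠ 0 := by
    intro h0
    have := hev 0
    rw [h0, eval_zero] at this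
    exact exp_ne_zero _ this.symm
  constructor
  · intro h0
    have h1 : (pol n c).leadingCoeff = 0 := by
      rw [leadingCoeff, hdeg, pol_coeff, h0]; simp
    exact hp0 (leadingCoeff_eq_zero.1 h1)
  · intro w hw h0
    have h1 : (pol n c).eval (w : ℂ) = 0 := by
      rw [pol_eval]
      have : ((∑ k ∈ Finset.range (n + 1), c k * w ^ k : ℝ) : ℂ) = 0 := by rw [h0]; simp
      rw [← this]; push_cast; rfl
    have h2 := hroots (w : ℂ) ((mem_roots hp0).2 h1)
    rw [Complex.norm_real, Real.norm_eq_abs] at h2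
    linarith

end H535R3
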