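import Pool.Agent.H535R3.JH

set_option autoImplicit false
open Set Filter Topology

namespace H535R3

/-- `p`. -/
noncomputable def pp (n : ℕ) (c : ℤ → ℝ) (x : ℝ) : ℝ := ∑ k ∈ Finset.range (n + 1), c k * x ^ k
/-- reversed `p`. -/
noncomputable def qq (n : ℕ) (c : ℤ → ℝ) (x : ℝ) : ℝ :=
  ∑ k ∈ Finset.range (n + 1), c ((n:ℤ) - k) * x ^ k

/-- Data. -/
structure Good (n : ℕ) (μ e : ℝ) (c : ℤ → ℝ) : Prop where
  mu : 0 < μ
  rr : RRec n μ e c
  supp : ∀ k : ℤ, k < 0 ∨ n < k → c k = 0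
  lead : c n ≠ 0
  nz : ∀ w : ℝ, 1 ≤ |w| → pp n c w ≠ 0

lemma Good.c0 {n : ℕ} {μ e : ℝ} {c : ℤ → ℝ} (h : Good n μ e c) : μ * c 0 = e * c n := by
  have h1 := h.rr (-1)
  rw [h.supp (-1) (Or.inl (by norm_num)), mul_zero, add_zero] at h1
  have e1 : ((n:ℤ) - 1 - -1) = n := by ring
  rw [e1] at h1
  simpa using h1

lemma Good.q_deriv {n : ℕ} {μ e : ℝ} {c : ℤ → ℝ} (h : Good n μ e c) (x : ℝ) :
    HasDerivAt (qq n c) (e * pp n c x - μ * qq n c x) x := by
  have h1 : HasDerivAt (qq n c) (∑ k ∈ Finset.range (n + 1), c ((n:ℤ) - k) * (k * x ^ (k - 1))) x := by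
    unfold qq
    refine HasDerivAt.fun_sum fun k _ => ?_
    exact (hasDerivAt_pow k x).const_mul _
  refine h1.congr_deriv ?_
  rw [Finset.sum_range_succ', pp, qq, Finset.mul_sum, Finset.mul_sum, ← Finset.sum_sub_distrib,
    Finset.sum_range_succ]
  have h2 : e * (c n * x ^ n) - μ * (c ((n:ℤ) - n) * x ^ n) = 0 := by
    rw [sub_self]
    linear_combination (-x ^ n) * h.c0
  rw [h2, add_zero]
  simp only [Nat.cast_zero, zero_mul, mul_zero, add_zero]
  refine Finset.sum_congr rfl fun k _ => ?_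
  have h3 := h.rr (n - k - 1)
  have e1 : ((n:ℤ) - k - 1 + 1) = n - k := by ring
  have e2 : ((n:ℤ) - 1 - (n - k - 1)) = k := by ring
  rw [e1, e2] at h3
  have e3 : ((n:ℤ) - ((k + 1 : ℕ) : ℤ)) = n - k - 1 := by push_cast; ring
  rw [e3, Nat.add_sub_cancel]
  push_cast at h3 ⊢
  linear_combination (x ^ k) * h3

lemma Good.p_deriv {n : ℕ} {μ e : ℝ} {c : ℤ → ℝ} (h : Good n μ e c) (x : ℝ) :
    ∃ p', HasDerivAt (pp n c) p' x ∧ x ^ 2 * p' = (n * x + μ) * pp n c x - e * qq n c x := by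
  refine ⟨∑ k ∈ Finset.range (n + 1), c k * (k * x ^ (k - 1)), ?_, ?_⟩
  · unfold pp
    refine HasDerivAt.fun_sum fun k _ => ?_
    exact (hasDerivAt_pow k x).const_mul _
  · have h1 : x ^ 2 * ∑ k ∈ Finset.range (n + 1), c k * (k * x ^ (k - 1)) =
        ∑ k ∈ Finset.range (n + 1), (k * c k) * x ^ (k + 1) := by
      rw [Finset.mul_sum]
      refine Finset.sum_congr rfl fun k _ => ?_
      rcases k with _ | k
      · simp
      · rw [Nat.add_sub_cancel]; ring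
    have h2 : ∀ k ∈ Finset.range (n + 1), ((k:ℝ) * c k) * x ^ (k + 1) =
        (n * x) * (c k * x ^ k) + μ * (c ((k + 1 : ℕ) : ℤ) * x ^ (k + 1)) -
          e * (c ((n:ℤ) - ((k + 1 : ℕ) : ℤ)) * x ^ (k + 1)) := by
      intro k _
      have h3 := h.rr k
      have e1 : ((n:ℤ) - ((k + 1 : ℕ) : ℤ)) = n - 1 - k := by push_cast; ring
      have e2 : ((k + 1 : ℕ) : ℤ) = k + 1 := by push_cast; ring
      rw [e1, e2]
      push_cast at h3
      linear_combination (-x ^ (k + 1)) * h3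
    rw [h1, Finset.sum_congr rfl h2, Finset.sum_sub_distrib, Finset.sum_add_distrib,
      ← Finset.mul_sum, ← Finset.mul_sum, ← Finset.mul_sum]
    have h3 : ∑ k ∈ Finset.range (n + 1), c ((k + 1 : ℕ) : ℤ) * x ^ (k + 1) = pp n c x - c 0 := by
      have h4 := Finset.sum_range_succ' (fun k : ℕ => c (k : ℤ) * x ^ k) (n + 1)
      rw [Finset.sum_range_succ] at h4
      have h5 : c ((n + 1 : ℕ) : ℤ) = 0 := h.supp _ (Or.inr (by push_cast; linarith))
      rw [h5] at h4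
      simp only [Nat.cast_zero, pow_zero, mul_one, zero_mul, add_zero] at h4
      rw [pp, h4]; ring
    have h6 : ∑ k ∈ Finset.range (n + 1), c ((n:ℤ) - ((k + 1 : ℕ) : ℤ)) * x ^ (k + 1) =
        qq n c x - c n := by
      have h4 := Finset.sum_range_succ' (fun k : ℕ => c ((n:ℤ) - (k : ℤ)) * x ^ k) (n + 1)
      rw [Finset.sum_range_succ] at h4
      have h5 : c ((n:ℤ) - ((n + 1 : ℕ) : ℤ)) = 0 := h.supp _ (Or.inl (by push_cast; linarith))
      rw [h5] at h4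
      simp only [Nat.cast_zero, pow_zero, mul_one, zero_mul, add_zero, sub_zero] at h4
      rw [qq, h4]; ring
    rw [h3, h6]
    have h7 := h.c0
    have h8 : ∑ k ∈ Finset.range (n + 1), c (k:ℤ) * x ^ k = pp n c x := rfl
    rw [h8]
    linear_combination (-1) * h7

lemma qq_eq {n : ℕ} {c : ℤ → ℝ} {x : ℝ} (hx : x ≠ 0) : qq n c x = x ^ n * pp n c (1 / x) := by
  rw [qq, pp, Finset.mul_sum, ← Finset.sum_range_reflect]
  refine Finset.sum_congr rfl fun k hk => ?_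
  have hk' : k ≤ n := Nat.lt_succ_iff.1 (Finset.mem_range.1 hk)
  have e1 : n + 1 - 1 - k = n - k := by omega
  have e2 : ((n:ℤ) - ((n - k : ℕ) : ℤ)) = k := by omega
  rw [e1, e2, one_div, inv_pow, pow_sub₀ x hx hk']
  ring

lemma Good.q_ne {n : ℕ} {μ e : ℝ} {c : ℤ → ℝ} (h : Good n μ e c) {x : ℝ} (hx : |x| ≤ 1) :
    qq n c x ≠ 0 := by
  by_cases hx0 : x = 0
  · subst hx0
    rw [qq, Finset.sum_range_succ']
    simp only [Nat.cast_zero, sub_zero, pow_zero, mul_one]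
    rw [Finset.sum_eq_zero (fun k _ => by simp), zero_add]
    exact h.lead
  · rw [qq_eq hx0]
    refine mul_ne_zero (pow_ne_zero _ hx0) (h.nz _ ?_)
    rw [abs_div, abs_one, le_div_iff₀ (abs_pos.2 hx0)]
    linarith

lemma Good.b_data {n : ℕ} {μ e : ℝ} {c : ℤ → ℝ} (h : Good n μ e c) :
    ∃ b : ℝ → ℝ, ContinuousOn b (Icc 0 1) ∧ b 0 = ((-1) ^ n * e) / μ ∧ b 1 = 1 ∧
      ∀ w, 0 < w → w ≤ 1 → ∃ b', HasDerivAt b b' w ∧
        w ^ 2 * b' = (-1) ^ n * e - (μ - n * w + μ * w ^ 2) * b w + (-1) ^ n * e * w ^ 2 * b w ^ 2 := by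
  have hs2 : ((-1:ℝ) ^ n) * (-1) ^ n = 1 := by rw [← mul_pow]; norm_num
  have hder : ∀ w, |w| ≤ 1 → ∃ b', HasDerivAt (fun w => (-1) ^ n * (pp n c (-w) / qq n c (-w))) b' w ∧
        w ^ 2 * b' = (-1) ^ n * e - (μ - n * w + μ * w ^ 2) * ((-1) ^ n * (pp n c (-w) / qq n c (-w)))
          + (-1) ^ n * e * w ^ 2 * ((-1) ^ n * (pp n c (-w) / qq n c (-w))) ^ 2 := by
    intro w hw
    have hq : qq n c (-w) ≠ 0 := h.q_ne (by rwa [abs_neg])
    obtain ⟨p', hp1, hp2⟩ := h.p_deriv (-w)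
    have hq1 := h.q_deriv (-w)
    have hp3 : HasDerivAt (fun w => pp n c (-w)) (p' * (-1)) w := hp1.comp w (hasDerivAt_neg w)
    have hq3 : HasDerivAt (fun w => qq n c (-w)) ((e * pp n c (-w) - μ * qq n c (-w)) * (-1)) w :=
      hq1.comp w (hasDerivAt_neg w)
    refine ⟨_, (hp3.div hq3 hq).const_mul _, ?_⟩
    set p := pp n c (-w)
    set q := qq n c (-w)
    have h5 : w ^ 2 * p' = (n * (-w) + μ) * p - e * q := by rw [← hp2]; ring
    have h6 : ((-1:ℝ) ^ n * (p / q)) ^ 2 = (p / q) ^ 2 := by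
      rw [mul_pow, ← pow_mul, mul_comm n 2, pow_mul]; norm_num
    rw [h6]
    field_simp
    linear_combination (-q) * h5
  refine ⟨fun w => (-1) ^ n * (pp n c (-w) / qq n c (-w)), ?_, ?_, ?_, ?_⟩
  · intro w hw
    obtain ⟨b', hb, -⟩ := hder w (by rw [abs_of_nonneg hw.1]; exact hw.2)
    exact hb.continuousAt.continuousWithinAt
  · simp only [neg_zero]
    have h1 : pp n c 0 = c 0 := by
      rw [pp, Finset.sum_range_succ']
      simp only [Nat.cast_zero, pow_zero, mul_one]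
      rw [Finset.sum_eq_zero (fun k _ => by simp), zero_add]
    have h2 : qq n c 0 = c n := by
      rw [qq, Finset.sum_range_succ']
      simp only [Nat.cast_zero, sub_zero, pow_zero, mul_one]
      rw [Finset.sum_eq_zero (fun k _ => by simp), zero_add]
    rw [h1, h2]
    have h3 := h.c0
    have h4 := h.lead
    have h5 := h.mu.ne'
    field_simp
    linear_combination h3
  · have h1 : qq n c (-1) = (-1) ^ n * pp n c (-1) := by
      have := qq_eq (n := n) (c := c) (x := -1) (by norm_num)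
      rw [this]; norm_num
    have h2 : pp n c (-1) ≠ 0 := h.nz _ (by norm_num)
    simp only [h1]
    have h3 : ((-1:ℝ) ^ n) ≠ 0 := pow_ne_zero _ (by norm_num)
    field_simp
  · intro w h1 h2
    exact hder w (by rw [abs_of_pos h1]; exact h2)

lemma Good.e_pos {n : ℕ} {μ e : ℝ} {c : ℤ → ℝ} (h : Good n μ e c) (he : e ≠ 0) :
    0 < (-1) ^ n * e := by
  obtain ⟨b, hb1, hb2, hb3, hb4⟩ := h.b_data
  by_contra hcon
  have hne : (-1:ℝ) ^ n * e ≠ 0 := mul_ne_zero (pow_ne_zero _ (by norm_num)) he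
  have hneg : (-1:ℝ) ^ n * e < 0 := lt_of_le_of_ne (not_lt.1 hcon) hne
  have hc : ContinuousOn (fun w => b (1 - w)) (Icc 0 1) :=
    hb1.comp (by fun_prop) (fun w hw => ⟨by linarith [hw.2], by linarith [hw.1]⟩)
  obtain ⟨s, hs1, hs2, hs3, hs4⟩ := first_zero zero_le_one hc (by simp only [sub_zero, hb3]; norm_num)
    (by simp only [sub_self, hb2]; exact (div_neg_of_neg_of_pos hneg h.mu).le)
  have hs5 : s < 1 := by
    rcases hs2.lt_or_eq with h1 | h1
    · exact h1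
    · subst h1
      simp only [sub_self, hb2] at hs3
      exact absurd hs3 (div_neg_of_neg_of_pos hneg h.mu).ne
  obtain ⟨b', hb5, hb6⟩ := hb4 (1 - s) (by linarith) (by linarith)
  have h1 : HasDerivAt (fun w => b (1 - w)) (b' * (-1)) s :=
    HasDerivAt.comp s hb5 (((hasDerivAt_id s).const_sub 1))
  have h2 := deriv_nonpos_of_first hs1 h1 hs3 hs4
  have hs3' : b (1 - s) = 0 := hs3
  rw [hs3'] at hb6
  have h3 : (1 - s) ^ 2 * b' = (-1) ^ n * e := by rw [hb6]; ring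
  have h4 : 0 ≤ (1 - s) ^ 2 * b' := mul_nonneg (sq_nonneg _) (by linarith)
  linarith

lemma Good.b_pos {n : ℕ} {μ e : ℝ} {b : ℝ → ℝ} (hμ : 0 < μ) (he : 0 < (-1) ^ n * e)
    (hb1 : ContinuousOn b (Icc 0 1)) (hb2 : b 0 = ((-1) ^ n * e) / μ)
    (hb4 : ∀ w, 0 < w → w ≤ 1 → ∃ b', HasDerivAt b b' w ∧
        w ^ 2 * b' = (-1) ^ n * e - (μ - n * w + μ * w ^ 2) * b w + (-1) ^ n * e * w ^ 2 * b w ^ 2)
    {w : ℝ} (hw0 : 0 ≤ w) (hw1 : w ≤ 1) : 0 < b w := by
  by_contra hcon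
  push Not at hcon
  obtain ⟨s, hs1, hs2, hs3, hs4⟩ := first_zero hw0 (hb1.mono (Icc_subset_Icc le_rfl hw1))
    (by rw [hb2]; positivity) hcon
  obtain ⟨b', hb5, hb6⟩ := hb4 s hs1 (by linarith)
  have h2 := deriv_nonpos_of_first hs1 hb5 hs3 hs4
  rw [hs3] at hb6
  have h3 : s ^ 2 * b' = (-1) ^ n * e := by rw [hb6]; ring
  have h4 : s ^ 2 * b' ≤ 0 := mul_nonpos_of_nonneg_of_nonpos (sq_nonneg _) h2
  linarith

lemma Good.nolt {n : ℕ} {μ ν e e' : ℝ} {c c' : ℤ → ℝ} (h : Good n μ e c) (h' : Good n ν e' c')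
    (he : e ≠ 0) (hee : |e| = |e'|) : ¬ μ < ν := by
  intro hlt
  have he' : e' ≠ 0 := by
    intro h0; rw [h0, abs_zero, abs_eq_zero] at hee; exact he hee
  have h1 := h.e_pos he
  have h2 := h'.e_pos he'
  have h3 : (-1:ℝ) ^ n * e = (-1) ^ n * e' := by
    rw [← abs_of_pos h1, ← abs_of_pos h2, abs_mul, abs_mul, hee]
  obtain ⟨b, hb1, hb2, hb3, hb4⟩ := h.b_data
  obtain ⟨d, hd1, hd2, hd3, hd4⟩ := h'.b_data
  rw [← h3] at hd2 hd4
  set δ := (-1:ℝ) ^ n * e with hδ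
  obtain ⟨s, hs1, hs2, hs3, hs4⟩ := first_zero (f := fun w => b w - d w) zero_le_one (hb1.sub hd1)
    (by
      simp only [hb2, hd2, sub_pos]
      exact div_lt_div_of_pos_left h1 h.mu hlt) (by simp [hb3, hd3])
  obtain ⟨b', hb5, hb6⟩ := hb4 s hs1 hs2
  obtain ⟨d', hd5, hd6⟩ := hd4 s hs1 hs2
  have h4 := deriv_nonpos_of_first hs1 (hb5.sub hd5) hs3 hs4
  have h5 : d s = b s := by linarith
  rw [h5] at hd6
  have h6 : 0 < b s := Good.b_pos h.mu h1 hb1 hb2 hb4 hs1.le hs2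
  have h7 : s ^ 2 * (b' - d') = (ν - μ) * (1 + s ^ 2) * b s := by
    rw [mul_sub, hb6, hd6]; ring
  have h8 : 0 < (ν - μ) * (1 + s ^ 2) * b s := by
    have : 0 < ν - μ := by linarith
    positivity
  have h9 : s ^ 2 * (b' - d') ≤ 0 := mul_nonpos_of_nonneg_of_nonpos (sq_nonneg _) h4
  linarith

/-- Uniqueness. -/
lemma Good.unique {n : ℕ} {μ ν e e' : ℝ} {c c' : ℤ → ℝ} (h : Good n μ e c) (h' : Good n ν e' c')
    (he : e ≠ 0) (hee : |e| = |e'|) : μ = ν := by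
  have he' : e' ≠ 0 := by
    intro h0; rw [h0, abs_zero, abs_eq_zero] at hee; exact he hee
  exact le_antisymm (not_lt.1 (h'.nolt h he' hee.symm)) (not_lt.1 (h.nolt h' he hee))

end H535R3
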