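import Pool.Agent.H535R3.JI
import Pool.Agent.H906R3.CY.PF

set_option autoImplicit false
open Set Filter Topology

namespace H535R3

/-- The nonnegative operator. -/
noncomputable def Lop (n : ℕ) (δ : ℝ) : (Fin (n + 1) → ℝ) →ₗ[ℝ] (Fin (n + 1) → ℝ) where
  toFun v i := δ * ext v (n - (i : ℕ)) + ((n:ℝ) + 1 - (i : ℕ)) * ext v ((i : ℕ) - 1)
  map_add' x y := by
    funext i
    simp only [ext_add, Pi.add_apply]; ring
  map_smul' a x := by
    funext i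
    simp only [ext_smul, Pi.smul_apply, smul_eq_mul, RingHom.id_apply]; ring

lemma Lop_apply (n : ℕ) (δ : ℝ) (v : Fin (n + 1) → ℝ) (i : Fin (n + 1)) :
    Lop n δ v i = δ * ext v (n - (i : ℕ)) + ((n:ℝ) + 1 - (i : ℕ)) * ext v ((i : ℕ) - 1) := rfl

lemma ext_nonneg {n : ℕ} {v : Fin (n + 1) → ℝ} (hv : ∀ i, 0 ≤ v i) (k : ℤ) : 0 ≤ ext v k := by
  unfold ext; split_ifs
  · exact hv _
  · exact le_rfl

lemma ext_pos {n : ℕ} {v : Fin (n + 1) → ℝ} (hv : ∀ i, 0 < v i) {k : ℤ} (h0 : 0 ≤ k) (h1 : k ≤ n) :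
    0 < ext v k := by
  unfold ext; rw [dif_pos ⟨h0, h1⟩]; exact hv _

lemma ext_mono {n : ℕ} {v w : Fin (n + 1) → ℝ} (hv : ∀ i, v i ≤ w i) (k : ℤ) : ext v k ≤ ext w k := by
  unfold ext; split_ifs
  · exact hv _
  · exact le_rfl

lemma ext_single {n : ℕ} (j : Fin (n + 1)) (k : ℤ) :
    ext (Pi.single j (1:ℝ)) k = if k = (j : ℕ) then 1 else 0 := by
  unfold ext
  by_cases h : 0 ≤ k ∧ k ≤ n
  · rw [dif_pos h]
    by_cases hk : k = (j : ℕ)
    · rw [if_pos hk]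
      have : (⟨k.toNat, by omega⟩ : Fin (n + 1)) = j := by
        apply Fin.ext; simp only; omega
      rw [this]; simp
    · rw [if_neg hk]
      have : (⟨k.toNat, by omega⟩ : Fin (n + 1)) ≠ j := by
        intro h1
        apply hk
        have := congrArg Fin.val h1
        simp only at this
        omega
      rw [Pi.single_eq_of_ne this]
  · rw [dif_neg h, if_neg]
    intro hk
    apply h
    have := j.2
    omega

/-- The matrix. -/
noncomputable def AA (n : ℕ) (δ : ℝ) : Matrix (Fin (n + 1)) (Fin (n + 1)) ℝ := LinearMap.toMatrix' (Lop n δ)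

lemma AA_apply (n : ℕ) (δ : ℝ) (i j : Fin (n + 1)) : AA n δ i j =
    δ * (if ((n:ℤ) - (i : ℕ)) = (j : ℕ) then 1 else 0) +
      ((n:ℝ) + 1 - (i : ℕ)) * (if (((i : ℕ) : ℤ) - 1) = (j : ℕ) then 1 else 0) := by
  rw [AA, LinearMap.toMatrix'_apply, Lop_apply, ext_single, ext_single]

lemma AA_nonneg (n : ℕ) {δ : ℝ} (hδ : 0 < δ) (i j : Fin (n + 1)) : 0 ≤ AA n δ i j := by
  rw [AA_apply]
  have h1 : (0:ℝ) ≤ (n:ℝ) + 1 - (i : ℕ) := by
    have : ((i : ℕ) : ℝ) ≤ n + 1 := by exact_mod_cast i.2.le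
    linarith
  have h2 : (0:ℝ) ≤ (if ((n:ℤ) - (i : ℕ)) = (j : ℕ) then 1 else 0) := by split_ifs <;> norm_num
  have h3 : (0:ℝ) ≤ (if (((i : ℕ) : ℤ) - 1) = (j : ℕ) then 1 else 0) := by split_ifs <;> norm_num
  positivity

lemma AA_pow_nonneg (n : ℕ) {δ : ℝ} (hδ : 0 < δ) (l : ℕ) (i j : Fin (n + 1)) : 0 ≤ (AA n δ ^ l) i j := by
  induction l generalizing i j with
  | zero =>
    rw [pow_zero, Matrix.one_apply]; split_ifs <;> norm_num
  | succ l ih =>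
    rw [pow_succ, Matrix.mul_apply]
    exact Finset.sum_nonneg fun k _ => mul_nonneg (ih i k) (AA_nonneg n hδ k j)

lemma AA_trans (n : ℕ) {δ : ℝ} (hδ : 0 < δ) {a b : ℕ} {i m j : Fin (n + 1)}
    (h1 : 0 < (AA n δ ^ a) i m) (h2 : 0 < (AA n δ ^ b) m j) : 0 < (AA n δ ^ (a + b)) i j := by
  rw [pow_add, Matrix.mul_apply]
  exact Finset.sum_pos' (fun k _ => mul_nonneg (AA_pow_nonneg n hδ a i k) (AA_pow_nonneg n hδ b k j))
    ⟨m, Finset.mem_univ m, mul_pos h1 h2⟩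

lemma AA_up (n : ℕ) {δ : ℝ} (hδ : 0 < δ) (l : ℕ) (i j : Fin (n + 1)) (h : (i : ℕ) = j + l) :
    0 < (AA n δ ^ l) i j := by
  induction l generalizing i with
  | zero =>
    have : i = j := Fin.ext (by simpa using h)
    rw [this, pow_zero, Matrix.one_apply_eq]; norm_num
  | succ l ih =>
    have hi := i.2
    have h1 := ih ⟨j + l, by omega⟩ rfl
    have h2 : 0 < (AA n δ ^ 1) i ⟨j + l, by omega⟩ := by
      rw [pow_one, AA_apply]
      have e1 : (((i : ℕ) : ℤ) - 1) = (((⟨j + l, by omega⟩ : Fin (n + 1)) : ℕ) : ℤ) := by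
        simp only; omega
      rw [if_pos e1]
      have h3 : (0:ℝ) < (n:ℝ) + 1 - (i : ℕ) := by
        have : ((i : ℕ) : ℝ) < n + 1 := by exact_mod_cast i.2
        linarith
      have h4 : (0:ℝ) ≤ (if ((n:ℤ) - (i : ℕ)) = (((⟨j + l, by omega⟩ : Fin (n + 1)) : ℕ) : ℤ)
        then 1 else 0) := by split_ifs <;> norm_num
      have := mul_nonneg hδ.le h4
      linarith
    have := AA_trans n hδ h2 h1
    rwa [add_comm 1 l] at this

lemma AA_irr (n : ℕ) {δ : ℝ} (hδ : 0 < δ) (i j : Fin (n + 1)) :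
    0 < (∑ l ∈ Finset.range (n + 1), AA n δ ^ l) i j := by
  rw [Matrix.sum_apply]
  obtain ⟨l, hl, hp⟩ : ∃ l, l < n + 1 ∧ 0 < (AA n δ ^ l) i j := by
    by_cases h : (j : ℕ) ≤ i
    · exact ⟨i - j, by omega, AA_up n hδ _ i j (by omega)⟩
    · have hj := j.2
      have h1 := AA_up n hδ (n - j) ⟨n, by omega⟩ j (by simp only; omega)
      have h2 : 0 < (AA n δ ^ 1) ⟨0, by omega⟩ ⟨n, by omega⟩ := by
        rw [pow_one, AA_apply]
        simp only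
        rw [if_pos (by push_cast; ring), if_neg (by omega)]
        linarith
      have h3 := AA_up n hδ i i ⟨0, by omega⟩ (by simp)
      have h4 := AA_trans n hδ h3 (AA_trans n hδ h2 h1)
      exact ⟨_, by omega, h4⟩
  exact Finset.sum_pos' (fun l _ => AA_pow_nonneg n hδ l i j) ⟨l, Finset.mem_range.2 hl, hp⟩

/-- Positive eigenvector. -/
def PF (n : ℕ) (δ μ : ℝ) (v : Fin (n + 1) → ℝ) : Prop :=
  0 < μ ∧ (∀ i, 0 < v i) ∧ ∀ i, Lop n δ v i = μ * v i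

lemma PF_exists (n : ℕ) {δ : ℝ} (hδ : 0 < δ) : ∃ μ v, PF n δ μ v := by
  obtain ⟨v, Λ, hv, -, hΛ, hA, -⟩ := H906C.perron (AA n δ) (AA_nonneg n hδ) (n + 1) (AA_irr n hδ)
    ⟨⟨0, by omega⟩, ⟨n, by omega⟩, by
      rw [AA_apply]
      simp only
      rw [if_pos (by push_cast; ring), if_neg (by omega)]
      linarith⟩
  refine ⟨Λ, v, hΛ, hv, fun i => ?_⟩
  have h1 : (AA n δ).mulVec v = Lop n δ v := by rw [AA, LinearMap.toMatrix'_mulVec]
  rw [h1] at hA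
  exact congrFun hA i

lemma pf_le {n : ℕ} {δ μ lam : ℝ} {v x : Fin (n + 1) → ℝ} (hδ : 0 < δ) (hv : PF n δ μ v)
    (hx : ∀ i, 0 < x i) (hl : ∀ i, Lop n δ x i ≤ lam * x i) : μ ≤ lam := by
  obtain ⟨i0, hi0⟩ := Finite.exists_max (fun i => v i / x i)
  set m := v i0 / x i0 with hm
  have hm0 : 0 < m := div_pos (hv.2.1 i0) (hx i0)
  have h1 : ∀ i, v i ≤ (m • x) i := by
    intro i
    have := hi0 i
    rw [div_le_iff₀ (hx i)] at this
    simpa using this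
  have h2 : Lop n δ v i0 ≤ Lop n δ (m • x) i0 := by
    rw [Lop_apply, Lop_apply]
    have h3 := ext_mono h1 (n - (i0 : ℕ))
    have h4 := ext_mono h1 ((i0 : ℕ) - 1)
    have h5 : (0:ℝ) ≤ (n:ℝ) + 1 - (i0 : ℕ) := by
      have : ((i0 : ℕ) : ℝ) ≤ n + 1 := by exact_mod_cast i0.2.le
      linarith
    gcongr
  rw [map_smul, hv.2.2] at h2
  have h3 : (m • Lop n δ x) i0 ≤ m * (lam * x i0) := by
    rw [Pi.smul_apply, smul_eq_mul]
    exact mul_le_mul_of_nonneg_left (hl i0) hm0.le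
  have h4 : m * (lam * x i0) = lam * v i0 := by
    rw [hm]
    have := (hx i0).ne'
    field_simp
  have h5 : μ * v i0 ≤ lam * v i0 := by linarith
  exact le_of_mul_le_mul_right h5 (hv.2.1 i0)

/-- The eigenvalue. -/
noncomputable def MM (n : ℕ) (δ : ℝ) : ℝ := if h : 0 < δ then (PF_exists n h).choose else 0

lemma MM_spec (n : ℕ) {δ : ℝ} (hδ : 0 < δ) : ∃ v, PF n δ (MM n δ) v := by
  rw [MM, dif_pos hδ]
  exact (PF_exists n hδ).choose_spec

lemma Lop_le {n : ℕ} {δ δ' : ℝ} (h : δ ≤ δ') {v : Fin (n + 1) → ℝ} (hv : ∀ i, 0 < v i) (i) :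
    Lop n δ v i ≤ Lop n δ' v i := by
  rw [Lop_apply, Lop_apply]
  have := ext_nonneg (fun i => (hv i).le) (n - (i : ℕ))
  gcongr

lemma MM_mono {n : ℕ} {δ δ' : ℝ} (hδ : 0 < δ) (h : δ ≤ δ') : MM n δ ≤ MM n δ' := by
  obtain ⟨v, hv⟩ := MM_spec n hδ
  obtain ⟨w, hw⟩ := MM_spec n (hδ.trans_le h)
  exact pf_le hδ hv hw.2.1 (fun i => (Lop_le h hw.2.1 i).trans (hw.2.2 i).le)

lemma MM_scale {n : ℕ} {δ δ' : ℝ} (hδ : 0 < δ) (h : δ ≤ δ') : MM n δ' ≤ δ' / δ * MM n δ := by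
  obtain ⟨v, hv⟩ := MM_spec n hδ
  obtain ⟨w, hw⟩ := MM_spec n (hδ.trans_le h)
  refine pf_le (hδ.trans_le h) hw hv.2.1 (fun i => ?_)
  have hc : 1 ≤ δ' / δ := by rw [le_div_iff₀ hδ]; linarith
  rw [mul_assoc, ← hv.2.2, Lop_apply, Lop_apply, mul_add]
  have h1 := ext_nonneg (fun i => (hv.2.1 i).le) ((i : ℕ) - 1)
  have h5 : (0:ℝ) ≤ (n:ℝ) + 1 - (i : ℕ) := by
    have : ((i : ℕ) : ℝ) ≤ n + 1 := by exact_mod_cast i.2.le
    linarith
  have h6 : δ' * ext v (n - (i : ℕ)) = δ' / δ * (δ * ext v (n - (i : ℕ))) := by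
    field_simp
  rw [h6]
  have h7 : ((n:ℝ) + 1 - (i : ℕ)) * ext v ((i : ℕ) - 1) ≤
      δ' / δ * (((n:ℝ) + 1 - (i : ℕ)) * ext v ((i : ℕ) - 1)) :=
    le_mul_of_one_le_left (mul_nonneg h5 h1) hc
  linarith

lemma MM_pos (n : ℕ) {δ : ℝ} (hδ : 0 < δ) : 0 < MM n δ := by
  obtain ⟨v, hv⟩ := MM_spec n hδ
  exact hv.1

lemma MM_cont (n : ℕ) : ContinuousOn (MM n) (Ioi 0) := by
  intro δ hδ
  have hδ' : 0 < δ := hδ
  have hM := MM_pos n hδ'
  apply ContinuousAt.continuousWithinAt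
  have hlow : Tendsto (fun x => min 1 (x / δ) * MM n δ) (𝓝 δ) (𝓝 (MM n δ)) := by
    have hc : Continuous (fun x => min 1 (x / δ) * MM n δ) := by fun_prop
    have := hc.tendsto δ
    simp only [div_self hδ'.ne', min_self, one_mul] at this
    exact this
  have hup : Tendsto (fun x => max 1 (x / δ) * MM n δ) (𝓝 δ) (𝓝 (MM n δ)) := by
    have hc : Continuous (fun x => max 1 (x / δ) * MM n δ) := by fun_prop
    have := hc.tendsto δ
    simp only [div_self hδ'.ne', max_self, one_mul] at this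
    exact this
  have hpos : ∀ᶠ x in 𝓝 δ, 0 < x := lt_mem_nhds hδ'
  refine tendsto_of_tendsto_of_tendsto_of_le_of_le' hlow hup ?_ ?_
  · filter_upwards [hpos] with x hx
    rcases le_total δ x with h | h
    · have := MM_mono (n := n) hδ' h
      have h1 : min 1 (x / δ) ≤ 1 := min_le_left _ _
      calc min 1 (x / δ) * MM n δ ≤ 1 * MM n δ := by gcongr
        _ ≤ _ := by rw [one_mul]; exact this
    · have := MM_scale (n := n) hx h
      have h1 : min 1 (x / δ) ≤ x / δ := min_le_right _ _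
      calc min 1 (x / δ) * MM n δ ≤ x / δ * MM n δ := by gcongr
        _ ≤ x / δ * (δ / x * MM n x) := by gcongr
        _ = MM n x := by field_simp
  · filter_upwards [hpos] with x hx
    rcases le_total δ x with h | h
    · have := MM_scale (n := n) hδ' h
      calc MM n x ≤ x / δ * MM n δ := this
        _ ≤ _ := by gcongr; exact le_max_right _ _
    · have := MM_mono (n := n) hx h
      calc MM n x ≤ 1 * MM n δ := by rw [one_mul]; exact this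
        _ ≤ _ := by gcongr; exact le_max_left _ _

/-- For some small `δ` the eigenvalue is at most `1/3`. -/
lemma MM_small (n : ℕ) : ∃ δ, 0 < δ ∧ MM n δ ≤ 1 / 3 := by
  set s : ℝ := 1 / (6 * (n + 1)) with hs
  have hn : (0:ℝ) < (n:ℝ) + 1 := by positivity
  have hs0 : 0 < s := by positivity
  have hs1 : s ≤ 1 := by
    rw [hs, div_le_one (by positivity)]
    have : (0:ℝ) ≤ n := n.cast_nonneg
    linarith
  set δ : ℝ := s ^ n / 6 with hδd
  have hδ : 0 < δ := by positivity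
  refine ⟨δ, hδ, ?_⟩
  obtain ⟨v, hv⟩ := MM_spec n hδ
  refine pf_le (x := fun i => (s⁻¹) ^ (i : ℕ)) hδ hv (fun i => by positivity) (fun i => ?_)
  have hsi : 1 ≤ s⁻¹ := (one_le_inv₀ hs0).2 hs1
  have hi : (i : ℕ) ≤ n := Nat.lt_succ_iff.1 i.2
  rw [Lop_apply]
  have h1 : ext (fun i : Fin (n + 1) => (s⁻¹) ^ (i : ℕ)) (n - (i : ℕ)) = (s⁻¹) ^ (n - (i : ℕ)) := by
    unfold ext
    rw [dif_pos ⟨by omega, by omega⟩]
    simp only
    congr 1; omega
  have h2 : ((n:ℝ) + 1 - (i : ℕ)) * ext (fun i : Fin (n + 1) => (s⁻¹) ^ (i : ℕ)) ((i : ℕ) - 1) ≤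
      (n + 1) * (s * (s⁻¹) ^ (i : ℕ)) := by
    have hii : (0:ℝ) ≤ ((i : ℕ) : ℝ) := Nat.cast_nonneg _
    have h5 : (0:ℝ) ≤ (n:ℝ) + 1 - (i : ℕ) := by
      have : ((i : ℕ) : ℝ) ≤ n + 1 := by exact_mod_cast i.2.le
      linarith
    by_cases h0 : (i : ℕ) = 0
    · rw [h0]
      have : ext (fun i : Fin (n + 1) => (s⁻¹) ^ (i : ℕ)) (((0:ℕ):ℤ) - 1) = 0 := ext_of_lt _ (by norm_num)
      rw [this, mul_zero]
      positivity
    · have h3 : ext (fun i : Fin (n + 1) => (s⁻¹) ^ (i : ℕ)) ((i : ℕ) - 1) = (s⁻¹) ^ ((i : ℕ) - 1) := by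
        unfold ext
        rw [dif_pos ⟨by omega, by omega⟩]
        simp only
        congr 1; omega
      have h4 : (s⁻¹) ^ ((i : ℕ) - 1) = s * (s⁻¹) ^ (i : ℕ) := by
        obtain ⟨k, hk⟩ := Nat.exists_eq_succ_of_ne_zero h0
        rw [hk, Nat.succ_sub_one, pow_succ]
        field_simp
      rw [h3, h4]
      gcongr
      linarith
  have h6 : δ * (s⁻¹) ^ (n - (i : ℕ)) ≤ 1 / 6 * (s⁻¹) ^ (i : ℕ) := by
    have h7 : (s⁻¹) ^ (n - (i : ℕ)) ≤ (s⁻¹) ^ n := pow_le_pow_right₀ hsi (Nat.sub_le _ _)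
    have h8 : (1:ℝ) ≤ (s⁻¹) ^ (i : ℕ) := one_le_pow₀ hsi
    calc δ * (s⁻¹) ^ (n - (i : ℕ)) ≤ δ * (s⁻¹) ^ n := by gcongr
      _ = 1 / 6 := by rw [hδd, inv_pow]; field_simp
      _ ≤ 1 / 6 * (s⁻¹) ^ (i : ℕ) := by linarith
  rw [h1]
  have h9 : ((n:ℝ) + 1) * (s * (s⁻¹) ^ (i : ℕ)) = 1 / 6 * (s⁻¹) ^ (i : ℕ) := by
    rw [← mul_assoc]
    congr 1
    rw [hs]; field_simp
  linarith

end H535R3
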