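import Pool.Agent.H535R3.JJ

set_option autoImplicit false
open Set Filter Topology Complex ComplexConjugate

namespace H535R3

/-- Alternating coefficients. -/
noncomputable def cc {n : ℕ} (v : Fin (n + 1) → ℝ) (k : ℤ) : ℝ := (-1) ^ k * ext v k

lemma cc_rec {n : ℕ} {δ μ : ℝ} {v : Fin (n + 1) → ℝ} (h : PF n δ μ v) :
    RRec n μ ((-1) ^ n * δ) (cc v) := by
  intro k
  have hs : ((-1:ℝ) ^ n) * (-1) ^ n = 1 := by rw [← mul_pow]; norm_num
  have hσ : ((-1:ℝ) ^ k) * (-1) ^ k = 1 := by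
    rw [← mul_zpow]; norm_num
  have e1 : ((-1:ℝ) ^ (k + 1)) = - (-1) ^ k := by
    rw [zpow_add₀ (by norm_num)]; norm_num
  have e2 : ((-1:ℝ) ^ ((n:ℤ) - 1 - k)) = - ((-1) ^ n * (-1) ^ k) := by
    have hne : ((-1:ℝ) ^ k) ≠ 0 := zpow_ne_zero _ (by norm_num)
    rw [zpow_sub₀ (by norm_num), zpow_sub₀ (by norm_num), zpow_natCast, zpow_one]
    rw [div_eq_iff hne]
    linear_combination ((-1:ℝ) ^ n) * hσ
  unfold cc
  rw [e1, e2]
  rcases lt_or_ge (k + 1) 0 with h1 | h1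
  · rw [ext_of_lt v h1, ext_of_lt v (by omega : k < 0), ext_of_gt v (by omega : (n:ℤ) < n - 1 - k)]
    ring
  · rcases lt_or_ge (n:ℤ) (k + 1) with h2 | h2
    · rw [ext_of_gt v h2, ext_of_lt v (by omega : (n:ℤ) - 1 - k < 0)]
      by_cases h3 : k = n
      · subst h3; push_cast; ring
      · rw [ext_of_gt v (by omega : (n:ℤ) < k)]; ring
    · have h3 := h.2.2 ⟨(k + 1).toNat, by omega⟩
      rw [Lop_apply] at h3
      have e3 : (((k + 1).toNat : ℕ) : ℤ) = k + 1 := by omega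
      have e3' : (((k + 1).toNat : ℕ) : ℝ) = k + 1 := by exact_mod_cast e3
      have e4 : v ⟨(k + 1).toNat, by omega⟩ = ext v (k + 1) := by
        unfold ext; rw [dif_pos ⟨h1, h2⟩]
      simp only [e3, e3', e4] at h3
      rw [show k + 1 - 1 = k by ring, show (n:ℤ) - (k + 1) = n - 1 - k by ring] at h3
      linear_combination (-1:ℝ) ^ k * h3 + δ * (-1) ^ k * ext v (n - 1 - k) * hs

lemma cc_supp {n : ℕ} (v : Fin (n + 1) → ℝ) (k : ℤ) (hk : k < 0 ∨ n < k) : cc v k = 0 := by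
  unfold cc
  rcases hk with hk | hk
  · rw [ext_of_lt v hk, mul_zero]
  · rw [ext_of_gt v hk, mul_zero]

lemma cc_abs {n : ℕ} {v : Fin (n + 1) → ℝ} (hv : ∀ i, 0 < v i) (k : ℤ) : |cc v k| = ext v k := by
  unfold cc
  rw [abs_mul, abs_zpow, abs_neg, abs_one, one_zpow, one_mul,
    abs_of_nonneg (ext_nonneg (fun i => (hv i).le) k)]

lemma supp_summable {n : ℕ} {c : ℤ → ℝ} (h : ∀ k : ℤ, k < 0 ∨ n < k → c k = 0) :
    Summable (fun k : ℤ => (|(k:ℝ)| + 1) * |c k|) := by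
  refine summable_of_ne_finset_zero (s := Finset.Icc 0 (n:ℤ)) fun k hk => ?_
  rw [Finset.mem_Icc] at hk
  rw [h k (by omega), abs_zero, mul_zero]

lemma HH_finite {n : ℕ} {c : ℤ → ℝ} (h : ∀ k : ℤ, k < 0 ∨ n < k → c k = 0) (t : ℝ) :
    HH c t = ∑ k ∈ Finset.range (n + 1), (c k : ℂ) * exp (I * k * t) := by
  rw [HH, tsum_eq_sum (s := (Finset.range (n + 1)).map ⟨((↑) : ℕ → ℤ), Nat.cast_injective⟩)]
  · rw [Finset.sum_map]; simp
  · intro k hk
    have : k < 0 ∨ n < k := by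
      by_contra hcon
      push Not at hcon
      apply hk
      rw [Finset.mem_map]
      refine ⟨k.toNat, ?_, ?_⟩
      · rw [Finset.mem_range]; omega
      · simp only [Function.Embedding.coeFn_mk]; omega
    rw [h k this]; simp

lemma PF_sol {n : ℕ} {δ μ : ℝ} {v : Fin (n + 1) → ℝ} (h : PF n δ μ v) :
    (∃ κ : ℝ, κ ≠ 0 ∧ ∀ t, HH (cc v) t =
      κ * GG n μ (2 * ((-1) ^ n * δ)) (fl (n + 1) (2 * μ) (2 * ((-1) ^ n * δ)) (Real.pi / 2)) t) ∧
    Kx (n + 1) (2 * μ) (2 * ((-1) ^ n * δ)) (Real.pi / 2) = 0 ∧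
    ∃ m : ℤ, P (n + 1) (2 * μ) (2 * ((-1) ^ n * δ)) (Real.pi / 2) =
      Real.pi / 2 + 2 * Real.pi * (1 - n + 2 * m) := by
  have hr : RRec n μ (2 * ((-1) ^ n * δ) / 2) (cc v) := by
    rw [mul_div_cancel_left₀ _ (two_ne_zero)]; exact cc_rec h
  have hs := supp_summable (cc_supp v)
  have hsol := HH_sol hr hs
  have hne : cc v 0 ≠ 0 := by
    rw [← abs_ne_zero, cc_abs h.2.1]
    exact (ext_pos h.2.1 le_rfl (by positivity)).ne'
  obtain ⟨t1, ht1⟩ := HH_ne (summable_c hs) hne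
  exact of_LSol hsol (HH_real _) (by simpa using HH_per (cc v) 0) ht1

lemma PF_small {n : ℕ} {δ μ : ℝ} {v : Fin (n + 1) → ℝ} (hδ : 0 < δ) (h : PF n δ μ v) (hμ : μ ≤ 1 / 3) :
    P (n + 1) (2 * μ) (2 * ((-1) ^ n * δ)) (Real.pi / 2) =
      Real.pi / 2 + 2 * Real.pi * ((n + 1 : ℤ) : ℝ) := by
  obtain ⟨⟨κ, hκ, hH⟩, -, m, hm⟩ := PF_sol h
  set ε := 2 * ((-1) ^ n * δ) with hε
  set φ := fl (n + 1) (2 * μ) ε (Real.pi / 2) with hφ
  have hsum : ∀ k : ℕ, k ≤ n → ∑ j ∈ Finset.range k, ext v j ≤ 1 / 2 * ext v k := by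
    intro k
    induction k with
    | zero =>
      intro _
      rw [Finset.sum_range_zero]
      have := ext_nonneg (fun i => (h.2.1 i).le) ((0:ℕ):ℤ)
      positivity
    | succ k ih =>
      intro hk
      have h1 := ih (by omega)
      rw [Finset.sum_range_succ]
      have h3 := h.2.2 ⟨k + 1, by omega⟩
      rw [Lop_apply] at h3
      have e4 : v ⟨k + 1, by omega⟩ = ext v ((k + 1 : ℕ) : ℤ) := (ext_coe v ⟨k + 1, by omega⟩).symm
      simp only [e4] at h3
      have e5 : (((k + 1 : ℕ) : ℤ) - 1) = k := by push_cast; ring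
      rw [e5] at h3
      have h4 := ext_nonneg (fun i => (h.2.1 i).le) ((n:ℤ) - ((k + 1 : ℕ) : ℤ))
      have h5 := ext_nonneg (fun i => (h.2.1 i).le) (k:ℤ)
      have h6 := ext_nonneg (fun i => (h.2.1 i).le) ((k + 1 : ℕ) : ℤ)
      have h7 : (1:ℝ) ≤ (n:ℝ) + 1 - ((k + 1 : ℕ) : ℝ) := by
        have : ((k + 1 : ℕ) : ℝ) ≤ n := by exact_mod_cast hk
        linarith
      have h8 : ext v k ≤ μ * ext v ((k + 1 : ℕ) : ℤ) := by
        have := mul_nonneg hδ.le h4
        nlinarith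
      nlinarith
  have hn := hsum n le_rfl
  have hvn : 0 < ext v n := ext_pos h.2.1 (by positivity) le_rfl
  have hcn : |cc v n| = ext v n := cc_abs h.2.1 _
  -- real part
  set x : ℝ → ℝ := fun t => ε / 2 * Cc φ t - μ * Real.cos t with hx
  set ψ : ℝ → ℝ := fun t => (φ t - Real.pi / 2 - (1 - n) * t) / 2 - n * t with hψ
  have key : ∀ t, 0 < cc v n * κ * Real.exp (x t) * Real.cos (ψ t) := by
    intro t
    have h1 := hH t
    rw [HH_finite (cc_supp v), Finset.sum_range_succ] at h1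
    set R := ∑ k ∈ Finset.range n, ((cc v k : ℝ) : ℂ) * exp (I * k * t) with hR
    have hRn : ‖R‖ ≤ 1 / 2 * |cc v n| := by
      rw [hcn]
      refine le_trans (norm_sum_le _ _) (le_trans (le_of_eq ?_) hn)
      refine Finset.sum_congr rfl fun k _ => ?_
      have : ‖exp (I * (k:ℂ) * t)‖ = 1 := by
        have := norm_ek k t
        push_cast at this; exact this
      rw [norm_mul, Complex.norm_real, Real.norm_eq_abs, cc_abs h.2.1, this, mul_one]
    have h2 : GG n μ ε φ t * exp (-(I * n * t)) = (Real.exp (x t) : ℝ) * exp ((ψ t : ℝ) * I) := by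
      rw [GG, gg, ofReal_exp, ← exp_add, ← exp_add]
      congr 1
      rw [hψ, hx]
      push_cast
      ring
    have h3 : (κ : ℂ) * ((Real.exp (x t) : ℝ) * exp ((ψ t : ℝ) * I)) = (cc v n : ℝ) + R * exp (-(I * n * t)) := by
      rw [← h2, ← mul_assoc, ← h1, add_mul, add_comm, mul_assoc, ← exp_add]
      congr 1
      have : I * ((n:ℤ):ℂ) * (t:ℂ) + -(I * n * t) = 0 := by push_cast; ring
      rw [show (I * (n:ℂ) * (t:ℂ) + -(I * n * t)) = 0 by ring, exp_zero, mul_one]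
    have h4 := congrArg Complex.re h3
    rw [← mul_assoc, ← ofReal_mul, re_ofReal_mul, exp_ofReal_mul_I_re, add_re, ofReal_re] at h4
    have h5 : |(R * exp (-(I * n * t))).re| ≤ 1 / 2 * |cc v n| := by
      refine (abs_re_le_norm _).trans ?_
      have : ‖exp (-(I * (n:ℂ) * t))‖ = 1 := by
        have := norm_ek (-(n:ℤ)) t
        rw [← this]; congr 2; push_cast; ring
      rw [norm_mul, this, mul_one]; exact hRn
    have h6 : 0 < |cc v n| := by rw [hcn]; exact hvn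
    have h7 : cc v n * κ * Real.exp (x t) * Real.cos (ψ t) =
        |cc v n| ^ 2 + cc v n * (R * exp (-(I * n * t))).re := by
      rw [sq_abs]
      linear_combination (cc v n) * h4
    rw [h7]
    have h8 : -(|cc v n| * (1 / 2 * |cc v n|)) ≤ cc v n * (R * exp (-(I * n * t))).re := by
      refine le_trans (neg_le_neg ?_) (neg_abs_le _)
      rw [abs_mul]
      exact mul_le_mul_of_nonneg_left h5 (abs_nonneg _)
    nlinarith
  have hψ0 : ψ 0 = 0 := by
    simp only [hψ, hφ, fl_zero]; ring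
  have hpos : 0 < cc v n * κ := by
    have h1 := key 0
    rw [hψ0, Real.cos_zero, mul_one] at h1
    exact (pos_iff_pos_of_mul_pos h1).2 (Real.exp_pos _)
  have hcos : ∀ t, 0 < Real.cos (ψ t) := by
    intro t
    have h1 := key t
    exact (pos_iff_pos_of_mul_pos h1).1 (mul_pos hpos (Real.exp_pos _))
  have hcont : Continuous ψ := by
    have : Continuous φ := (fl_sol _ _ _ _).cont
    simp only [hψ]; fun_prop
  have hpi := Real.pi_pos
  have hb1 : ψ (2 * Real.pi) < Real.pi / 2 := by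
    by_contra hcon
    push Not at hcon
    obtain ⟨t, ht⟩ := mem_range_of_exists_le_of_exists_ge hcont (c := Real.pi / 2)
      ⟨0, by rw [hψ0]; positivity⟩ ⟨_, hcon⟩
    have := hcos t
    rw [ht, Real.cos_pi_div_two] at this
    exact lt_irrefl _ this
  have hb2 : -(Real.pi / 2) < ψ (2 * Real.pi) := by
    by_contra hcon
    push Not at hcon
    obtain ⟨t, ht⟩ := mem_range_of_exists_le_of_exists_ge hcont (c := -(Real.pi / 2))
      ⟨_, hcon⟩ ⟨0, by rw [hψ0]; linarith⟩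
    have := hcos t
    rw [ht, Real.cos_neg, Real.cos_pi_div_two] at this
    exact lt_irrefl _ this
  have hval : ψ (2 * Real.pi) = 2 * Real.pi * (m - n) := by
    have : φ (2 * Real.pi) = Real.pi / 2 + 2 * Real.pi * (1 - n + 2 * m) := hm
    simp only [hψ, this]; ring
  rw [hval] at hb1 hb2
  have h1 : (m:ℝ) - n < 1 := by
    by_contra hcon
    push Not at hcon
    nlinarith
  have h2 : -1 < (m:ℝ) - n := by
    by_contra hcon
    push Not at hcon
    nlinarith
  have h3 : m = n := by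
    have h4 : m - (n:ℤ) < 1 := by exact_mod_cast h1
    have h5 : -1 < m - (n:ℤ) := by exact_mod_cast h2
    omega
  rw [hm, h3]; push_cast; ring

/-- The value at `π/2` along the Perron branch. -/
lemma PF_lock {n : ℕ} {δ : ℝ} (hδ : 0 < δ) :
    P (n + 1) (2 * MM n δ) (2 * ((-1) ^ n * δ)) (Real.pi / 2) =
      Real.pi / 2 + 2 * Real.pi * ((n + 1 : ℤ) : ℝ) := by
  set g : ℝ → ℝ := fun δ => (P (n + 1) (2 * MM n δ) (2 * ((-1) ^ n * δ)) (Real.pi / 2) - Real.pi / 2) /
    (2 * Real.pi) with hg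
  have hpi := Real.pi_pos
  have hgc : ContinuousOn g (Ioi 0) := by
    have h1 : ContinuousOn (fun δ : ℝ => (((n:ℝ) + 1, 2 * MM n δ, 2 * ((-1) ^ n * δ), Real.pi / 2) :
        ℝ × ℝ × ℝ × ℝ)) (Ioi 0) := by
      have := MM_cont n
      fun_prop
    have h2 := continuous_P.comp_continuousOn h1
    exact (h2.sub continuousOn_const).div_const _
  have hint : ∀ x, 0 < x → ∃ N : ℤ, g x = N := by
    intro x hx
    obtain ⟨v, hv⟩ := MM_spec n hx
    obtain ⟨-, -, m, hm⟩ := PF_sol hv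
    refine ⟨1 - n + 2 * m, ?_⟩
    simp only [hg, hm]
    push_cast
    field_simp
    ring
  obtain ⟨δ0, hδ0, hM0⟩ := MM_small n
  have hg0 : g δ0 = ((n + 1 : ℤ) : ℝ) := by
    obtain ⟨v, hv⟩ := MM_spec n hδ0
    have := PF_small hδ0 hv hM0
    simp only [hg, this]
    field_simp
    ring
  have hconst : g δ = g δ0 := by
    obtain ⟨N, hN⟩ := hint δ hδ
    obtain ⟨N0, hN0⟩ := hint δ0 hδ0
    by_contra hne
    rw [hN, hN0] at hne
    have hne' : N ≠ N0 := fun h => hne (by rw [h])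
    have hoc := (isPreconnected_Ioi.image g hgc).ordConnected
    have hmem : ((min N N0 : ℤ) : ℝ) + 1 / 2 ∈ g '' Ioi 0 := by
      have h1 : g δ ∈ g '' Ioi 0 := ⟨δ, hδ, rfl⟩
      have h2 : g δ0 ∈ g '' Ioi 0 := ⟨δ0, hδ0, rfl⟩
      have hsub := hoc.uIcc_subset h1 h2
      apply hsub
      rw [hN, hN0, mem_uIcc]
      rcases lt_or_gt_of_ne hne' with h | h
      · left
        have h3 : (N:ℝ) + 1 ≤ N0 := by exact_mod_cast h
        rw [min_eq_left h.le]
        constructor <;> linarith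
      · right
        have h3 : (N0:ℝ) + 1 ≤ N := by exact_mod_cast h
        rw [min_eq_right h.le]
        constructor <;> linarith
    obtain ⟨y, hy, hy2⟩ := hmem
    obtain ⟨Ny, hNy⟩ := hint y hy
    rw [hNy] at hy2
    have h3 : (2 * Ny : ℝ) = 2 * (min N N0 : ℤ) + 1 := by linarith
    have h4 : (2 * Ny : ℤ) = 2 * (min N N0 : ℤ) + 1 := by exact_mod_cast h3
    omega
  rw [hg0] at hconst
  simp only [hg] at hconst
  rw [div_eq_iff (by positivity)] at hconst
  linarith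

end H535R3
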