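import Pool.Agent.H535R3.JK

set_option autoImplicit false
open Set Filter Topology

namespace H535R3

/-- `μ^m / m!`. -/
noncomputable def gf (μ : ℝ) (m : ℤ) : ℝ := if 0 ≤ m then μ ^ m.toNat / (m.toNat).factorial else 0

lemma gf_neg {μ : ℝ} {m : ℤ} (h : m < 0) : gf μ m = 0 := by
  unfold gf; rw [if_neg (by omega)]

lemma gf_nonneg {μ : ℝ} (hμ : 0 < μ) (m : ℤ) : 0 ≤ gf μ m := by
  unfold gf; split_ifs <;> positivity

lemma gf_rec (μ : ℝ) (m : ℤ) : (m : ℝ) * gf μ m = μ * gf μ (m - 1) := by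
  rcases lt_trichotomy m 0 with h | h | h
  · rw [gf_neg h, gf_neg (by omega)]; ring
  · subst h
    have h1 : gf μ (0 - 1) = 0 := gf_neg (by norm_num)
    rw [h1]; simp
  · obtain ⟨k, hk⟩ : ∃ k : ℕ, m = k + 1 := ⟨(m - 1).toNat, by omega⟩
    subst hk
    unfold gf
    rw [if_pos (by omega), if_pos (by omega)]
    have e1 : ((k:ℤ) + 1).toNat = k + 1 := by omega
    have e2 : ((k:ℤ) + 1 - 1).toNat = k := by omega
    rw [e1, e2, Nat.factorial_succ]
    push_cast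
    have : ((k.factorial : ℕ) : ℝ) ≠ 0 := by exact_mod_cast k.factorial_ne_zero
    have : ((k:ℝ) + 1) ≠ 0 := by positivity
    field_simp
    ring

lemma gf_summable (μ : ℝ) : Summable (gf μ) := by
  have h : Function.Injective ((↑) : ℕ → ℤ) := Nat.cast_injective
  rw [← h.summable_iff]
  · have : (gf μ ∘ ((↑) : ℕ → ℤ)) = fun n : ℕ => μ ^ n / n.factorial := by
      funext k; simp [gf]
    rw [this]
    exact Real.summable_pow_div_factorial μ
  · intro x hx
    apply gf_neg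
    by_contra hcon
    push Not at hcon
    exact hx ⟨x.toNat, Int.toNat_of_nonneg hcon⟩

lemma gf_le {μ : ℝ} (hμ : 0 < μ) (m : ℤ) : gf μ m ≤ ∑' r, gf μ r :=
  (gf_summable μ).le_tsum m fun j _ => gf_nonneg hμ j

lemma gg_summable {μ : ℝ} (hμ : 0 < μ) (i j : ℤ) : Summable fun r : ℤ => gf μ (r + i) * gf μ (r + j) := by
  have h1 : Summable fun r : ℤ => gf μ (r + i) := (Equiv.addRight i).summable_iff (f := gf μ) |>.2 (gf_summable μ)
  refine Summable.of_nonneg_of_le (fun r => mul_nonneg (gf_nonneg hμ _) (gf_nonneg hμ _))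
    (fun r => ?_) (h1.mul_right (∑' r, gf μ r))
  exact mul_le_mul_of_nonneg_left (gf_le hμ _) (gf_nonneg hμ _)

/-- Bessel coefficients. -/
noncomputable def bs (μ : ℝ) (k : ℤ) : ℝ := ∑' r : ℤ, gf μ r * gf μ (r + k)

lemma bs_shift {μ : ℝ} (i k : ℤ) : ∑' r : ℤ, gf μ (r + i) * gf μ (r + i + k) = bs μ k := by
  exact (Equiv.addRight i).tsum_eq (fun r => gf μ r * gf μ (r + k))

lemma bs_even (μ : ℝ) (k : ℤ) : bs μ (-k) = bs μ k := by
  rw [← bs_shift k (-k), bs]
  refine tsum_congr fun r => ?_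
  rw [show r + k + -k = r by ring, mul_comm]

lemma bs_rec {μ : ℝ} (hμ : 0 < μ) (k : ℤ) : (k : ℝ) * bs μ k = μ * (bs μ (k - 1) - bs μ (k + 1)) := by
  have h1 : bs μ (k + 1) = ∑' r : ℤ, gf μ (r - 1) * gf μ (r + k) := by
    rw [← bs_shift (-1) (k + 1)]
    refine tsum_congr fun r => ?_
    rw [show r + -1 = r - 1 by ring, show r - 1 + (k + 1) = r + k by ring]
  have s1 : Summable fun r : ℤ => gf μ r * gf μ (r + (k - 1)) := by
    simpa using gg_summable hμ 0 (k - 1)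
  have s2 : Summable fun r : ℤ => gf μ (r - 1) * gf μ (r + k) := by
    simpa [sub_eq_add_neg] using gg_summable hμ (-1) k
  rw [h1, mul_sub, bs, bs, ← tsum_mul_left, ← tsum_mul_left, ← tsum_mul_left,
    ← (s1.mul_left μ).tsum_sub (s2.mul_left μ)]
  refine tsum_congr fun r => ?_
  have h2 := gf_rec μ (r + k)
  have h3 := gf_rec μ r
  rw [show r + k - 1 = r + (k - 1) by ring] at h2
  push_cast at h2
  linear_combination (gf μ r) * h2 - (gf μ (r + k)) * h3

lemma bs_bound {μ : ℝ} (hμ : 0 < μ) (k : ℤ) : |bs μ k| ≤ (∑' r, gf μ r) * (∑' r, gf μ r) := by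
  have h0 : 0 ≤ bs μ k := tsum_nonneg fun r => mul_nonneg (gf_nonneg hμ _) (gf_nonneg hμ _)
  rw [abs_of_nonneg h0, bs, ← tsum_mul_right]
  refine Summable.tsum_le_tsum (fun r => mul_le_mul_of_nonneg_left (gf_le hμ _) (gf_nonneg hμ _)) ?_
    ((gf_summable μ).mul_right _)
  simpa using gg_summable hμ 0 k

/-- `F`. -/
noncomputable def FF (μ : ℝ) (c : ℤ → ℝ) (j : ℤ) : ℝ := ∑' k : ℤ, c k * bs μ (j - k)

lemma FF_summable {μ : ℝ} (hμ : 0 < μ) {c : ℤ → ℝ} (hc : Summable fun k => |c k|) (j : ℤ) :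
    Summable fun k : ℤ => c k * bs μ (j - k) := by
  refine Summable.of_norm_bounded (hc.mul_right ((∑' r, gf μ r) * (∑' r, gf μ r))) fun k => ?_
  rw [Real.norm_eq_abs, abs_mul]
  exact mul_le_mul_of_nonneg_left (bs_bound hμ _) (abs_nonneg _)

lemma FF_rec {n : ℕ} {μ e : ℝ} (hμ : 0 < μ) {c : ℤ → ℝ} (hr : RRec n μ e c)
    (hc : Summable fun k => |c k|) (j : ℤ) :
    ((j : ℝ) - n) * FF μ c j = μ * FF μ c (j - 1) - e * FF μ c (n - 1 - j) := by
  have s0 := FF_summable hμ hc j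
  have s1 := FF_summable hμ hc (j - 1)
  have s2 := FF_summable hμ hc (j + 1)
  have hc3 : Summable fun k : ℤ => |c (k + 1)| :=
    ((Equiv.addRight (1:ℤ)).summable_iff (f := fun k => |c k|)).2 hc
  have s3 : Summable fun k : ℤ => c (k + 1) * bs μ (j - k) := FF_summable (c := fun k => c (k + 1)) hμ hc3 j
  have hc4 : Summable fun k : ℤ => |c (n - 1 - k)| :=
    ((Equiv.subLeft ((n:ℤ) - 1)).summable_iff (f := fun k => |c k|)).2 hc
  have s4 : Summable fun k : ℤ => c (n - 1 - k) * bs μ (j - k) :=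
    FF_summable (c := fun k => c (n - 1 - k)) hμ hc4 j
  have e3 : ∑' k : ℤ, c (k + 1) * bs μ (j - k) = FF μ c (j + 1) := by
    rw [FF, ← (Equiv.addRight (1:ℤ)).tsum_eq (fun k => c k * bs μ (j + 1 - k))]
    refine tsum_congr fun k => ?_
    simp only [Equiv.coe_addRight]
    rw [show j + 1 - (k + 1) = j - k by ring]
  have e4 : ∑' k : ℤ, c (n - 1 - k) * bs μ (j - k) = FF μ c (n - 1 - j) := by
    rw [FF, ← (Equiv.subLeft ((n:ℤ) - 1)).tsum_eq (fun k => c k * bs μ (n - 1 - j - k))]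
    refine tsum_congr fun k => ?_
    simp only [Equiv.subLeft_apply]
    rw [← bs_even μ (j - k), show (n:ℤ) - 1 - j - (n - 1 - k) = -(j - k) by ring]
  have key : ∑' k : ℤ, ((j : ℝ) - n) * (c k * bs μ (j - k)) =
      ∑' k : ℤ, (μ * (c k * bs μ (j - 1 - k)) - μ * (c k * bs μ (j + 1 - k)) +
        μ * (c (k + 1) * bs μ (j - k)) - e * (c (n - 1 - k) * bs μ (j - k))) := by
    refine tsum_congr fun k => ?_
    have h1 := bs_rec hμ (j - k)
    have h2 := hr k
    rw [show j - k - 1 = j - 1 - k by ring, show j - k + 1 = j + 1 - k by ring] at h1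
    push_cast at h1
    linear_combination (c k) * h1 - (bs μ (j - k)) * h2
  rw [tsum_mul_left] at key
  have hF : FF μ c j = ∑' k : ℤ, c k * bs μ (j - k) := rfl
  rw [hF, key, (((s1.mul_left μ).sub (s2.mul_left μ)).add (s3.mul_left μ)).tsum_sub (s4.mul_left e),
    ((s1.mul_left μ).sub (s2.mul_left μ)).tsum_add (s3.mul_left μ),
    (s1.mul_left μ).tsum_sub (s2.mul_left μ), tsum_mul_left, tsum_mul_left, tsum_mul_left,
    tsum_mul_left, e3, e4]
  have h5 : ∑' k : ℤ, c k * bs μ (j - 1 - k) = FF μ c (j - 1) := rfl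
  have h6 : ∑' k : ℤ, c k * bs μ (j + 1 - k) = FF μ c (j + 1) := rfl
  rw [h5, h6]; ring

lemma FF_bound {μ : ℝ} (hμ : 0 < μ) {c : ℤ → ℝ} (hc : Summable fun k => |c k|) :
    ∃ B, ∀ j, |FF μ c j| ≤ B := by
  refine ⟨∑' k, |c k| * ((∑' r, gf μ r) * (∑' r, gf μ r)), fun j => ?_⟩
  have s0 := FF_summable hμ hc j
  rw [FF, ← Real.norm_eq_abs]
  refine (norm_tsum_le_tsum_norm s0.norm).trans ?_
  refine Summable.tsum_le_tsum (fun k => ?_) s0.norm (hc.mul_right _)
  rw [Real.norm_eq_abs, abs_mul]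
  exact mul_le_mul_of_nonneg_left (bs_bound hμ _) (abs_nonneg _)

/-- The pairing gives `F (-1) = 0`. -/
lemma FF_neg_one {n : ℕ} {μ e : ℝ} (hμ : 0 < μ) {c c' : ℤ → ℝ} (hr : RRec n μ e c)
    (hc : Summable fun k => |c k|) (hr' : RRec n μ (-e) c') (hb' : ∃ C, ∀ k, |c' k| ≤ C)
    (h0 : c' (-1) ≠ 0) : FF μ c (-1) = 0 := by
  set F := FF μ c with hF
  have hFr : ∀ j : ℤ, ((j : ℝ) - n) * F j = μ * F (j - 1) - e * F (n - 1 - j) := FF_rec hμ hr hc
  let T : ℕ → ℝ := fun J => (J : ℝ) * F (n + J) * c' (n + J) - (n + 1 + J) * F (-1 - J) * c' (-1 - J)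
  have hT : ∀ J, T (J + 1) = T J := by
    intro J
    simp only [T]
    have h1 := hFr (n + (J + 1 : ℕ))
    have h2 := hr' (n + J)
    have h3 := hr' (-1 - (J + 1 : ℕ))
    have h4 := hFr (-1 - J)
    have e1 : (n:ℤ) + ((J + 1 : ℕ) : ℤ) - 1 = n + J := by push_cast; ring
    have e2 : (n:ℤ) - 1 - (n + ((J + 1 : ℕ) : ℤ)) = -1 - ((J + 1 : ℕ) : ℤ) := by push_cast; ring
    have e3 : (n:ℤ) + J + 1 = n + ((J + 1 : ℕ) : ℤ) := by push_cast; ring
    have e4 : (n:ℤ) - 1 - (n + J) = -1 - J := by ring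
    have e5 : -1 - ((J + 1 : ℕ) : ℤ) + 1 = -1 - J := by push_cast; ring
    have e6 : (n:ℤ) - 1 - (-1 - ((J + 1 : ℕ) : ℤ)) = n + ((J + 1 : ℕ) : ℤ) := by push_cast; ring
    have e7 : (-1 - (J:ℤ)) - 1 = -1 - ((J + 1 : ℕ) : ℤ) := by push_cast; ring
    have e8 : (n:ℤ) - 1 - (-1 - J) = n + J := by ring
    rw [e1, e2] at h1
    rw [e3, e4] at h2
    rw [e5, e6] at h3
    rw [e7, e8] at h4
    push_cast at h1 h2 h3 h4 ⊢
    generalize F (n + (J + 1)) = a1 at *
    generalize F (-1 - (J + 1)) = a2 at *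
    generalize F (n + J) = a3 at *
    generalize F (-1 - J) = a4 at *
    generalize c' (n + (J + 1)) = b1 at *
    generalize c' (-1 - (J + 1)) = b2 at *
    generalize c' (n + J) = b3 at *
    generalize c' (-1 - J) = b4 at *
    linear_combination b1 * h1 + a3 * h2 - a2 * h3 - b4 * h4
  have hTc : ∀ J, T J = T 0 := by
    intro J
    induction J with
    | zero => rfl
    | succ J ih => rw [hT, ih]
  obtain ⟨B, hB⟩ := FF_bound hμ hc
  obtain ⟨D, hD0, hD⟩ := decay hr' hb' 3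
  have hB0 : 0 ≤ B := (abs_nonneg _).trans (hB 0)
  have hlim : Tendsto T atTop (𝓝 0) := by
    have hz : Tendsto (fun J : ℕ => (2 * B * D * (n + 1)) / ((J : ℝ) + 1)) atTop (𝓝 0) :=
      tendsto_const_nhds.div_atTop (tendsto_atTop_add_const_right _ _ tendsto_natCast_atTop_atTop)
    refine squeeze_zero_norm (fun J => ?_) hz
    have hJ : (0:ℝ) ≤ J := Nat.cast_nonneg _
    have hn : (0:ℝ) ≤ n := Nat.cast_nonneg _
    have hc : ∀ k : ℤ, (J:ℝ) ≤ |(k:ℝ)| → |c' k| * ((J:ℝ) + 1) ^ 2 ≤ D := by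
      intro k hk
      refine le_trans ?_ (hD k)
      have h1 : ((J:ℝ) + 1) ^ 2 ≤ (1 + |(k:ℝ)|) ^ 3 := by
        calc ((J:ℝ) + 1) ^ 2 ≤ (1 + |(k:ℝ)|) ^ 2 := pow_le_pow_left₀ (by positivity) (by linarith) 2
          _ ≤ (1 + |(k:ℝ)|) ^ 3 := by
            apply pow_le_pow_right₀ _ (by norm_num)
            have := abs_nonneg (k:ℝ)
            linarith
      gcongr
    have h1 := hc (n + J) (by push_cast; rw [abs_of_nonneg (by positivity)]; linarith)
    have h2 := hc (-1 - J) (by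
      push_cast
      rw [abs_of_nonpos (by linarith)]; linarith)
    rw [Real.norm_eq_abs, le_div_iff₀ (by positivity)]
    have h3 : |T J| ≤ (J : ℝ) * B * |c' (n + J)| + (n + 1 + J) * B * |c' (-1 - J)| := by
      simp only [T]
      refine (abs_sub _ _).trans ?_
      rw [abs_mul, abs_mul, abs_mul, abs_mul, abs_of_nonneg hJ,
        abs_of_nonneg (by positivity : (0:ℝ) ≤ (n:ℝ) + 1 + J)]
      gcongr
      · exact hB _
      · exact hB _
    calc |T J| * ((J:ℝ) + 1) ≤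
        ((J : ℝ) * B * |c' (n + J)| + (n + 1 + J) * B * |c' (-1 - J)|) * ((J:ℝ) + 1) := by gcongr
      _ ≤ ((n + 1) * (J + 1) * B * |c' (n + J)| + (n + 1) * (J + 1) * B * |c' (-1 - J)|) * ((J:ℝ) + 1) := by
          gcongr
          · nlinarith
          · nlinarith
      _ = (n + 1) * B * (|c' (n + J)| * ((J:ℝ) + 1) ^ 2) + (n + 1) * B * (|c' (-1 - J)| * ((J:ℝ) + 1) ^ 2) := by
          ring
      _ ≤ (n + 1) * B * D + (n + 1) * B * D := by gcongr
      _ = 2 * B * D * (n + 1) := by ring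
  have h5 : T 0 = 0 := by
    have h6 : Tendsto T atTop (𝓝 (T 0)) := by
      rw [show T = fun _ => T 0 from funext hTc]; exact tendsto_const_nhds
    exact tendsto_nhds_unique h6 hlim
  simp only [T, Nat.cast_zero, zero_mul, zero_sub, add_zero, sub_zero] at h5
  have h7 : ((n:ℝ) + 1) * F (-1) * c' (-1) = 0 := by
    have := neg_eq_zero.1 h5
    simpa using this
  rcases mul_eq_zero.1 h7 with h8 | h8
  · exact (mul_eq_zero.1 h8).resolve_left (by positivity)
  · exact absurd h8 h0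

end H535R3
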