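import Pool.Agent.H535R3.JL

set_option autoImplicit false
open Set Filter Topology

namespace H535R3

lemma FF_middle {n : ℕ} {μ e : ℝ} (hμ : 0 < μ) {c : ℤ → ℝ} (hr : RRec n μ e c)
    (hc : Summable fun k => |c k|) (h0 : FF μ c (-1) = 0) (j : ℤ) (hj1 : -1 ≤ j) (hj2 : j < n) :
    FF μ c j = 0 := by
  set F := FF μ c with hF
  have hFr : ∀ j : ℤ, ((j : ℝ) - n) * F j = μ * F (j - 1) - e * F (n - 1 - j) := FF_rec hμ hr hc
  have key : ∀ i : ℕ, i ≤ n → F (-1 + i) = 0 ∧ F (n - 1 - i) = 0 := by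
    intro i
    induction i with
    | zero =>
      intro _
      refine ⟨by simpa using h0, ?_⟩
      have h1 := hFr n
      rw [show (n:ℤ) - 1 - n = -1 by ring, h0] at h1
      push_cast at h1
      rw [sub_self, zero_mul, mul_zero, sub_zero] at h1
      have := (mul_eq_zero.1 h1.symm).resolve_left hμ.ne'
      simpa using this
    | succ i ih =>
      intro hi
      obtain ⟨h1, h2⟩ := ih (by omega)
      have h3 := hFr (-1 + (i + 1 : ℕ))
      rw [show (-1 + ((i + 1 : ℕ) : ℤ)) - 1 = -1 + i by push_cast; ring,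
        show (n:ℤ) - 1 - (-1 + ((i + 1 : ℕ) : ℤ)) = n - 1 - i by push_cast; ring, h1, h2] at h3
      rw [mul_zero, mul_zero, sub_zero] at h3
      have hne : (((-1 + ((i + 1 : ℕ) : ℤ) : ℤ)) : ℝ) - n ≠ 0 := by
        push_cast
        have : ((i + 1 : ℕ) : ℝ) ≤ n := by exact_mod_cast hi
        push_cast at this
        intro hz
        linarith
      have h4 := (mul_eq_zero.1 h3).resolve_left hne
      refine ⟨h4, ?_⟩
      have h5 := hFr (n - 1 - i)
      rw [show (n:ℤ) - 1 - i - 1 = n - 1 - ((i + 1 : ℕ) : ℤ) by push_cast; ring,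
        show (n:ℤ) - 1 - (n - 1 - i) = -1 + ((i + 1 : ℕ) : ℤ) by push_cast; ring, h2, h4] at h5
      rw [mul_zero, mul_zero, sub_zero] at h5
      exact (mul_eq_zero.1 h5.symm).resolve_left hμ.ne'
  have := (key (j + 1).toNat (by omega)).1
  rwa [show -1 + (((j + 1).toNat : ℕ) : ℤ) = j by omega] at this

/-- `s`. -/
noncomputable def ss (n : ℕ) (μ : ℝ) (c : ℤ → ℝ) (r : ℤ) : ℝ :=
  ∑ k ∈ Finset.Icc (0:ℤ) n, c k * gf μ (r + 1 - n + k)

lemma FF_fin {n : ℕ} {μ : ℝ} {c : ℤ → ℝ} (h : ∀ k : ℤ, k < 0 ∨ n < k → c k = 0) (j : ℤ) :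
    FF μ c j = ∑ k ∈ Finset.Icc (0:ℤ) n, c k * bs μ (j - k) := by
  rw [FF]
  refine tsum_eq_sum fun k hk => ?_
  rw [Finset.mem_Icc] at hk
  rw [h k (by omega), zero_mul]

lemma ss_hasSum {n : ℕ} {μ : ℝ} (hμ : 0 < μ) {c : ℤ → ℝ} (h : ∀ k : ℤ, k < 0 ∨ n < k → c k = 0)
    (i : ℤ) : HasSum (fun r : ℤ => gf μ (r - i) * ss n μ c r) (FF μ c (n - 1 - i)) := by
  rw [FF_fin h]
  have h1 : (fun r : ℤ => gf μ (r - i) * ss n μ c r) =
      fun r => ∑ k ∈ Finset.Icc (0:ℤ) n, c k * (gf μ (r - i) * gf μ (r + 1 - n + k)) := by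
    funext r
    rw [ss, Finset.mul_sum]
    exact Finset.sum_congr rfl fun k _ => by ring
  rw [h1]
  refine hasSum_sum fun k _ => ?_
  refine HasSum.mul_left _ ?_
  have s1 : Summable fun r : ℤ => gf μ (r - i) * gf μ (r + 1 - n + k) := by
    have := gg_summable hμ (-i) (1 - n + k)
    refine this.congr fun r => ?_
    rw [show r + -i = r - i by ring, show r + (1 - (n:ℤ) + k) = r + 1 - n + k by ring]
  have h2 : ∑' r : ℤ, gf μ (r - i) * gf μ (r + 1 - n + k) = bs μ (n - 1 - i - k) := by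
    rw [← bs_even, ← bs_shift (-i)]
    refine tsum_congr fun r => ?_
    rw [show r + -i = r - i by ring, show r - i + -((n:ℤ) - 1 - i - k) = r + 1 - n + k by ring]
  rw [← h2]
  exact s1.hasSum

lemma ss_mul (n : ℕ) (μ : ℝ) (c : ℤ → ℝ) (r : ℤ) : ((r : ℝ) + 1) * ss n μ c r =
    ∑ k ∈ Finset.Icc (0:ℤ) n, c k * (μ * gf μ (r - (n - k)) + ((n:ℝ) - k) * gf μ (r - (n - k - 1))) := by
  rw [ss, Finset.mul_sum]
  refine Finset.sum_congr rfl fun k _ => ?_
  have h1 := gf_rec μ (r + 1 - n + k)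
  rw [show r + 1 - n + k - 1 = r - (n - k) by ring] at h1
  rw [show r - ((n:ℤ) - k - 1) = r + 1 - n + k by ring]
  push_cast at h1
  linear_combination (c k) * h1

lemma no_both {n : ℕ} {μ e : ℝ} (hμ : 0 < μ) (he : e ≠ 0) {c c' : ℤ → ℝ} (hr : RRec n μ e c)
    (hs : ∀ k : ℤ, k < 0 ∨ n < k → c k = 0) (hc0 : c 0 ≠ 0) (hr' : RRec n μ (-e) c')
    (hb' : ∃ C, ∀ k, |c' k| ≤ C) (h0 : c' (-1) ≠ 0) : False := by
  have hc : Summable fun k => |c k| := summable_c (supp_summable hs)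
  have hF0 := FF_neg_one hμ hr hc hr' hb' h0
  have hF := FF_middle hμ hr hc hF0
  -- the quadratic sum
  have hsum : HasSum (fun r : ℤ => (((r : ℝ) + 1) * ss n μ c r) * ss n μ c r) 0 := by
    have h1 : (fun r : ℤ => (((r : ℝ) + 1) * ss n μ c r) * ss n μ c r) = fun r =>
        ∑ k ∈ Finset.Icc (0:ℤ) n, (c k * (μ * (gf μ (r - (n - k)) * ss n μ c r) +
          ((n:ℝ) - k) * (gf μ (r - (n - k - 1)) * ss n μ c r))) := by
      funext r
      rw [ss_mul, Finset.sum_mul]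
      exact Finset.sum_congr rfl fun k _ => by ring
    rw [h1]
    have h2 : (0:ℝ) = ∑ k ∈ Finset.Icc (0:ℤ) n, (c k * (μ * FF μ c (n - 1 - (n - k)) +
          ((n:ℝ) - k) * FF μ c (n - 1 - (n - k - 1)))) := by
      symm
      refine Finset.sum_eq_zero fun k hk => ?_
      rw [Finset.mem_Icc] at hk
      rw [hF (n - 1 - (n - k)) (by omega) (by omega)]
      by_cases hkn : k = n
      · rw [hkn]; push_cast; ring
      · rw [hF (n - 1 - (n - k - 1)) (by omega) (by omega)]; ring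
    rw [h2]
    refine hasSum_sum fun k _ => ?_
    exact HasSum.mul_left _ (((ss_hasSum hμ hs _).mul_left _).add ((ss_hasSum hμ hs _).mul_left _))
  have hnn : ∀ r : ℤ, 0 ≤ (((r : ℝ) + 1) * ss n μ c r) * ss n μ c r := by
    intro r
    by_cases hrr : -1 ≤ r
    · have : (0:ℝ) ≤ (r:ℝ) + 1 := by
        have : ((-1:ℤ):ℝ) ≤ r := by exact_mod_cast hrr
        push_cast at this; linarith
      rw [mul_assoc]
      exact mul_nonneg this (mul_self_nonneg _)
    · have : ss n μ c r = 0 := by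
        rw [ss]
        refine Finset.sum_eq_zero fun k hk => ?_
        rw [Finset.mem_Icc] at hk
        rw [gf_neg (by omega), mul_zero]
      rw [this, mul_zero]
  have hz := congrFun ((hasSum_zero_iff_of_nonneg hnn).1 hsum) 0
  simp only [Int.cast_zero, zero_add, one_mul, Pi.zero_apply] at hz
  have hs0 : ss n μ c 0 = 0 := mul_self_eq_zero.1 hz
  -- s 0 = e c 0
  have hval : ss n μ c 0 = μ * c n + c (n - 1) := by
    have h1 : ss n μ c 0 = ∑' k : ℤ, c k * gf μ (0 + 1 - n + k) := by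
      rw [ss]
      symm
      refine tsum_eq_sum fun k hk => ?_
      rw [Finset.mem_Icc] at hk
      rw [hs k (by omega), zero_mul]
    have h2 : ∑' k : ℤ, c k * gf μ (0 + 1 - n + k) =
        ∑ k ∈ ({(n:ℤ) - 1, (n:ℤ)} : Finset ℤ), c k * gf μ (0 + 1 - n + k) := by
      refine tsum_eq_sum fun k hk => ?_
      simp only [Finset.mem_insert, Finset.mem_singleton] at hk
      push Not at hk
      by_cases hkn : k < n
      · rw [gf_neg (by omega), mul_zero]
      · rw [hs k (by omega), zero_mul]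
    rw [h1, h2, Finset.sum_pair (by omega)]
    have e1 : (0:ℤ) + 1 - n + (n - 1) = 0 := by ring
    have e2 : (0:ℤ) + 1 - n + n = 1 := by ring
    rw [e1, e2]
    simp [gf]
    ring
  have h3 := hr (n - 1)
  rw [show (n:ℤ) - 1 + 1 = n by ring, show (n:ℤ) - 1 - (n - 1) = 0 by ring] at h3
  push_cast at h3
  have h4 : e * c 0 = 0 := by
    rw [← h3, ← hs0, hval]; ring
  exact (mul_ne_zero he hc0) h4

/-- `GG` representation when the outer part vanishes. -/
lemma poly_rep {n : ℕ} {μ ε : ℝ} (hμ : μ ≠ 0) {c : ℤ → ℝ} (hr : RRec n μ (ε / 2) c)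
    (hG : Summable c → ∀ t : ℝ, HasSum (fun k : ℤ => (c k : ℂ) * Complex.exp (Complex.I * k * t))
        (GG n μ ε (fl (n + 1) (2 * μ) ε (Real.pi / 2)) t)) (h0 : c (-1) = 0) :
    (∀ k : ℤ, k < 0 ∨ n < k → c k = 0) ∧
      ∀ t : ℝ, GG n μ ε (fl (n + 1) (2 * μ) ε (Real.pi / 2)) t =
        ∑ k ∈ Finset.range (n + 1), (c k : ℂ) * Complex.exp (Complex.I * k * t) := by
  have hz := outer_zero hr hμ h0
  have hs := (summable_c (supp_summable hz)).of_abs
  refine ⟨hz, fun t => ?_⟩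
  have h1 := hG hs t
  have h2 : HasSum (fun k : ℤ => (c k : ℂ) * Complex.exp (Complex.I * k * t)) (HH c t) :=
    (HH_summable (summable_c (supp_summable hz)) t).hasSum
  rw [h1.unique h2, HH_finite hz]

/-- Good data from a polynomial solution. -/
lemma good_of {n : ℕ} {μ ε : ℝ} (hμ : 0 < μ) {c : ℤ → ℝ}
    (h : P (n + 1) (2 * μ) ε (Real.pi / 2) = Real.pi / 2 + 2 * Real.pi * ((n + 1 : ℤ) : ℝ))
    (hr : RRec n μ (ε / 2) c) (hs : ∀ k : ℤ, k < 0 ∨ n < k → c k = 0)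
    (hG : ∀ t : ℝ, GG n μ ε (fl (n + 1) (2 * μ) ε (Real.pi / 2)) t =
        ∑ k ∈ Finset.range (n + 1), (c k : ℂ) * Complex.exp (Complex.I * k * t)) :
    Good n μ (ε / 2) c := by
  obtain ⟨h1, h2⟩ := no_zero h hG
  exact ⟨hμ, hr, hs, h1, h2⟩

/-- The Perron point is not a constriction. -/
lemma PF_not_rot {n : ℕ} {δ : ℝ} (hδ : 0 < δ) :
    ¬ ∀ x, P (n + 1) (2 * MM n δ) (2 * ((-1) ^ n * δ)) x = x + 2 * Real.pi * ((n + 1 : ℤ) : ℝ) := by
  intro hall
  obtain ⟨v, hv⟩ := MM_spec n hδ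
  set μ := MM n δ with hμd
  have hμ : 0 < μ := hv.1
  set ε := 2 * ((-1) ^ n * δ) with hε
  have he2 : ε / 2 = (-1) ^ n * δ := by rw [hε, mul_div_cancel_left₀ _ (two_ne_zero)]
  have hs2 : ((-1:ℝ) ^ n) * (-1) ^ n = 1 := by rw [← mul_pow]; norm_num
  have hne : (-1:ℝ) ^ n * δ ≠ 0 := mul_ne_zero (pow_ne_zero _ (by norm_num)) hδ.ne'
  -- symmetric solution for `-ε`
  have h1 : P (n + 1) (2 * μ) (-ε) (Real.pi / 2) = Real.pi / 2 + 2 * Real.pi * ((n + 1 : ℤ) : ℝ) := by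
    have := (P_neg (n + 1) (2 * μ) (-ε) (Real.pi / 2)).1
    rw [neg_neg, hall] at this
    rw [this]; ring
  obtain ⟨c', hr', hb', hG'⟩ := fourier_data h1
  by_cases h0 : c' (-1) = 0
  · obtain ⟨hz, hG⟩ := poly_rep hμ.ne' hr' hG' h0
    have hgood := good_of hμ h1 hr' hz hG
    have hpos := hgood.e_pos (by rw [neg_div, he2]; exact neg_ne_zero.2 hne)
    rw [neg_div, he2] at hpos
    have : (-1:ℝ) ^ n * -((-1) ^ n * δ) = -δ := by linear_combination (-δ) * hs2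
    linarith
  · refine no_both hμ hne (cc_rec hv) (cc_supp v) ?_ (c' := c') ?_ hb' h0
    · rw [← abs_ne_zero, cc_abs hv.2.1]
      exact (ext_pos hv.2.1 le_rfl (by positivity)).ne'
    · rw [neg_div, he2] at hr'; exact hr'

end H535R3
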