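import Pool.Agent.H535R3.JM

set_option autoImplicit false
open Set Filter Topology

namespace H535R3

lemma slice_of_rot {r : ℤ} {b a ε : ℝ} (h1 : ∀ x, P b a ε x = x + 2 * Real.pi * r) :
    {q : ℝ × ℝ | q ∈ Ls r ε ∧ q.2 = a} = {(b, a)} := by
  ext ⟨b', a'⟩
  simp only [mem_ofPred_eq, mem_singleton_iff, Prod.mk.injEq]
  constructor
  · rintro ⟨h2, rfl⟩
    refine ⟨?_, rfl⟩
    by_contra hbb
    rcases lt_or_gt_of_ne hbb with h3 | h3
    · exact not_mem_of_gt h3 (fun x => (h1 x).le) h2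
    · exact not_mem_of_lt h3 (fun x => (h1 x).ge) h2
  · rintro ⟨rfl, rfl⟩
    exact ⟨⟨0, h1 0⟩, rfl⟩

/-- The property defining a simple intersection in scaled coordinates. -/
def Simple (n : ℕ) (ε a : ℝ) : Prop :=
  (((n:ℝ) + 1, a) : ℝ × ℝ) ∈ frontier (Ls ((n:ℤ) + 1) ε) ∧
    {q : ℝ × ℝ | q ∈ Ls ((n:ℤ) + 1) ε ∧ q.2 = a} ≠ {((n:ℝ) + 1, a)}

lemma good_of_simple {n : ℕ} {ε a : ℝ} (ha : 0 < a) (h : Simple n ε a) :
    ∃ (e : ℝ) (c : ℤ → ℝ), |e| = |ε / 2| ∧ Good n (a / 2) e c := by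
  have hnr : ¬ ∀ x, P (n + 1) a ε x = x + 2 * Real.pi * (((n:ℤ) + 1 : ℤ) : ℝ) :=
    fun hr => h.2 (slice_of_rot hr)
  have e2 : 2 * (a / 2) = a := by ring
  rcases sym_of_frontier h.1 h.2 with h1 | h1
  · have h1' : P (n + 1) (2 * (a / 2)) ε (Real.pi / 2) =
      Real.pi / 2 + 2 * Real.pi * (((n:ℤ) + 1 : ℤ) : ℝ) := by rw [e2]; exact h1
    have hnr' : ¬ ∀ x, P (n + 1) (2 * (a / 2)) ε x = x + 2 * Real.pi * (((n:ℤ) + 1 : ℤ) : ℝ) := by
      rw [e2]; exact hnr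
    obtain ⟨c, hr, hs, hG⟩ := poly_of_simple (by positivity) h1' hnr'
    exact ⟨ε / 2, c, rfl, good_of (by positivity) h1' hr hs hG⟩
  · have h2 : P (n + 1) (2 * (a / 2)) (-ε) (Real.pi / 2) =
      Real.pi / 2 + 2 * Real.pi * (((n:ℤ) + 1 : ℤ) : ℝ) := by
      have := (P_neg (n + 1) a ε (-(Real.pi / 2))).1
      rw [h1, show -(Real.pi / 2) + Real.pi = Real.pi / 2 by ring] at this
      rw [e2]; linarith
    have hnr' : ¬ ∀ x, P (n + 1) (2 * (a / 2)) (-ε) x = x + 2 * Real.pi * (((n:ℤ) + 1 : ℤ) : ℝ) := by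
      rw [e2]
      intro hall
      apply hnr
      intro x
      rw [(P_neg (n + 1) a ε x).1, hall]; ring
    obtain ⟨c, hr, hs, hG⟩ := poly_of_simple (by positivity) h2 hnr'
    exact ⟨-ε / 2, c, by rw [neg_div, abs_neg], good_of (by positivity) h2 hr hs hG⟩

lemma simple_unique {n : ℕ} {ε a a' : ℝ} (hε : 0 < ε) (ha : 0 < a) (ha' : 0 < a')
    (h : Simple n ε a) (h' : Simple n ε a') : a = a' := by
  obtain ⟨e, c, he, hg⟩ := good_of_simple ha h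
  obtain ⟨e', c', he', hg'⟩ := good_of_simple ha' h'
  have hne : e ≠ 0 := by
    rw [← abs_ne_zero, he, abs_ne_zero]; positivity
  have := hg.unique hg' hne (he.trans he'.symm)
  linarith

lemma simple_exists (n : ℕ) {ε : ℝ} (hε : 0 < ε) : ∃ a, 0 < a ∧ Simple n ε a := by
  have hδ : 0 < ε / 2 := by positivity
  refine ⟨2 * MM n (ε / 2), mul_pos two_pos (MM_pos n hδ), ?_⟩
  have h1 := PF_lock (n := n) hδ
  have h2 := Kx_sym h1
  have h3 := PF_not_rot (n := n) hδ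
  rcases Nat.even_or_odd n with hn | hn
  · rw [hn.neg_one_pow, show 2 * (1 * (ε / 2)) = ε by ring] at h1 h2 h3
    exact frontier_of_parabolic h1 h2 h3
  · rw [hn.neg_one_pow, show 2 * (-1 * (ε / 2)) = -ε by ring] at h1 h2 h3
    have h4 := P_neg (n + 1) (2 * MM n (ε / 2)) ε (-(Real.pi / 2))
    rw [show -(Real.pi / 2) + Real.pi = Real.pi / 2 by ring, h1, h2] at h4
    refine frontier_of_parabolic (x0 := -(Real.pi / 2)) ?_ h4.2 ?_
    · rw [h4.1]; ring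
    · intro hall
      apply h3
      intro x
      have h5 := (P_neg (n + 1) (2 * MM n (ε / 2)) (-ε) x).1
      rw [neg_neg, hall] at h5
      rw [h5]; push_cast; ring

/-- Symmetry `b → -b`. -/
lemma Ls_neg {r : ℤ} {b a ε : ℝ} (h : (b, a) ∈ Ls r ε) : (-b, a) ∈ Ls (-r) ε := by
  obtain ⟨x, hx⟩ := h
  have hs := fl_sol b a ε x
  have hψ : Sol (-b) a ε (fun t => -(fl b a ε x (t + Real.pi))) := by
    intro t
    have h1 := ((hs (t + Real.pi)).comp_add_const t Real.pi).neg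
    refine h1.congr_deriv ?_
    simp only [Real.sin_neg, Real.cos_add_pi]; ring
  have h2 := congrFun hψ.eq_fl (2 * Real.pi)
  simp only [zero_add] at h2
  refine ⟨-(fl b a ε x Real.pi), ?_⟩
  have h3 := fl_per (m := r) hx Real.pi
  change fl (-b) a ε (-(fl b a ε x Real.pi)) (2 * Real.pi) = _
  rw [← h2, add_comm, h3]
  push_cast; ring

/-- The locked set of the problem. -/
def LL (ω : ℝ) (r : ℤ) : Set (ℝ × ℝ) :=
  {p : ℝ × ℝ | ∀ φ : ℝ → ℝ,
            (∀ t : ℝ, HasDerivAt φ (-Real.sin (φ t) + p.1 + p.2 * Real.cos (ω * t)) t) →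
            Filter.Tendsto (fun t : ℝ => φ t / t) Filter.atTop (nhds ((r : ℝ) * ω))}

lemma mem_LL {ω : ℝ} (hω : 0 < ω) (r : ℤ) (B A : ℝ) :
    (B, A) ∈ LL ω r ↔ (B / ω, A / ω) ∈ Ls r (1 / ω) := by
  have hL : (B / ω, A / ω) ∈ Ls r (1 / ω) ↔ Lk r (B / ω) (A / ω) (1 / ω) := Lk_iff.symm
  rw [hL]
  constructor
  · intro h φ hφ
    have h1 : ∀ t : ℝ, HasDerivAt (fun t => φ (ω * t))
        (-Real.sin (φ (ω * t)) + B + A * Real.cos (ω * t)) t := by
      intro t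
      have h2 := HasDerivAt.comp t (hφ (ω * t)) ((hasDerivAt_id t).const_mul ω)
      refine h2.congr_deriv ?_
      field_simp
      ring
    have h2 := h _ h1
    have h3 : Tendsto (fun s : ℝ => s / ω) atTop atTop := tendsto_id.atTop_div_const hω
    have h4 := (h2.comp h3).div_const ω
    rw [mul_div_cancel_right₀ _ hω.ne'] at h4
    refine h4.congr' ?_
    filter_upwards [eventually_gt_atTop (0:ℝ)] with s hs
    simp only [Function.comp]
    rw [mul_div_cancel₀ s hω.ne']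
    field_simp
  · intro h φ hφ
    have h1 : Sol (B / ω) (A / ω) (1 / ω) (fun s => φ (s / ω)) := by
      intro s
      have h2 := HasDerivAt.comp s (hφ (s / ω)) ((hasDerivAt_id s).div_const ω)
      refine h2.congr_deriv ?_
      simp only [id]
      rw [mul_div_cancel₀ s hω.ne']
      field_simp
      ring
    have h2 := h _ h1
    have h3 : Tendsto (fun t : ℝ => ω * t) atTop atTop := tendsto_id.const_mul_atTop hω
    have h4 := (h2.comp h3).mul_const ω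
    refine h4.congr' ?_
    filter_upwards [eventually_gt_atTop (0:ℝ)] with t ht
    simp only [Function.comp]
    rw [mul_div_cancel_left₀ t hω.ne']
    field_simp

/-- Scaling homeomorphism, with a sign. -/
noncomputable def kk (ω s : ℝ) (hω : ω ≠ 0) (hs : s ≠ 0) : (ℝ × ℝ) ≃ₜ (ℝ × ℝ) where
  toFun p := (s * p.1 / ω, p.2 / ω)
  invFun p := (ω * p.1 / s, ω * p.2)
  left_inv p := by
    ext <;> simp only <;> field_simp
  right_inv p := by
    ext <;> simp only <;> field_simp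
  continuous_toFun := by fun_prop
  continuous_invFun := by fun_prop

lemma LL_eq {ω : ℝ} (hω : 0 < ω) {r : ℤ} {n : ℕ} {s : ℝ} (hs : s = 1 ∧ r = n + 1 ∨ s = -1 ∧ r = -(n + 1))
    (hs0 : s ≠ 0) : LL ω r = (kk ω s hω.ne' hs0) ⁻¹' (Ls ((n:ℤ) + 1) (1 / ω)) := by
  ext ⟨B, A⟩
  rw [mem_LL hω, mem_preimage]
  change _ ↔ (s * B / ω, A / ω) ∈ Ls ((n:ℤ) + 1) (1 / ω)
  rcases hs with ⟨rfl, rfl⟩ | ⟨rfl, rfl⟩
  · rw [one_mul]
  · constructor
    · intro h
      have := Ls_neg h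
      rw [neg_neg] at this
      rwa [neg_one_mul, neg_div]
    · intro h
      have := Ls_neg h
      rw [neg_one_mul, neg_div, neg_neg] at this
      exact this

theorem main (ω : ℝ) (hω : 0 < ω) (r : ℤ) (hr : r ≠ 0) :
    ∃! A : ℝ, 0 < A ∧ ((r : ℝ) * ω, A) ∈ frontier (LL ω r) ∧
      ¬ ({q : ℝ × ℝ | q ∈ LL ω r ∧ q.2 = A} = {((r : ℝ) * ω, A)}) := by
  obtain ⟨n, s, hs⟩ : ∃ (n : ℕ) (s : ℝ), s = 1 ∧ r = n + 1 ∨ s = -1 ∧ r = -(n + 1) := by
    rcases lt_or_gt_of_ne hr with h | h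
    · exact ⟨(-r - 1).toNat, -1, Or.inr ⟨rfl, by omega⟩⟩
    · exact ⟨(r - 1).toNat, 1, Or.inl ⟨rfl, by omega⟩⟩
  have hs0 : s ≠ 0 := by rcases hs with ⟨rfl, -⟩ | ⟨rfl, -⟩ <;> norm_num
  have hsr : s * r = (n:ℝ) + 1 := by
    rcases hs with ⟨rfl, rfl⟩ | ⟨rfl, rfl⟩ <;> push_cast <;> ring
  set K := kk ω s hω.ne' hs0 with hK
  have hKapp : ∀ B A, K (B, A) = (s * B / ω, A / ω) := fun B A => rfl
  have hL := LL_eq hω hs hs0
  rw [← hK] at hL
  have hfr : ∀ A, ((r : ℝ) * ω, A) ∈ frontier (LL ω r) ↔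
      (((n:ℝ) + 1, A / ω) : ℝ × ℝ) ∈ frontier (Ls ((n:ℤ) + 1) (1 / ω)) := by
    intro A
    rw [hL, ← K.preimage_frontier, mem_preimage, hKapp]
    rw [show s * (r * ω) / ω = (n:ℝ) + 1 by rw [← hsr]; field_simp]
  have hsl : ∀ A, ({q : ℝ × ℝ | q ∈ LL ω r ∧ q.2 = A} = {((r : ℝ) * ω, A)}) ↔
      {q : ℝ × ℝ | q ∈ Ls ((n:ℤ) + 1) (1 / ω) ∧ q.2 = A / ω} = {((n:ℝ) + 1, A / ω)} := by
    intro A
    have e1 : {q : ℝ × ℝ | q ∈ LL ω r ∧ q.2 = A} =
        K ⁻¹' {q : ℝ × ℝ | q ∈ Ls ((n:ℤ) + 1) (1 / ω) ∧ q.2 = A / ω} := by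
      ext ⟨B, A'⟩
      rw [hL]
      simp only [mem_preimage, mem_ofPred_eq, hKapp]
      rw [div_left_inj' hω.ne']
    have e2 : ({((r : ℝ) * ω, A)} : Set (ℝ × ℝ)) = K ⁻¹' {((n:ℝ) + 1, A / ω)} := by
      ext ⟨B, A'⟩
      simp only [mem_preimage, mem_singleton_iff, hKapp, Prod.mk.injEq]
      rw [div_left_inj' hω.ne', div_eq_iff hω.ne', ← hsr, mul_assoc, mul_right_inj' hs0]
    rw [e1, e2]
    exact K.surjective.preimage_injective.eq_iff
  obtain ⟨a, ha, hsa⟩ := simple_exists n (ε := 1 / ω) (by positivity)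
  refine ⟨ω * a, ⟨by positivity, ?_, ?_⟩, ?_⟩
  · rw [hfr, mul_div_cancel_left₀ _ hω.ne']; exact hsa.1
  · rw [hsl, mul_div_cancel_left₀ _ hω.ne']; exact hsa.2
  · rintro A ⟨hA, h1, h2⟩
    rw [hfr] at h1
    rw [hsl] at h2
    have h3 : Simple n (1 / ω) (A / ω) := ⟨h1, h2⟩
    have h4 := simple_unique (by positivity) (by positivity) ha h3 hsa
    rw [← h4]; field_simp

end H535R3
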