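import Pool.Agent.H535R3.JN

set_option autoImplicit false
open Set Filter Topology Complex ComplexConjugate

namespace H535R3

/-- Linear equation in the symmetric gauge. -/
noncomputable def zv (b a ε : ℝ) (t : ℝ) (Z : ℂ) : ℂ :=
  I * (((b + a * Real.cos t) / 2 : ℝ) : ℂ) * Z - I * ((ε / 2 : ℝ) : ℂ) * conj Z

/-- Solutions. -/
def ZSol (b a ε : ℝ) (Z : ℝ → ℂ) : Prop := ∀ t, HasDerivAt Z (zv b a ε t (Z t)) t

lemma zv_norm (b a ε t : ℝ) (Z : ℂ) : ‖zv b a ε t Z‖ ≤ (|b| + |a| + |ε|) * ‖Z‖ := by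
  unfold zv
  have h1 : ‖I * (((b + a * Real.cos t) / 2 : ℝ) : ℂ) * Z‖ ≤ (|b| + |a|) * ‖Z‖ := by
    rw [norm_mul, norm_mul, norm_I, one_mul, Complex.norm_real, Real.norm_eq_abs]
    gcongr
    rw [abs_div, abs_two]
    have h2 := abs_add_le b (a * Real.cos t)
    have h3 : |a * Real.cos t| ≤ |a| := by
      rw [abs_mul]; exact mul_le_of_le_one_right (abs_nonneg _) (Real.abs_cos_le_one t)
    have h4 := abs_nonneg (b + a * Real.cos t)
    linarith [abs_nonneg a, abs_nonneg b]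
  have h2 : ‖I * ((ε / 2 : ℝ) : ℂ) * conj Z‖ ≤ |ε| * ‖Z‖ := by
    rw [norm_mul, norm_mul, norm_I, one_mul, Complex.norm_real, Real.norm_eq_abs, Complex.norm_conj]
    have h3 : |ε / 2| ≤ |ε| := by
      rw [abs_div, abs_two]
      linarith [abs_nonneg ε]
    exact mul_le_mul_of_nonneg_right h3 (norm_nonneg _)
  calc _ ≤ _ := norm_sub_le _ _
    _ ≤ (|b| + |a|) * ‖Z‖ + |ε| * ‖Z‖ := add_le_add h1 h2
    _ = _ := by ring

lemma zv_sub (b a ε t : ℝ) (Z W : ℂ) : zv b a ε t Z - zv b a ε t W = zv b a ε t (Z - W) := by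
  simp only [zv, map_sub]; ring

lemma zv_smul (b a ε t : ℝ) (Z : ℂ) (κ : ℝ) : zv b a ε t (κ * Z) = κ * zv b a ε t Z := by
  simp only [zv, map_mul, conj_ofReal]; ring

/-- Lipschitz constant. -/
noncomputable def KZ (b a ε : ℝ) : NNReal := ⟨|b| + |a| + |ε|, by positivity⟩

lemma ZSol.unique {b a ε : ℝ} {G H : ℝ → ℂ} (h1 : ZSol b a ε G) (h2 : ZSol b a ε H) {t0 : ℝ}
    (h : G t0 = H t0) : G = H :=
  ODE_solution_unique_univ (v := zv b a ε) (s := fun _ => univ) (K := KZ b a ε)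
    (fun t => (LipschitzWith.of_dist_le_mul fun Z W => by
      rw [dist_eq_norm, dist_eq_norm, zv_sub]; exact zv_norm b a ε t _).lipschitzOnWith)
    (fun t => ⟨h1 t, trivial⟩) (fun t => ⟨h2 t, trivial⟩) h

lemma ZSol.smul {b a ε : ℝ} {G : ℝ → ℂ} (h1 : ZSol b a ε G) (κ : ℝ) :
    ZSol b a ε (fun t => κ * G t) := by
  intro t
  rw [zv_smul]
  exact (h1 t).const_mul _

lemma ZSol_zero (b a ε : ℝ) : ZSol b a ε (fun _ => 0) := by
  intro t
  have : zv b a ε t 0 = 0 := by simp [zv]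
  rw [this]; exact hasDerivAt_const t 0

/-- The lift. -/
noncomputable def ZZ (ε : ℝ) (φ : ℝ → ℝ) (t : ℝ) : ℂ :=
  exp (((ε / 2 * Cc φ t : ℝ) : ℂ) + I * (((φ t - Real.pi / 2) / 2 : ℝ) : ℂ))

lemma ZZ_sol {b a ε : ℝ} {φ : ℝ → ℝ} (h : Sol b a ε φ) : ZSol b a ε (ZZ ε φ) := by
  intro t
  have h1 : HasDerivAt (fun t => ε / 2 * Cc φ t) (ε / 2 * Real.cos (φ t)) t :=
    (Cc_deriv h.cont t).const_mul _
  have h2 : HasDerivAt (fun t => (φ t - Real.pi / 2) / 2)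
      ((b + a * Real.cos t - ε * Real.sin (φ t)) / 2) t :=
    ((h t).sub_const (Real.pi / 2)).div_const 2
  have h3 : HasDerivAt (ZZ ε φ) (exp (((ε / 2 * Cc φ t : ℝ) : ℂ) + I * (((φ t - Real.pi / 2) / 2 : ℝ) : ℂ)) *
      (((ε / 2 * Real.cos (φ t) : ℝ) : ℂ) +
        I * (((b + a * Real.cos t - ε * Real.sin (φ t)) / 2 : ℝ) : ℂ))) t :=
    (h1.ofReal_comp.add (h2.ofReal_comp.const_mul I)).cexp
  refine h3.congr_deriv ?_
  have e0 : exp (((ε / 2 * Cc φ t : ℝ) : ℂ) + I * (((φ t - Real.pi / 2) / 2 : ℝ) : ℂ)) = ZZ ε φ t := rfl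
  rw [e0]
  have e2 : conj (ZZ ε φ t) = I * (Real.cos (φ t) - I * Real.sin (φ t)) * ZZ ε φ t := by
    have e3 : (Real.cos (φ t) - I * Real.sin (φ t) : ℂ) = exp (-(I * (φ t : ℝ))) := by
      rw [show -(I * ((φ t : ℝ):ℂ)) = ((-(φ t) : ℝ) : ℂ) * I by push_cast; ring, exp_mul_I]
      push_cast
      rw [Complex.cos_neg, Complex.sin_neg]; ring
    have e4 : (I : ℂ) = exp (I * (Real.pi / 2 : ℝ)) := by
      rw [mul_comm, exp_mul_I]
      push_cast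
      rw [Complex.cos_pi_div_two, Complex.sin_pi_div_two]; ring
    rw [e3]
    nth_rewrite 1 [e4]
    rw [ZZ, ← exp_conj, ← exp_add, ← exp_add]
    congr 1
    simp only [map_add, map_mul, conj_ofReal, conj_I]
    push_cast
    ring
  rw [zv, e2]
  push_cast
  have hI : I * I = -1 := I_mul_I
  linear_combination (ZZ ε φ t * (ε / 2) * Complex.cos (φ t) -
    ZZ ε φ t * (ε / 2) * I * Complex.sin (φ t)) * hI

lemma ZZ_ne (ε : ℝ) (φ : ℝ → ℝ) (t : ℝ) : ZZ ε φ t ≠ 0 := exp_ne_zero _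

lemma ZZ_form (ε : ℝ) (φ : ℝ → ℝ) (s t : ℝ) : (conj (ZZ ε φ s) * ZZ ε φ t).im =
    Real.exp (ε / 2 * (Cc φ s + Cc φ t)) * Real.sin ((φ t - φ s) / 2) := by
  rw [ZZ, ZZ, ← exp_conj, ← exp_add]
  have : conj (((ε / 2 * Cc φ s : ℝ) : ℂ) + I * (((φ s - Real.pi / 2) / 2 : ℝ) : ℂ)) +
      (((ε / 2 * Cc φ t : ℝ) : ℂ) + I * (((φ t - Real.pi / 2) / 2 : ℝ) : ℂ)) =
      ((ε / 2 * (Cc φ s + Cc φ t) : ℝ) : ℂ) + ((((φ t - φ s) / 2 : ℝ)) : ℂ) * I := by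
    simp only [map_add, map_mul, conj_ofReal, conj_I]
    push_cast
    ring
  rw [this, exp_im]
  simp

/-- Representation of the nonzero solutions. -/
lemma ZSol.rep {b a ε : ℝ} {Z : ℝ → ℂ} (h : ZSol b a ε Z) (h0 : Z 0 ≠ 0) :
    ∃ (κ : ℝ) (φ : ℝ → ℝ), 0 < κ ∧ Sol b a ε φ ∧ ∀ t, Z t = κ * ZZ ε φ t := by
  set φ := fl b a ε (Real.pi / 2 + 2 * arg (Z 0)) with hφ
  have hs := fl_sol b a ε (Real.pi / 2 + 2 * arg (Z 0))
  rw [← hφ] at hs
  refine ⟨‖Z 0‖, φ, norm_pos_iff.2 h0, hs, fun t => ?_⟩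
  have h1 := (ZZ_sol hs).smul ‖Z 0‖
  have h2 := h.unique h1 (t0 := 0) (by
    rw [ZZ, Cc_zero, hφ, fl_zero]
    have : ((ε / 2 * 0 : ℝ) : ℂ) + I * (((Real.pi / 2 + 2 * arg (Z 0) - Real.pi / 2) / 2 : ℝ) : ℂ) =
      (arg (Z 0) : ℂ) * I := by push_cast; ring
    rw [this, norm_mul_exp_arg_mul_I])
  exact congrFun h2 t

lemma im_form (α β u v : ℂ) : (conj (α * u + β * conj u) * (α * v + β * conj v)).im =
    (normSq α - normSq β) * (conj u * v).im := by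
  simp only [normSq_apply, mul_im, mul_re, add_im, add_re, conj_re, conj_im]
  ring

/-- If an orientation preserving periodic transformation sends solutions of the equation with `b`
to solutions of the equation with `-b`, the time `2π` map has a fixed point mod `2π`. -/
lemma no_elliptic {b a ε : ℝ} {α β : ℝ → ℂ} (hT : ∀ Z, ZSol b a ε Z →
    ZSol (-b) a ε (fun t => α t * Z t + β t * conj (Z t))) (hα : α (2 * Real.pi) = α 0)
    (hβ : β (2 * Real.pi) = β 0) (hΔ : 0 < normSq (α 0) - normSq (β 0)) :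
    ∃ (x : ℝ) (r : ℤ), P b a ε x = x + 2 * Real.pi * r := by
  by_contra hcon
  push Not at hcon
  have hs0 : ∀ x, Real.sin ((P b a ε x - x) / 2) ≠ 0 := by
    intro x h0
    obtain ⟨r, hr⟩ := Real.sin_eq_zero_iff.1 h0
    exact hcon x r (by linarith)
  have hsc : Continuous fun x => Real.sin ((P b a ε x - x) / 2) :=
    Real.continuous_sin.comp (((continuous_Px b a ε).sub continuous_id).div_const 2)
  have hsame : ∀ x y, 0 < Real.sin ((P b a ε x - x) / 2) * Real.sin ((P b a ε y - y) / 2) := by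
    intro x y
    by_contra hc
    push Not at hc
    obtain ⟨w, hw⟩ : ∃ w, Real.sin ((P b a ε w - w) / 2) = 0 := by
      rcases mul_nonpos_iff.1 hc with ⟨h1, h2⟩ | ⟨h1, h2⟩
      · exact mem_range_of_exists_le_of_exists_ge hsc ⟨y, h2⟩ ⟨x, h1⟩
      · exact mem_range_of_exists_le_of_exists_ge hsc ⟨x, h1⟩ ⟨y, h2⟩
    exact hs0 w hw
  set φ := fl b a ε 0 with hφ
  have hφs : Sol b a ε φ := fl_sol b a ε 0
  have hZ := ZZ_sol hφs
  have hZt := hT _ hZ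
  have hne : α 0 * ZZ ε φ 0 + β 0 * conj (ZZ ε φ 0) ≠ 0 := by
    intro h0
    have h1 : ‖α 0‖ * ‖ZZ ε φ 0‖ = ‖β 0‖ * ‖ZZ ε φ 0‖ := by
      rw [← norm_mul, eq_neg_of_add_eq_zero_left h0, norm_neg, norm_mul, Complex.norm_conj]
    have h2 := mul_right_cancel₀ (norm_ne_zero_iff.2 (ZZ_ne ε φ 0)) h1
    rw [normSq_eq_norm_sq, normSq_eq_norm_sq, h2] at hΔ
    linarith
  obtain ⟨κ, ψ, hκ, hψ, hrep⟩ := hZt.rep hne
  have h1 := im_form (α 0) (β 0) (ZZ ε φ 0) (ZZ ε φ (2 * Real.pi))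
  have h2 : α 0 * ZZ ε φ 0 + β 0 * conj (ZZ ε φ 0) = κ * ZZ ε ψ 0 := hrep 0
  have h3 : α 0 * ZZ ε φ (2 * Real.pi) + β 0 * conj (ZZ ε φ (2 * Real.pi)) =
      κ * ZZ ε ψ (2 * Real.pi) := by rw [← hrep (2 * Real.pi), hα, hβ]
  rw [h2, h3, ZZ_form] at h1
  have h4 : (conj ((κ : ℂ) * ZZ ε ψ 0) * ((κ : ℂ) * ZZ ε ψ (2 * Real.pi))).im =
      κ ^ 2 * (Real.exp (ε / 2 * (Cc ψ 0 + Cc ψ (2 * Real.pi))) *
        Real.sin ((ψ (2 * Real.pi) - ψ 0) / 2)) := by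
    rw [← ZZ_form, map_mul, conj_ofReal,
      show (κ : ℂ) * conj (ZZ ε ψ 0) * (κ * ZZ ε ψ (2 * Real.pi)) =
        ((κ ^ 2 : ℝ) : ℂ) * (conj (ZZ ε ψ 0) * ZZ ε ψ (2 * Real.pi)) by push_cast; ring,
      im_ofReal_mul]
  rw [h4] at h1
  -- the reflected solution
  have hχ : Sol b a ε (fun t => -(ψ (t + Real.pi))) := by
    intro t
    have h1 := ((hψ (t + Real.pi)).comp_add_const t Real.pi).neg
    refine h1.congr_deriv ?_
    simp only [Real.sin_neg, Real.cos_add_pi]; ring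
  have h5 := hsame 0 (-(ψ Real.pi))
  have h6 := congrFun hχ.eq_fl (2 * Real.pi)
  simp only [zero_add] at h6
  have h7 : P b a ε (-(ψ Real.pi)) = -(ψ (2 * Real.pi + Real.pi)) := h6.symm
  have h8 : P b a ε 0 = φ (2 * Real.pi) := rfl
  have h9 : φ 0 = 0 := by rw [hφ, fl_zero]
  rw [h7, h8, sub_zero] at h5
  rw [h9, sub_zero] at h1
  have h10 := mob hψ.shift hψ Real.pi
  simp only [zero_add] at h10
  have h11 : (-ψ (2 * Real.pi + Real.pi) - -ψ Real.pi) / 2 =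
      -((ψ (Real.pi + 2 * Real.pi) - ψ Real.pi) / 2) := by
    rw [add_comm (2 * Real.pi)]; ring
  rw [h11, Real.sin_neg, h10] at h5
  set s1 := Real.sin (φ (2 * Real.pi) / 2)
  set s2 := Real.sin ((ψ (2 * Real.pi) - ψ 0) / 2)
  have e1 := Real.exp_pos (-(ε / 2 * (Cc (fun t => ψ (t + 2 * Real.pi)) Real.pi + Cc ψ Real.pi)))
  have e2 := Real.exp_pos (ε / 2 * (Cc ψ 0 + Cc ψ (2 * Real.pi)))
  have e3 := Real.exp_pos (ε / 2 * (Cc φ 0 + Cc φ (2 * Real.pi)))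
  -- s1 * s2 ≥ 0 from h1, < 0 from h5
  have h12 : 0 ≤ s1 * s2 := by
    by_contra hc
    push Not at hc
    have h13 : s1 * (κ ^ 2 * (Real.exp (ε / 2 * (Cc ψ 0 + Cc ψ (2 * Real.pi))) * s2)) < 0 := by
      have : s1 * (κ ^ 2 * (Real.exp (ε / 2 * (Cc ψ 0 + Cc ψ (2 * Real.pi))) * s2)) =
        (κ ^ 2 * Real.exp (ε / 2 * (Cc ψ 0 + Cc ψ (2 * Real.pi)))) * (s1 * s2) := by ring
      rw [this]
      exact mul_neg_of_pos_of_neg (by positivity) hc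
    rw [h1] at h13
    have h14 : 0 ≤ s1 * ((normSq (α 0) - normSq (β 0)) *
        (Real.exp (ε / 2 * (Cc φ 0 + Cc φ (2 * Real.pi))) * s1)) := by
      have : s1 * ((normSq (α 0) - normSq (β 0)) *
        (Real.exp (ε / 2 * (Cc φ 0 + Cc φ (2 * Real.pi))) * s1)) =
        ((normSq (α 0) - normSq (β 0)) * Real.exp (ε / 2 * (Cc φ 0 + Cc φ (2 * Real.pi)))) * (s1 * s1) := by
        ring
      rw [this]
      exact mul_nonneg (by positivity) (mul_self_nonneg _)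
    linarith
  have h15 : s1 * -(s2 * Real.exp (-(ε / 2 * (Cc (fun t => ψ (t + 2 * Real.pi)) Real.pi + Cc ψ Real.pi))))
      = -((s1 * s2) * Real.exp (-(ε / 2 * (Cc (fun t => ψ (t + 2 * Real.pi)) Real.pi + Cc ψ Real.pi)))) := by
    ring
  rw [h15] at h5
  have := mul_nonneg h12 e1.le
  linarith

end H535R3
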