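import Pool.Agent.H535R3.JO

set_option autoImplicit false
open Set Filter Topology Complex ComplexConjugate

namespace H535R3

lemma HH_deriv {c : ℤ → ℝ} (h : Summable (fun k : ℤ => (|(k:ℝ)| + 1) * |c k|)) (t : ℝ) :
    HasDerivAt (HH c) (I * HH (fun k => k * c k) t) t := by
  have hc := summable_c h
  have hd : HasDerivAt (HH c) (∑' k : ℤ, (c k : ℂ) * (exp (I * k * t) * (I * k))) t := by
    refine hasDerivAt_tsum (𝕜 := ℝ) (u := fun k : ℤ => (|(k:ℝ)| + 1) * |c k|) (y₀ := 0) h
      (g := fun (k : ℤ) (t : ℝ) => (c k : ℂ) * exp (I * k * t))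
      (g' := fun (k : ℤ) (t : ℝ) => (c k : ℂ) * (exp (I * k * t) * (I * k))) ?_ ?_ (HH_summable hc 0) t
    · intro k t
      have h2 : HasDerivAt (fun t : ℝ => I * k * (t : ℂ)) (I * k * 1) t :=
        (ofRealCLM.hasDerivAt (x := t)).const_mul (I * k)
      rw [mul_one] at h2
      exact h2.cexp.const_mul _
    · intro k t
      rw [norm_mul, norm_mul, norm_ek, norm_mul, norm_I, Complex.norm_real, Real.norm_eq_abs,
        one_mul, one_mul]
      have : ‖(k:ℂ)‖ = |(k:ℝ)| := Complex.norm_intCast k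
      rw [this]
      nlinarith [abs_nonneg (c k)]
  refine hd.congr_deriv ?_
  rw [HH, ← tsum_mul_left]
  refine tsum_congr fun k => ?_
  push_cast; ring

lemma HH_conj (c : ℤ → ℝ) (t : ℝ) : conj (HH c t) = HH (fun k => c (-k)) t := by
  rw [HH, HH, conj_tsum, ← (Equiv.neg ℤ).tsum_eq]
  refine tsum_congr fun k => ?_
  simp only [Equiv.neg_apply]
  rw [map_mul, conj_ofReal, ← exp_conj]
  congr 2
  simp only [map_mul, conj_I, conj_ofReal, map_intCast]
  push_cast; ring

lemma HH_e (c : ℤ → ℝ) (m : ℤ) (t : ℝ) : exp (I * m * t) * HH c t = HH (fun k => c (k - m)) t := by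
  rw [HH, HH, ← tsum_mul_left, ← (Equiv.subRight m).tsum_eq]
  refine tsum_congr fun k => ?_
  simp only [Equiv.subRight_apply]
  rw [mul_left_comm, ← exp_add]
  congr 2
  push_cast; ring

lemma HH_add {c d : ℤ → ℝ} (hc : Summable fun k => |c k|) (hd : Summable fun k => |d k|) (t : ℝ) :
    HH (fun k => c k + d k) t = HH c t + HH d t := by
  rw [HH, HH, HH, ← (HH_summable hc t).tsum_add (HH_summable hd t)]
  refine tsum_congr fun k => ?_
  push_cast; ring

lemma HH_smul (x : ℝ) (c : ℤ → ℝ) (t : ℝ) : HH (fun k => x * c k) t = x * HH c t := by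
  rw [HH, HH, ← tsum_mul_left]
  refine tsum_congr fun k => ?_
  push_cast; ring

lemma fs_summable {N : ℤ} {c : ℤ → ℝ} (h : ∀ k : ℤ, N < |k| → c k = 0) :
    Summable (fun k : ℤ => (|(k:ℝ)| + 1) * |c k|) := by
  refine summable_of_ne_finset_zero (s := Finset.Icc (-N) N) fun k hk => ?_
  rw [Finset.mem_Icc] at hk
  have : N < |k| := by
    by_contra hc
    push Not at hc
    exact hk (abs_le.1 hc)
  rw [h k this, abs_zero, mul_zero]

/-- The defining relations of the transformation. -/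
structure TP (n : ℕ) (μ e : ℝ) (A B : ℤ → ℝ) : Prop where
  ra : ∀ k : ℤ, ((k:ℝ) + (n + 1)) * A k = -e * (B k + (-1) ^ (n + 1) * B (-k))
  rb : ∀ k : ℤ, (k:ℝ) * B k = μ * (B (k - 1) + B (k + 1)) + e * (A k - (-1) ^ (n + 1) * A (-k))
  sa : ∀ k : ℤ, (n:ℤ) + 1 < |k| → A k = 0
  sb : ∀ k : ℤ, (n:ℤ) < |k| → B k = 0
  lead : A (-((n:ℤ) + 1)) ≠ 0

lemma TP.neg {n : ℕ} {μ e : ℝ} {A B : ℤ → ℝ} (h : TP n μ e A B) : TP n μ (-e) A (fun k => -B k) where
  ra k := by have := h.ra k; linear_combination this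
  rb k := by have := h.rb k; linear_combination -this
  sa := h.sa
  sb k hk := by rw [h.sb k hk, neg_zero]
  lead := h.lead

/-- phase -/
noncomputable def kap (n : ℕ) : ℂ := if Even (n + 1) then 1 else I

lemma kap_conj (n : ℕ) : conj (kap n) = (-1) ^ (n + 1) * kap n := by
  unfold kap
  split_ifs with h
  · rw [h.neg_one_pow]; simp
  · rw [(Nat.not_even_iff_odd.1 h).neg_one_pow]; simp

lemma kap_norm (n : ℕ) : normSq (kap n) = 1 := by
  unfold kap; split_ifs <;> simp

lemma kap_ne (n : ℕ) : kap n ≠ 0 := by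
  unfold kap; split_ifs <;> simp

lemma hasDerivAt_conj' {f : ℝ → ℂ} {f' : ℂ} {t : ℝ} (h : HasDerivAt f f' t) :
    HasDerivAt (fun t => conj (f t)) (conj f') t := h.star

lemma TP.dα {n : ℕ} {μ e : ℝ} {A B : ℤ → ℝ} (h : TP n μ e A B) (t : ℝ) :
    HasDerivAt (fun t => kap n * HH A t) (-(I * (n + 1) * (kap n * HH A t)) -
      I * e * (kap n * HH B t + conj (kap n * HH B t))) t := by
  have sA := fs_summable h.sa
  have sB := fs_summable h.sb
  have sB' : Summable fun k : ℤ => |B (-k)| :=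
    ((Equiv.neg ℤ).summable_iff (f := fun k => |B k|)).2 (summable_c sB)
  refine ((HH_deriv sA t).const_mul (kap n)).congr_deriv ?_
  have e1 : (fun k : ℤ => (k:ℝ) * A k) = fun k => (-(n + 1) * A k) +
      ((-e) * B k + (-e * (-1) ^ (n + 1)) * B (-k)) := by
    funext k; have := h.ra k; linear_combination this
  have s1 : Summable fun k : ℤ => |-((n:ℝ) + 1) * A k| := by
    simp_rw [abs_mul]; exact (summable_c sA).mul_left _
  have s2 : Summable fun k : ℤ => |(-e) * B k| := by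
    simp_rw [abs_mul]; exact (summable_c sB).mul_left _
  have s3 : Summable fun k : ℤ => |(-e * (-1) ^ (n + 1)) * B (-k)| := by
    simp_rw [abs_mul _ (B _)]; exact sB'.mul_left _
  have s4 : Summable fun k : ℤ => |(-e) * B k + (-e * (-1) ^ (n + 1)) * B (-k)| :=
    Summable.of_nonneg_of_le (fun k => abs_nonneg _) (fun k => abs_add_le _ _) (s2.add s3)
  rw [e1, HH_add s1 s4, HH_add s2 s3, HH_smul, HH_smul, HH_smul, ← HH_conj, map_mul, kap_conj]
  push_cast
  ring

lemma TP.dβ {n : ℕ} {μ e : ℝ} {A B : ℤ → ℝ} (h : TP n μ e A B) (t : ℝ) :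
    HasDerivAt (fun t => kap n * HH B t) (I * μ * (2 * Real.cos t) * (kap n * HH B t) +
      I * e * (kap n * HH A t - conj (kap n * HH A t))) t := by
  have sA := fs_summable h.sa
  have sB := fs_summable h.sb
  have sA' : Summable fun k : ℤ => |A (-k)| :=
    ((Equiv.neg ℤ).summable_iff (f := fun k => |A k|)).2 (summable_c sA)
  have sB1 : Summable fun k : ℤ => |B (k - 1)| :=
    ((Equiv.subRight (1:ℤ)).summable_iff (f := fun k => |B k|)).2 (summable_c sB)
  have sB2 : Summable fun k : ℤ => |B (k - (-1))| :=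
    ((Equiv.subRight (-1:ℤ)).summable_iff (f := fun k => |B k|)).2 (summable_c sB)
  refine ((HH_deriv sB t).const_mul (kap n)).congr_deriv ?_
  have e1 : (fun k : ℤ => (k:ℝ) * B k) = fun k => (μ * B (k - 1) + μ * B (k - (-1))) +
      (e * A k + (-e * (-1) ^ (n + 1)) * A (-k)) := by
    funext k; have := h.rb k; rw [show k - (-1) = k + 1 by ring]; linear_combination this
  have s1 : Summable fun k : ℤ => |μ * B (k - 1)| := by
    simp_rw [abs_mul]; exact sB1.mul_left _
  have s2 : Summable fun k : ℤ => |μ * B (k - (-1))| := by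
    simp_rw [abs_mul]; exact sB2.mul_left _
  have s3 : Summable fun k : ℤ => |e * A k| := by
    simp_rw [abs_mul]; exact (summable_c sA).mul_left _
  have s4 : Summable fun k : ℤ => |(-e * (-1) ^ (n + 1)) * A (-k)| := by
    simp_rw [abs_mul _ (A _)]; exact sA'.mul_left _
  have s5 : Summable fun k : ℤ => |μ * B (k - 1) + μ * B (k - (-1))| :=
    Summable.of_nonneg_of_le (fun k => abs_nonneg _) (fun k => abs_add_le _ _) (s1.add s2)
  have s6 : Summable fun k : ℤ => |e * A k + (-e * (-1) ^ (n + 1)) * A (-k)| :=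
    Summable.of_nonneg_of_le (fun k => abs_nonneg _) (fun k => abs_add_le _ _) (s3.add s4)
  rw [e1, HH_add s5 s6, HH_add s1 s2, HH_add s3 s4, HH_smul, HH_smul, HH_smul, HH_smul, ← HH_conj,
    ← HH_e B 1, ← HH_e B (-1), map_mul, kap_conj]
  have e2 : (2 * Real.cos t : ℂ) = exp (I * ((1:ℤ):ℂ) * t) + exp (I * ((-1:ℤ):ℂ) * t) := by
    push_cast
    rw [Complex.cos]
    ring_nf
  rw [e2]
  push_cast
  ring

/-- The transformation maps solutions to solutions. -/
lemma TP.map {n : ℕ} {μ e : ℝ} {A B : ℤ → ℝ} (h : TP n μ e A B) {Z : ℝ → ℂ}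
    (hZ : ZSol (n + 1) (2 * μ) (2 * e) Z) :
    ZSol (-((n:ℝ) + 1)) (2 * μ) (2 * e) (fun t => (kap n * HH A t) * Z t + (kap n * HH B t) * conj (Z t)) := by
  intro t
  have h1 := ((h.dα t).mul (hZ t)).add ((h.dβ t).mul (hasDerivAt_conj' (hZ t)))
  refine h1.congr_deriv ?_
  simp only [zv, map_add, map_mul, map_sub, conj_I, conj_ofReal, Complex.conj_conj]
  push_cast
  ring

end H535R3
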