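import Pool.Agent.H535R3.JP

set_option autoImplicit false
open Set Filter Topology

namespace H535R3

/-- weights -/
noncomputable def wT (n : ℕ) (μ e : ℝ) (j : ℕ) : ℝ :=
  ((n:ℝ) - j) / μ * (1 - 2 * e ^ 2 * (1 - (-1) ^ j) / (((n:ℝ) + 1) ^ 2 - ((n:ℝ) - j) ^ 2))

/-- three-term recursion -/
noncomputable def pT (n : ℕ) (μ e : ℝ) : ℕ → ℝ
  | 0 => 1
  | 1 => wT n μ e 0
  | (j + 2) => wT n μ e (j + 1) * pT n μ e (j + 1) - pT n μ e j

/-- `B` -/
noncomputable def bT (n : ℕ) (μ e : ℝ) (k : ℤ) : ℝ :=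
  if 0 ≤ k ∧ k ≤ n then pT n μ e (n - k).toNat
  else if k < 0 ∧ -(n:ℤ) ≤ k then (-1) ^ k * pT n μ e (n + k).toNat else 0

lemma sg_sq (k : ℤ) : ((-1:ℝ) ^ k) * (-1) ^ k = 1 := by
  rw [← mul_zpow]; norm_num

lemma sg_neg (k : ℤ) : ((-1:ℝ) ^ (-k)) = (-1) ^ k := by
  rw [zpow_neg, ← inv_zpow]; norm_num

lemma sg_succ (k : ℤ) : ((-1:ℝ) ^ (k + 1)) = -(-1) ^ k := by
  rw [zpow_add₀ (by norm_num)]; norm_num

lemma sg_nat_sq (n : ℕ) : ((-1:ℝ) ^ n) * (-1) ^ n = 1 := by rw [← mul_pow]; norm_num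

lemma bT_pos {n : ℕ} {μ e : ℝ} {k : ℤ} (h0 : 0 ≤ k) (h1 : k ≤ n) : bT n μ e k = pT n μ e (n - k).toNat := by
  unfold bT; rw [if_pos ⟨h0, h1⟩]

lemma bT_out {n : ℕ} {μ e : ℝ} {k : ℤ} (h : (n:ℤ) < |k|) : bT n μ e k = 0 := by
  unfold bT
  rcases le_or_gt 0 k with h1 | h1
  · rw [abs_of_nonneg h1] at h
    rw [if_neg (by omega), if_neg (by omega)]
  · rw [abs_of_neg h1] at h
    rw [if_neg (by omega), if_neg (by omega)]

lemma bT_neg (n : ℕ) (μ e : ℝ) (k : ℤ) : bT n μ e (-k) = (-1) ^ k * bT n μ e k := by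
  rcases lt_trichotomy k 0 with h | h | h
  · by_cases h1 : -(n:ℤ) ≤ k
    · rw [bT_pos (by omega) (by omega)]
      unfold bT
      rw [if_neg (by omega), if_pos ⟨h, h1⟩, ← mul_assoc, sg_sq, one_mul, sub_neg_eq_add]
    · rw [bT_out (k := -k) (by rw [abs_neg, abs_of_neg h]; omega),
        bT_out (k := k) (by rw [abs_of_neg h]; omega), mul_zero]
  · subst h; simp
  · by_cases h1 : k ≤ n
    · rw [bT_pos (k := k) (by omega) (by omega)]
      unfold bT
      rw [if_neg (by omega), if_pos ⟨by omega, by omega⟩, sg_neg, ← sub_eq_add_neg]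
    · rw [bT_out (k := -k) (by rw [abs_neg, abs_of_pos h]; omega),
        bT_out (k := k) (by rw [abs_of_pos h]; omega), mul_zero]

lemma bT_rec {n : ℕ} {μ : ℝ} (e : ℝ) (hμ : μ ≠ 0) {k : ℤ} (h1 : 1 ≤ k) (h2 : k ≤ n) :
    (k:ℝ) * bT n μ e k * (1 - 2 * e ^ 2 * (1 + (-1) ^ (n + 1) * (-1) ^ k) /
      (((n:ℝ) + 1) ^ 2 - (k:ℝ) ^ 2)) = μ * (bT n μ e (k - 1) + bT n μ e (k + 1)) := by
  obtain ⟨j, hj⟩ : ∃ j : ℕ, k = n - j := ⟨(n - k).toNat, by omega⟩
  have hjn : j < n := by omega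
  have hs : ((-1:ℝ) ^ (n + 1)) * (-1) ^ k = -(-1) ^ j := by
    rw [hj, zpow_sub₀ (by norm_num), zpow_natCast, zpow_natCast, pow_succ]
    have h3 := sg_nat_sq n
    have h4 := sg_nat_sq j
    have h5 : ((-1:ℝ) ^ j) ≠ 0 := pow_ne_zero _ (by norm_num)
    field_simp
    nlinarith
  have hk : (k:ℝ) = (n:ℝ) - j := by rw [hj]; push_cast; ring
  rw [bT_pos (k := k) (by omega) h2, bT_pos (k := k - 1) (by omega) (by omega), hs, hk]
  have e1 : ((n:ℤ) - k).toNat = j := by omega
  have e2 : ((n:ℤ) - (k - 1)).toNat = j + 1 := by omega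
  rw [e1, e2]
  rcases j with _ | j
  · have e3 : bT n μ e (k + 1) = 0 := bT_out (by rw [abs_of_pos (by omega)]; omega)
    rw [e3]
    simp only [pT, wT, zero_add]
    field_simp
    ring
  · have e3 : bT n μ e (k + 1) = pT n μ e j := by
      rw [bT_pos (by omega) (by omega)]
      congr 1; omega
    rw [e3, pT, wT]
    push_cast
    field_simp
    ring

/-- `A` -/
noncomputable def aT (n : ℕ) (μ e : ℝ) (k : ℤ) : ℝ :=
  if k = -((n:ℤ) + 1) then (-1) ^ (n + 1) * μ / e
  else -e * (1 + (-1) ^ (n + 1) * (-1) ^ k) * bT n μ e k / (k + (n + 1))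

lemma aT_par (n : ℕ) (μ e : ℝ) (k : ℤ) : (-1) ^ (n + 1) * aT n μ e k = (-1) ^ k * aT n μ e k := by
  unfold aT
  split_ifs with h
  · have : ((-1:ℝ) ^ k) = (-1) ^ (n + 1) := by
      rw [h, sg_neg, ← zpow_natCast]; push_cast; rfl
    rw [this]
  · have h1 := sg_sq k
    have h2 := sg_nat_sq (n + 1)
    set σ := (-1:ℝ) ^ k
    set s := (-1:ℝ) ^ (n + 1)
    have : s * (1 + s * σ) = σ * (1 + s * σ) := by linear_combination σ * h2 - s * h1
    rw [mul_div_assoc', mul_div_assoc']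
    congr 1
    linear_combination (-e * bT n μ e k) * this

lemma TP_T {n : ℕ} {μ e : ℝ} (hμ : μ ≠ 0) (he : e ≠ 0) : TP n μ e (aT n μ e) (bT n μ e) := by
  have hs2 := sg_nat_sq (n + 1)
  have key : ∀ k : ℤ, 0 ≤ k → (k:ℝ) * bT n μ e k = μ * (bT n μ e (k - 1) + bT n μ e (k + 1)) +
      e * (aT n μ e k - (-1) ^ (n + 1) * aT n μ e (-k)) := by
    intro k hk
    rcases hk.lt_or_eq with h | h
    · rcases lt_trichotomy k ((n:ℤ) + 1) with h1 | h1 | h1
      · have h2 := bT_rec e hμ (show 1 ≤ k by omega) (show k ≤ n by omega)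
        unfold aT
        rw [if_neg (by omega), if_neg (by omega), bT_neg, sg_neg]
        have h3 := sg_sq k
        set σ := (-1:ℝ) ^ k
        set s := (-1:ℝ) ^ (n + 1)
        have hk1 : (0:ℝ) < (n:ℝ) + 1 - k := by
          have : (k:ℝ) < n + 1 := by exact_mod_cast h1
          linarith
        have hk2 : (0:ℝ) < (n:ℝ) + 1 + k := by
          have : (0:ℝ) < k := by exact_mod_cast h
          have : (0:ℝ) ≤ n := n.cast_nonneg
          linarith
        have e1 : ((n:ℝ) + 1) ^ 2 - (k:ℝ) ^ 2 = ((n:ℝ) + 1 - k) * ((n:ℝ) + 1 + k) := by ring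
        have e2 : ((k:ℝ) + (n + 1)) = (n:ℝ) + 1 + k := by ring
        have e3 : (((-k : ℤ) : ℝ) + (n + 1)) = (n:ℝ) + 1 - k := by push_cast; ring
        rw [e1] at h2
        rw [← h2, e2, e3]
        have h4 : s * (1 + s * σ) * σ = 1 + s * σ := by linear_combination hs2 * σ ^ 2 + h3
        have h5 : s * (-e * (1 + s * σ) * (σ * bT n μ e k) / ((n:ℝ) + 1 - k)) =
          -e * (1 + s * σ) * bT n μ e k / ((n:ℝ) + 1 - k) := by
          rw [mul_div_assoc']
          congr 1
          linear_combination (-e * bT n μ e k) * h4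
        rw [h5]
        field_simp
        ring
      · have e1 : bT n μ e k = 0 := bT_out (by rw [abs_of_pos h]; omega)
        have e2 : bT n μ e (k + 1) = 0 := bT_out (by rw [abs_of_pos (by omega)]; omega)
        have e3 : bT n μ e (k - 1) = 1 := by
          rw [bT_pos (by omega) (by omega), show ((n:ℤ) - (k - 1)).toNat = 0 by omega, pT]
        have e4 : aT n μ e k = 0 := by
          unfold aT; rw [if_neg (by omega), e1]; ring
        have e5 : aT n μ e (-k) = (-1) ^ (n + 1) * μ / e := by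
          unfold aT; rw [if_pos (by omega)]
        rw [e1, e2, e3, e4, e5]
        field_simp
        linear_combination μ * hs2
      · have e1 : bT n μ e k = 0 := bT_out (by rw [abs_of_pos h]; omega)
        have e2 : bT n μ e (k + 1) = 0 := bT_out (by rw [abs_of_pos (by omega)]; omega)
        have e3 : bT n μ e (k - 1) = 0 := bT_out (by rw [abs_of_pos (by omega)]; omega)
        have e4 : aT n μ e k = 0 := by
          unfold aT; rw [if_neg (by omega), e1]; ring
        have e5 : aT n μ e (-k) = 0 := by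
          unfold aT; rw [if_neg (by omega), bT_neg, e1]; ring
        rw [e1, e2, e3, e4, e5]
        ring
    · subst h
      have e1 : bT n μ e (0 - 1) = -bT n μ e (0 + 1) := by
        rw [show (0:ℤ) - 1 = -(0 + 1) by ring, bT_neg]; norm_num
      rw [e1, neg_zero]
      have h3 := aT_par n μ e 0
      rw [zpow_zero, one_mul] at h3
      rw [h3]; push_cast; ring
  constructor
  · intro k
    by_cases hk : k = -((n:ℤ) + 1)
    · have e1 : bT n μ e k = 0 := bT_out (by rw [hk, abs_neg, abs_of_pos (by omega)]; omega)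
      rw [bT_neg, e1, hk]; push_cast; ring
    · have hne : ((k:ℝ) + (n + 1)) ≠ 0 := by
        intro h0
        apply hk
        have : (k:ℤ) + (n + 1) = 0 := by exact_mod_cast h0
        omega
      unfold aT
      rw [if_neg hk, bT_neg, mul_div_cancel₀ _ hne]
      ring
  · intro k
    rcases le_or_gt 0 k with h | h
    · exact key k h
    · have h1 := key (-k) (by omega)
      rw [neg_neg] at h1
      have e1 : -k - 1 = -(k + 1) := by ring
      have e2 : -k + 1 = -(k - 1) := by ring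
      have e3 : ((-1:ℝ) ^ (k - 1)) = -(-1) ^ k := by
        have := sg_succ (k - 1)
        rw [sub_add_cancel] at this
        linarith
      rw [e1, e2, bT_neg, bT_neg, bT_neg, sg_succ, e3] at h1
      have h2 := aT_par n μ e k
      have h3 := aT_par n μ e (-k)
      rw [sg_neg] at h3
      have h4 := sg_sq k
      set σ := (-1:ℝ) ^ k
      set s := (-1:ℝ) ^ (n + 1)
      push_cast at h1
      linear_combination (-σ) * h1 - ((k:ℝ) * bT n μ e k - μ * (bT n μ e (k-1) + bT n μ e (k+1))) * h4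
        + e * h3 + e * σ * h2 + e * (aT n μ e k) * h4
  · intro k hk
    unfold aT
    rw [if_neg, bT_out (by omega)]
    · ring
    · rintro rfl
      rw [abs_neg, abs_of_pos (by omega)] at hk
      omega
  · intro k hk
    exact bT_out hk
  · unfold aT
    rw [if_pos rfl]
    have : ((-1:ℝ) ^ (n + 1)) ≠ 0 := pow_ne_zero _ (by norm_num)
    positivity

end H535R3
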