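import Pool.Agent.H535R3.JQ

set_option autoImplicit false
open Set Filter Topology Complex ComplexConjugate

namespace H535R3

lemma asym {n : ℕ} {μ e : ℝ} {c : ℤ → ℝ} (hμ : 0 < μ) (hr : RRec n μ e c)
    (hb : ∃ C, ∀ k, |c k| ≤ C) {A B : ℤ → ℝ} (hB : ∀ k : ℤ, (n:ℤ) < |k| → B k = 0)
    (hl : A (-((n:ℤ) + 1)) ≠ 0)
    (hrel : ∀ k : ℤ, ∑ j ∈ Finset.Icc (-((n:ℤ) + 1)) ((n:ℤ) + 1),
      (A j * c (k - j) + B j * c (n - 1 - (k - j))) = 0) : c (-1) = 0 := by
  obtain ⟨C, hC⟩ := hb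
  set S := Finset.Icc (-((n:ℤ) + 1)) ((n:ℤ) + 1) with hS
  set SA := ∑ j ∈ S, (|A j| + |B j|) with hSA
  set a0 := |A (-((n:ℤ) + 1))| with ha0
  have ha0p : 0 < a0 := abs_pos.2 hl
  have hSA0 : 0 ≤ SA := Finset.sum_nonneg fun j _ => by positivity
  set K := 2 * SA / a0 + 2 with hK
  have hK2 : 2 ≤ K := by
    have : 0 ≤ 2 * SA / a0 := by positivity
    linarith
  have hK0 : 0 < K := by linarith
  obtain ⟨M0, hM0⟩ := exists_nat_ge ((μ + |e|) * K)
  have hR1 : ∀ i : ℕ, ((n:ℝ) + 2 + i) * c (-1 - (i + 1 : ℕ)) = e * c (n + 1 + i) - μ * c (-1 - i) := by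
    intro i
    have h1 := hr (-1 - (i + 1 : ℕ))
    rw [show (-1 - ((i + 1 : ℕ) : ℤ) + 1) = -1 - i by push_cast; ring,
      show ((n:ℤ) - 1 - (-1 - ((i + 1 : ℕ) : ℤ))) = n + 1 + i by push_cast; ring] at h1
    push_cast at h1 ⊢
    linear_combination h1
  have hR2 : ∀ i : ℕ, ((i:ℝ) + 1) * c (n + 1 + i) = μ * c (n + 1 + (i + 1 : ℕ)) - e * c (-1 - (i + 1 : ℕ)) := by
    intro i
    have h1 := hr (n + 1 + i)
    rw [show ((n:ℤ) + 1 + i + 1) = n + 1 + ((i + 1 : ℕ) : ℤ) by push_cast; ring,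
      show ((n:ℤ) - 1 - (n + 1 + i)) = -1 - ((i + 1 : ℕ) : ℤ) by push_cast; ring] at h1
    push_cast at h1 ⊢
    linear_combination -h1
  have hstep : ∀ D : ℝ, 0 ≤ D → (∀ i : ℕ, M0 ≤ i → |c (n + 1 + i)| ≤ D ∧ |c (-1 - i)| ≤ D) →
      (∀ i : ℕ, M0 ≤ i → |c (n + 1 + i)| ≤ D / 2 ∧ |c (-1 - i)| ≤ D / 2) := by
    intro D hD0 hD
    have hDK : D / K ≤ D / 2 := div_le_div_of_nonneg_left hD0 two_pos hK2
    have hfrac : ∀ i : ℕ, M0 ≤ i → (μ + |e|) * D ≤ ((i:ℝ) + 1) * (D / K) := by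
      intro i hi
      have : (M0 : ℝ) ≤ i := by exact_mod_cast hi
      rw [mul_div_assoc', le_div_iff₀ hK0]
      nlinarith
    have hx : ∀ i : ℕ, M0 ≤ i → |c (n + 1 + i)| ≤ D / K := by
      intro i hi
      have h1 := hR2 i
      have h2 : |((i:ℝ) + 1) * c (n + 1 + i)| ≤ (μ + |e|) * D := by
        rw [h1]
        refine (abs_sub _ _).trans ?_
        rw [abs_mul, abs_mul, abs_of_pos hμ, add_mul]
        gcongr
        · exact (hD (i + 1) (by omega)).1
        · exact (hD (i + 1) (by omega)).2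
      rw [abs_mul, abs_of_pos (by positivity : (0:ℝ) < (i:ℝ) + 1)] at h2
      exact le_of_mul_le_mul_left (h2.trans (hfrac i hi)) (by positivity)
    have hy : ∀ i : ℕ, M0 ≤ i → |c (-1 - (i + 1 : ℕ))| ≤ D / K := by
      intro i hi
      have h1 := hR1 i
      have h2 : |((n:ℝ) + 2 + i) * c (-1 - (i + 1 : ℕ))| ≤ (μ + |e|) * D := by
        rw [h1]
        refine (abs_sub _ _).trans ?_
        rw [abs_mul, abs_mul, abs_of_pos hμ, add_mul, add_comm]
        gcongr
        · exact (hD i hi).2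
        · exact (hD i hi).1
      rw [abs_mul, abs_of_pos (by positivity : (0:ℝ) < (n:ℝ) + 2 + i)] at h2
      have h3 : ((i:ℝ) + 1) * |c (-1 - (i + 1 : ℕ))| ≤ ((n:ℝ) + 2 + i) * |c (-1 - (i + 1 : ℕ))| := by
        have : (0:ℝ) ≤ n := n.cast_nonneg
        exact mul_le_mul_of_nonneg_right (by linarith) (abs_nonneg _)
      exact le_of_mul_le_mul_left ((h3.trans h2).trans (hfrac i hi)) (by positivity)
    have hy' : ∀ k : ℤ, k ≤ -1 - ((M0 + 1 : ℕ) : ℤ) → |c k| ≤ D / K := by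
      intro k hk
      have := hy (-1 - k - 1).toNat (by push_cast at hk; omega)
      rwa [show -1 - (((-1 - k - 1).toNat + 1 : ℕ) : ℤ) = k by push_cast at hk ⊢; omega] at this
    have hx' : ∀ k : ℤ, (n:ℤ) + 1 + M0 ≤ k → |c k| ≤ D / K := by
      intro k hk
      have := hx (k - n - 1).toNat (by omega)
      rwa [show (n:ℤ) + 1 + ((k - n - 1).toNat : ℤ) = k by omega] at this
    have hy0 : |c (-1 - M0)| ≤ D / 2 := by
      have h1 := hrel (-1 - M0 - (n + 1))
      have hmem : -((n:ℤ) + 1) ∈ S := by rw [hS, Finset.mem_Icc]; omega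
      rw [← Finset.add_sum_erase _ _ hmem] at h1
      have e1 : (-1 - (M0:ℤ) - ((n:ℤ) + 1) - -((n:ℤ) + 1)) = -1 - M0 := by ring
      have e2 : B (-((n:ℤ) + 1)) = 0 := hB _ (by rw [abs_neg, abs_of_pos (by omega)]; omega)
      rw [e1, e2, zero_mul, add_zero] at h1
      have h2 : |∑ j ∈ S.erase (-((n:ℤ) + 1)), (A j * c (-1 - M0 - (n + 1) - j) +
          B j * c (n - 1 - (-1 - M0 - (n + 1) - j)))| ≤ SA * (D / K) := by
        have hDK0 : 0 ≤ D / K := by positivity
        rw [hSA, Finset.sum_mul]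
        refine (Finset.abs_sum_le_sum_abs _ _).trans ?_
        refine (Finset.sum_le_sum ?_).trans (Finset.sum_le_sum_of_subset_of_nonneg
          (Finset.erase_subset (-((n:ℤ) + 1)) S) (fun j _ _ => by positivity))
        intro j hj
        rw [Finset.mem_erase, hS, Finset.mem_Icc] at hj
        refine (abs_add_le _ _).trans ?_
        rw [abs_mul, abs_mul, add_mul]
        refine add_le_add ?_ ?_
        · exact mul_le_mul_of_nonneg_left (hy' _ (by push_cast; omega)) (abs_nonneg _)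
        · by_cases hj2 : (n:ℤ) < |j|
          · rw [hB j hj2, abs_zero, zero_mul, zero_mul]
          · have := (abs_le.1 (not_lt.1 hj2)).1
            exact mul_le_mul_of_nonneg_left (hx' _ (by omega)) (abs_nonneg _)
      have h3 : a0 * |c (-1 - M0)| ≤ SA * (D / K) := by
        rw [ha0, ← abs_mul, eq_neg_of_add_eq_zero_left h1, abs_neg]
        exact h2
      have h4 : SA * (D / K) ≤ a0 * (D / 2) := by
        rw [mul_div_assoc', div_le_iff₀ hK0]
        have : a0 * (D / 2) * K = SA * D + a0 * D := by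
          rw [hK]; field_simp
        rw [this]
        have : 0 ≤ a0 * D := by positivity
        linarith
      exact le_of_mul_le_mul_left (h3.trans h4) ha0p
    intro i hi
    refine ⟨(hx i hi).trans hDK, ?_⟩
    rcases hi.lt_or_eq with h | h
    · exact (hy' _ (by push_cast; omega)).trans hDK
    · rw [← h]; exact hy0
  have hC0 : 0 ≤ C := (abs_nonneg _).trans (hC 0)
  have hall : ∀ m : ℕ, ∀ i : ℕ, M0 ≤ i → |c (n + 1 + i)| ≤ C / 2 ^ m ∧ |c (-1 - i)| ≤ C / 2 ^ m := by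
    intro m
    induction m with
    | zero => intro i _; simpa using ⟨hC _, hC _⟩
    | succ m ih =>
      have := hstep _ (by positivity) ih
      intro i hi
      rw [pow_succ, ← div_div]
      exact this i hi
  have hlim : Tendsto (fun m : ℕ => C / 2 ^ m) atTop (𝓝 0) :=
    tendsto_const_nhds.div_atTop (tendsto_pow_atTop_atTop_of_one_lt one_lt_two)
  have hz : ∀ i : ℕ, M0 ≤ i → c (n + 1 + i) = 0 ∧ c (-1 - i) = 0 := by
    intro i hi
    constructor
    · exact abs_nonpos_iff.1 (ge_of_tendsto' hlim fun m => (hall m i hi).1)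
    · exact abs_nonpos_iff.1 (ge_of_tendsto' hlim fun m => (hall m i hi).2)
  have hback : ∀ d : ℕ, ∀ i : ℕ, M0 ≤ i + d → c (n + 1 + i) = 0 ∧ c (-1 - i) = 0 := by
    intro d
    induction d with
    | zero => intro i hi; exact hz i hi
    | succ d ih =>
      intro i hi
      obtain ⟨h1, h2⟩ := ih (i + 1) (by omega)
      have h3 := hR2 i
      rw [h1, h2, mul_zero, mul_zero, sub_zero] at h3
      have h4 := (mul_eq_zero.1 h3).resolve_left (by positivity)
      have h5 := hR1 i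
      rw [h2, h4, mul_zero, mul_zero, zero_sub] at h5
      have h6 : μ * c (-1 - i) = 0 := by linarith
      exact ⟨h4, (mul_eq_zero.1 h6).resolve_left hμ.ne'⟩
  have := (hback M0 0 (by omega)).2
  simpa using this

lemma HH_finite' {N : ℤ} {A : ℤ → ℝ} (h : ∀ k : ℤ, N < |k| → A k = 0) (t : ℝ) :
    HH A t = ∑ j ∈ Finset.Icc (-N) N, (A j : ℂ) * exp (I * j * t) := by
  rw [HH]
  refine tsum_eq_sum fun k hk => ?_
  rw [Finset.mem_Icc] at hk
  have : N < |k| := by
    by_contra hc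
    push Not at hc
    exact hk (abs_le.1 hc)
  rw [h k this]; simp

lemma HH_finset_sum {s : Finset ℤ} {f : ℤ → ℤ → ℝ} (hf : ∀ i, Summable fun k => |f i k|) (t : ℝ) :
    HH (fun k => ∑ i ∈ s, f i k) t = ∑ i ∈ s, HH (f i) t := by
  unfold HH
  rw [← Summable.tsum_finsetSum (fun i _ => HH_summable (hf i) t)]
  refine tsum_congr fun k => ?_
  rw [ofReal_sum, Finset.sum_mul]

lemma rel_of_zero {n : ℕ} {A B c : ℤ → ℝ} (hA : ∀ k : ℤ, (n:ℤ) + 1 < |k| → A k = 0)
    (hB : ∀ k : ℤ, (n:ℤ) < |k| → B k = 0) (hc : Summable fun k => |c k|)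
    (h : ∀ t : ℝ, HH A t * HH c t + HH B t * (exp (I * ((n:ℂ) - 1) * t) * conj (HH c t)) = 0) (k : ℤ) :
    ∑ j ∈ Finset.Icc (-((n:ℤ) + 1)) ((n:ℤ) + 1), (A j * c (k - j) + B j * c (n - 1 - (k - j))) = 0 := by
  have hc1 : ∀ j : ℤ, Summable fun k : ℤ => |c (k - j)| := fun j =>
    ((Equiv.subRight j).summable_iff (f := fun k => |c k|)).2 hc
  have hc2 : ∀ j : ℤ, Summable fun k : ℤ => |c (n - 1 - (k - j))| := fun j =>
    ((Equiv.subRight j).trans (Equiv.subLeft ((n:ℤ) - 1))).summable_iff (f := fun k => |c k|) |>.2 hc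
  have hf : ∀ j : ℤ, Summable fun k : ℤ => |A j * c (k - j) + B j * c (n - 1 - (k - j))| := by
    intro j
    refine Summable.of_nonneg_of_le (fun k => abs_nonneg _) (fun k => abs_add_le _ _) ?_
    simp_rw [abs_mul]
    exact ((hc1 j).mul_left _).add ((hc2 j).mul_left _)
  set d : ℤ → ℝ := fun k => ∑ j ∈ Finset.Icc (-((n:ℤ) + 1)) ((n:ℤ) + 1),
    (A j * c (k - j) + B j * c (n - 1 - (k - j))) with hd
  have hds : Summable fun k => |d k| := by
    refine Summable.of_nonneg_of_le (fun k => abs_nonneg _)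
      (fun k => Finset.abs_sum_le_sum_abs _ _) ?_
    exact summable_sum fun j _ => hf j
  have hz : ∀ t, HH d t = 0 := by
    intro t
    rw [hd, HH_finset_sum hf, ← h t, HH_finite' hA, HH_finite' (N := (n:ℤ) + 1) (fun k hk => hB k (by omega)),
      Finset.sum_mul, Finset.sum_mul, ← Finset.sum_add_distrib]
    refine Finset.sum_congr rfl fun j _ => ?_
    have s1 : Summable fun k : ℤ => |A j * c (k - j)| := by
      simp_rw [abs_mul]; exact (hc1 j).mul_left _
    have s2 : Summable fun k : ℤ => |B j * c (n - 1 - (k - j))| := by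
      simp_rw [abs_mul]; exact (hc2 j).mul_left _
    rw [HH_add s1 s2, HH_smul, HH_smul (B j) (fun k => c (n - 1 - (k - j))), ← HH_e c j]
    have e1 : exp (I * ((n:ℂ) - 1) * t) * conj (HH c t) = HH (fun k => c (n - 1 - k)) t := by
      have := HH_e (fun k => c (-k)) ((n:ℤ) - 1) t
      rw [HH_conj]
      push_cast at this
      rw [this]
      congr 1
      funext k
      congr 1; ring
    rw [e1, ← HH_e (fun k => c (n - 1 - k)) j]
    ring
  by_contra hne
  obtain ⟨t, ht⟩ := HH_ne hds (j := k) hne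
  exact ht (hz t)

/-- The degenerate case. -/
lemma kernel {n : ℕ} {μ e : ℝ} (hμ : 0 < μ) {A B : ℤ → ℝ} (h : TP n μ e A B)
    (h0 : (∑' k, A k) + (∑' k, B k) = 0)
    (hl : ∃ x, P (n + 1) (2 * μ) (2 * e) x = x + 2 * Real.pi * ((n + 1 : ℤ) : ℝ)) :
    ∃ c, Good n μ e c := by
  set φ := fl (n + 1) (2 * μ) (2 * e) (Real.pi / 2) with hφd
  have hφ : Sol (n + 1) (2 * μ) (2 * e) φ := fl_sol _ _ _ _
  have hφ0 : φ 0 = Real.pi / 2 := by rw [hφd, fl_zero]
  have hW := h.map (ZZ_sol hφ)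
  have hZ0 : ZZ (2 * e) φ 0 = 1 := by
    rw [ZZ, hφ0, Cc_zero]; simp
  have hW0 : ∀ t, (kap n * HH A t) * ZZ (2 * e) φ t + (kap n * HH B t) * conj (ZZ (2 * e) φ t) = 0 := by
    intro t
    have h1 := hW.unique (ZSol_zero _ _ _) (t0 := 0) (by
      rw [hZ0, HH_real, HH_real, map_one, mul_one, mul_one, ← mul_add, ← ofReal_add, h0]; simp)
    exact congrFun h1 t
  obtain ⟨t0, ht0⟩ := HH_ne (summable_c (fs_summable h.sa)) h.lead
  have hne : kap n * HH A t0 ≠ 0 := mul_ne_zero (kap_ne n) ht0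
  have h1 := hW0 t0
  have h2 := hW0 (t0 + 2 * Real.pi)
  rw [HH_per, HH_per] at h2
  set a := kap n * HH A t0
  set b := kap n * HH B t0
  set u := ZZ (2 * e) φ t0 with hu
  set v := ZZ (2 * e) φ (t0 + 2 * Real.pi) with hv
  have h3 : a * (u * conj v - v * conj u) = 0 := by linear_combination conj v * h1 - conj u * h2
  have h4 : u * conj v = v * conj u := sub_eq_zero.1 ((mul_eq_zero.1 h3).resolve_left hne)
  have h5 : (conj u * v).im = 0 := by
    have h6 : conj (conj u * v) = conj u * v := by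
      rw [map_mul, Complex.conj_conj, h4, mul_comm]
    exact conj_eq_iff_im.1 h6
  rw [hu, hv, ZZ_form] at h5
  have h6 := (mul_eq_zero.1 h5).resolve_left (Real.exp_pos _).ne'
  have h7 := mob hφ.shift hφ t0
  simp only [zero_add] at h7
  rw [h6] at h7
  have h8 := (mul_eq_zero.1 h7.symm).resolve_right (Real.exp_pos _).ne'
  obtain ⟨r, hr⟩ := Real.sin_eq_zero_iff.1 h8
  have hPr : P (n + 1) (2 * μ) (2 * e) (Real.pi / 2) = Real.pi / 2 + 2 * Real.pi * r := by
    have : P (n + 1) (2 * μ) (2 * e) (Real.pi / 2) = φ (2 * Real.pi) := rfl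
    rw [this]; rw [hφ0] at hr; linarith
  obtain ⟨x, hx⟩ := hl
  have h9 := close (x := Real.pi / 2) hx
  rw [hPr] at h9
  have hpi := Real.pi_pos
  have hrl : r = (n:ℤ) + 1 := by
    have h10 : |(r:ℝ) - ((n + 1 : ℤ) : ℝ)| < 1 := by
      have e1 : Real.pi / 2 + 2 * Real.pi * (r:ℝ) - 2 * Real.pi * ((n + 1 : ℤ) : ℝ) - Real.pi / 2 =
        2 * Real.pi * ((r:ℝ) - ((n + 1 : ℤ) : ℝ)) := by ring
      rw [e1, abs_mul, abs_of_pos Real.two_pi_pos] at h9
      by_contra hc
      push Not at hc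
      nlinarith
    have h11 : |r - ((n:ℤ) + 1)| < 1 := by exact_mod_cast h10
    have := Int.abs_lt_one_iff.1 h11
    omega
  have hP : P (n + 1) (2 * μ) (2 * e) (Real.pi / 2) = Real.pi / 2 + 2 * Real.pi * ((n + 1 : ℤ) : ℝ) := by
    rw [hPr, hrl]
  obtain ⟨c, hr, hb, hG⟩ := fourier_data hP
  have e2 : 2 * e / 2 = e := by ring
  by_cases hc1 : c (-1) = 0
  · obtain ⟨hz, hG'⟩ := poly_rep hμ.ne' hr hG hc1
    have := good_of hμ hP hr hz hG'
    rw [e2] at this
    exact ⟨c, this⟩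
  · exfalso
    obtain ⟨D, -, hD⟩ := decay hr hb 3
    have hs := summable_c (summables hD)
    rw [e2] at hr
    apply hc1
    refine asym hμ hr hb h.sb h.lead (rel_of_zero h.sa h.sb hs fun t => ?_)
    have hGt : HH c t = GG n μ (2 * e) φ t := (hG hs.of_abs t).tsum_eq
    rw [hGt]
    set E : ℂ := ((-(μ * Real.cos t) : ℝ) : ℂ) + I * ((((n:ℝ) - 1) / 2 * t : ℝ) : ℂ) with hE
    have e3 : GG n μ (2 * e) φ t = ZZ (2 * e) φ t * exp E := by
      rw [GG, ZZ, gg, ← exp_add]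
      congr 1
      rw [hE]; push_cast; ring
    have e4 : exp (I * ((n : ℂ) - 1) * t) * exp (conj E) = exp E := by
      rw [← exp_add]
      congr 1
      rw [hE]
      simp only [map_add, map_mul, conj_I, conj_ofReal]
      push_cast; ring
    rw [e3, map_mul, ← exp_conj]
    have h12 := hW0 t
    have h13 : kap n * (HH A t * ZZ (2 * e) φ t + HH B t * conj (ZZ (2 * e) φ t)) = 0 := by
      linear_combination h12
    have h14 := (mul_eq_zero.1 h13).resolve_left (kap_ne n)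
    calc HH A t * (ZZ (2 * e) φ t * exp E) + HH B t * (exp (I * ((n : ℂ) - 1) * t) *
          (conj (ZZ (2 * e) φ t) * exp (conj E)))
        = HH A t * (ZZ (2 * e) φ t * exp E) + HH B t * conj (ZZ (2 * e) φ t) *
          (exp (I * ((n : ℂ) - 1) * t) * exp (conj E)) := by ring
      _ = (HH A t * ZZ (2 * e) φ t + HH B t * conj (ZZ (2 * e) φ t)) * exp E := by rw [e4]; ring
      _ = 0 := by rw [h14, zero_mul]

end H535R3
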