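import Pool.Agent.H535R3.JR

set_option autoImplicit false
open Set Filter Topology Complex ComplexConjugate

namespace H535R3

lemma simple_MM (n : ℕ) {ε : ℝ} (hε : 0 < ε) : Simple n ε (2 * MM n (ε / 2)) := by
  have hδ : 0 < ε / 2 := by positivity
  have h1 := PF_lock (n := n) hδ
  have h2 := Kx_sym h1
  have h3 := PF_not_rot (n := n) hδ
  rcases Nat.even_or_odd n with hn | hn
  · rw [hn.neg_one_pow, show 2 * (1 * (ε / 2)) = ε by ring] at h1 h2 h3
    exact frontier_of_parabolic h1 h2 h3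
  · rw [hn.neg_one_pow, show 2 * (-1 * (ε / 2)) = -ε by ring] at h1 h2 h3
    have h4 := P_neg (n + 1) (2 * MM n (ε / 2)) ε (-(Real.pi / 2))
    rw [show -(Real.pi / 2) + Real.pi = Real.pi / 2 by ring, h1, h2] at h4
    refine frontier_of_parabolic (x0 := -(Real.pi / 2)) ?_ h4.2 ?_
    · rw [h4.1]; ring
    · intro hall
      apply h3
      intro x
      have h5 := (P_neg (n + 1) (2 * MM n (ε / 2)) (-ε) x).1
      rw [neg_neg, hall] at h5
      rw [h5]; push_cast; ring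

lemma MM_of_good {n : ℕ} {μ e : ℝ} {c : ℤ → ℝ} (h : Good n μ e c) (he : e ≠ 0) : μ = MM n |e| := by
  have he' : 0 < |e| := abs_pos.2 he
  obtain ⟨e', c', h1, h2⟩ := good_of_simple (n := n) (ε := 2 * |e|)
    (mul_pos two_pos (MM_pos n (δ := 2 * |e| / 2) (by positivity))) (simple_MM n (by positivity))
  have e1 : 2 * MM n (2 * |e| / 2) / 2 = MM n |e| := by
    rw [mul_div_cancel_left₀ _ two_ne_zero, mul_div_cancel_left₀ _ two_ne_zero]
  rw [e1] at h2
  refine h.unique h2 he ?_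
  rw [h1, mul_div_cancel_left₀ _ two_ne_zero, abs_abs]

/-- `e ^ 2 Δ`. -/
noncomputable def DT (n : ℕ) (μ e : ℝ) : ℝ :=
  ((-1) ^ (n + 1) * μ + ∑ k ∈ Finset.Icc (-(n:ℤ)) n,
    (-e ^ 2 * (1 + (-1) ^ (n + 1) * (-1) ^ k) * bT n μ e k / (k + (n + 1)))) ^ 2 -
  (e * ∑ k ∈ Finset.Icc (-(n:ℤ)) n, bT n μ e k) ^ 2

lemma pT_cont (n : ℕ) (μ : ℝ) (j : ℕ) : Continuous (fun e => pT n μ e j) ∧
    Continuous (fun e => pT n μ e (j + 1)) := by
  have hw : ∀ j, Continuous (fun e => wT n μ e j) := by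
    intro j; unfold wT; fun_prop
  induction j with
  | zero =>
    constructor
    · simp only [pT]; exact continuous_const
    · simp only [zero_add, pT]; exact hw 0
  | succ j ih =>
    refine ⟨ih.2, ?_⟩
    have : (fun e => pT n μ e (j + 1 + 1)) = fun e => wT n μ e (j + 1) * pT n μ e (j + 1) - pT n μ e j := by
      funext e; rw [pT]
    rw [this]
    exact ((hw _).mul ih.2).sub ih.1

lemma bT_cont (n : ℕ) (μ : ℝ) (k : ℤ) : Continuous (fun e => bT n μ e k) := by
  unfold bT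
  split_ifs
  · exact (pT_cont n μ _).1
  · exact continuous_const.mul (pT_cont n μ _).1
  · exact continuous_const

lemma DT_cont (n : ℕ) (μ : ℝ) : Continuous (DT n μ) := by
  have := bT_cont n μ
  unfold DT
  fun_prop

lemma DT_zero (n : ℕ) (μ : ℝ) : DT n μ 0 = μ ^ 2 := by
  unfold DT
  have : ∑ k ∈ Finset.Icc (-(n:ℤ)) n,
    (-(0:ℝ) ^ 2 * (1 + (-1) ^ (n + 1) * (-1) ^ k) * bT n μ 0 k / (k + (n + 1))) = 0 := by
    refine Finset.sum_eq_zero fun k _ => ?_
    ring
  rw [this, add_zero, zero_mul, mul_pow, ← pow_mul, mul_comm (n + 1), pow_mul]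
  norm_num

lemma DT_eq {n : ℕ} {μ e : ℝ} (he : e ≠ 0) :
    e ^ 2 * ((∑' k, aT n μ e k) ^ 2 - (∑' k, bT n μ e k) ^ 2) = DT n μ e := by
  have h1 : ∑' k, bT n μ e k = ∑ k ∈ Finset.Icc (-(n:ℤ)) n, bT n μ e k := by
    refine tsum_eq_sum fun k hk => bT_out ?_
    rw [Finset.mem_Icc] at hk
    by_contra hc
    push Not at hc
    exact hk (abs_le.1 hc)
  have h2 : ∑' k, aT n μ e k = aT n μ e (-((n:ℤ) + 1)) + ∑ k ∈ Finset.Icc (-(n:ℤ)) n, aT n μ e k := by
    rw [← Finset.sum_insert (by rw [Finset.mem_Icc]; omega)]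
    refine tsum_eq_sum fun k hk => ?_
    rw [Finset.mem_insert, Finset.mem_Icc] at hk
    push Not at hk
    unfold aT
    rw [if_neg hk.1, bT_out]
    · ring
    · by_contra hc
      push Not at hc
      have := abs_le.1 hc
      have := hk.2 this.1
      omega
  have h3 : e * ∑' k, aT n μ e k = (-1) ^ (n + 1) * μ + ∑ k ∈ Finset.Icc (-(n:ℤ)) n,
      (-e ^ 2 * (1 + (-1) ^ (n + 1) * (-1) ^ k) * bT n μ e k / (k + (n + 1))) := by
    rw [h2, mul_add, Finset.mul_sum]
    congr 1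
    · unfold aT
      rw [if_pos rfl]; field_simp
    · refine Finset.sum_congr rfl fun k hk => ?_
      rw [Finset.mem_Icc] at hk
      unfold aT
      rw [if_neg (by omega)]; ring
  unfold DT
  rw [← h3, ← h1]; ring

lemma P_zero (b a x : ℝ) : P b a 0 x = x + 2 * Real.pi * b := by
  have h : Sol b a 0 (fun t => x + b * t + a * Real.sin t) := by
    intro t
    have h1 : HasDerivAt (fun t => x + b * t + a * Real.sin t) (b * 1 + a * Real.cos t) t :=
      (((hasDerivAt_id t).const_mul b).const_add x).add ((Real.hasDerivAt_sin t).const_mul a)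
    refine h1.congr_deriv ?_
    ring
  have h2 := congrFun h.eq_fl (2 * Real.pi)
  simp only [mul_zero, Real.sin_zero, add_zero, Real.sin_two_pi] at h2
  rw [P, ← h2]; ring

lemma closed_gen (b a : ℝ) {K : Set ℝ} (hK : IsClosed K) :
    IsClosed {e : ℝ | ∃ x, P b a (2 * e) x - x ∈ K} := by
  have h1 : {e : ℝ | ∃ x, P b a (2 * e) x - x ∈ K} = Prod.snd '' {p : Icc (0:ℝ) (2 * Real.pi) × ℝ |
      P b a (2 * p.2) p.1 - p.1 ∈ K} := by
    ext e
    constructor
    · rintro ⟨x, hx⟩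
      obtain ⟨m, hm1, hm2⟩ := exists_shift 0 x
      refine ⟨(⟨x + 2 * Real.pi * m, hm1, by linarith⟩, e), ?_, rfl⟩
      simp only [mem_ofPred_eq]
      rw [P_add, add_sub_add_right_eq_sub]; exact hx
    · rintro ⟨⟨x, e'⟩, hx, rfl⟩
      exact ⟨x, hx⟩
  rw [h1]
  refine isClosedMap_snd_of_compactSpace _ (hK.preimage ?_)
  have : Continuous fun p : Icc (0:ℝ) (2 * Real.pi) × ℝ => P b a (2 * p.2) p.1 :=
    continuous_P.comp (f := fun p : Icc (0:ℝ) (2 * Real.pi) × ℝ =>
      (b, a, 2 * p.2, (p.1 : ℝ))) (by fun_prop)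
  exact this.sub (by fun_prop)

lemma int_close {r m : ℤ} (h : |2 * Real.pi * r - 2 * Real.pi * m| < 2 * Real.pi) : r = m := by
  rw [← mul_sub, abs_mul, abs_of_pos Real.two_pi_pos] at h
  have h10 : |(r:ℝ) - m| < 1 := by
    by_contra hc
    push Not at hc
    have := Real.two_pi_pos
    nlinarith
  have h11 : |r - m| < 1 := by exact_mod_cast h10
  have := Int.abs_lt_one_iff.1 h11
  omega

/-- Above the Perron point the axis is in the locked area. -/
theorem locked_above {n : ℕ} {μ ε : ℝ} (hμ : 0 < μ) (hε : 0 < ε) (h : MM n (ε / 2) < μ) :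
    ∃ x, P (n + 1) (2 * μ) ε x = x + 2 * Real.pi * ((n + 1 : ℤ) : ℝ) := by
  set E := ε / 2 with hE
  have hE0 : 0 < E := by positivity
  have claimA : ∀ e, 0 < e → e ≤ E →
      (∃ x, P (n + 1) (2 * μ) (2 * e) x = x + 2 * Real.pi * ((n + 1 : ℤ) : ℝ)) → DT n μ e ≠ 0 := by
    intro e he heE hl hD
    have hMM : MM n e < μ := (MM_mono (n := n) he heE).trans_lt h
    have hT := TP_T (n := n) hμ.ne' he.ne'
    rw [← DT_eq he.ne'] at hD
    have h1 := (mul_eq_zero.1 hD).resolve_left (by positivity)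
    have h2 : ((∑' k, aT n μ e k) + (∑' k, bT n μ e k)) * ((∑' k, aT n μ e k) - (∑' k, bT n μ e k)) = 0 := by
      rw [← h1]; ring
    rcases mul_eq_zero.1 h2 with h3 | h3
    · obtain ⟨c, hc⟩ := kernel hμ hT h3 hl
      have := MM_of_good hc he.ne'
      rw [abs_of_pos he] at this
      linarith
    · obtain ⟨x, hx⟩ := hl
      have h4 := (P_neg (n + 1) (2 * μ) (2 * e) x).1
      obtain ⟨c, hc⟩ := kernel hμ hT.neg (by rw [tsum_neg]; linarith) ⟨x + Real.pi, by
        rw [show 2 * -e = -(2 * e) by ring]; linarith⟩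
      have := MM_of_good hc (neg_ne_zero.2 he.ne')
      rw [abs_neg, abs_of_pos he] at this
      linarith
  have claimB : ∀ e, 0 < e → 0 < DT n μ e →
      ∃ (x : ℝ) (r : ℤ), P (n + 1) (2 * μ) (2 * e) x = x + 2 * Real.pi * r := by
    intro e he hD
    have hT := TP_T (n := n) hμ.ne' he.ne'
    refine no_elliptic (α := fun t => kap n * HH (aT n μ e) t) (β := fun t => kap n * HH (bT n μ e) t)
      (fun Z hZ => hT.map hZ) ?_ ?_ ?_
    · have := HH_per (aT n μ e) 0
      rw [zero_add] at this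
      simp only [this]
    · have := HH_per (bT n μ e) 0
      rw [zero_add] at this
      simp only [this]
    · rw [← DT_eq he.ne'] at hD
      have h1 := (pos_iff_pos_of_mul_pos hD).1 (by positivity)
      simp only [map_mul, kap_norm, one_mul, HH_real, normSq_ofReal]
      nlinarith
  set s : Set ℝ := {e | (∃ x, P (n + 1) (2 * μ) (2 * e) x - x ∈ ({2 * Real.pi * ((n + 1 : ℤ) : ℝ)} : Set ℝ)) ∧
    0 ≤ DT n μ e} with hs
  have hsub : Icc 0 E ⊆ s := by
    refine IsClosed.Icc_subset_of_forall_mem_nhdsWithin ?_ ?_ ?_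
    · exact ((closed_gen _ _ isClosed_singleton).inter
        (isClosed_le continuous_const (DT_cont n μ))).inter isClosed_Icc
    · refine ⟨⟨0, ?_⟩, ?_⟩
      · rw [mul_zero, P_zero, mem_singleton_iff]; push_cast; ring
      · rw [DT_zero]; positivity
    · rintro e ⟨⟨⟨x, hx⟩, h2⟩, h3⟩
      rw [mem_singleton_iff] at hx
      have hx' : P (n + 1) (2 * μ) (2 * e) x = x + 2 * Real.pi * ((n + 1 : ℤ) : ℝ) := by linarith
      have hpos : 0 < DT n μ e := by
        rcases h3.1.lt_or_eq with h4 | h4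
        · exact lt_of_le_of_ne h2 (Ne.symm (claimA e h4 h3.2.le ⟨x, hx'⟩))
        · rw [← h4, DT_zero]; positivity
      have hN : e ∈ {e : ℝ | ∃ x, P (n + 1) (2 * μ) (2 * e) x - x ∈
          {y : ℝ | 2 * Real.pi ≤ |y - 2 * Real.pi * ((n + 1 : ℤ) : ℝ)|}}ᶜ := by
        rintro ⟨y, hy⟩
        rw [mem_ofPred_eq] at hy
        have := close (x := y) hx'
        rw [show P (n + 1) (2 * μ) (2 * e) y - y - 2 * Real.pi * ((n + 1 : ℤ) : ℝ) =
          P (n + 1) (2 * μ) (2 * e) y - 2 * Real.pi * ((n + 1 : ℤ) : ℝ) - y by ring] at hy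
        linarith
      have hNo : IsOpen {e : ℝ | ∃ x, P (n + 1) (2 * μ) (2 * e) x - x ∈
          {y : ℝ | 2 * Real.pi ≤ |y - 2 * Real.pi * ((n + 1 : ℤ) : ℝ)|}}ᶜ :=
        (closed_gen _ _ (isClosed_le continuous_const (by fun_prop))).isOpen_compl
      have hev1 : ∀ᶠ e' in 𝓝[>] e, 0 < DT n μ e' :=
        ((DT_cont n μ).continuousAt.eventually (lt_mem_nhds hpos)).filter_mono nhdsWithin_le_nhds
      have hev2 := (hNo.mem_nhds hN)
      have hev3 : ∀ᶠ e' in 𝓝[>] e, e' ∈ {e : ℝ | ∃ x, P (n + 1) (2 * μ) (2 * e) x - x ∈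
          {y : ℝ | 2 * Real.pi ≤ |y - 2 * Real.pi * ((n + 1 : ℤ) : ℝ)|}}ᶜ :=
        nhdsWithin_le_nhds hev2
      filter_upwards [hev1, hev3, self_mem_nhdsWithin] with e' h5 h6 h7
      have h8 : 0 < e' := lt_of_le_of_lt h3.1 h7
      obtain ⟨y, r, hy⟩ := claimB e' h8 h5
      have hr : r = (n:ℤ) + 1 := by
        apply int_close
        by_contra hc
        push Not at hc
        apply h6
        refine ⟨y, ?_⟩
        rw [hy, add_sub_cancel_left]
        exact hc
      refine ⟨⟨y, ?_⟩, h5.le⟩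
      rw [mem_singleton_iff, hy, hr]; push_cast; ring
  obtain ⟨⟨x, hx⟩, -⟩ := hsub ⟨hE0.le, le_rfl⟩
  rw [mem_singleton_iff, hE, mul_div_cancel₀ _ two_ne_zero] at hx
  exact ⟨x, by linarith⟩

end H535R3
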