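import Pool.Agent.H535R3.JN

set_option autoImplicit false
open Set Filter Topology Complex ComplexConjugate Polynomial Metric

namespace H535R3

lemma int_const {f : ℝ → ℝ} (hf : Continuous f) (hi : ∀ t, ∃ N : ℤ, f t = N) (s t : ℝ) : f s = f t := by
  obtain ⟨N, hN⟩ := hi s
  obtain ⟨M, hM⟩ := hi t
  by_contra hne
  rw [hN, hM] at hne
  have hne' : N ≠ M := fun h => hne (by rw [h])
  obtain ⟨y, hy⟩ : ∃ y, f y = ((min N M : ℤ) : ℝ) + 1 / 2 := by
    rcases lt_or_gt_of_ne hne' with h | h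
    · have h3 : (N:ℝ) + 1 ≤ M := by exact_mod_cast h
      refine mem_range_of_exists_le_of_exists_ge hf ⟨s, ?_⟩ ⟨t, ?_⟩ <;> rw [min_eq_left h.le] <;> linarith
    · have h3 : (M:ℝ) + 1 ≤ N := by exact_mod_cast h
      refine mem_range_of_exists_le_of_exists_ge hf ⟨t, ?_⟩ ⟨s, ?_⟩ <;> rw [min_eq_right h.le] <;> linarith
  obtain ⟨K, hK⟩ := hi y
  rw [hK] at hy
  have h3 : (2 * K : ℝ) = 2 * (min N M : ℤ) + 1 := by linarith
  have h4 : (2 * K : ℤ) = 2 * (min N M : ℤ) + 1 := by exact_mod_cast h3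
  omega

lemma lift_unique {g1 g2 : ℝ → ℂ} (h1 : Continuous g1) (h2 : Continuous g2)
    (h : ∀ t, exp (g1 t) = exp (g2 t)) (s t : ℝ) : g1 t - g1 s = g2 t - g2 s := by
  have hn : ∀ t, ∃ N : ℤ, g1 t = g2 t + N * (2 * Real.pi * I) := fun t => exp_eq_exp_iff_exists_int.1 (h t)
  have hc : Continuous fun t => (g1 t - g2 t).im / (2 * Real.pi) :=
    (continuous_im.comp (h1.sub h2)).div_const _
  have hi : ∀ t, ∃ N : ℤ, (g1 t - g2 t).im / (2 * Real.pi) = N := by
    intro t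
    obtain ⟨N, hN⟩ := hn t
    refine ⟨N, ?_⟩
    rw [hN, add_sub_cancel_left]
    have : (N * (2 * Real.pi * I) : ℂ) = ((N * (2 * Real.pi) : ℝ) : ℂ) * I := by push_cast; ring
    rw [this, im_ofReal_mul, I_im, mul_one]
    field_simp
  have h3 := int_const hc hi s t
  obtain ⟨N, hN⟩ := hn s
  obtain ⟨M, hM⟩ := hn t
  have e : ∀ K : ℤ, (K * (2 * Real.pi * I) : ℂ).im = K * (2 * Real.pi) := by
    intro K
    have : (K * (2 * Real.pi * I) : ℂ) = ((K * (2 * Real.pi) : ℝ) : ℂ) * I := by push_cast; ring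
    rw [this, im_ofReal_mul, I_im, mul_one]
  rw [hN, hM, add_sub_cancel_left, add_sub_cancel_left, e, e] at h3
  have h4 : (N:ℝ) = M := by
    have := Real.two_pi_pos
    field_simp at h3
    linarith
  have h5 : N = M := by exact_mod_cast h4
  rw [hN, hM, h5]; ring

lemma factor_lift {ζ : ℂ} (hζ : ‖ζ‖ ≠ 1) : ∃ g : ℝ → ℂ, Continuous g ∧
    (∀ t : ℝ, exp (g t) = exp (I * t) - ζ) ∧
    g (2 * Real.pi) - g 0 = 2 * Real.pi * I * (if ‖ζ‖ < 1 then 1 else 0) := by
  have hE : exp (I * ((2 * Real.pi : ℝ) : ℂ)) = 1 := by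
    rw [mul_comm]; push_cast; exact exp_two_pi_mul_I
  have hn : ∀ t : ℝ, ‖exp (I * t)‖ = 1 := by
    intro t; rw [mul_comm]; exact norm_exp_ofReal_mul_I t
  split_ifs with h
  · have hsp : ∀ t : ℝ, 1 + (-ζ * exp (-(I * t))) ∈ slitPlane := by
      intro t
      apply mem_slitPlane_of_norm_lt_one
      rw [norm_mul, norm_e1, mul_one, norm_neg]; exact h
    refine ⟨fun t => I * t + log (1 + (-ζ * exp (-(I * t)))), ?_, ?_, ?_⟩
    · exact (by fun_prop : Continuous fun t : ℝ => I * (t:ℂ)).add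
        ((by fun_prop : Continuous fun t : ℝ => 1 + (-ζ * exp (-(I * (t:ℂ))))).clog hsp)
    · intro t
      rw [exp_add, exp_log (slitPlane_ne_zero (hsp t)), mul_add, mul_one]
      have : exp (I * t) * (-ζ * exp (-(I * t))) = -ζ := by
        rw [mul_left_comm, ← exp_add, add_neg_cancel, exp_zero, mul_one]
      rw [this]; ring
    · have e1 : exp (-(I * ((2 * Real.pi : ℝ) : ℂ))) = 1 := by rw [exp_neg, hE, inv_one]
      simp only [e1, ofReal_zero, mul_zero, neg_zero, exp_zero]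
      push_cast; ring
  · have h1 : 1 < ‖ζ‖ := lt_of_le_of_ne (not_lt.1 h) (Ne.symm hζ)
    have hζ0 : ζ ≠ 0 := by
      rintro rfl; rw [norm_zero] at h1; linarith
    have hsp : ∀ t : ℝ, 1 + (-exp (I * t) / ζ) ∈ slitPlane := by
      intro t
      apply mem_slitPlane_of_norm_lt_one
      rw [norm_div, norm_neg, hn, div_lt_one (by linarith)]; exact h1
    refine ⟨fun t => log (-ζ) + log (1 + (-exp (I * t) / ζ)), ?_, ?_, ?_⟩
    · exact continuous_const.add
        ((by fun_prop : Continuous fun t : ℝ => 1 + (-exp (I * (t:ℂ)) / ζ)).clog hsp)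
    · intro t
      rw [exp_add, exp_log (slitPlane_ne_zero (hsp t)), exp_log (neg_ne_zero.2 hζ0)]
      field_simp
      ring
    · simp only [hE, ofReal_zero, mul_zero, exp_zero]
      ring

lemma poly_lift (s : Multiset ℂ) (hs : ∀ ζ ∈ s, ‖ζ‖ ≠ 1) : ∃ g : ℝ → ℂ, Continuous g ∧
    (∀ t : ℝ, exp (g t) = (s.map fun ζ => exp (I * t) - ζ).prod) ∧
    g (2 * Real.pi) - g 0 = 2 * Real.pi * I * ((s.filter (fun ζ : ℂ => ‖ζ‖ < 1)).card : ℂ) := by
  induction s using Multiset.induction_on with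
  | empty => exact ⟨fun _ => 0, continuous_const, by simp, by simp⟩
  | cons a s ih =>
    obtain ⟨g, hg1, hg2, hg3⟩ := ih (fun ζ hζ => hs ζ (Multiset.mem_cons_of_mem hζ))
    obtain ⟨f, hf1, hf2, hf3⟩ := factor_lift (hs a (Multiset.mem_cons_self a s))
    refine ⟨fun t => f t + g t, hf1.add hg1, ?_, ?_⟩
    · intro t
      rw [exp_add, hf2, hg2, Multiset.map_cons, Multiset.prod_cons]
    · have : f (2 * Real.pi) + g (2 * Real.pi) - (f 0 + g 0) =
        (f (2 * Real.pi) - f 0) + (g (2 * Real.pi) - g 0) := by ring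
      rw [this, hf3, hg3, Multiset.filter_cons]
      split_ifs with h
      · rw [Multiset.card_add, Multiset.card_singleton]; push_cast; ring
      · rw [Multiset.card_add, Multiset.card_zero]; push_cast; ring

/-- Winding number of a power series on the unit circle. -/
lemma winding {h : ℕ → ℂ} (hs : Summable fun m => ‖h m‖) {g : ℝ → ℂ} (hg : Continuous g)
    (hH : ∀ t : ℝ, (∑' m, h m * exp (I * t) ^ m) = exp (g t)) {N : ℤ}
    (hN : g (2 * Real.pi) - g 0 = 2 * Real.pi * I * N) :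
    0 ≤ N ∧ (N = 0 → ∀ z : ℂ, ‖z‖ ≤ 1 → (∑' m, h m * z ^ m) ≠ 0) := by
  have hn : ∀ t : ℝ, ‖exp (I * t)‖ = 1 := by
    intro t; rw [mul_comm]; exact norm_exp_ofReal_mul_I t
  have hper : ∀ (t : ℝ) (m : ℤ), exp (I * ((t + 2 * Real.pi * m : ℝ) : ℂ)) = exp (I * t) := by
    intro t m
    rw [exp_eq_exp_iff_exists_int]
    exact ⟨m, by push_cast; ring⟩
  -- lower bound
  obtain ⟨c, hc0, hc⟩ : ∃ c, 0 < c ∧ ∀ t, c ≤ ‖exp (g t)‖ := by
    obtain ⟨z, hz, hmin⟩ := (isCompact_Icc (a := (0:ℝ)) (b := 2 * Real.pi)).exists_isMinOn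
      ⟨0, ⟨le_rfl, Real.two_pi_pos.le⟩⟩ (hg.cexp.norm).continuousOn
    refine ⟨‖exp (g z)‖, norm_pos_iff.2 (exp_ne_zero _), fun t => ?_⟩
    obtain ⟨m, hm1, hm2⟩ := exists_shift 0 t
    have e1 : exp (g t) = exp (g (t + 2 * Real.pi * m)) := by rw [← hH, ← hH, hper]
    rw [e1]
    exact hmin ⟨hm1, by linarith⟩
  have htail := tendsto_sum_nat_add (fun m => ‖h m‖)
  obtain ⟨K, hK⟩ := (htail.eventually (gt_mem_nhds (show (0:ℝ) < c / 4 by positivity))).exists
  set p : ℂ[X] := ∑ m ∈ Finset.range K, C (h m) * X ^ m with hp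
  have hev : ∀ z : ℂ, p.eval z = ∑ m ∈ Finset.range K, h m * z ^ m := by
    intro z; simp [hp, eval_finsetSum]
  have hsz : ∀ z : ℂ, ‖z‖ ≤ 1 → Summable fun m => h m * z ^ m := by
    intro z hz
    refine Summable.of_norm_bounded hs fun m => ?_
    rw [norm_mul, norm_pow]
    exact mul_le_of_le_one_right (norm_nonneg _) (pow_le_one₀ (norm_nonneg _) hz)
  have hclose : ∀ z : ℂ, ‖z‖ ≤ 1 → ‖(∑' m, h m * z ^ m) - p.eval z‖ < c / 4 := by
    intro z hz
    rw [hev, ← (hsz z hz).sum_add_tsum_nat_add K, add_sub_cancel_left]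
    have hs' : Summable fun m => ‖h (m + K)‖ := (summable_nat_add_iff K).2 hs
    have h2 : ∀ m, ‖h (m + K) * z ^ (m + K)‖ ≤ ‖h (m + K)‖ := by
      intro m
      rw [norm_mul, norm_pow]
      exact mul_le_of_le_one_right (norm_nonneg _) (pow_le_one₀ (norm_nonneg _) hz)
    have hs2 : Summable fun m => ‖h (m + K) * z ^ (m + K)‖ :=
      Summable.of_nonneg_of_le (fun _ => norm_nonneg _) h2 hs'
    refine lt_of_le_of_lt (norm_tsum_le_tsum_norm hs2) (lt_of_le_of_lt ?_ hK)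
    exact hs2.tsum_le_tsum h2 hs'
  have hplow : ∀ t : ℝ, 3 * c / 4 ≤ ‖p.eval (exp (I * t))‖ := by
    intro t
    have h1 := hclose (exp (I * t)) (hn t).le
    rw [hH] at h1
    have h2 := hc t
    have h3 := norm_sub_norm_le (exp (g t)) (p.eval (exp (I * t)))
    linarith
  set w : ℝ → ℂ := fun t => (p.eval (exp (I * t)) - exp (g t)) / exp (g t) with hw
  have hwn : ∀ t, ‖w t‖ < 1 := by
    intro t
    have h1 := hclose (exp (I * t)) (hn t).le
    rw [hH, norm_sub_rev] at h1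
    rw [hw, norm_div, div_lt_one (norm_pos_iff.2 (exp_ne_zero _))]
    linarith [hc t]
  have hwc : Continuous w := by
    have h1 : Continuous fun t : ℝ => p.eval (exp (I * t)) :=
      p.continuous.comp (by fun_prop)
    exact (h1.sub hg.cexp).div hg.cexp (fun t => exp_ne_zero _)
  have hsp : ∀ t, 1 + w t ∈ slitPlane := fun t => mem_slitPlane_of_norm_lt_one (hwn t)
  have hg2c : Continuous fun t => g t + log (1 + w t) := hg.add ((continuous_const.add hwc).clog hsp)
  have hg2 : ∀ t, exp (g t + log (1 + w t)) = p.eval (exp (I * t)) := by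
    intro t
    rw [exp_add, exp_log (slitPlane_ne_zero (hsp t)), hw]
    have := exp_ne_zero (g t)
    field_simp
    ring
  have hE1 : exp (I * ((2 * Real.pi : ℝ) : ℂ)) = 1 := by
    rw [mul_comm]; push_cast; exact exp_two_pi_mul_I
  have hw2 : w (2 * Real.pi) = w 0 := by
    have e1 : exp (g (2 * Real.pi)) = exp (g 0) := by rw [← hH, ← hH, hE1]; simp
    simp only [hw, e1, hE1]; simp
  have hp0 : p ≠ 0 := by
    intro h0
    have := hplow 0
    rw [h0, eval_zero, norm_zero] at this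
    linarith
  have hroots : ∀ ζ ∈ p.roots, ‖ζ‖ ≠ 1 := by
    intro ζ hζ h1
    have h2 : p.eval ζ = 0 := (mem_roots hp0).1 hζ
    obtain ⟨θ, hθ⟩ := (norm_eq_one_iff ζ).1 h1
    have := hplow θ
    rw [mul_comm] at hθ
    rw [hθ, h2, norm_zero] at this
    linarith
  obtain ⟨q, hq1, hq2, hq3⟩ := poly_lift p.roots hroots
  have hlead : p.leadingCoeff ≠ 0 := leadingCoeff_ne_zero.2 hp0
  have hq4 : ∀ t : ℝ, exp (log p.leadingCoeff + q t) = p.eval (exp (I * t)) := by
    intro t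
    rw [exp_add, exp_log hlead, hq2]
    conv_rhs => rw [(IsAlgClosed.splits p).eq_prod_roots]
    rw [eval_mul, eval_C, eval_multiset_prod, Multiset.map_map]
    simp
  have hlu := lift_unique hg2c (continuous_const.add hq1) (fun t => (hg2 t).trans (hq4 t).symm) 0 (2 * Real.pi)
  simp only [hw2, Pi.add_apply] at hlu
  have h1 : (2 * Real.pi * I : ℂ) * N = 2 * Real.pi * I *
      ((p.roots.filter (fun ζ : ℂ => ‖ζ‖ < 1)).card : ℂ) := by
    rw [← hN, ← hq3]; linear_combination hlu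
  have hpi : (2 * Real.pi * I : ℂ) ≠ 0 := by simp [Real.pi_ne_zero]
  have h2 : N = ((p.roots.filter (fun ζ : ℂ => ‖ζ‖ < 1)).card : ℤ) := by
    exact_mod_cast mul_left_cancel₀ hpi h1
  refine ⟨by rw [h2]; positivity, fun hN0 => ?_⟩
  have h3 : (p.roots.filter (fun ζ : ℂ => ‖ζ‖ < 1)).card = 0 := by omega
  have h4 := Multiset.card_eq_zero.1 h3
  have hnz : ∀ z ∈ closedBall (0:ℂ) 1, p.eval z ≠ 0 := by
    intro z hz h0
    rw [mem_closedBall_zero_iff] at hz
    have hz2 : z ∈ p.roots := (mem_roots hp0).2 h0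
    have hz3 : ‖z‖ < 1 := lt_of_le_of_ne hz (hroots z hz2)
    have : z ∈ p.roots.filter (fun ζ : ℂ => ‖ζ‖ < 1) := Multiset.mem_filter.2 ⟨hz2, hz3⟩
    rw [h4] at this
    exact absurd this (Multiset.notMem_zero z)
  intro z hz h0
  have hdiff : DiffContOnCl ℂ (fun z => (p.eval z)⁻¹) (ball 0 1) := by
    apply DifferentiableOn.diffContOnCl
    rw [closure_ball _ one_ne_zero]
    intro z hz
    exact (p.differentiableAt.inv (hnz z hz)).differentiableWithinAt
  have hmax := Complex.norm_le_of_forall_mem_frontier_norm_le (C := (3 * c / 4)⁻¹) isBounded_ball hdiff (by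
    intro y hy
    rw [frontier_ball _ one_ne_zero, mem_sphere_zero_iff_norm] at hy
    obtain ⟨θ, hθ⟩ := (norm_eq_one_iff y).1 hy
    have := hplow θ
    rw [mul_comm] at hθ
    rw [hθ] at this
    rw [norm_inv]
    exact inv_anti₀ (by positivity) this) (z := z) (by
      rw [closure_ball _ one_ne_zero, mem_closedBall_zero_iff]; exact hz)
  rw [norm_inv] at hmax
  have h5 : 0 < ‖p.eval z‖ := norm_pos_iff.2 (hnz z (by rwa [mem_closedBall_zero_iff]))
  have h6 : 3 * c / 4 ≤ ‖p.eval z‖ := (inv_le_inv₀ h5 (by positivity)).1 hmax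
  have h7 := hclose z hz
  rw [h0, zero_sub, norm_neg] at h7
  linarith

end H535R3
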