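import Pool.Agent.H535R3.JS
import Pool.Agent.H535R3.JT

set_option autoImplicit false
open Set Filter Topology Complex ComplexConjugate

namespace H535R3

/-- Recursion of the second gauge. -/
def FRec (n : ℕ) (μ e : ℝ) (F : ℤ → ℝ) : Prop :=
  ∀ k : ℤ, ((k:ℝ) - n) * F k = μ * F (k - 1) - e * F (n - 1 - k)

/-- One step of decay. -/
lemma decay_step' {n : ℕ} {μ e : ℝ} {c : ℤ → ℝ} (h : FRec n μ e c) {j : ℕ} {C : ℝ} (hC0 : 0 ≤ C)
    (hC : ∀ k : ℤ, |c k| * (1 + |(k:ℝ)|) ^ j ≤ C) :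
    ∃ D, 0 ≤ D ∧ ∀ k : ℤ, |c k| * (1 + |(k:ℝ)|) ^ (j + 1) ≤ D := by
  set N : ℝ := n + 2 with hN
  have hN0 : 0 < N := by positivity
  refine ⟨N * (|e| * (N ^ j * C) + |μ| * (2 ^ j * C)) + |c n| * (1 + |(n:ℝ)|) ^ (j + 1), by positivity, ?_⟩
  intro k
  by_cases hk : k = n
  · subst hk
    have : 0 ≤ N * (|e| * (N ^ j * C) + |μ| * (2 ^ j * C)) := by positivity
    push_cast
    linarith
  have h1 := h k
  have h2 : ((n:ℝ) - k) * c k = e * c (n - 1 - k) - μ * c (k - 1) := by linarith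
  have h3 : |(n:ℝ) - k| * |c k| ≤ |e| * |c (n - 1 - k)| + |μ| * |c (k - 1)| := by
    rw [← abs_mul, h2, ← abs_mul, ← abs_mul]
    exact abs_sub _ _
  have hnk : (1:ℝ) ≤ |(n:ℝ) - k| := by
    have : (1:ℤ) ≤ |(n:ℤ) - k| := Int.one_le_abs (sub_ne_zero.2 (Ne.symm hk))
    exact_mod_cast this
  have hn0 : (0:ℝ) ≤ n := n.cast_nonneg
  have h4 : 1 + |(k:ℝ)| ≤ N * |(n:ℝ) - k| := by
    have h5 : |(k:ℝ)| ≤ |(n:ℝ) - k| + n := by
      have := abs_sub_abs_le_abs_sub (k:ℝ) n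
      rw [abs_sub_comm, abs_of_nonneg hn0] at this
      linarith
    rw [hN]
    nlinarith
  have h6 : 1 + |(k:ℝ)| ≤ N * (1 + |((n - 1 - k : ℤ):ℝ)|) := by
    have h5 : |(k:ℝ)| ≤ |((n - 1 - k : ℤ):ℝ)| + (n + 1) := by
      have h7 : (k:ℝ) = ((n:ℝ) - 1) - ((n - 1 - k : ℤ):ℝ) := by push_cast; ring
      calc |(k:ℝ)| = |((n:ℝ) - 1) - ((n - 1 - k : ℤ):ℝ)| := by rw [← h7]
        _ ≤ |(n:ℝ) - 1| + |((n - 1 - k : ℤ):ℝ)| := abs_sub _ _
        _ ≤ _ := by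
          have : |(n:ℝ) - 1| ≤ n + 1 := by rw [abs_le]; constructor <;> linarith
          linarith
    have := abs_nonneg ((n - 1 - k : ℤ):ℝ)
    rw [hN]
    nlinarith
  have h7 : 1 + |(k:ℝ)| ≤ 2 * (1 + |((k - 1 : ℤ):ℝ)|) := by
    have h8 : |(k:ℝ)| ≤ |((k - 1 : ℤ):ℝ)| + 1 := by
      have h9 : (k:ℝ) = ((k - 1 : ℤ):ℝ) + 1 := by push_cast; ring
      calc |(k:ℝ)| = |((k - 1 : ℤ):ℝ) + 1| := by rw [← h9]
        _ ≤ |((k - 1 : ℤ):ℝ)| + |(1:ℝ)| := abs_add_le _ _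
        _ = _ := by rw [abs_one]
    have := abs_nonneg ((k - 1 : ℤ):ℝ)
    linarith
  have hp : 0 ≤ 1 + |(k:ℝ)| := by positivity
  have h8 : |c (n - 1 - k)| * (1 + |(k:ℝ)|) ^ j ≤ N ^ j * C := by
    calc |c (n - 1 - k)| * (1 + |(k:ℝ)|) ^ j ≤ |c (n - 1 - k)| * (N * (1 + |((n - 1 - k : ℤ):ℝ)|)) ^ j := by
          gcongr
      _ = N ^ j * (|c (n - 1 - k)| * (1 + |((n - 1 - k : ℤ):ℝ)|) ^ j) := by rw [mul_pow]; ring
      _ ≤ N ^ j * C := by gcongr; exact hC _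
  have h9 : |c (k - 1)| * (1 + |(k:ℝ)|) ^ j ≤ 2 ^ j * C := by
    calc |c (k - 1)| * (1 + |(k:ℝ)|) ^ j ≤ |c (k - 1)| * (2 * (1 + |((k - 1 : ℤ):ℝ)|)) ^ j := by
          gcongr
      _ = 2 ^ j * (|c (k - 1)| * (1 + |((k - 1 : ℤ):ℝ)|) ^ j) := by rw [mul_pow]; ring
      _ ≤ 2 ^ j * C := by gcongr; exact hC _
  have h10 : |c k| * (1 + |(k:ℝ)|) ^ (j + 1) ≤ N * (|e| * (N ^ j * C) + |μ| * (2 ^ j * C)) := by
    calc |c k| * (1 + |(k:ℝ)|) ^ (j + 1) = (1 + |(k:ℝ)|) * (|c k| * (1 + |(k:ℝ)|) ^ j) := by ring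
      _ ≤ (N * |(n:ℝ) - k|) * (|c k| * (1 + |(k:ℝ)|) ^ j) := by gcongr
      _ = N * ((|(n:ℝ) - k| * |c k|) * (1 + |(k:ℝ)|) ^ j) := by ring
      _ ≤ N * ((|e| * |c (n - 1 - k)| + |μ| * |c (k - 1)|) * (1 + |(k:ℝ)|) ^ j) := by gcongr
      _ = N * (|e| * (|c (n - 1 - k)| * (1 + |(k:ℝ)|) ^ j) + |μ| * (|c (k - 1)| * (1 + |(k:ℝ)|) ^ j)) := by ring
      _ ≤ N * (|e| * (N ^ j * C) + |μ| * (2 ^ j * C)) := by gcongr
  have : 0 ≤ |c n| * (1 + |(n:ℝ)|) ^ (j + 1) := by positivity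
  linarith

lemma decay' {n : ℕ} {μ e : ℝ} {c : ℤ → ℝ} (h : FRec n μ e c) (hb : ∃ C, ∀ k, |c k| ≤ C) (j : ℕ) :
    ∃ D, 0 ≤ D ∧ ∀ k : ℤ, |c k| * (1 + |(k:ℝ)|) ^ j ≤ D := by
  induction j with
  | zero =>
    obtain ⟨C, hC⟩ := hb
    exact ⟨C, (abs_nonneg _).trans (hC 0), fun k => by simpa using hC k⟩
  | succ j ih =>
    obtain ⟨C, hC0, hC⟩ := ih
    exact decay_step' h hC0 hC

/-- The pairing gives `F (-1) = 0`. -/
lemma F_neg_one {n : ℕ} {μ e : ℝ} {F c' : ℤ → ℝ} (hFr : FRec n μ e F)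
    (hBF : ∃ B, ∀ k, |F k| ≤ B) (hr' : RRec n μ (-e) c') (hb' : ∃ C, ∀ k, |c' k| ≤ C)
    (h0 : c' (-1) ≠ 0) : F (-1) = 0 := by
  let T : ℕ → ℝ := fun J => (J : ℝ) * F (n + J) * c' (n + J) - (n + 1 + J) * F (-1 - J) * c' (-1 - J)
  have hT : ∀ J, T (J + 1) = T J := by
    intro J
    simp only [T]
    have h1 := hFr (n + (J + 1 : ℕ))
    have h2 := hr' (n + J)
    have h3 := hr' (-1 - (J + 1 : ℕ))
    have h4 := hFr (-1 - J)
    have e1 : (n:ℤ) + ((J + 1 : ℕ) : ℤ) - 1 = n + J := by push_cast; ring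
    have e2 : (n:ℤ) - 1 - (n + ((J + 1 : ℕ) : ℤ)) = -1 - ((J + 1 : ℕ) : ℤ) := by push_cast; ring
    have e3 : (n:ℤ) + J + 1 = n + ((J + 1 : ℕ) : ℤ) := by push_cast; ring
    have e4 : (n:ℤ) - 1 - (n + J) = -1 - J := by ring
    have e5 : -1 - ((J + 1 : ℕ) : ℤ) + 1 = -1 - J := by push_cast; ring
    have e6 : (n:ℤ) - 1 - (-1 - ((J + 1 : ℕ) : ℤ)) = n + ((J + 1 : ℕ) : ℤ) := by push_cast; ring
    have e7 : (-1 - (J:ℤ)) - 1 = -1 - ((J + 1 : ℕ) : ℤ) := by push_cast; ring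
    have e8 : (n:ℤ) - 1 - (-1 - J) = n + J := by ring
    rw [e1, e2] at h1
    rw [e3, e4] at h2
    rw [e5, e6] at h3
    rw [e7, e8] at h4
    push_cast at h1 h2 h3 h4 ⊢
    generalize F (n + (J + 1)) = a1 at *
    generalize F (-1 - (J + 1)) = a2 at *
    generalize F (n + J) = a3 at *
    generalize F (-1 - J) = a4 at *
    generalize c' (n + (J + 1)) = b1 at *
    generalize c' (-1 - (J + 1)) = b2 at *
    generalize c' (n + J) = b3 at *
    generalize c' (-1 - J) = b4 at *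
    linear_combination b1 * h1 + a3 * h2 - a2 * h3 - b4 * h4
  have hTc : ∀ J, T J = T 0 := by
    intro J
    induction J with
    | zero => rfl
    | succ J ih => rw [hT, ih]
  obtain ⟨B, hB⟩ := hBF
  obtain ⟨D, hD0, hD⟩ := decay hr' hb' 3
  have hB0 : 0 ≤ B := (abs_nonneg _).trans (hB 0)
  have hlim : Tendsto T atTop (𝓝 0) := by
    have hz : Tendsto (fun J : ℕ => (2 * B * D * (n + 1)) / ((J : ℝ) + 1)) atTop (𝓝 0) :=
      tendsto_const_nhds.div_atTop (tendsto_atTop_add_const_right _ _ tendsto_natCast_atTop_atTop)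
    refine squeeze_zero_norm (fun J => ?_) hz
    have hJ : (0:ℝ) ≤ J := Nat.cast_nonneg _
    have hn : (0:ℝ) ≤ n := Nat.cast_nonneg _
    have hc : ∀ k : ℤ, (J:ℝ) ≤ |(k:ℝ)| → |c' k| * ((J:ℝ) + 1) ^ 2 ≤ D := by
      intro k hk
      refine le_trans ?_ (hD k)
      have h1 : ((J:ℝ) + 1) ^ 2 ≤ (1 + |(k:ℝ)|) ^ 3 := by
        calc ((J:ℝ) + 1) ^ 2 ≤ (1 + |(k:ℝ)|) ^ 2 := pow_le_pow_left₀ (by positivity) (by linarith) 2
          _ ≤ (1 + |(k:ℝ)|) ^ 3 := by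
            apply pow_le_pow_right₀ _ (by norm_num)
            have := abs_nonneg (k:ℝ)
            linarith
      gcongr
    have h1 := hc (n + J) (by push_cast; rw [abs_of_nonneg (by positivity)]; linarith)
    have h2 := hc (-1 - J) (by
      push_cast
      rw [abs_of_nonpos (by linarith)]; linarith)
    rw [Real.norm_eq_abs, le_div_iff₀ (by positivity)]
    have h3 : |T J| ≤ (J : ℝ) * B * |c' (n + J)| + (n + 1 + J) * B * |c' (-1 - J)| := by
      simp only [T]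
      refine (abs_sub _ _).trans ?_
      rw [abs_mul, abs_mul, abs_mul, abs_mul, abs_of_nonneg hJ,
        abs_of_nonneg (by positivity : (0:ℝ) ≤ (n:ℝ) + 1 + J)]
      gcongr
      · exact hB _
      · exact hB _
    calc |T J| * ((J:ℝ) + 1) ≤
        ((J : ℝ) * B * |c' (n + J)| + (n + 1 + J) * B * |c' (-1 - J)|) * ((J:ℝ) + 1) := by gcongr
      _ ≤ ((n + 1) * (J + 1) * B * |c' (n + J)| + (n + 1) * (J + 1) * B * |c' (-1 - J)|) * ((J:ℝ) + 1) := by
          gcongr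
          · nlinarith
          · nlinarith
      _ = (n + 1) * B * (|c' (n + J)| * ((J:ℝ) + 1) ^ 2) + (n + 1) * B * (|c' (-1 - J)| * ((J:ℝ) + 1) ^ 2) := by
          ring
      _ ≤ (n + 1) * B * D + (n + 1) * B * D := by gcongr
      _ = 2 * B * D * (n + 1) := by ring
  have h5 : T 0 = 0 := by
    have h6 : Tendsto T atTop (𝓝 (T 0)) := by
      rw [show T = fun _ => T 0 from funext hTc]; exact tendsto_const_nhds
    exact tendsto_nhds_unique h6 hlim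
  simp only [T, Nat.cast_zero, zero_mul, zero_sub, add_zero, sub_zero] at h5
  have h7 : ((n:ℝ) + 1) * F (-1) * c' (-1) = 0 := by
    have := neg_eq_zero.1 h5
    simpa using this
  rcases mul_eq_zero.1 h7 with h8 | h8
  · exact (mul_eq_zero.1 h8).resolve_left (by positivity)
  · exact absurd h8 h0

lemma F_middle {n : ℕ} {μ e : ℝ} (hμ : 0 < μ) {F : ℤ → ℝ} (hFr : FRec n μ e F)
    (h0 : F (-1) = 0) (j : ℤ) (hj1 : -1 ≤ j) (hj2 : j < n) : F j = 0 := by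
  have key : ∀ i : ℕ, i ≤ n → F (-1 + i) = 0 ∧ F (n - 1 - i) = 0 := by
    intro i
    induction i with
    | zero =>
      intro _
      refine ⟨by simpa using h0, ?_⟩
      have h1 := hFr n
      rw [show (n:ℤ) - 1 - n = -1 by ring, h0] at h1
      push_cast at h1
      rw [sub_self, zero_mul, mul_zero, sub_zero] at h1
      have := (mul_eq_zero.1 h1.symm).resolve_left hμ.ne'
      simpa using this
    | succ i ih =>
      intro hi
      obtain ⟨h1, h2⟩ := ih (by omega)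
      have h3 := hFr (-1 + (i + 1 : ℕ))
      rw [show (-1 + ((i + 1 : ℕ) : ℤ)) - 1 = -1 + i by push_cast; ring,
        show (n:ℤ) - 1 - (-1 + ((i + 1 : ℕ) : ℤ)) = n - 1 - i by push_cast; ring, h1, h2] at h3
      rw [mul_zero, mul_zero, sub_zero] at h3
      have hne : (((-1 + ((i + 1 : ℕ) : ℤ) : ℤ)) : ℝ) - n ≠ 0 := by
        push_cast
        have : ((i + 1 : ℕ) : ℝ) ≤ n := by exact_mod_cast hi
        push_cast at this
        intro hz
        linarith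
      have h4 := (mul_eq_zero.1 h3).resolve_left hne
      refine ⟨h4, ?_⟩
      have h5 := hFr (n - 1 - i)
      rw [show (n:ℤ) - 1 - i - 1 = n - 1 - ((i + 1 : ℕ) : ℤ) by push_cast; ring,
        show (n:ℤ) - 1 - (n - 1 - i) = -1 + ((i + 1 : ℕ) : ℤ) by push_cast; ring, h2, h4] at h5
      rw [mul_zero, mul_zero, sub_zero] at h5
      exact (mul_eq_zero.1 h5.symm).resolve_left hμ.ne'
  have := (key (j + 1).toNat (by omega)).1
  rwa [show -1 + (((j + 1).toNat : ℕ) : ℤ) = j by omega] at this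

/-- Right-hand side in the second gauge. -/
noncomputable def lv2 (n : ℕ) (μ ε : ℝ) (t : ℝ) (Z : ℂ) : ℂ :=
  I * n * Z + I * μ * exp (I * t) * Z - I * (ε / 2 : ℝ) * exp (I * ((n : ℂ) - 1) * t) * conj Z

lemma cf_rec2 {n : ℕ} {μ ε : ℝ} {G : ℝ → ℂ} (hG : ∀ t, HasDerivAt G (lv2 n μ ε t (G t)) t)
    (hper : ∀ t, G (t + 2 * Real.pi) = G t) (hsym : ∀ t, G (-t) = conj (G t)) (k : ℤ) :
    μ * cf G (k - 1) + ((n : ℂ) - k) * cf G k = ((ε / 2 : ℝ) : ℂ) * cf G (n - 1 - k) := by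
  have hcont : Continuous G := continuous_iff_continuousAt.2 fun t => (hG t).continuousAt
  have hd : ∀ t : ℝ, HasDerivAt (fun t : ℝ => G t * exp (-(I * k * t)))
      (lv2 n μ ε t (G t) * exp (-(I * k * t)) + G t * (exp (-(I * k * t)) * (-(I * k)))) t := by
    intro t
    have h1 : HasDerivAt (fun t : ℝ => exp (-(I * k * (t : ℂ)))) (exp (-(I * k * t)) * (-(I * k))) t := by
      have h2 : HasDerivAt (fun t : ℝ => -(I * k * (t : ℂ))) (-(I * k * 1)) t :=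
        ((ofRealCLM.hasDerivAt (x := t)).const_mul (I * k)).neg
      rw [mul_one] at h2
      exact h2.cexp
    exact (hG t).mul h1
  have hlc : Continuous fun t : ℝ => lv2 n μ ε t (G t) := by unfold lv2; fun_prop
  have hint := intervalIntegral.integral_eq_sub_of_hasDerivAt (a := -Real.pi) (b := Real.pi)
    (fun t _ => hd t) (Continuous.intervalIntegrable (by fun_prop) _ _)
  have hbd : G Real.pi * exp (-(I * k * (Real.pi : ℝ))) =
      G (-Real.pi) * exp (-(I * k * ((-Real.pi : ℝ) : ℂ))) := by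
    have h1 := hper (-Real.pi)
    have h2 := exp_per k (-Real.pi)
    rw [show -Real.pi + 2 * Real.pi = Real.pi by ring] at h1 h2
    rw [h1, h2]
  rw [hbd, sub_self] at hint
  have hint2 : ∫ t in (-Real.pi)..Real.pi, ((I * ((n : ℂ) - k)) * (G t * exp (-(I * k * t))) +
      (I * μ) * (G t * exp (-(I * ((k - 1 : ℤ) : ℂ) * t))) - (I * (ε / 2 : ℝ)) *
        ((fun s : ℝ => G s * exp (-(I * ((n - 1 - k : ℤ) : ℂ) * s))) (-t))) = 0 := by
    rw [← hint]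
    congr 1
    funext t
    simp only [lv2, hsym]
    have e1 : exp (-(I * ((k - 1 : ℤ) : ℂ) * t)) = exp (I * t) * exp (-(I * k * t)) := by
      rw [← exp_add]; congr 1; push_cast; ring
    have e2 : exp (-(I * ((n - 1 - k : ℤ) : ℂ) * ((-t : ℝ) : ℂ))) =
        exp (I * ((n : ℂ) - 1) * t) * exp (-(I * k * t)) := by
      rw [← exp_add]; congr 1; push_cast; ring
    rw [e1, e2]
    ring
  rw [intervalIntegral.integral_sub, intervalIntegral.integral_add,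
    intervalIntegral.integral_const_mul, intervalIntegral.integral_const_mul,
    intervalIntegral.integral_const_mul,
    intervalIntegral.integral_comp_neg (fun s : ℝ => G s * exp (-(I * ((n - 1 - k : ℤ) : ℂ) * s))),
    neg_neg] at hint2
  rotate_left
  · exact Continuous.intervalIntegrable (by fun_prop) _ _
  · exact Continuous.intervalIntegrable (by fun_prop) _ _
  · exact Continuous.intervalIntegrable (by fun_prop) _ _
  · exact Continuous.intervalIntegrable (by fun_prop) _ _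
  unfold cf
  have hI : (I : ℂ) ≠ 0 := I_ne_zero
  have h3 : I * ((μ : ℂ) * (∫ t in (-Real.pi)..Real.pi, G t * exp (-(I * ((k - 1 : ℤ) : ℂ) * t))) +
    ((n : ℂ) - k) * (∫ t in (-Real.pi)..Real.pi, G t * exp (-(I * k * t))) -
    ((ε / 2 : ℝ) : ℂ) * (∫ t in (-Real.pi)..Real.pi, G t * exp (-(I * ((n - 1 - k : ℤ) : ℂ) * t)))) = 0 := by
    linear_combination hint2
  have h4 := (mul_eq_zero.1 h3).resolve_left hI
  linear_combination ((1 / (2 * Real.pi) : ℝ) : ℂ) * h4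


end H535R3
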