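import Pool.Agent.H535R3.JU

set_option autoImplicit false
open Set Filter Topology Complex ComplexConjugate

namespace H535R3

lemma second_gauge {n : ℕ} {μ ε : ℝ}
    (h : P (n + 1) (2 * μ) ε (Real.pi / 2) = Real.pi / 2 + 2 * Real.pi * ((n + 1 : ℤ) : ℝ)) :
    ∃ F : ℤ → ℝ, FRec n μ (ε / 2) F ∧ (∃ C, ∀ k, |F k| ≤ C) ∧
      ∀ t : ℝ, HH F t = exp ((2 * μ * Real.cos t : ℝ) : ℂ) *
        GG n μ ε (fl (n + 1) (2 * μ) ε (Real.pi / 2)) t := by
  set φ := fl (n + 1) (2 * μ) ε (Real.pi / 2) with hφ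
  set G0 := GG n μ ε φ with hG0
  have hsol0 : LSol n μ ε G0 := GG_sol (fl_sol (n + 1) (2 * μ) ε (Real.pi / 2))
  set G : ℝ → ℂ := fun t => exp ((2 * μ * Real.cos t : ℝ) : ℂ) * G0 t with hG
  have hsol : ∀ t, HasDerivAt G (lv2 n μ ε t (G t)) t := by
    intro t
    have h1 : HasDerivAt (fun t : ℝ => 2 * μ * Real.cos t) (2 * μ * (-Real.sin t)) t :=
      (Real.hasDerivAt_cos t).const_mul _
    have h2 := (h1.ofReal_comp.cexp).mul (hsol0 t)
    refine h2.congr_deriv ?_
    have e1 : exp (-(I * t)) = Real.cos t - I * Real.sin t := by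
      rw [show -(I * (t:ℂ)) = ((-t : ℝ) : ℂ) * I by push_cast; ring, exp_mul_I]
      push_cast
      rw [Complex.cos_neg, Complex.sin_neg]; ring
    have e2 : exp (I * t) = Real.cos t + I * Real.sin t := by
      rw [mul_comm, exp_mul_I]; push_cast; ring
    simp only [lv, lv2, hG, map_mul, e1, e2, ← exp_conj, conj_ofReal]
    push_cast
    have hI : I * I = -1 := I_mul_I
    linear_combination (-(2 * μ * Complex.sin t * exp (2 * μ * Complex.cos t) * G0 t)) * hI
  have hcont : Continuous G := continuous_iff_continuousAt.2 fun t => (hsol t).continuousAt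
  have hper : ∀ t, G (t + 2 * Real.pi) = G t := by
    intro t
    simp only [hG, Real.cos_add_two_pi]
    congr 1
    rw [hG0, GG, GG, exp_eq_exp_iff_exists_int]
    refine ⟨n, ?_⟩
    rw [gg, gg, hφ, (Cc_per h).2, fl_per h, Real.cos_add_two_pi]
    push_cast
    ring
  have hsym : ∀ t, G (-t) = conj (G t) := by
    intro t
    simp only [hG, Real.cos_neg, map_mul, ← exp_conj, conj_ofReal]
    congr 1
    rw [hG0, GG, GG, ← exp_conj]
    congr 1
    rw [gg, gg, hφ, Cc_even, sym_sol, Real.cos_neg]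
    simp only [map_add, map_mul, conj_ofReal, conj_I]
    push_cast
    ring
  have hreal : ∀ k, ((cf G k).re : ℂ) = cf G k := fun k => conj_eq_iff_re.1 (cf_conj hsym k)
  have hper' : Function.Periodic G (2 * Real.pi) := hper
  obtain ⟨C, hC⟩ := (hper'.isBounded_of_continuous Real.two_pi_pos.ne' hcont).exists_norm_le
  have hrec : FRec n μ (ε / 2) (fun k => (cf G k).re) := by
    intro k
    have h1 := cf_rec2 hsol hper hsym k
    rw [← hreal, ← hreal k, ← hreal (n - 1 - k)] at h1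
    have h2 : μ * (cf G (k - 1)).re + ((n : ℝ) - k) * (cf G k).re = (ε / 2) * (cf G (n - 1 - k)).re := by
      exact_mod_cast h1
    simp only
    linarith
  have hb : ∃ C, ∀ k, |(cf G k).re| ≤ C :=
    ⟨C, fun k => (abs_re_le_norm _).trans (cf_bound (fun t => hC _ (mem_range_self t)) k)⟩
  refine ⟨fun k => (cf G k).re, hrec, hb, fun t => ?_⟩
  obtain ⟨D, -, hD⟩ := decay' hrec hb 3
  have hs := (summable_c (summables hD)).of_abs
  have hs2 : Summable (cf G) := by
    have : (cf G) = fun k => (((cf G k).re : ℝ) : ℂ) := funext fun k => (hreal k).symm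
    rw [this]
    exact_mod_cast hs
  have h3 := cf_expand hcont hper hs2 t
  have h4 : (HH (fun k => (cf G k).re) t) = G t := by
    rw [HH]
    refine HasSum.tsum_eq ?_
    simp_rw [hreal]
    exact h3
  exact h4

lemma HH_nat {a : ℤ → ℝ} (ha : ∀ k < 0, a k = 0) (t : ℝ) :
    HH a t = ∑' m : ℕ, ((a m : ℝ) : ℂ) * exp (I * t) ^ m := by
  rw [HH, ← (Nat.cast_injective (R := ℤ)).tsum_eq]
  · refine tsum_congr fun m => ?_
    rw [← exp_nat_mul]
    congr 2; push_cast; ring
  · intro k hk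
    by_contra hc
    apply hk
    have : k < 0 := by
      by_contra h
      push Not at h
      exact hc ⟨k.toNat, Int.toNat_of_nonneg h⟩
    simp only [ha k this]; simp

lemma HH_cont {c : ℤ → ℝ} (h : Summable (fun k : ℤ => (|(k:ℝ)| + 1) * |c k|)) : Continuous (HH c) :=
  continuous_iff_continuousAt.2 fun t => (HH_deriv h t).continuousAt

lemma not_ident_MM {n : ℕ} {μ e : ℝ} (he : 0 < e)
    (hall : ∀ x, P (n + 1) (2 * μ) (2 * e) x = x + 2 * Real.pi * ((n + 1 : ℤ) : ℝ)) : μ ≠ MM n e := by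
  rintro rfl
  have h1 := simple_MM n (ε := 2 * e) (by positivity)
  rw [mul_div_cancel_left₀ _ two_ne_zero] at h1
  exact h1.2 (slice_of_rot (r := (n:ℤ) + 1) hall)

/-- Data attached to a point with identity monodromy. -/
lemma ident_data {n : ℕ} {μ e : ℝ} (hμ : 0 < μ) (he : 0 < e)
    (hall : ∀ x, P (n + 1) (2 * μ) (2 * e) x = x + 2 * Real.pi * ((n + 1 : ℤ) : ℝ)) :
    ∃ a b : ℕ → ℝ, a 0 ≠ 0 ∧ μ * b 0 = e * a 0 ∧ (∀ m : ℕ, ((m:ℝ) + 1) * a (m + 1) = μ * a m - e * b m) ∧
      (∀ m : ℕ, μ * b (m + 1) = e * a (m + 1) - (n + 2 + m) * b m) ∧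
      (∃ C, ∀ m, |a m| ≤ C ∧ |b m| ≤ C) ∧
      ∀ z : ℂ, ‖z‖ ≤ 1 → (∑' m, (a m : ℂ) * z ^ m) ≠ 0 := by
  have hMM := not_ident_MM he hall
  have hU := hall (Real.pi / 2)
  have hV : P (n + 1) (2 * μ) (-(2 * e)) (Real.pi / 2) = Real.pi / 2 + 2 * Real.pi * ((n + 1 : ℤ) : ℝ) := by
    have := (P_neg (n + 1) (2 * μ) (-(2 * e)) (Real.pi / 2)).1
    rw [neg_neg, hall] at this
    rw [this]; ring
  have e2 : 2 * e / 2 = e := by ring
  have e3 : -(2 * e) / 2 = -e := by ring
  obtain ⟨c, hr, hb, hG⟩ := fourier_data hU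
  obtain ⟨c', hr', hb', hG'⟩ := fourier_data hV
  have hc1 : c (-1) ≠ 0 := by
    intro h0
    obtain ⟨hz, hG1⟩ := poly_rep hμ.ne' hr hG h0
    have h1 := good_of hμ hU hr hz hG1
    rw [e2] at h1
    have := MM_of_good h1 he.ne'
    rw [abs_of_pos he] at this
    exact hMM this
  have hc1' : c' (-1) ≠ 0 := by
    intro h0
    obtain ⟨hz, hG1⟩ := poly_rep hμ.ne' hr' hG' h0
    have h1 := good_of hμ hV hr' hz hG1
    rw [e3] at h1
    have := MM_of_good h1 (neg_ne_zero.2 he.ne')
    rw [abs_neg, abs_of_pos he] at this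
    exact hMM this
  obtain ⟨F, hF, hFb, hFG⟩ := second_gauge hU
  obtain ⟨F', hF', hFb', hFG'⟩ := second_gauge hV
  rw [e2] at hr hF
  rw [e3] at hr' hF'
  have hF1 : F (-1) = 0 := F_neg_one hF hFb hr' hb' hc1'
  have hF1' : F' (-1) = 0 := F_neg_one hF' hFb' (by rw [neg_neg]; exact hr) hb hc1
  have hmid := F_middle hμ hF hF1
  have hmid' := F_middle hμ hF' hF1'
  -- outer relations
  have hout : ∀ (e : ℝ) (F : ℤ → ℝ), FRec n μ e F → F (-1) = 0 →
      μ * F (-2) = e * F n ∧ (∀ m : ℕ, ((m:ℝ) + 1) * F (n + (m + 1 : ℕ)) = μ * F (n + m) - e * F (-2 - m)) ∧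
      (∀ m : ℕ, μ * F (-2 - (m + 1 : ℕ)) = e * F (n + (m + 1 : ℕ)) - (n + 2 + m) * F (-2 - m)) := by
    intro e F hF h0
    refine ⟨?_, fun m => ?_, fun m => ?_⟩
    · have h1 := hF (-1)
      rw [h0, show (-1:ℤ) - 1 = -2 by norm_num, show (n:ℤ) - 1 - -1 = n by ring] at h1
      linarith
    · have h1 := hF (n + (m + 1 : ℕ))
      rw [show (n:ℤ) + ((m + 1 : ℕ) : ℤ) - 1 = n + m by push_cast; ring,
        show (n:ℤ) - 1 - (n + ((m + 1 : ℕ) : ℤ)) = -2 - m by push_cast; ring] at h1
      push_cast at h1 ⊢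
      linear_combination h1
    · have h1 := hF (-2 - m)
      rw [show (-2:ℤ) - (m:ℤ) - 1 = -2 - ((m + 1 : ℕ) : ℤ) by push_cast; ring,
        show (n:ℤ) - 1 - (-2 - m) = n + ((m + 1 : ℕ) : ℤ) by push_cast; ring] at h1
      push_cast at h1 ⊢
      linear_combination -h1
  obtain ⟨o1, o2, o3⟩ := hout e F hF hF1
  obtain ⟨o1', o2', o3'⟩ := hout (-e) F' hF' hF1'
  -- nonvanishing
  have hnz : ∀ (e : ℝ) (F : ℤ → ℝ), (μ * F (-2) = e * F n) → (∀ m : ℕ, ((m:ℝ) + 1) * F (n + (m + 1 : ℕ)) =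
      μ * F (n + m) - e * F (-2 - m)) →
      (∀ m : ℕ, μ * F (-2 - (m + 1 : ℕ)) = e * F (n + (m + 1 : ℕ)) - (n + 2 + m) * F (-2 - m)) →
      (∀ j : ℤ, -1 ≤ j → j < n → F j = 0) → F n = 0 → ∀ k, F k = 0 := by
    intro e F o1 o2 o3 hm h0
    have key : ∀ m : ℕ, F (n + m) = 0 ∧ F (-2 - m) = 0 := by
      intro m
      induction m with
      | zero =>
        rw [h0, mul_zero] at o1
        have := (mul_eq_zero.1 o1).resolve_left hμ.ne'
        simpa using ⟨h0, this⟩
      | succ m ih =>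
        have h1 := o2 m
        rw [ih.1, ih.2, mul_zero, mul_zero, sub_zero] at h1
        have h2 := (mul_eq_zero.1 h1).resolve_left (by positivity)
        have h3 := o3 m
        rw [h2, ih.2, mul_zero, mul_zero, sub_zero] at h3
        exact ⟨h2, (mul_eq_zero.1 h3).resolve_left hμ.ne'⟩
    intro k
    by_cases hk1 : (n:ℤ) ≤ k
    · have := (key (k - n).toNat).1
      rwa [show (n:ℤ) + (((k - n).toNat : ℕ) : ℤ) = k by omega] at this
    · by_cases hk2 : k ≤ -2
      · have := (key (-2 - k).toNat).2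
        rwa [show (-2:ℤ) - (((-2 - k).toNat : ℕ) : ℤ) = k by omega] at this
      · exact hm k (by omega) (by omega)
  have hGne : ∀ (ε : ℝ) (φ : ℝ → ℝ) (t : ℝ), exp ((2 * μ * Real.cos t : ℝ) : ℂ) * GG n μ ε φ t ≠ 0 :=
    fun ε φ t => mul_ne_zero (exp_ne_zero _) (exp_ne_zero _)
  have hFn : F n ≠ 0 := by
    intro h0
    have h1 := hnz e F o1 o2 o3 hmid h0
    have h2 := hFG 0
    apply hGne (2 * e) (fl (n + 1) (2 * μ) (2 * e) (Real.pi / 2)) 0
    rw [← h2, HH]
    simp [h1]
  have hFn' : F' n ≠ 0 := by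
    intro h0
    have h1 := hnz (-e) F' o1' o2' o3' hmid' h0
    have h2 := hFG' 0
    apply hGne (-(2 * e)) (fl (n + 1) (2 * μ) (-(2 * e)) (Real.pi / 2)) 0
    rw [← h2, HH]
    simp [h1]
  set τ := F' n / F n with hτ
  have hτF : F' n = τ * F n := by rw [hτ]; field_simp
  have hprop : ∀ m : ℕ, F' (n + m) = τ * F (n + m) ∧ F' (-2 - m) = -(τ * F (-2 - m)) := by
    intro m
    induction m with
    | zero =>
      have h1 : μ * (F' (-2) + τ * F (-2)) = 0 := by
        linear_combination o1' + τ * o1 - e * hτF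
      have h2 := (mul_eq_zero.1 h1).resolve_left hμ.ne'
      simp only [Nat.cast_zero, add_zero, sub_zero]
      exact ⟨hτF, by linarith⟩
    | succ m ih =>
      have h1 := o2 m
      have h2 := o2' m
      rw [ih.1, ih.2] at h2
      have h3 : ((m:ℝ) + 1) * (F' (n + (m + 1 : ℕ)) - τ * F (n + (m + 1 : ℕ))) = 0 := by
        linear_combination h2 - τ * h1
      have h4 := (mul_eq_zero.1 h3).resolve_left (by positivity)
      have h5 := o3 m
      have h6 := o3' m
      rw [ih.2] at h6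
      have h7 : μ * (F' (-2 - (m + 1 : ℕ)) + τ * F (-2 - (m + 1 : ℕ))) = 0 := by
        linear_combination h6 + τ * h5 - e * h4
      have h8 := (mul_eq_zero.1 h7).resolve_left hμ.ne'
      exact ⟨by linarith, by linarith⟩
  -- the two series
  obtain ⟨D, hD0, hD⟩ := decay' hF hFb 3
  have hsF := summables hD
  set aZ : ℤ → ℝ := fun k => if 0 ≤ k then F (n + k) else 0 with haZ
  set bZ : ℤ → ℝ := fun k => if 0 ≤ k then F (-2 - k) else 0 with hbZ
  have hsa : Summable (fun k : ℤ => (|(k:ℝ)| + 1) * |aZ k|) := by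
    refine summables (D := D) fun k => ?_
    simp only [haZ]
    split_ifs with hk
    · refine le_trans ?_ (hD (n + k))
      have hk' : (0:ℝ) ≤ k := by exact_mod_cast hk
      have hn' : (0:ℝ) ≤ n := n.cast_nonneg
      push_cast
      rw [abs_of_nonneg hk', abs_of_nonneg (by positivity : (0:ℝ) ≤ (n:ℝ) + k)]
      gcongr
      linarith
    · simp only [abs_zero, zero_mul]; exact hD0
  have hsb : Summable (fun k : ℤ => (|(k:ℝ)| + 1) * |bZ k|) := by
    refine summables (D := D) fun k => ?_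
    simp only [hbZ]
    split_ifs with hk
    · refine le_trans ?_ (hD (-2 - k))
      have hk' : (0:ℝ) ≤ k := by exact_mod_cast hk
      push_cast
      rw [abs_of_nonneg hk', abs_of_nonpos (by linarith : -2 - (k:ℝ) ≤ 0)]
      gcongr
      linarith
    · simp only [abs_zero, zero_mul]; exact hD0
  have sa := summable_c hsa
  have sb := summable_c hsb
  have sa1 : Summable fun k : ℤ => |aZ (k - n)| := ((Equiv.subRight (n:ℤ)).summable_iff (f := fun k => |aZ k|)).2 sa
  have sb1 : Summable fun k : ℤ => |bZ (-(k - -2))| :=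
    (((Equiv.subRight (-2:ℤ)).trans (Equiv.neg ℤ)).summable_iff (f := fun k => |bZ k|)).2 sb
  have hsplit : ∀ k : ℤ, F k = aZ (k - n) + bZ (-(k - -2)) := by
    intro k
    simp only [haZ, hbZ]
    by_cases hk1 : (n:ℤ) ≤ k
    · rw [if_pos (by omega), if_neg (by omega), add_zero]; congr 1; ring
    · by_cases hk2 : k ≤ -2
      · rw [if_neg (by omega), if_pos (by omega), zero_add]; congr 1; ring
      · rw [if_neg (by omega), if_neg (by omega), hmid k (by omega) (by omega), add_zero]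
  have hsplit' : ∀ k : ℤ, F' k = τ * aZ (k - n) + (-τ) * bZ (-(k - -2)) := by
    intro k
    simp only [haZ, hbZ]
    by_cases hk1 : (n:ℤ) ≤ k
    · rw [if_pos (by omega), if_neg (by omega), mul_zero, add_zero]
      have := (hprop (k - n).toNat).1
      rw [show (n:ℤ) + (((k - n).toNat : ℕ) : ℤ) = k by omega] at this
      rw [this, show (n:ℤ) + (k - n) = k by ring]
    · by_cases hk2 : k ≤ -2
      · rw [if_neg (by omega), if_pos (by omega), mul_zero, zero_add]
        have := (hprop (-2 - k).toNat).2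
        rw [show (-2:ℤ) - (((-2 - k).toNat : ℕ) : ℤ) = k by omega] at this
        rw [this, show (-2:ℤ) - -(k - -2) = k by ring]; ring
      · rw [if_neg (by omega), if_neg (by omega), hmid' k (by omega) (by omega)]; ring
  have hHF : ∀ t, HH F t = exp (I * (n:ℂ) * t) * HH aZ t + exp (-(2 * I * t)) * conj (HH bZ t) := by
    intro t
    have h1 : HH F t = HH (fun k => aZ (k - n) + bZ (-(k - -2))) t := by
      congr 1; funext k; exact hsplit k
    rw [h1, HH_add sa1 sb1, HH_conj]
    have h2 := HH_e aZ n t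
    have h3 := HH_e (fun k => bZ (-k)) (-2) t
    push_cast at h2 h3
    rw [← h2, ← h3]
    congr 3
    ring
  have hHF' : ∀ t, HH F' t = τ * (exp (I * (n:ℂ) * t) * HH aZ t - exp (-(2 * I * t)) * conj (HH bZ t)) := by
    intro t
    have h1 : HH F' t = HH (fun k => τ * aZ (k - n) + (-τ) * bZ (-(k - -2))) t := by
      congr 1; funext k; exact hsplit' k
    have s1 : Summable fun k : ℤ => |τ * aZ (k - n)| := by
      simp_rw [abs_mul]; exact sa1.mul_left _
    have s2 : Summable fun k : ℤ => |(-τ) * bZ (-(k - -2))| := by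
      simp_rw [abs_mul (-τ)]; exact sb1.mul_left _
    rw [h1, HH_add s1 s2, HH_smul, HH_smul (-τ) (fun k => bZ (-(k - -2))), HH_conj]
    have h2 := HH_e aZ n t
    have h3 := HH_e (fun k => bZ (-k)) (-2) t
    push_cast at h2 h3
    rw [← h2, ← h3]
    have h4 : exp (-(2 * I * (t:ℂ))) = exp (I * (-2) * t) := by congr 1; ring
    rw [h4]; push_cast; ring
  -- positivity
  set φ := fl (n + 1) (2 * μ) (2 * e) (Real.pi / 2) with hφd
  set φ' := fl (n + 1) (2 * μ) (-(2 * e)) (Real.pi / 2) with hφd'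
  have hφ : Sol (n + 1) (2 * μ) (2 * e) φ := fl_sol _ _ _ _
  have hφ' : Sol (n + 1) (2 * μ) (-(2 * e)) φ' := fl_sol _ _ _ _
  have hcos : ∀ t, 0 < Real.cos ((φ' t - φ t) / 2) := by
    intro t
    have h1 := hφ'.add_pi
    rw [neg_neg] at h1
    have h2 := mob h1 hφ t
    have h3 : φ' 0 = Real.pi / 2 := by rw [hφd', fl_zero]
    have h4 : φ 0 = Real.pi / 2 := by rw [hφd, fl_zero]
    simp only [h3, h4] at h2
    rw [show (φ' t + Real.pi - φ t) / 2 = (φ' t - φ t) / 2 + Real.pi / 2 by ring, Real.sin_add_pi_div_two,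
      show (Real.pi / 2 + Real.pi - Real.pi / 2) / 2 = Real.pi / 2 by ring, Real.sin_pi_div_two, one_mul] at h2
    rw [h2]; exact Real.exp_pos _
  have hpos : ∀ t, 0 < (conj (HH F t) * HH F' t).re := by
    intro t
    rw [hFG, hFG', GG, GG, ← exp_add, ← exp_add, ← exp_conj, ← exp_add]
    have : conj (((2 * μ * Real.cos t : ℝ) : ℂ) + gg n μ (2 * e) φ t) +
        (((2 * μ * Real.cos t : ℝ) : ℂ) + gg n μ (-(2 * e)) φ' t) =
        ((4 * μ * Real.cos t + (2 * e / 2 * Cc φ t - μ * Real.cos t) +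
          (-(2 * e) / 2 * Cc φ' t - μ * Real.cos t) : ℝ) : ℂ) + (((φ' t - φ t) / 2 : ℝ) : ℂ) * I := by
      simp only [gg, map_add, map_mul, conj_ofReal, conj_I]
      push_cast
      ring
    rw [this, exp_re]
    simp only [add_re, ofReal_re, re_ofReal_mul, I_re, mul_zero, add_zero, add_im, ofReal_im,
      im_ofReal_mul, I_im, mul_one, zero_add]
    exact mul_pos (Real.exp_pos _) (hcos t)
  have hre : ∀ t, (conj (HH F t) * HH F' t).re = τ * (normSq (HH aZ t) - normSq (HH bZ t)) := by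
    intro t
    rw [hHF, hHF']
    have h1 : normSq (exp (I * (n:ℂ) * t)) = 1 := by
      rw [normSq_eq_norm_sq]
      have := norm_ek n t
      push_cast at this
      rw [this]; norm_num
    have h2 : normSq (exp (-(2 * I * t))) = 1 := by
      rw [normSq_eq_norm_sq]
      have := norm_ek (-2) t
      push_cast at this
      rw [show -(2 * I * (t:ℂ)) = I * (-2) * t by ring, this]; norm_num
    set x := exp (I * (n:ℂ) * t)
    set y := exp (-(2 * I * t))
    have e4 : normSq (HH aZ t) = normSq (x * HH aZ t) := by rw [map_mul, h1, one_mul]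
    have e5 : normSq (HH bZ t) = normSq (y * conj (HH bZ t)) := by rw [map_mul, h2, one_mul, normSq_conj]
    rw [e4, e5]
    set p := x * HH aZ t
    set q := y * conj (HH bZ t)
    simp only [normSq_apply, mul_re, map_add, add_re, conj_re, add_im, conj_im, sub_re, sub_im, ofReal_re,
      ofReal_im, mul_im]
    ring
  -- the lift
  set g : ℝ → ℂ := fun t => ((2 * μ * Real.cos t : ℝ) : ℂ) + gg n μ (2 * e) φ t with hg
  have hgc : Continuous g := by
    have h1 : Continuous (gg n μ (2 * e) φ) :=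
      continuous_iff_continuousAt.2 fun t => (gg_deriv hφ t).continuousAt
    simp only [hg]; fun_prop
  have hgF : ∀ t, exp (g t) = HH F t := by
    intro t; rw [hFG, hg, exp_add]; rfl
  have hgT : g (2 * Real.pi) - g 0 = 2 * Real.pi * I * n := by
    have h0 : φ 0 = Real.pi / 2 := by rw [hφd, fl_zero]
    have h1 : φ (2 * Real.pi) = Real.pi / 2 + 2 * Real.pi * ((n + 1 : ℤ) : ℝ) := hU
    have h2 : Cc φ (2 * Real.pi) = 0 := (Cc_per hU).1
    simp only [hg, gg, h0, h1, h2, Cc_zero, Real.cos_two_pi, Real.cos_zero]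
    push_cast
    ring
  have hac := HH_cont hsa
  have hbc := HH_cont hsb
  have hE2 : ∀ m : ℤ, exp (I * m * ((2 * Real.pi : ℝ) : ℂ)) = 1 := by
    intro m
    rw [exp_eq_one_iff]
    exact ⟨m, by push_cast; ring⟩
  have haZn : ∀ k < 0, aZ k = 0 := fun k hk => by simp only [haZ]; rw [if_neg (by omega)]
  have hbZn : ∀ k < 0, bZ k = 0 := fun k hk => by simp only [hbZ]; rw [if_neg (by omega)]
  have hτ0 : τ ≠ 0 := div_ne_zero hFn' hFn
  have hn1 : ∀ (m : ℤ) (t : ℝ), ‖exp (I * m * t)‖ = 1 := norm_ek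
  have hτpos : 0 < τ := by
    by_contra hc
    have hneg : τ < 0 := lt_of_le_of_ne (not_lt.1 hc) hτ0
    have hlt : ∀ t, ‖HH aZ t‖ < ‖HH bZ t‖ := by
      intro t
      have h1 := hpos t
      rw [hre, normSq_eq_norm_sq, normSq_eq_norm_sq] at h1
      have h2 : ‖HH aZ t‖ ^ 2 < ‖HH bZ t‖ ^ 2 := by nlinarith
      exact lt_of_pow_lt_pow_left₀ 2 (norm_nonneg _) h2
    have hbne : ∀ t, HH bZ t ≠ 0 := fun t => norm_pos_iff.1 (lt_of_le_of_lt (norm_nonneg _) (hlt t))
    have hcb : ∀ t, conj (HH bZ t) ≠ 0 := fun t => by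
      rw [Ne, map_eq_zero]; exact hbne t
    set r : ℝ → ℂ := fun t => exp (I * ((n + 2 : ℤ) : ℂ) * t) * HH aZ t / conj (HH bZ t) with hrd
    have hrn : ∀ t, ‖r t‖ < 1 := by
      intro t
      simp only [hrd]
      rw [norm_div, norm_mul, hn1, one_mul, Complex.norm_conj, div_lt_one (norm_pos_iff.2 (hbne t))]
      exact hlt t
    have hrc : Continuous r := by
      refine Continuous.div ?_ (Complex.continuous_conj.comp hbc) hcb
      exact (by fun_prop : Continuous fun t : ℝ => exp (I * ((n + 2 : ℤ) : ℂ) * (t:ℂ))).mul hac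
    have hsp : ∀ t, 1 + r t ∈ slitPlane := fun t => mem_slitPlane_of_norm_lt_one (hrn t)
    have hgm : ∀ t, exp (g t + 2 * I * t - log (1 + r t)) = conj (HH bZ t) := by
      intro t
      rw [exp_sub, exp_log (slitPlane_ne_zero (hsp t)), exp_add, hgF, hHF,
        div_eq_iff (slitPlane_ne_zero (hsp t))]
      have e6 : conj (HH bZ t) * (1 + r t) = conj (HH bZ t) + exp (I * ((n + 2 : ℤ) : ℂ) * t) * HH aZ t := by
        simp only [hrd]
        have := hcb t
        field_simp
      have e7 : exp (I * ((n + 2 : ℤ) : ℂ) * t) = exp (I * (n:ℂ) * t) * exp (2 * I * t) := by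
        rw [← exp_add]; congr 1; push_cast; ring
      have e8 : exp (-(2 * I * (t:ℂ))) * exp (2 * I * t) = 1 := by
        rw [← exp_add, neg_add_cancel, exp_zero]
      rw [e6, e7]
      linear_combination conj (HH bZ t) * e8
    have hw := winding (h := fun m => ((bZ m : ℝ) : ℂ)) (g := fun t => conj (g t + 2 * I * t - log (1 + r t)))
      (N := -((n:ℤ) + 2)) ?_ ?_ ?_ ?_
    · have := hw.1; omega
    · have := sb.comp_injective (Nat.cast_injective (R := ℤ))
      refine this.congr fun m => ?_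
      simp
    · refine Complex.continuous_conj.comp ?_
      exact (hgc.add (by fun_prop)).sub ((continuous_const.add hrc).clog hsp)
    · intro t
      rw [exp_conj, hgm, Complex.conj_conj]
      exact (HH_nat hbZn t).symm
    · have hr2 : r (2 * Real.pi) = r 0 := by
        have p1 := HH_per aZ 0
        have p2 := HH_per bZ 0
        rw [zero_add] at p1 p2
        simp only [hrd, p1, p2, hE2]; simp
      rw [← map_sub, hr2]
      have : g (2 * Real.pi) + 2 * I * ((2 * Real.pi : ℝ) : ℂ) - log (1 + r 0) -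
          (g 0 + 2 * I * ((0:ℝ) : ℂ) - log (1 + r 0)) = (g (2 * Real.pi) - g 0) + 4 * Real.pi * I := by
        push_cast; ring
      rw [this, hgT]
      simp only [map_add, map_mul, conj_I, conj_ofReal, map_natCast, map_ofNat]
      push_cast; ring
  have hlt : ∀ t, ‖HH bZ t‖ < ‖HH aZ t‖ := by
    intro t
    have h1 := hpos t
    rw [hre, normSq_eq_norm_sq, normSq_eq_norm_sq] at h1
    have h2 : ‖HH bZ t‖ ^ 2 < ‖HH aZ t‖ ^ 2 := by nlinarith
    exact lt_of_pow_lt_pow_left₀ 2 (norm_nonneg _) h2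
  have hane : ∀ t, HH aZ t ≠ 0 := fun t => norm_pos_iff.1 (lt_of_le_of_lt (norm_nonneg _) (hlt t))
  set r : ℝ → ℂ := fun t => exp (I * ((-(n + 2) : ℤ) : ℂ) * t) * conj (HH bZ t) / HH aZ t with hrd
  have hrn : ∀ t, ‖r t‖ < 1 := by
    intro t
    simp only [hrd]
    rw [norm_div, norm_mul, hn1, one_mul, Complex.norm_conj, div_lt_one (norm_pos_iff.2 (hane t))]
    exact hlt t
  have hrc : Continuous r := by
    refine Continuous.div ?_ hac hane
    exact (by fun_prop : Continuous fun t : ℝ => exp (I * ((-(n + 2) : ℤ) : ℂ) * (t:ℂ))).mul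
      (Complex.continuous_conj.comp hbc)
  have hsp : ∀ t, 1 + r t ∈ slitPlane := fun t => mem_slitPlane_of_norm_lt_one (hrn t)
  have hgm : ∀ t, exp (g t - I * n * t - log (1 + r t)) = HH aZ t := by
    intro t
    rw [exp_sub, exp_log (slitPlane_ne_zero (hsp t)), exp_sub, hgF, hHF,
      div_eq_iff (slitPlane_ne_zero (hsp t)), div_eq_iff (exp_ne_zero _)]
    have e6 : HH aZ t * (1 + r t) = HH aZ t + exp (I * ((-(n + 2) : ℤ) : ℂ) * t) * conj (HH bZ t) := by
      simp only [hrd]
      have := hane t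
      field_simp
    have e7 : exp (I * ((-(n + 2) : ℤ) : ℂ) * t) * exp (I * (n:ℂ) * t) = exp (-(2 * I * t)) := by
      rw [← exp_add]; congr 1; push_cast; ring
    rw [e6]
    linear_combination -(conj (HH bZ t)) * e7
  have hw := winding (h := fun m => ((aZ m : ℝ) : ℂ)) (g := fun t => g t - I * n * t - log (1 + r t))
    (N := 0) ?_ ?_ ?_ ?_
  · have h1 := hw.2 rfl
    refine ⟨fun m => aZ m, fun m => bZ m, ?_, ?_, ?_, ?_, ?_, h1⟩
    · simp only [haZ]; simpa using hFn
    · simp only [haZ, hbZ]; simpa using o1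
    · intro m
      have := o2 m
      simp only [haZ, hbZ]
      rw [if_pos (by omega), if_pos (by omega), if_pos (by omega)]
      exact this
    · intro m
      have := o3 m
      simp only [haZ, hbZ]
      rw [if_pos (by omega), if_pos (by omega), if_pos (by omega)]
      exact this
    · obtain ⟨C, hC⟩ := hFb
      refine ⟨C, fun m => ?_⟩
      simp only [haZ, hbZ]
      rw [if_pos (by omega), if_pos (by omega)]
      exact ⟨hC _, hC _⟩
  · have := sa.comp_injective (Nat.cast_injective (R := ℤ))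
    refine this.congr fun m => ?_
    simp
  · exact (hgc.sub (by fun_prop)).sub ((continuous_const.add hrc).clog hsp)
  · intro t
    rw [hgm]
    exact (HH_nat haZn t).symm
  · have hr2 : r (2 * Real.pi) = r 0 := by
      have p1 := HH_per aZ 0
      have p2 := HH_per bZ 0
      rw [zero_add] at p1 p2
      simp only [hrd, p1, p2, hE2]; simp
    rw [hr2]
    have : g (2 * Real.pi) - I * n * ((2 * Real.pi : ℝ) : ℂ) - log (1 + r 0) -
        (g 0 - I * n * ((0:ℝ) : ℂ) - log (1 + r 0)) = (g (2 * Real.pi) - g 0) - 2 * Real.pi * I * n := by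
      push_cast; ring
    rw [this, hgT]
    simp

end H535R3
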