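import Pool.Agent.H535R3.JV

set_option autoImplicit false
open Set Filter Topology Complex ComplexConjugate Metric

namespace H535R3

lemma exp_decay {n : ℕ} {μ e : ℝ} (hμ : 0 < μ) (he : 0 < e) {a b : ℕ → ℝ}
    (ra : ∀ m : ℕ, ((m:ℝ) + 1) * a (m + 1) = μ * a m - e * b m)
    (rb : ∀ m : ℕ, μ * b (m + 1) = e * a (m + 1) - (n + 2 + m) * b m)
    (hC : ∃ C, ∀ m, |a m| ≤ C ∧ |b m| ≤ C) :
    ∃ D, 0 ≤ D ∧ ∀ m : ℕ, |a m| ≤ D / 2 ^ m ∧ |b m| ≤ D / 2 ^ m := by
  obtain ⟨C, hC⟩ := hC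
  have hC0 : 0 ≤ C := (abs_nonneg _).trans (hC 0).1
  obtain ⟨M0, hM0⟩ := exists_nat_ge (2 * (μ + e))
  have key : ∀ j i : ℕ, M0 + j ≤ i → |a i| ≤ C / 2 ^ j ∧ |b i| ≤ C / 2 ^ j := by
    intro j
    induction j with
    | zero => intro i _; simpa using hC i
    | succ j ih =>
      intro i hi
      obtain ⟨i', rfl⟩ : ∃ i', i = i' + 1 := ⟨i - 1, by omega⟩
      have hi' : M0 + j ≤ i' := by omega
      have hMi : (M0:ℝ) ≤ i' := by exact_mod_cast (by omega : M0 ≤ i')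
      have hD0 : 0 ≤ C / 2 ^ j := by positivity
      have hn : (0:ℝ) ≤ n := n.cast_nonneg
      have e1 : C / 2 ^ (j + 1) = C / 2 ^ j / 2 := by rw [pow_succ, div_div]
      rw [e1]
      set D := C / 2 ^ j
      constructor
      · have h1 : |((i':ℝ) + 1) * a (i' + 1)| ≤ (μ + e) * D := by
          rw [ra]
          refine (abs_sub _ _).trans ?_
          rw [abs_mul, abs_mul, abs_of_pos hμ, abs_of_pos he, add_mul]
          gcongr
          · exact (ih i' hi').1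
          · exact (ih i' hi').2
        rw [abs_mul, abs_of_pos (by positivity : (0:ℝ) < (i':ℝ) + 1)] at h1
        have h2 : (μ + e) * D ≤ ((i':ℝ) + 1) * (D / 2) := by nlinarith
        exact le_of_mul_le_mul_left (h1.trans h2) (by positivity)
      · have h0 := rb (i' + 1)
        have h1 : |((n:ℝ) + 2 + (i' + 1 : ℕ)) * b (i' + 1)| ≤ (μ + e) * D := by
          have : ((n:ℝ) + 2 + (i' + 1 : ℕ)) * b (i' + 1) = e * a (i' + 1 + 1) - μ * b (i' + 1 + 1) := by
            linarith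
          rw [this]
          refine (abs_sub _ _).trans ?_
          rw [abs_mul, abs_mul, abs_of_pos hμ, abs_of_pos he, add_mul, add_comm]
          gcongr
          · exact (ih (i' + 1 + 1) (by omega)).2
          · exact (ih (i' + 1 + 1) (by omega)).1
        rw [abs_mul, abs_of_pos (by positivity : (0:ℝ) < (n:ℝ) + 2 + (i' + 1 : ℕ))] at h1
        have h2 : (μ + e) * D ≤ ((n:ℝ) + 2 + (i' + 1 : ℕ)) * (D / 2) := by
          push_cast; nlinarith
        exact le_of_mul_le_mul_left (h1.trans h2) (by positivity)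
  refine ⟨C * 2 ^ M0, by positivity, fun m => ?_⟩
  by_cases hm : M0 ≤ m
  · have h1 := key (m - M0) m (by omega)
    have e1 : C / 2 ^ (m - M0) = C * 2 ^ M0 / 2 ^ m := by
      rw [div_eq_div_iff (by positivity) (by positivity), mul_assoc, ← pow_add,
        show M0 + (m - M0) = m by omega]
    rw [e1] at h1
    exact h1
  · have h2 : C ≤ C * 2 ^ M0 / 2 ^ m := by
      rw [le_div_iff₀ (by positivity)]
      have : (2:ℝ) ^ m ≤ 2 ^ M0 := pow_le_pow_right₀ (by norm_num) (by omega)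
      gcongr
    exact ⟨(hC m).1.trans h2, (hC m).2.trans h2⟩

lemma ser_summable {a : ℕ → ℝ} {D : ℝ} (ha : ∀ m : ℕ, |a m| ≤ D / 2 ^ m) {z : ℂ} (hz : ‖z‖ < 3 / 2) :
    Summable fun m : ℕ => (a m : ℂ) * z ^ m := by
  refine Summable.of_norm_bounded (g := fun m : ℕ => D * (3 / 4 : ℝ) ^ m)
    ((summable_geometric_of_lt_one (by norm_num) (by norm_num)).mul_left D) fun m => ?_
  rw [norm_mul, norm_pow, Complex.norm_real, Real.norm_eq_abs]
  have h1 : ‖z‖ ^ m ≤ (3 / 2 : ℝ) ^ m := pow_le_pow_left₀ (norm_nonneg _) hz.le m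
  calc |a m| * ‖z‖ ^ m ≤ (D / 2 ^ m) * (3 / 2 : ℝ) ^ m :=
        mul_le_mul (ha m) h1 (by positivity) ((abs_nonneg _).trans (ha m))
    _ = D * (3 / 4 : ℝ) ^ m := by
        rw [show (3 / 4 : ℝ) = (3 / 2) / 2 by norm_num, div_pow (3 / 2 : ℝ)]; ring

lemma ser_deriv {a : ℕ → ℝ} {D : ℝ} (hD : 0 ≤ D) (ha : ∀ m : ℕ, |a m| ≤ D / 2 ^ m) {z : ℂ}
    (hz : ‖z‖ < 3 / 2) :
    Summable (fun m : ℕ => (a m : ℂ) * ((m:ℂ) * z ^ (m - 1))) ∧
    HasDerivAt (fun z => ∑' m : ℕ, (a m : ℂ) * z ^ m) (∑' m : ℕ, (a m : ℂ) * ((m:ℂ) * z ^ (m - 1))) z := by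
  have hu : Summable fun m : ℕ => D * ((m:ℝ) ^ 1 * (3 / 4 : ℝ) ^ m) :=
    (summable_pow_mul_geometric_of_norm_lt_one 1 (by rw [Real.norm_eq_abs]; norm_num [abs_of_pos])).mul_left D
  have hbd : ∀ (m : ℕ) (y : ℂ), y ∈ ball (0:ℂ) (3 / 2) →
      ‖(a m : ℂ) * ((m:ℂ) * y ^ (m - 1))‖ ≤ D * ((m:ℝ) ^ 1 * (3 / 4 : ℝ) ^ m) := by
    intro m y hy
    rw [mem_ball_zero_iff] at hy
    rw [norm_mul, norm_mul, norm_pow, Complex.norm_real, Real.norm_eq_abs, Complex.norm_natCast, pow_one]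
    have h1 : ‖y‖ ^ (m - 1) ≤ (3 / 2 : ℝ) ^ m :=
      (pow_le_pow_left₀ (norm_nonneg _) hy.le _).trans (pow_le_pow_right₀ (by norm_num) (Nat.sub_le _ _))
    calc |a m| * (m * ‖y‖ ^ (m - 1)) ≤ (D / 2 ^ m) * (m * (3 / 2 : ℝ) ^ m) :=
          mul_le_mul (ha m) (by gcongr) (by positivity) ((abs_nonneg _).trans (ha m))
      _ = D * (m * (3 / 4 : ℝ) ^ m) := by
          rw [show (3 / 4 : ℝ) = (3 / 2) / 2 by norm_num, div_pow (3 / 2 : ℝ)]; ring
  have hz' : z ∈ ball (0:ℂ) (3 / 2) := by rwa [mem_ball_zero_iff]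
  refine ⟨Summable.of_norm_bounded hu fun m => hbd m z hz', ?_⟩
  refine hasDerivAt_tsum_of_isPreconnected (g := fun (m : ℕ) (z : ℂ) => (a m : ℂ) * z ^ m)
    (g' := fun (m : ℕ) (z : ℂ) => (a m : ℂ) * ((m:ℂ) * z ^ (m - 1))) (y₀ := 0) hu isOpen_ball
    (convex_ball _ _).isPreconnected (fun m y _ => ?_) hbd (by simp) ?_ hz'
  · exact (hasDerivAt_pow m y).const_mul _
  · exact ser_summable ha (by simp)

lemma no_ext {n : ℕ} {μ e : ℝ} (hμ : 0 < μ) (he : 0 < e) (hcond : 2 * μ < n + 1 + 2 * e) {a b : ℕ → ℝ}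
    (r0 : μ * b 0 = e * a 0) (ra : ∀ m : ℕ, ((m:ℝ) + 1) * a (m + 1) = μ * a m - e * b m)
    (rb : ∀ m : ℕ, μ * b (m + 1) = e * a (m + 1) - (n + 2 + m) * b m)
    (hC : ∃ C, ∀ m, |a m| ≤ C ∧ |b m| ≤ C)
    (hA : ∀ z : ℂ, ‖z‖ ≤ 1 → (∑' m, (a m : ℂ) * z ^ m) ≠ 0) : False := by
  obtain ⟨D, hD0, hD⟩ := exp_decay hμ he ra rb hC
  have ha := fun m => (hD m).1
  have hb := fun m => (hD m).2
  set A : ℂ → ℂ := fun z => ∑' m, (a m : ℂ) * z ^ m with hAd
  set B : ℂ → ℂ := fun z => ∑' m, (b m : ℂ) * z ^ m with hBd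
  -- derivatives
  have dA : ∀ z : ℂ, ‖z‖ < 3 / 2 → HasDerivAt A (μ * A z - e * B z) z := by
    intro z hz
    obtain ⟨h1, h2⟩ := ser_deriv hD0 ha hz
    refine h2.congr_deriv ?_
    rw [h1.tsum_eq_zero_add]
    simp only [Nat.cast_zero, zero_mul, mul_zero, zero_add, Nat.add_sub_cancel]
    rw [hAd, hBd]
    simp only
    rw [← tsum_mul_left, ← tsum_mul_left, ← ((ser_summable ha hz).mul_left _).tsum_sub
      ((ser_summable hb hz).mul_left _)]
    refine tsum_congr fun m => ?_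
    have h3 : (((m:ℝ) + 1 : ℝ) : ℂ) * a (m + 1) = μ * a m - e * b m := by exact_mod_cast ra m
    push_cast at h3 ⊢
    linear_combination z ^ m * h3
  have dB : ∀ z : ℂ, ‖z‖ < 3 / 2 → ∃ B' : ℂ, HasDerivAt B B' z ∧
      z ^ 2 * B' = e * A z - (μ + (n + 2) * z) * B z := by
    intro z hz
    obtain ⟨h1, h2⟩ := ser_deriv hD0 hb hz
    refine ⟨_, h2, ?_⟩
    have sa := ser_summable ha hz
    have sb := ser_summable hb hz
    have hAz : A z = a 0 + ∑' m : ℕ, (a (m + 1) : ℂ) * z ^ (m + 1) := by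
      simp only [hAd]; rw [sa.tsum_eq_zero_add]; simp
    have hBz : B z = b 0 + ∑' m : ℕ, (b (m + 1) : ℂ) * z ^ (m + 1) := by
      simp only [hBd]; rw [sb.tsum_eq_zero_add]; simp
    have hBz' : z * B z = ∑' m : ℕ, (b m : ℂ) * z ^ (m + 1) := by
      simp only [hBd]; rw [← tsum_mul_left]
      exact tsum_congr fun m => by ring
    have sa1 := (summable_nat_add_iff 1).2 sa
    have sb1 := (summable_nat_add_iff 1).2 sb
    have sb2 : Summable fun m : ℕ => (b m : ℂ) * z ^ (m + 1) := by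
      refine (sb.mul_left z).congr fun m => by ring
    have e1 : z ^ 2 * ∑' m : ℕ, (b m : ℂ) * ((m:ℂ) * z ^ (m - 1)) =
        ∑' m : ℕ, (m:ℂ) * ((b m : ℂ) * z ^ (m + 1)) := by
      rw [← tsum_mul_left]
      refine tsum_congr fun m => ?_
      rcases m with _ | m
      · simp
      · rw [Nat.add_sub_cancel]; ring
    have e2 : (e:ℂ) * A z - (μ + (n + 2) * z) * B z =
        e * (∑' m : ℕ, (a (m + 1) : ℂ) * z ^ (m + 1)) - μ * (∑' m : ℕ, (b (m + 1) : ℂ) * z ^ (m + 1))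
        - (n + 2) * ∑' m : ℕ, (b m : ℂ) * z ^ (m + 1) := by
      have h4 : (μ:ℂ) * b 0 = e * a 0 := by exact_mod_cast r0
      rw [← hBz']
      have h5 : (e:ℂ) * A z = e * a 0 + e * ∑' m : ℕ, (a (m + 1) : ℂ) * z ^ (m + 1) := by
        rw [hAz]; ring
      have h6 : (μ:ℂ) * B z = μ * b 0 + μ * ∑' m : ℕ, (b (m + 1) : ℂ) * z ^ (m + 1) := by
        rw [hBz]; ring
      linear_combination h5 - h6 - h4
    rw [e1, e2, ← tsum_mul_left, ← tsum_mul_left, ← tsum_mul_left,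
      ← (sa1.mul_left _).tsum_sub (sb1.mul_left _),
      ← ((sa1.mul_left _).sub (sb1.mul_left _)).tsum_sub (sb2.mul_left _)]
    refine tsum_congr fun m => ?_
    have h3 : (μ:ℂ) * b (m + 1) = e * a (m + 1) - (n + 2 + m) * b m := by exact_mod_cast rb m
    linear_combination z ^ (m + 1) * h3
  set f : ℂ → ℂ := fun z => z * B z / A z with hf
  have df : ∀ z : ℂ, ‖z‖ < 3 / 2 → A z ≠ 0 → ∃ f' : ℂ, HasDerivAt f f' z ∧
      z ^ 2 * f' = e * z * (1 + f z ^ 2) - ((n + 1) * z + μ * (z ^ 2 + 1)) * f z := by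
    intro z hz hAz
    obtain ⟨B', hB1, hB2⟩ := dB z hz
    refine ⟨_, ((hasDerivAt_id z).mul hB1).div (dA z hz) hAz, ?_⟩
    simp only [hf, Pi.mul_apply, id]
    field_simp
    linear_combination (z * A z) * hB2
  have f0 : f 0 = 0 := by simp [hf]
  have hdisc : ∀ z : ℂ, ‖z‖ ≤ 1 → ‖z‖ < 3 / 2 := fun z hz => by linarith
  have hfc : ContinuousOn f (closedBall 0 1) := by
    intro z hz
    rw [mem_closedBall_zero_iff] at hz
    obtain ⟨f', h1, -⟩ := df z (hdisc z hz) (hA z hz)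
    exact h1.continuousAt.continuousWithinAt
  -- the compact set
  have hcomp : IsCompact (closedBall (0:ℂ) 1 ∩ f ⁻¹' {w | w.im = 0 ∧ w.re ≤ 0}) := by
    refine (isCompact_closedBall 0 1).of_isClosed_subset ?_ inter_subset_left
    refine hfc.preimage_isClosed_of_isClosed isClosed_closedBall ?_
    exact (isClosed_eq continuous_im continuous_const).inter (isClosed_le continuous_re continuous_const)
  obtain ⟨zm, hzm, hmax⟩ := hcomp.exists_isMaxOn (f := fun z => -(f z).re)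
    ⟨0, by simp, by simp [f0]⟩ ((continuous_re.comp_continuousOn (hfc.mono inter_subset_left)).neg)
  obtain ⟨hzm1, hzm2, hzm3⟩ := hzm
  rw [mem_closedBall_zero_iff] at hzm1
  set κ : ℝ := -(f zm).re with hκ
  have hκ0 : 0 ≤ κ := by rw [hκ]; linarith
  have hfz : f zm = ((-κ : ℝ) : ℂ) := by
    apply Complex.ext
    · simp [hκ]
    · simpa using hzm2
  have hmax' : ∀ (z : ℂ) (κ' : ℝ), ‖z‖ ≤ 1 → 0 ≤ κ' → f z = ((-κ' : ℝ) : ℂ) → κ' ≤ κ := by
    intro z κ' hz h0 hfz'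
    have h1 := hmax (show z ∈ closedBall (0:ℂ) 1 ∩ f ⁻¹' {w | w.im = 0 ∧ w.re ≤ 0} from
      ⟨by rwa [mem_closedBall_zero_iff], by
        rw [mem_preimage, hfz']; exact ⟨ofReal_im _, by rw [ofReal_re]; linarith⟩⟩)
    simp only [mem_ofPred_eq, hfz', ofReal_re, neg_neg] at h1
    exact h1
  rcases hzm1.lt_or_eq with hlt | heq
  · -- interior
    have hAn : AnalyticOnNhd ℂ f (ball 0 1) := by
      apply DifferentiableOn.analyticOnNhd _ isOpen_ball
      intro z hz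
      rw [mem_ball_zero_iff] at hz
      obtain ⟨f', h1, -⟩ := df z (hdisc z hz.le) (hA z hz.le)
      exact h1.differentiableAt.differentiableWithinAt
    rcases hAn.is_constant_or_isOpen (convex_ball _ _).isPreconnected with ⟨w, hw⟩ | ho
    · have hw0 : w = 0 := by rw [← hw 0 (by simp), f0]
      have hhalf : ‖(1 / 2 : ℂ)‖ = 1 / 2 := by norm_num
      obtain ⟨f', h1, h2⟩ := df (1 / 2) (by rw [hhalf]; norm_num) (hA _ (by rw [hhalf]; norm_num))
      have h3 : f =ᶠ[𝓝 (1 / 2 : ℂ)] fun _ => 0 := by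
        filter_upwards [isOpen_ball.mem_nhds (show (1 / 2 : ℂ) ∈ ball (0:ℂ) 1 by
          rw [mem_ball_zero_iff, hhalf]; norm_num)] with z hz
        rw [hw z hz, hw0]
      have h4 : f' = 0 := (h1.congr_of_eventuallyEq h3.symm).unique (hasDerivAt_const _ _)
      have h5 : f (1 / 2) = 0 := h3.self_of_nhds
      rw [h4, h5] at h2
      have h6 : (e : ℂ) = 0 := by linear_combination -2 * h2
      exact he.ne' (by exact_mod_cast h6)
    · have h1 := ho _ subset_rfl isOpen_ball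
      have h2 : f zm ∈ f '' ball 0 1 := ⟨zm, by rwa [mem_ball_zero_iff], rfl⟩
      obtain ⟨r, hr, hsub⟩ := Metric.isOpen_iff.1 h1 _ h2
      have h3 : ((-(κ + r / 2) : ℝ) : ℂ) ∈ ball (f zm) r := by
        rw [hfz, mem_ball, dist_eq_norm, ← ofReal_sub, Complex.norm_real, Real.norm_eq_abs,
          show -(κ + r / 2) - -κ = -(r / 2) by ring, abs_neg, abs_of_pos (by positivity)]
        linarith
      obtain ⟨z, hz1, hz2⟩ := hsub h3
      rw [mem_ball_zero_iff] at hz1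
      have := hmax' z (κ + r / 2) hz1.le (by positivity) hz2
      linarith
  · -- boundary
    have hz0 : zm ≠ 0 := by
      rintro h0; rw [h0, norm_zero] at heq; norm_num at heq
    obtain ⟨f', h1, h2⟩ := df zm (hdisc zm hzm1) (hA zm hzm1)
    have hconj : zm * conj zm = 1 := by
      rw [mul_conj, normSq_eq_norm_sq, heq]; norm_num
    set Pp : ℝ := e * (1 + κ ^ 2) + (n + 1 + 2 * μ * zm.re) * κ with hPp
    have hre : -1 ≤ zm.re := by
      have := (abs_le.1 (abs_re_le_norm zm)).1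
      rw [heq] at this; exact this
    have hPpos : 0 < Pp := by
      rcases hκ0.lt_or_eq with h | h
      · have h3 : -(2 * e) < n + 1 + 2 * μ * zm.re := by nlinarith
        have h4 : -(2 * e) * κ < (n + 1 + 2 * μ * zm.re) * κ := mul_lt_mul_of_pos_right h3 h
        rw [hPp]
        nlinarith [sq_nonneg (κ - 1)]
      · rw [hPp, ← h]; simp; exact he
    have hf' : zm * f' = Pp := by
      have h3 : zm * (zm * f') = zm * Pp := by
        have h4 : zm + conj zm = ((2 * zm.re : ℝ) : ℂ) := add_conj zm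
        have h5 : zm * (zm * f') = zm ^ 2 * f' := by ring
        rw [h5, h2, hfz, hPp]
        have h6 : zm ^ 2 + 1 = zm * ((2 * zm.re : ℝ) : ℂ) := by rw [← h4, mul_add, hconj]; ring
        rw [h6]
        push_cast
        ring
      exact mul_left_cancel₀ hz0 h3
    have hf'e : f' = conj zm * Pp := by
      rw [← hf', ← mul_assoc, mul_comm (conj zm), hconj, one_mul]
    have hf'0 : f' ≠ 0 := by
      intro h0
      rw [h0, mul_zero] at hf'
      exact hPpos.ne' (by exact_mod_cast hf'.symm)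
    -- analytic at zm
    have hopen : ∀ᶠ z in 𝓝 zm, ‖z‖ < 3 / 2 ∧ A z ≠ 0 := by
      have h3 : ∀ᶠ z in 𝓝 zm, ‖z‖ < 3 / 2 :=
        continuous_norm.continuousAt.eventually (gt_mem_nhds (hdisc zm hzm1))
      have h4 : ∀ᶠ z in 𝓝 zm, A z ≠ 0 :=
        (dA zm (hdisc zm hzm1)).continuousAt.eventually_ne (hA zm hzm1)
      exact h3.and h4
    obtain ⟨U, hU1, hU2, hU3⟩ := _root_.eventually_nhds_iff.1 hopen
    have hAn : AnalyticAt ℂ f zm := by
      refine DifferentiableOn.analyticAt (s := U) ?_ (hU2.mem_nhds hU3)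
      intro z hz
      obtain ⟨f'', h3, -⟩ := df z (hU1 z hz).1 (hU1 z hz).2
      exact h3.differentiableAt.differentiableWithinAt
    have hst : HasStrictDerivAt f f' zm := by
      have := hAn.hasStrictDerivAt
      rwa [h1.deriv] at this
    set ψ := HasStrictDerivAt.localInverse f f' zm hst hf'0 with hψ
    have hψ1 : HasStrictDerivAt ψ f'⁻¹ (f zm) := hst.to_localInverse hf'0
    have hψ0 : ψ (f zm) = zm := (hst.hasStrictFDerivAt_equiv hf'0).localInverse_apply_image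
    have hψ2 : ∀ᶠ w in 𝓝 (f zm), f (ψ w) = w := hst.eventually_right_inverse hf'0
    have hpath : HasDerivAt (fun s : ℝ => ((-(κ + s) : ℝ) : ℂ)) (((-1 : ℝ)) : ℂ) 0 :=
      (((hasDerivAt_id (0:ℝ)).const_add κ).neg).ofReal_comp
    have hp0 : ((-(κ + 0) : ℝ) : ℂ) = f zm := by rw [add_zero, hfz]
    have hcomp2 : HasDerivAt (fun s : ℝ => ψ ((-(κ + s) : ℝ) : ℂ)) (f'⁻¹ * (((-1 : ℝ)) : ℂ)) 0 := by
      have h3 : HasDerivAt ψ f'⁻¹ ((-(κ + 0) : ℝ) : ℂ) := by rw [hp0]; exact hψ1.hasDerivAt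
      exact HasDerivAt.comp (h₂ := ψ) (h := fun s : ℝ => ((-(κ + s) : ℝ) : ℂ)) (0:ℝ) h3 hpath
    have hns := hcomp2.norm_sq
    have hval : 2 * inner ℝ (ψ ((-(κ + 0) : ℝ) : ℂ)) (f'⁻¹ * (((-1 : ℝ)) : ℂ)) = -(2 / Pp) := by
      rw [hp0, hψ0, Complex.inner]
      have h3 : f'⁻¹ = zm * ((Pp⁻¹ : ℝ) : ℂ) := by
        apply inv_eq_of_mul_eq_one_right
        have hPc : (Pp : ℂ) ≠ 0 := by exact_mod_cast hPpos.ne'
        rw [hf'e, ofReal_inv]
        field_simp
        linear_combination hconj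
      rw [h3]
      have h4 : zm * ((Pp⁻¹ : ℝ) : ℂ) * ((-1 : ℝ) : ℂ) * conj zm = ((-Pp⁻¹ : ℝ) : ℂ) := by
        have : zm * ((Pp⁻¹ : ℝ) : ℂ) * ((-1 : ℝ) : ℂ) * conj zm =
          (zm * conj zm) * ((Pp⁻¹ : ℝ) : ℂ) * ((-1 : ℝ) : ℂ) := by ring
        rw [this, hconj]; push_cast; ring
      rw [h4, ofReal_re]
      field_simp
    rw [hval] at hns
    have h5 := (hasDerivAt_iff_tendsto_slope.1 hns).mono_left
      (nhdsWithin_mono 0 (fun t (ht : t ∈ Ioi (0:ℝ)) => (ne_of_gt ht : t ≠ 0)))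
    have hneg : -(2 / Pp) < 0 := by
      have : 0 < 2 / Pp := by positivity
      linarith
    have h6 : ∀ᶠ s in 𝓝[>] (0:ℝ), slope (fun s : ℝ => ‖ψ ((-(κ + s) : ℝ) : ℂ)‖ ^ 2) 0 s < 0 :=
      h5.eventually (gt_mem_nhds hneg)
    have h7 : ∀ᶠ s in 𝓝[>] (0:ℝ), f (ψ ((-(κ + s) : ℝ) : ℂ)) = ((-(κ + s) : ℝ) : ℂ) := by
      have h8 : Tendsto (fun s : ℝ => ((-(κ + s) : ℝ) : ℂ)) (𝓝[>] 0) (𝓝 (f zm)) := by
        have := hpath.continuousAt.tendsto
        simp only [hp0] at this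
        exact this.mono_left nhdsWithin_le_nhds
      exact h8.eventually hψ2
    obtain ⟨s, hs1, hs2, hs3⟩ := (h6.and (h7.and self_mem_nhdsWithin)).exists
    have hs3' : 0 < s := hs3
    rw [slope_def_field, hp0, hψ0, heq, sub_zero] at hs1
    have h9 : ‖ψ ((-(κ + s) : ℝ) : ℂ)‖ ^ 2 < 1 := by
      by_contra hc
      push Not at hc
      have : 0 ≤ (‖ψ ((-(κ + s) : ℝ) : ℂ)‖ ^ 2 - 1 ^ 2) / s := by
        apply div_nonneg _ hs3'.le
        linarith
      linarith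
    have h10 : ‖ψ ((-(κ + s) : ℝ) : ℂ)‖ ≤ 1 := by
      by_contra hc
      push Not at hc
      nlinarith [norm_nonneg (ψ ((-(κ + s) : ℝ) : ℂ))]
    have := hmax' _ (κ + s) h10 (by positivity) hs2
    linarith

lemma MM_le (n : ℕ) {δ : ℝ} (hδ : 0 < δ) : MM n δ ≤ δ + (n + 1) / 2 := by
  obtain ⟨v, hv⟩ := MM_spec n hδ
  refine pf_le (x := fun i => Real.sqrt (n.choose i)) hδ hv (fun i => ?_) (fun i => ?_)
  · apply Real.sqrt_pos.2
    exact_mod_cast Nat.choose_pos (Nat.lt_succ_iff.1 i.2)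
  · have hi : (i : ℕ) ≤ n := Nat.lt_succ_iff.1 i.2
    rw [Lop_apply, add_mul]
    have h1 : ext (fun i : Fin (n + 1) => Real.sqrt (n.choose i)) (n - (i : ℕ)) = Real.sqrt (n.choose i) := by
      unfold ext
      rw [dif_pos ⟨by omega, by omega⟩]
      simp only
      rw [show ((n:ℤ) - ((i:ℕ):ℤ)).toNat = n - i by omega, Nat.choose_symm hi]
    rw [h1]
    have h2 : ((n:ℝ) + 1 - (i : ℕ)) * ext (fun i : Fin (n + 1) => Real.sqrt (n.choose i)) ((i : ℕ) - 1) ≤
        (n + 1) / 2 * Real.sqrt (n.choose i) := by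
      by_cases h0 : (i : ℕ) = 0
      · rw [h0, ext_of_lt _ (by norm_num)]
        simp only [mul_zero]
        positivity
      · obtain ⟨k, hk⟩ := Nat.exists_eq_succ_of_ne_zero h0
        have h3 : ext (fun i : Fin (n + 1) => Real.sqrt (n.choose i)) ((i : ℕ) - 1) = Real.sqrt (n.choose k) := by
          unfold ext
          rw [dif_pos ⟨by omega, by omega⟩]
          simp only
          rw [show (((i:ℕ):ℤ) - 1).toNat = k by omega]
        rw [h3, hk]
        have h4 := Nat.choose_succ_right_eq n k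
        have hkn : k < n := by omega
        have h5 : (n.choose (k + 1) : ℝ) * (k + 1) = n.choose k * ((n:ℝ) - k) := by
          have : ((n.choose (k + 1) * (k + 1) : ℕ) : ℝ) = ((n.choose k * (n - k) : ℕ) : ℝ) := by rw [h4]
          push_cast [Nat.cast_sub hkn.le] at this
          exact this
        have hnk : (0:ℝ) < (n:ℝ) - k := by
          have : (k:ℝ) < n := by exact_mod_cast hkn
          linarith
        have e1 : ((n:ℝ) + 1 - ((k.succ : ℕ) : ℝ)) = (n:ℝ) - k := by push_cast; ring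
        rw [e1]
        have h6 : ((n:ℝ) - k) * Real.sqrt (n.choose k) = Real.sqrt (((n:ℝ) - k) ^ 2 * n.choose k) := by
          rw [Real.sqrt_mul (sq_nonneg _), Real.sqrt_sq hnk.le]
        have h7 : ((n:ℝ) + 1) / 2 * Real.sqrt (n.choose (k + 1)) =
            Real.sqrt ((((n:ℝ) + 1) / 2) ^ 2 * n.choose (k + 1)) := by
          rw [Real.sqrt_mul (sq_nonneg _), Real.sqrt_sq (by positivity)]
        rw [h6, show k.succ = k + 1 from rfl, h7]
        apply Real.sqrt_le_sqrt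
        have h8 : ((n:ℝ) - k) ^ 2 * n.choose k = ((n:ℝ) - k) * (k + 1) * n.choose (k + 1) := by
          linear_combination -((n:ℝ) - k) * h5
        rw [h8]
        have h9 : ((n:ℝ) - k) * (k + 1) ≤ (((n:ℝ) + 1) / 2) ^ 2 := by
          nlinarith [sq_nonneg (((n:ℝ) - k) - (k + 1))]
        gcongr
    linarith

end H535R3
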