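import Pool.Agent.H535R3.JW

set_option autoImplicit false
open Set Filter Topology

namespace H535R3

/-- No identity monodromy below the Perron point. -/
lemma not_ident {n : ℕ} {μ e : ℝ} (hμ : 0 < μ) (he : 0 < e) (h : μ < MM n e) :
    ¬ ∀ x, P (n + 1) (2 * μ) (2 * e) x = x + 2 * Real.pi * ((n + 1 : ℤ) : ℝ) := by
  intro hall
  obtain ⟨a, b, -, r0, ra, rb, hC, hA⟩ := ident_data hμ he hall
  have := MM_le n he
  exact no_ext hμ he (by linarith) r0 ra rb hC hA

lemma sym_of_cos {r : ℤ} {ε b a x0 : ℝ} (hx0 : P b a ε x0 = x0 + 2 * Real.pi * r)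
    (hne : Real.sin (((Real.pi - x0) - x0) / 2) = 0) :
    P b a ε (Real.pi / 2) = Real.pi / 2 + 2 * Real.pi * r ∨
    P b a ε (-(Real.pi / 2)) = -(Real.pi / 2) + 2 * Real.pi * r := by
  have h1 : Real.cos x0 = 0 := by
    rw [show ((Real.pi - x0) - x0) / 2 = Real.pi / 2 - x0 by ring, Real.sin_pi_div_two_sub] at hne
    exact hne
  rw [Real.cos_eq_zero_iff] at h1
  obtain ⟨k, hk⟩ := h1
  rcases Int.even_or_odd k with ⟨j, hj⟩ | ⟨j, hj⟩
  · left
    have h2 := P_add b a ε (Real.pi / 2) j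
    have h3 : Real.pi / 2 + 2 * Real.pi * j = x0 := by
      rw [hk, hj]; push_cast; ring
    rw [h3, hx0, ← h3] at h2
    linarith
  · right
    have h2 := P_add b a ε (-(Real.pi / 2)) (j + 1)
    have h3 : -(Real.pi / 2) + 2 * Real.pi * ((j + 1 : ℤ) : ℝ) = x0 := by
      rw [hk, hj]; push_cast; ring
    rw [h3, hx0, ← h3] at h2
    linarith

lemma barrier {b a ε : ℝ} (ha : 0 ≤ a) (h : b + a < ε) (x : ℝ) : P b a ε x < x + 2 * Real.pi := by
  have h1 : P b a ε (Real.pi / 2) < Real.pi / 2 := by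
    have := stay_pos (f := fun t => Real.pi / 2 - fl b a ε (Real.pi / 2) t)
      (fun t => (fl_sol b a ε (Real.pi / 2) t).const_sub _) (by rw [fl_zero]; simp)
      (fun t _ h0 => by
        have h2 : fl b a ε (Real.pi / 2) t = Real.pi / 2 := by linarith
        rw [h2, Real.sin_pi_div_two]
        have := Real.cos_le_one t
        nlinarith) Real.two_pi_pos
    rw [P]; linarith
  obtain ⟨m, hm1, hm2⟩ := exists_shift (Real.pi / 2 - 2 * Real.pi) x
  have h2 : P b a ε (x + 2 * Real.pi * m) < P b a ε (Real.pi / 2) := P_mono _ _ _ (by linarith)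
  rw [P_add] at h2
  linarith

/-- Below the Perron point the rotation number on the axis is too small. -/
theorem below {n : ℕ} {μ ε : ℝ} (hμ : 0 < μ) (hε : 0 < ε) (h : μ < MM n (ε / 2)) (x : ℝ) :
    P (n + 1) (2 * μ) ε x < x + 2 * Real.pi * ((n + 1 : ℤ) : ℝ) := by
  by_contra hcon
  push Not at hcon
  set E := ε / 2 with hE
  have hE0 : 0 < E := by positivity
  set Eb := max E (n + 1 + 2 * μ) with hEb
  have hpi := Real.pi_pos
  have hbig : ∀ y, P (n + 1) (2 * μ) (2 * Eb) y < y + 2 * Real.pi * ((n + 1 : ℤ) : ℝ) := by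
    intro y
    have h0 : (0:ℝ) ≤ n := n.cast_nonneg
    have h1 : (n:ℝ) + 1 + 2 * μ ≤ Eb := le_max_right _ _
    have h2 := barrier (b := (n:ℝ) + 1) (a := 2 * μ) (ε := 2 * Eb) (by positivity) (by linarith) y
    push_cast
    nlinarith
  set s : Set ℝ := {e : ℝ | ∃ x, P (n + 1) (2 * μ) (2 * e) x - x ∈ Ici (2 * Real.pi * ((n + 1 : ℤ) : ℝ))} with hs
  have hscl : IsClosed s := closed_gen _ _ isClosed_Ici
  have hcomp : IsCompact (s ∩ Icc E Eb) := isCompact_Icc.inter_left hscl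
  have hEs : E ∈ s := by
    refine ⟨x, ?_⟩
    rw [mem_Ici, hE, mul_div_cancel₀ _ two_ne_zero]; linarith
  obtain ⟨es, hes, hmax⟩ := hcomp.exists_isGreatest ⟨E, hEs, le_rfl, le_max_left _ _⟩
  have hesE : E ≤ es := hes.2.1
  have hes0 : 0 < es := hE0.trans_le hesE
  have hesb : es < Eb := by
    rcases hes.2.2.lt_or_eq with h1 | h1
    · exact h1
    · exfalso
      obtain ⟨y, hy⟩ := hes.1
      rw [mem_Ici, h1] at hy
      have := hbig y
      linarith
  have hup : ∀ y, P (n + 1) (2 * μ) (2 * es) y ≤ y + 2 * Real.pi * ((n + 1 : ℤ) : ℝ) := by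
    intro y
    have hc : Continuous fun e : ℝ => P (n + 1) (2 * μ) (2 * e) y :=
      continuous_P.comp (f := fun e : ℝ => ((n:ℝ) + 1, 2 * μ, 2 * e, y)) (by fun_prop)
    have ht : Tendsto (fun e : ℝ => P (n + 1) (2 * μ) (2 * e) y) (𝓝[>] es)
        (𝓝 (P (n + 1) (2 * μ) (2 * es) y)) := hc.continuousAt.tendsto.mono_left nhdsWithin_le_nhds
    refine le_of_tendsto ht ?_
    filter_upwards [Ioo_mem_nhdsGT hesb] with e' he'
    by_contra hc2
    push Not at hc2
    have h1 : e' ∈ s := ⟨y, by rw [mem_Ici]; linarith⟩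
    have := hmax ⟨h1, hesE.trans he'.1.le, he'.2.le⟩
    linarith [he'.1]
  obtain ⟨x0, hx0⟩ := hes.1
  rw [mem_Ici] at hx0
  have hx0' : P (n + 1) (2 * μ) (2 * es) x0 = x0 + 2 * Real.pi * (((n:ℤ) + 1 : ℤ) : ℝ) := by
    have := hup x0
    push_cast at this hx0 ⊢
    linarith
  have hlt : μ < MM n es := h.trans_le (MM_mono hE0 hesE)
  have hni := not_ident hμ hes0 hlt
  have hsimple : Simple n (2 * es) (2 * μ) → False := by
    intro hS
    obtain ⟨e', c, h1, h2⟩ := good_of_simple (by positivity) hS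
    rw [mul_div_cancel_left₀ _ two_ne_zero] at h1 h2
    rw [abs_of_pos hes0] at h1
    have he' : e' ≠ 0 := by
      intro h0; rw [h0, abs_zero] at h1; linarith
    have := MM_of_good h2 he'
    rw [h1] at this
    linarith
  have hrefl := P_reflect hx0'
  by_cases hne : Real.sin (((Real.pi - x0) - x0) / 2) = 0
  · rcases sym_of_cos hx0' hne with h1 | h1
    · exact hsimple (frontier_of_parabolic h1 (Kx_sym h1) hni)
    · have h2 := P_neg (n + 1) (2 * μ) (2 * es) (-(Real.pi / 2))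
      rw [show -(Real.pi / 2) + Real.pi = Real.pi / 2 by ring] at h2
      have h3 : P (n + 1) (2 * μ) (-(2 * es)) (Real.pi / 2) =
          Real.pi / 2 + 2 * Real.pi * (((n:ℤ) + 1 : ℤ) : ℝ) := by
        rw [h1] at h2; linarith [h2.1]
      refine hsimple (frontier_of_parabolic h1 ?_ hni)
      rw [h2.2]; exact Kx_sym h3
  · rcases dich hx0' hrefl hne with ⟨h1, -⟩ | ⟨-, ⟨u, hu⟩, -⟩
    · exact hni h1
    · have := hup u
      push_cast at this hu
      linarith

/-- At the Perron point. -/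
lemma at_MM (n : ℕ) {ε : ℝ} (hε : 0 < ε) :
    ∃ x, P (n + 1) (2 * MM n (ε / 2)) ε x = x + 2 * Real.pi * ((n + 1 : ℤ) : ℝ) := by
  have h1 := (simple_MM n hε).1.1
  rw [(isClosed_Ls _ _).closure_eq] at h1
  exact h1

/-- `ρ ≤ ℓ` on the axis. -/
theorem axis_le (n : ℕ) {μ ε : ℝ} (hμ : 0 ≤ μ) (hε : 0 < ε) :
    ∃ y, P (n + 1) (2 * μ) ε y ≤ y + 2 * Real.pi * ((n + 1 : ℤ) : ℝ) := by
  have hM : 0 < MM n (ε / 2) := MM_pos n (by positivity)
  rcases hμ.lt_or_eq with h0 | h0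
  · rcases lt_trichotomy μ (MM n (ε / 2)) with h1 | h1 | h1
    · exact ⟨0, (below h0 hε h1 0).le⟩
    · obtain ⟨x, hx⟩ := at_MM n hε
      rw [← h1] at hx
      exact ⟨x, hx.le⟩
    · obtain ⟨x, hx⟩ := locked_above h0 hε h1
      exact ⟨x, hx.le⟩
  · subst h0
    refine ⟨0, ?_⟩
    have hc : Continuous fun m : ℝ => P (n + 1) (2 * m) ε 0 :=
      continuous_P.comp (f := fun m : ℝ => ((n:ℝ) + 1, 2 * m, ε, (0:ℝ))) (by fun_prop)
    have ht : Tendsto (fun m : ℝ => P (n + 1) (2 * m) ε 0) (𝓝[>] 0)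
        (𝓝 (P (n + 1) (2 * 0) ε 0)) := hc.continuousAt.tendsto.mono_left nhdsWithin_le_nhds
    refine le_of_tendsto ht ?_
    filter_upwards [Ioo_mem_nhdsGT hM] with m hm
    exact (below hm.1 hε hm.2 0).le

/-- At `b = 0`. -/
lemma zero_b (a ε : ℝ) : ∃ y, P 0 a ε y ≤ y := by
  by_contra hcon
  push Not at hcon
  set φ := fl 0 a ε 0 with hφd
  have hφ : Sol 0 a ε φ := fl_sol 0 a ε 0
  have h1 : φ 0 < φ (2 * Real.pi) := by
    have := hcon 0
    rw [P] at this
    rw [hφd, fl_zero]; exact this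
  have h2 := hφ.lt_of_lt hφ.shift (s := 0) (by simpa using h1) Real.pi
  have hψ : Sol 0 a ε (fun t => -(φ (t + Real.pi))) := by
    intro t
    have h1 := ((hφ (t + Real.pi)).comp_add_const t Real.pi).neg
    refine h1.congr_deriv ?_
    simp only [Real.sin_neg, Real.cos_add_pi]; ring
  have h3 := congrFun hψ.eq_fl (2 * Real.pi)
  simp only [zero_add] at h3
  have h4 := hcon (-(φ Real.pi))
  rw [P, ← h3, add_comm (2 * Real.pi)] at h4
  linarith

lemma P_le_of_b {b b' a ε x : ℝ} (h : b ≤ b') : P b a ε x ≤ P b' a ε x := by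
  rcases h.lt_or_eq with h | h
  · exact (P_lt_of_b h).le
  · rw [h]

/-- `L_r` is strictly to the right of the line `b = r - 1`. -/
theorem strictly_right {ε : ℝ} (hε : 0 < ε) {r : ℕ} (hr : 1 ≤ r) {b a : ℝ} (ha : 0 ≤ a)
    (h : ∃ x, P b a ε x = x + 2 * Real.pi * r) : (r:ℝ) - 1 < b := by
  by_contra hcon
  push Not at hcon
  obtain ⟨y, hy⟩ : ∃ y, P ((r:ℝ) - 1) a ε y ≤ y + 2 * Real.pi * ((r:ℝ) - 1) := by
    rcases r with _ | _ | n
    · omega
    · obtain ⟨y, hy⟩ := zero_b a ε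
      refine ⟨y, ?_⟩
      simp only [zero_add, Nat.cast_one, sub_self, mul_zero, add_zero]
      exact hy
    · obtain ⟨y, hy⟩ := axis_le n (μ := a / 2) (by positivity) hε
      rw [mul_div_cancel₀ _ two_ne_zero] at hy
      refine ⟨y, ?_⟩
      push_cast at hy ⊢
      rw [show (n:ℝ) + 1 + 1 - 1 = n + 1 by ring]
      exact hy
  obtain ⟨x, hx⟩ := h
  obtain ⟨m, hm1, hm2⟩ := exists_shift x y
  have h1 := (P_mono ((r:ℝ) - 1) a ε).monotone hm1
  rw [P_add] at h1
  have h2 := P_le_of_b (a := a) (ε := ε) (x := x) hcon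
  have hpi := Real.pi_pos
  nlinarith

/-- Symmetry `a → -a`. -/
lemma lock_neg_a {b a ε : ℝ} {r : ℤ} (h : ∃ x, P b a ε x = x + 2 * Real.pi * r) :
    ∃ x, P b (-a) ε x = x + 2 * Real.pi * r := by
  obtain ⟨x, hx⟩ := h
  have hs := fl_sol b a ε x
  have hψ : Sol b (-a) ε (fun t => fl b a ε x (t + Real.pi)) := by
    intro t
    have h1 := (hs (t + Real.pi)).comp_add_const t Real.pi
    refine h1.congr_deriv ?_
    simp only [Real.cos_add_pi]; ring
  have h2 := congrFun hψ.eq_fl (2 * Real.pi)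
  simp only [zero_add] at h2
  refine ⟨fl b a ε x Real.pi, ?_⟩
  have h3 := fl_per (m := r) hx Real.pi
  rw [P, ← h2, add_comm, h3]

/-- One solution suffices. -/
lemma Lk_of_one {r : ℤ} {b a ε : ℝ} {φ : ℝ → ℝ} (hφ : Sol b a ε φ)
    (h : Tendsto (fun t => φ t / t) atTop (𝓝 (r:ℝ))) : Lk r b a ε := by
  intro ψ hψ
  obtain ⟨m, hm1, hm2⟩ := exists_shift (φ 0) (ψ 0)
  have hψ' : Sol b a ε (fun t => ψ t + 2 * Real.pi * m) := hψ.add_two_pi m
  have hbd : ∀ t, |ψ t - φ t| ≤ 2 * Real.pi + |2 * Real.pi * m| := by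
    intro t
    have h1 : φ t ≤ ψ t + 2 * Real.pi * m := by
      rcases hm1.lt_or_eq with h1 | h1
      · exact (hφ.lt_of_lt hψ' (s := 0) h1 t).le
      · exact (congrFun (hφ.unique hψ' (t0 := 0) h1) t).le
    have h2 : ψ t + 2 * Real.pi * m < φ t + 2 * Real.pi := by
      have := hψ'.lt_of_lt (hφ.add_two_pi 1) (s := 0) (by push_cast; linarith) t
      push_cast at this
      linarith
    have h5 := abs_le.1 (le_refl |2 * Real.pi * (m : ℝ)|)
    rw [abs_le]
    constructor <;> linarith [h5.1, h5.2, Real.two_pi_pos]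
  set D := 2 * Real.pi + |2 * Real.pi * m|
  have h1 : Tendsto (fun t => (ψ t - φ t) / t) atTop (𝓝 0) := by
    rw [tendsto_zero_iff_norm_tendsto_zero]
    refine squeeze_zero' (g := fun t => D / t) (Eventually.of_forall fun _ => norm_nonneg _) ?_
      (tendsto_const_nhds.div_atTop tendsto_id)
    filter_upwards [eventually_gt_atTop (0 : ℝ)] with t ht
    rw [Real.norm_eq_abs, abs_div, abs_of_pos ht]
    exact div_le_div_of_nonneg_right (hbd t) ht.le
  have h2 := h.add h1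
  rw [add_zero] at h2
  refine h2.congr fun t => ?_
  rw [← add_div]; congr 1; ring

/-- Scaling of a solution. -/
lemma lock_of_sol {ω : ℝ} (hω : 0 < ω) {r : ℤ} {B A : ℝ} {φ : ℝ → ℝ}
    (hφ : ∀ t : ℝ, HasDerivAt φ (-Real.sin (φ t) + B + A * Real.cos (ω * t)) t)
    (h : Tendsto (fun t : ℝ => φ t / (ω * t)) atTop (𝓝 (r:ℝ))) :
    ∃ x, P (B / ω) (A / ω) (1 / ω) x = x + 2 * Real.pi * r := by
  have h1 : Sol (B / ω) (A / ω) (1 / ω) (fun s => φ (s / ω)) := by
    intro s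
    have h2 := HasDerivAt.comp s (hφ (s / ω)) ((hasDerivAt_id s).div_const ω)
    refine h2.congr_deriv ?_
    simp only [id]
    rw [mul_div_cancel₀ s hω.ne']
    field_simp
    ring
  have h3 : Tendsto (fun s : ℝ => s / ω) atTop atTop := tendsto_id.atTop_div_const hω
  have h4 := h.comp h3
  refine Lk_iff.1 (Lk_of_one h1 (h4.congr fun s => ?_))
  simp only [Function.comp]
  rw [mul_div_cancel₀ s hω.ne']

/-- The frozen form. -/
theorem right_main (ω : ℝ) (hω : 0 < ω) (r : ℕ) (hr : 1 ≤ r) (B A : ℝ) (φ : ℝ → ℝ)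
    (hφ : ∀ t : ℝ, HasDerivAt φ (-Real.sin (φ t) + B + A * Real.cos (ω * t)) t)
    (h : Tendsto (fun t : ℝ => φ t / (ω * t)) atTop (𝓝 (r:ℝ))) : ((r:ℝ) - 1) * ω < B := by
  have h1 := lock_of_sol hω (r := (r:ℤ)) hφ (by exact_mod_cast h)
  have h2 : (r:ℝ) - 1 < B / ω := by
    rcases le_total 0 A with hA | hA
    · refine strictly_right (ε := 1 / ω) (a := A / ω) (by positivity) hr (by positivity) ?_
      exact_mod_cast h1
    · have h3 := lock_neg_a h1
      refine strictly_right (ε := 1 / ω) (a := -(A / ω)) (by positivity) hr ?_ ?_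
      · rw [neg_nonneg]; exact div_nonpos_of_nonpos_of_nonneg hA hω.le
      · exact_mod_cast h3
  rwa [lt_div_iff₀ hω] at h2

end H535R3
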