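import Pool.Agent.H535R3.JX

set_option autoImplicit false
open Set Filter Topology

namespace H535R3

/-- Upper bound for the rotation number. -/
lemma rho_le {b a ε : ℝ} {r : ℝ} {m0 : ℕ} (hr : r = m0) (h : ∃ y, P b a ε y ≤ y + 2 * Real.pi * m0)
    {φ : ℝ → ℝ} (hφ : Sol b a ε φ) {ρ : ℝ} (hρ : Tendsto (fun t => φ t / t) atTop (𝓝 ρ)) : ρ ≤ r := by
  obtain ⟨y, hy⟩ := h
  have hpi := Real.two_pi_pos
  obtain ⟨m, hm1, hm2⟩ := exists_shift (y - 2 * Real.pi) (φ 0)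
  have hseq : Tendsto (fun n : ℕ => 2 * Real.pi * (n : ℝ)) atTop atTop :=
    tendsto_natCast_atTop_atTop.const_mul_atTop Real.two_pi_pos
  have hb : ∀ n : ℕ, φ (2 * Real.pi * n) + 2 * Real.pi * m ≤ y + 2 * Real.pi * (m0 * n) := by
    intro n
    induction n with
    | zero => simp only [Nat.cast_zero, mul_zero, add_zero]; linarith
    | succ n ih =>
      have h1 : φ (2 * Real.pi * (n + 1)) + 2 * Real.pi * m =
          P b a ε (φ (2 * Real.pi * n) + 2 * Real.pi * m) := (hφ.add_two_pi m).iter n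
      have h2 := (P_mono b a ε).monotone ih
      have h3 := P_add b a ε y ((m0:ℤ) * n)
      push_cast at h3 ⊢
      rw [h3] at h2
      rw [h1]
      linarith
  have h1 := hρ.comp hseq
  have h2 : Tendsto (fun n : ℕ => (y - 2 * Real.pi * m) / (2 * Real.pi * n) + r) atTop (𝓝 (0 + r)) :=
    (tendsto_const_nhds.div_atTop hseq).add tendsto_const_nhds
  rw [zero_add] at h2
  refine le_of_tendsto_of_tendsto h1 h2 ?_
  filter_upwards [eventually_gt_atTop 0] with n hn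
  have hn' : (0:ℝ) < n := by exact_mod_cast hn
  simp only [Function.comp]
  rw [div_add' _ _ _ (by positivity)]
  apply div_le_div_of_nonneg_right _ (by positivity)
  have := hb n
  rw [hr]
  nlinarith

/-- `ρ ≤ r` on the axis, for all solutions. -/
theorem axis_main (ω : ℝ) (hω : 0 < ω) (r : ℕ) (hr : 1 ≤ r) (A : ℝ) (φ : ℝ → ℝ)
    (hφ : ∀ τ : ℝ, HasDerivAt φ (1 / ω * (-Real.sin (φ τ) + ω * r + A * Real.cos τ)) τ) (ρ : ℝ)
    (hρ : Tendsto (fun τ : ℝ => φ τ / τ) atTop (𝓝 ρ)) : ρ ≤ r := by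
  obtain ⟨n, rfl⟩ : ∃ n, r = n + 1 := ⟨r - 1, by omega⟩
  have hS : Sol ((n:ℝ) + 1) (A / ω) (1 / ω) φ := by
    intro τ
    refine (hφ τ).congr_deriv ?_
    push_cast
    field_simp
    ring
  rcases le_total 0 A with hA | hA
  · have h1 := axis_le n (μ := A / ω / 2) (ε := 1 / ω) (by positivity) (by positivity)
    rw [mul_div_cancel₀ _ two_ne_zero] at h1
    exact rho_le (m0 := n + 1) rfl (by exact_mod_cast h1) hS hρ
  · have hneg : 0 ≤ -(A / ω) := by
      rw [neg_nonneg]; exact div_nonpos_of_nonpos_of_nonneg hA hω.le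
    have h1 := axis_le n (μ := -(A / ω) / 2) (ε := 1 / ω) (by positivity) (by positivity)
    rw [mul_div_cancel₀ _ two_ne_zero] at h1
    have hψ : Sol ((n:ℝ) + 1) (-(A / ω)) (1 / ω) (fun t => φ (t + Real.pi)) := by
      intro t
      have h1 := (hS (t + Real.pi)).comp_add_const t Real.pi
      refine h1.congr_deriv ?_
      simp only [Real.cos_add_pi]; ring
    refine rho_le (m0 := n + 1) rfl (by exact_mod_cast h1) hψ ?_
    -- shift of the argument
    have h2 : Tendsto (fun t : ℝ => t + Real.pi) atTop atTop := tendsto_atTop_add_const_right _ _ tendsto_id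
    have h3 := hρ.comp h2
    have h4 : Tendsto (fun t : ℝ => (t + Real.pi) / t) atTop (𝓝 1) := by
      have : Tendsto (fun t : ℝ => 1 + Real.pi / t) atTop (𝓝 (1 + 0)) :=
        tendsto_const_nhds.add (tendsto_const_nhds.div_atTop tendsto_id)
      rw [add_zero] at this
      refine this.congr' ?_
      filter_upwards [eventually_gt_atTop (0:ℝ)] with t ht
      field_simp
    have h5 := h3.mul h4
    rw [mul_one] at h5
    refine h5.congr' ?_
    filter_upwards [eventually_gt_atTop (0:ℝ)] with t ht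
    simp only [Function.comp]
    have : t + Real.pi ≠ 0 := by positivity
    field_simp

/-- At `a = 0` there is no locking with number `n + 1`. -/
lemma zero_a {n : ℕ} {ε : ℝ} (hε : 0 < ε) : ¬ ∃ x, P (n + 1) 0 ε x = x + 2 * Real.pi * ((n + 1 : ℤ) : ℝ) := by
  rintro ⟨x, hx⟩
  set φ := fl (n + 1) 0 ε x with hφd
  have hφ : Sol (n + 1) 0 ε φ := fl_sol _ _ _ _
  have hn : (0:ℝ) < (n:ℝ) + 1 := by positivity
  set Ψ : ℝ → ℝ := fun t => φ t - ((n:ℝ) + 1) * t - ε / (n + 1) * Real.cos (φ t) with hΨ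
  have hd : ∀ t, HasDerivAt Ψ (-(ε ^ 2 / (n + 1) * Real.sin (φ t) ^ 2)) t := by
    intro t
    have h1 := ((hφ t).sub ((hasDerivAt_id t).const_mul ((n:ℝ) + 1))).sub
      ((hφ t).cos.const_mul (ε / (n + 1)))
    refine h1.congr_deriv ?_
    field_simp
    ring
  have hanti : Antitone Ψ := antitone_of_deriv_nonpos (fun t => (hd t).differentiableAt) (fun t => by
    rw [(hd t).deriv]
    have : 0 ≤ ε ^ 2 / (n + 1) * Real.sin (φ t) ^ 2 := by positivity
    linarith)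
  have hend : Ψ (2 * Real.pi) = Ψ 0 := by
    have h1 : φ (2 * Real.pi) = x + 2 * Real.pi * ((n + 1 : ℤ) : ℝ) := hx
    have h2 : φ 0 = x := by rw [hφd, fl_zero]
    simp only [hΨ, h1, h2]
    rw [mul_comm (2 * Real.pi) ((n + 1 : ℤ) : ℝ), Real.cos_add_int_mul_two_pi]
    push_cast; ring
  have hconst : ∀ t ∈ Ioo 0 (2 * Real.pi), Ψ t = Ψ 0 := by
    intro t ht
    have h1 := hanti ht.1.le
    have h2 := hanti ht.2.le
    linarith
  have hsin : ∀ t ∈ Ioo 0 (2 * Real.pi), Real.sin (φ t) = 0 := by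
    intro t ht
    have h1 : Ψ =ᶠ[𝓝 t] fun _ => Ψ 0 := by
      filter_upwards [isOpen_Ioo.mem_nhds ht] with s hs
      exact hconst s hs
    have h2 := ((hd t).congr_of_eventuallyEq h1.symm).unique (hasDerivAt_const _ _)
    have h3 : ε ^ 2 / (n + 1) * Real.sin (φ t) ^ 2 = 0 := by linarith
    have h4 := (mul_eq_zero.1 h3).resolve_left (by positivity)
    exact pow_eq_zero_iff (two_ne_zero) |>.1 h4
  have hpi := Real.pi_pos
  have hmem : Real.pi ∈ Ioo 0 (2 * Real.pi) := ⟨hpi, by linarith⟩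
  have h5 : (fun t => Real.sin (φ t)) =ᶠ[𝓝 Real.pi] fun _ => 0 := by
    filter_upwards [isOpen_Ioo.mem_nhds hmem] with s hs
    exact hsin s hs
  have h6 := (((hφ Real.pi).sin).congr_of_eventuallyEq h5.symm).unique (hasDerivAt_const _ _)
  rw [hsin _ hmem] at h6
  have h7 : Real.cos (φ Real.pi) = 0 := by
    have h8 : (n:ℝ) + 1 + 0 * Real.cos Real.pi - ε * 0 ≠ 0 := by
      rw [zero_mul, mul_zero, add_zero, sub_zero]; exact hn.ne'
    exact (mul_eq_zero.1 h6).resolve_right h8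
  have h9 := Real.sin_sq_add_cos_sq (φ Real.pi)
  rw [h7, hsin _ hmem] at h9
  norm_num at h9

/-- The axis meets the locked area exactly above the Perron point. -/
theorem axis_iff (n : ℕ) {a ε : ℝ} (ha : 0 ≤ a) (hε : 0 < ε) :
    (((n:ℝ) + 1, a) : ℝ × ℝ) ∈ Ls ((n:ℤ) + 1) ε ↔ 2 * MM n (ε / 2) ≤ a := by
  have hM : 0 < MM n (ε / 2) := MM_pos n (by positivity)
  have e1 : 2 * (a / 2) = a := by ring
  constructor
  · rintro ⟨x, hx⟩
    by_contra hc
    push Not at hc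
    simp only at hx
    rcases ha.lt_or_eq with h | h
    · have h1 := below (n := n) (μ := a / 2) (by positivity) hε (by linarith) x
      rw [e1] at h1
      push_cast at hx h1
      linarith
    · apply zero_a (n := n) hε
      refine ⟨x, ?_⟩
      rw [h]; exact hx
  · intro h
    rcases h.lt_or_eq with h1 | h1
    · obtain ⟨x, hx⟩ := locked_above (n := n) (μ := a / 2) (by linarith) hε (by linarith)
      rw [e1] at hx
      exact ⟨x, hx⟩
    · obtain ⟨x, hx⟩ := at_MM n hε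
      rw [h1] at hx
      exact ⟨x, hx⟩

/-- Structure of the axis in the original coordinates. -/
theorem ray_main (ω : ℝ) (hω : 0 < ω) (r : ℤ) (hr : r ≠ 0) :
    ∃ a : ℝ, IsGreatest {A : ℝ | ((r : ℝ) * ω, A) ∈ frontier (LL ω r) ∧
      ¬ (A ≠ 0 ∧ {q : ℝ × ℝ | q ∈ LL ω r ∧ q.2 = A} = {((r : ℝ) * ω, A)})} a ∧
      {A : ℝ | 0 ≤ A ∧ ((r : ℝ) * ω, A) ∈ LL ω r} = Ici a := by
  obtain ⟨n, s, hs⟩ : ∃ (n : ℕ) (s : ℝ), s = 1 ∧ r = n + 1 ∨ s = -1 ∧ r = -(n + 1) := by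
    rcases lt_or_gt_of_ne hr with h | h
    · exact ⟨(-r - 1).toNat, -1, Or.inr ⟨rfl, by omega⟩⟩
    · exact ⟨(r - 1).toNat, 1, Or.inl ⟨rfl, by omega⟩⟩
  have hs0 : s ≠ 0 := by rcases hs with ⟨rfl, -⟩ | ⟨rfl, -⟩ <;> norm_num
  have hsr : s * r = (n:ℝ) + 1 := by
    rcases hs with ⟨rfl, rfl⟩ | ⟨rfl, rfl⟩ <;> push_cast <;> ring
  set K := kk ω s hω.ne' hs0 with hK
  have hKapp : ∀ B A, K (B, A) = (s * B / ω, A / ω) := fun B A => rfl
  have hL := LL_eq hω hs hs0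
  rw [← hK] at hL
  have hmem : ∀ A, ((r : ℝ) * ω, A) ∈ LL ω r ↔
      (((n:ℝ) + 1, A / ω) : ℝ × ℝ) ∈ Ls ((n:ℤ) + 1) (1 / ω) := by
    intro A
    rw [hL, mem_preimage, hKapp]
    rw [show s * (r * ω) / ω = (n:ℝ) + 1 by rw [← hsr]; field_simp]
  have hfr : ∀ A, ((r : ℝ) * ω, A) ∈ frontier (LL ω r) ↔
      (((n:ℝ) + 1, A / ω) : ℝ × ℝ) ∈ frontier (Ls ((n:ℤ) + 1) (1 / ω)) := by
    intro A
    rw [hL, ← K.preimage_frontier, mem_preimage, hKapp]
    rw [show s * (r * ω) / ω = (n:ℝ) + 1 by rw [← hsr]; field_simp]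
  have hsl : ∀ A, ({q : ℝ × ℝ | q ∈ LL ω r ∧ q.2 = A} = {((r : ℝ) * ω, A)}) ↔
      {q : ℝ × ℝ | q ∈ Ls ((n:ℤ) + 1) (1 / ω) ∧ q.2 = A / ω} = {((n:ℝ) + 1, A / ω)} := by
    intro A
    have e1 : {q : ℝ × ℝ | q ∈ LL ω r ∧ q.2 = A} =
        K ⁻¹' {q : ℝ × ℝ | q ∈ Ls ((n:ℤ) + 1) (1 / ω) ∧ q.2 = A / ω} := by
      ext ⟨B, A'⟩
      rw [hL]
      simp only [mem_preimage, mem_ofPred_eq, hKapp]
      rw [div_left_inj' hω.ne']
    have e2 : ({((r : ℝ) * ω, A)} : Set (ℝ × ℝ)) = K ⁻¹' {((n:ℝ) + 1, A / ω)} := by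
      ext ⟨B, A'⟩
      simp only [mem_preimage, mem_singleton_iff, hKapp, Prod.mk.injEq]
      rw [div_left_inj' hω.ne', div_eq_iff hω.ne', ← hsr, mul_assoc, mul_right_inj' hs0]
    rw [e1, e2]
    exact K.surjective.preimage_injective.eq_iff
  have hε : (0:ℝ) < 1 / ω := by positivity
  set a0 := 2 * MM n (1 / ω / 2) with ha0
  have ha0p : 0 < a0 := mul_pos two_pos (MM_pos n (by positivity))
  have hsa : Simple n (1 / ω) a0 := simple_MM n hε
  refine ⟨ω * a0, ⟨⟨?_, ?_⟩, ?_⟩, ?_⟩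
  · rw [hfr, mul_div_cancel_left₀ _ hω.ne']; exact hsa.1
  · rintro ⟨-, h⟩
    rw [hsl, mul_div_cancel_left₀ _ hω.ne'] at h
    exact hsa.2 h
  · rintro A ⟨h1, h2⟩
    rcases le_or_gt A 0 with hA | hA
    · exact hA.trans (by positivity)
    · rw [hfr] at h1
      have h3 : Simple n (1 / ω) (A / ω) := ⟨h1, fun h => h2 ⟨hA.ne', (hsl A).2 h⟩⟩
      have h4 := simple_unique hε (by positivity) ha0p h3 hsa
      rw [← h4]
      exact le_of_eq (by field_simp)
  · ext A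
    rw [mem_ofPred_eq, mem_Ici, hmem]
    constructor
    · rintro ⟨hA, h⟩
      have := (axis_iff n (a := A / ω) (by positivity) hε).1 h
      rw [le_div_iff₀ hω] at this
      linarith
    · intro h
      have hA : 0 ≤ A := le_trans (by positivity) h
      refine ⟨hA, (axis_iff n (a := A / ω) (by positivity) hε).2 ?_⟩
      rw [le_div_iff₀ hω]
      linarith

/-- The two descriptions of the phase-lock area. -/
lemma LL_exists {ω : ℝ} (hω : 0 < ω) (r : ℤ) : {p : ℝ × ℝ | ∃ φ : ℝ → ℝ,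
      (∀ t : ℝ, HasDerivAt φ (-Real.sin (φ t) + p.1 + p.2 * Real.cos (ω * t)) t) ∧
      Tendsto (fun t : ℝ => φ t / (ω * t)) atTop (𝓝 (r : ℝ))} = LL ω r := by
  ext ⟨B, A⟩
  rw [mem_LL hω]
  constructor
  · rintro ⟨φ, h1, h2⟩
    exact lock_of_sol hω h1 h2
  · intro h
    have hLk : Lk r (B / ω) (A / ω) (1 / ω) := Lk_iff.2 h
    set φ := fl (B / ω) (A / ω) (1 / ω) 0 with hφd
    have hφ : Sol (B / ω) (A / ω) (1 / ω) φ := fl_sol _ _ _ _
    refine ⟨fun t => φ (ω * t), ?_, ?_⟩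
    · intro t
      have h2 := HasDerivAt.comp t (hφ (ω * t)) ((hasDerivAt_id t).const_mul ω)
      refine h2.congr_deriv ?_
      field_simp
      ring
    · exact (hLk φ hφ).comp (tendsto_id.const_mul_atTop hω)

/-- The frozen form of the statement on the axis. -/
theorem ray_frozen (ω : ℝ) (hω : 0 < ω) (r : ℤ) (hr : r ≠ 0) (L : Set (ℝ × ℝ))
    (hL : L = {p : ℝ × ℝ | ∃ φ : ℝ → ℝ,
      (∀ t : ℝ, HasDerivAt φ (-Real.sin (φ t) + p.1 + p.2 * Real.cos (ω * t)) t) ∧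
      Tendsto (fun t : ℝ => φ t / (ω * t)) atTop (𝓝 (r : ℝ))}) :
    ∃ a : ℝ, IsGreatest {A : ℝ | (ω * (r : ℝ), A) ∈ frontier L ∧
      ¬ (A ≠ 0 ∧ {p ∈ L | p.2 = A} = {(ω * (r : ℝ), A)})} a ∧
      {A : ℝ | 0 ≤ A ∧ (ω * (r : ℝ), A) ∈ L} = Ici a := by
  rw [LL_exists hω r] at hL
  subst hL
  rw [mul_comm ω (r:ℝ)]
  exact ray_main ω hω r hr

end H535R3
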