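import Pool.Agent.H535R3.JY

set_option autoImplicit false
open Set Filter Topology Complex ComplexConjugate

namespace H535R3

/-- Right-hand side in a general gauge. -/
noncomputable def lvg (ν μ e : ℝ) (r : ℤ) (t : ℝ) (Z : ℂ) : ℂ :=
  I * ν * Z + I * μ * exp (-(I * t)) * Z - I * e * exp (-(I * r * t)) * conj Z

/-- General recursion. -/
def GRec (ν μ e : ℝ) (r : ℤ) (h : ℤ → ℝ) : Prop :=
  ∀ k : ℤ, μ * h (k + 1) + (ν - k) * h k = e * h (-r - k)

lemma cf_rec3 {ν μ e : ℝ} {r : ℤ} {G : ℝ → ℂ} (hG : ∀ t, HasDerivAt G (lvg ν μ e r t (G t)) t)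
    (hper : ∀ t, G (t + 2 * Real.pi) = G t) (hsym : ∀ t, G (-t) = conj (G t)) (k : ℤ) :
    μ * cf G (k + 1) + ((ν : ℂ) - k) * cf G k = (e : ℂ) * cf G (-r - k) := by
  have hcont : Continuous G := continuous_iff_continuousAt.2 fun t => (hG t).continuousAt
  have hd : ∀ t : ℝ, HasDerivAt (fun t : ℝ => G t * exp (-(I * k * t)))
      (lvg ν μ e r t (G t) * exp (-(I * k * t)) + G t * (exp (-(I * k * t)) * (-(I * k)))) t := by
    intro t
    have h1 : HasDerivAt (fun t : ℝ => exp (-(I * k * (t : ℂ)))) (exp (-(I * k * t)) * (-(I * k))) t := by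
      have h2 : HasDerivAt (fun t : ℝ => -(I * k * (t : ℂ))) (-(I * k * 1)) t :=
        ((ofRealCLM.hasDerivAt (x := t)).const_mul (I * k)).neg
      rw [mul_one] at h2
      exact h2.cexp
    exact (hG t).mul h1
  have hlc : Continuous fun t : ℝ => lvg ν μ e r t (G t) := by unfold lvg; fun_prop
  have hint := intervalIntegral.integral_eq_sub_of_hasDerivAt (a := -Real.pi) (b := Real.pi)
    (fun t _ => hd t) (Continuous.intervalIntegrable (by fun_prop) _ _)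
  have hbd : G Real.pi * exp (-(I * k * (Real.pi : ℝ))) =
      G (-Real.pi) * exp (-(I * k * ((-Real.pi : ℝ) : ℂ))) := by
    have h1 := hper (-Real.pi)
    have h2 := exp_per k (-Real.pi)
    rw [show -Real.pi + 2 * Real.pi = Real.pi by ring] at h1 h2
    rw [h1, h2]
  rw [hbd, sub_self] at hint
  have hint2 : ∫ t in (-Real.pi)..Real.pi, ((I * ((ν : ℂ) - k)) * (G t * exp (-(I * k * t))) +
      (I * μ) * (G t * exp (-(I * ((k + 1 : ℤ) : ℂ) * t))) - (I * e) *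
        ((fun s : ℝ => G s * exp (-(I * ((-r - k : ℤ) : ℂ) * s))) (-t))) = 0 := by
    rw [← hint]
    congr 1
    funext t
    simp only [lvg, hsym]
    have e1 : exp (-(I * ((k + 1 : ℤ) : ℂ) * t)) = exp (-(I * t)) * exp (-(I * k * t)) := by
      rw [← exp_add]; congr 1; push_cast; ring
    have e2 : exp (-(I * ((-r - k : ℤ) : ℂ) * ((-t : ℝ) : ℂ))) =
        exp (-(I * r * t)) * exp (-(I * k * t)) := by
      rw [← exp_add]; congr 1; push_cast; ring
    rw [e1, e2]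
    ring
  rw [intervalIntegral.integral_sub, intervalIntegral.integral_add,
    intervalIntegral.integral_const_mul, intervalIntegral.integral_const_mul,
    intervalIntegral.integral_const_mul,
    intervalIntegral.integral_comp_neg (fun s : ℝ => G s * exp (-(I * ((-r - k : ℤ) : ℂ) * s))),
    neg_neg] at hint2
  rotate_left
  · exact Continuous.intervalIntegrable (by fun_prop) _ _
  · exact Continuous.intervalIntegrable (by fun_prop) _ _
  · exact Continuous.intervalIntegrable (by fun_prop) _ _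
  · exact Continuous.intervalIntegrable (by fun_prop) _ _
  unfold cf
  have hI : (I : ℂ) ≠ 0 := I_ne_zero
  have h3 : I * ((μ : ℂ) * (∫ t in (-Real.pi)..Real.pi, G t * exp (-(I * ((k + 1 : ℤ) : ℂ) * t))) +
    ((ν : ℂ) - k) * (∫ t in (-Real.pi)..Real.pi, G t * exp (-(I * k * t))) -
    (e : ℂ) * (∫ t in (-Real.pi)..Real.pi, G t * exp (-(I * ((-r - k : ℤ) : ℂ) * t)))) = 0 := by
    linear_combination hint2
  have h4 := (mul_eq_zero.1 h3).resolve_left hI
  linear_combination ((1 / (2 * Real.pi) : ℝ) : ℂ) * h4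

/-- exponent -/
noncomputable def hh (μ ε : ℝ) (r : ℤ) (φ : ℝ → ℝ) (t : ℝ) : ℂ :=
  ((ε / 2 * Cc φ t - μ * Real.cos t : ℝ) : ℂ) + I * (((φ t - Real.pi / 2 - r * t) / 2 : ℝ) : ℂ)

lemma hh_sol {b μ ε : ℝ} {r : ℤ} {φ : ℝ → ℝ} (h : Sol b (2 * μ) ε φ) (t : ℝ) :
    HasDerivAt (fun t => exp (hh μ ε r φ t)) (lvg ((b - r) / 2) μ (ε / 2) r t (exp (hh μ ε r φ t))) t := by
  have h1 : HasDerivAt (fun t => ε / 2 * Cc φ t - μ * Real.cos t)
      (ε / 2 * Real.cos (φ t) - μ * (-Real.sin t)) t :=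
    ((Cc_deriv h.cont t).const_mul _).sub ((Real.hasDerivAt_cos t).const_mul μ)
  have h2 : HasDerivAt (fun t => (φ t - Real.pi / 2 - (r:ℝ) * t) / 2)
      (((b + 2 * μ * Real.cos t - ε * Real.sin (φ t)) - (r:ℝ) * 1) / 2) t :=
    (((h t).sub_const (Real.pi / 2)).sub ((hasDerivAt_id t).const_mul (r:ℝ))).div_const 2
  have h3 : HasDerivAt (hh μ ε r φ) (((ε / 2 * Real.cos (φ t) - μ * (-Real.sin t) : ℝ) : ℂ) +
      I * ((((b + 2 * μ * Real.cos t - ε * Real.sin (φ t)) - (r:ℝ) * 1) / 2 : ℝ) : ℂ)) t :=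
    h1.ofReal_comp.add (h2.ofReal_comp.const_mul I)
  refine h3.cexp.congr_deriv ?_
  have e1 : exp (-(I * t)) = Real.cos t - I * Real.sin t := by
    rw [show -(I * (t:ℂ)) = ((-t : ℝ) : ℂ) * I by push_cast; ring, exp_mul_I]
    push_cast
    rw [Complex.cos_neg, Complex.sin_neg]; ring
  have e2 : exp (-(I * r * t)) * conj (exp (hh μ ε r φ t)) =
      I * (Real.cos (φ t) - I * Real.sin (φ t)) * exp (hh μ ε r φ t) := by
    have e3 : (Real.cos (φ t) - I * Real.sin (φ t) : ℂ) = exp (-(I * (φ t : ℝ))) := by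
      rw [show -(I * ((φ t : ℝ):ℂ)) = ((-(φ t) : ℝ) : ℂ) * I by push_cast; ring, exp_mul_I]
      push_cast
      rw [Complex.cos_neg, Complex.sin_neg]; ring
    have e4 : (I : ℂ) * (exp (-(I * (φ t : ℝ)))) = exp (I * (Real.pi / 2 : ℝ)) * exp (-(I * (φ t : ℝ))) := by
      congr 1
      rw [mul_comm, exp_mul_I]
      push_cast
      rw [Complex.cos_pi_div_two, Complex.sin_pi_div_two]; ring
    rw [e3, e4, ← exp_conj, ← exp_add, ← exp_add, ← exp_add]
    congr 1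
    simp only [hh, map_add, map_mul, conj_ofReal, conj_I]
    push_cast
    ring
  have e5 : lvg ((b - r) / 2) μ (ε / 2) r t (exp (hh μ ε r φ t)) =
      I * (((b - r) / 2 : ℝ) : ℂ) * exp (hh μ ε r φ t) + I * μ * exp (-(I * t)) * exp (hh μ ε r φ t)
      - I * (ε / 2 : ℝ) * (exp (-(I * r * t)) * conj (exp (hh μ ε r φ t))) := by
    unfold lvg; ring
  rw [e5, e2, e1]
  push_cast
  have hI : I * I = -1 := I_mul_I
  linear_combination ((exp (hh μ ε r φ t)) * μ * Complex.sin t + exp (hh μ ε r φ t) * (ε / 2) *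
    Complex.cos (φ t) - exp (hh μ ε r φ t) * (ε / 2) * I * Complex.sin (φ t)) * hI

lemma fourier_gen {b μ ε : ℝ} {r : ℤ} (h : P b (2 * μ) ε (Real.pi / 2) = Real.pi / 2 + 2 * Real.pi * r) :
    ∃ c : ℤ → ℝ, GRec ((b - r) / 2) μ (ε / 2) r c ∧ (∃ C, ∀ k, |c k| ≤ C) ∧ ∃ j, c j ≠ 0 := by
  set φ := fl b (2 * μ) ε (Real.pi / 2) with hφ
  set G : ℝ → ℂ := fun t => exp (hh μ ε r φ t) with hG
  have hsol : ∀ t, HasDerivAt G (lvg ((b - r) / 2) μ (ε / 2) r t (G t)) t :=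
    fun t => hh_sol (fl_sol b (2 * μ) ε (Real.pi / 2)) t
  have hcont : Continuous G := continuous_iff_continuousAt.2 fun t => (hsol t).continuousAt
  have hper : ∀ t, G (t + 2 * Real.pi) = G t := by
    intro t
    simp only [hG]
    congr 1
    rw [hh, hh, hφ, (Cc_per h).2, fl_per h, Real.cos_add_two_pi]
    push_cast
    ring
  have hsym : ∀ t, G (-t) = conj (G t) := by
    intro t
    simp only [hG]
    rw [← exp_conj]
    congr 1
    rw [hh, hh, hφ, Cc_even, sym_sol, Real.cos_neg]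
    simp only [map_add, map_mul, conj_ofReal, conj_I]
    push_cast
    ring
  have hreal : ∀ k, ((cf G k).re : ℂ) = cf G k := fun k => conj_eq_iff_re.1 (cf_conj hsym k)
  have hper' : Function.Periodic G (2 * Real.pi) := hper
  obtain ⟨C, hC⟩ := (hper'.isBounded_of_continuous Real.two_pi_pos.ne' hcont).exists_norm_le
  refine ⟨fun k => (cf G k).re, ?_, ⟨C, fun k => ?_⟩, ?_⟩
  · intro k
    have h1 := cf_rec3 hsol hper hsym k
    rw [← hreal, ← hreal k, ← hreal (-r - k)] at h1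
    exact_mod_cast h1
  · exact (abs_re_le_norm _).trans (cf_bound (fun t => hC _ (mem_range_self t)) k)
  · by_contra hcon
    push Not at hcon
    have h0 : ∀ k, cf G k = 0 := fun k => by rw [← hreal, hcon k]; simp
    have h1 : cf G = fun _ => 0 := funext h0
    have h2 := cf_expand hcont hper (by rw [h1]; exact summable_zero) 0
    simp only [h0, zero_mul] at h2
    have h3 := h2.unique hasSum_zero
    exact exp_ne_zero _ h3

lemma GRec.decay_step {ν μ e : ℝ} {r : ℤ} {c : ℤ → ℝ} (h : GRec ν μ e r c) {N : ℝ} (hN0 : 0 < N)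
    (hN : ∀ k : ℤ, 1 + |(k:ℝ)| ≤ N * |ν - k|) {j : ℕ} {C : ℝ} (hC0 : 0 ≤ C)
    (hC : ∀ k : ℤ, |c k| * (1 + |(k:ℝ)|) ^ j ≤ C) :
    ∃ D, 0 ≤ D ∧ ∀ k : ℤ, |c k| * (1 + |(k:ℝ)|) ^ (j + 1) ≤ D := by
  set R : ℝ := 1 + |(r:ℝ)| with hR
  have hR0 : 0 < R := by positivity
  refine ⟨N * (|e| * (R ^ j * C) + |μ| * (2 ^ j * C)), by positivity, ?_⟩
  intro k
  have h1 := h k
  have h2 : (ν - k) * c k = e * c (-r - k) - μ * c (k + 1) := by linarith
  have h3 : |ν - k| * |c k| ≤ |e| * |c (-r - k)| + |μ| * |c (k + 1)| := by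
    rw [← abs_mul, h2, ← abs_mul, ← abs_mul]
    exact abs_sub _ _
  have h6 : 1 + |(k:ℝ)| ≤ R * (1 + |((-r - k : ℤ):ℝ)|) := by
    have h5 : |(k:ℝ)| ≤ |((-r - k : ℤ):ℝ)| + |(r:ℝ)| := by
      have h7 : (k:ℝ) = -((-r - k : ℤ):ℝ) - r := by push_cast; ring
      calc |(k:ℝ)| = |-((-r - k : ℤ):ℝ) - r| := by rw [← h7]
        _ ≤ |-((-r - k : ℤ):ℝ)| + |(r:ℝ)| := abs_sub _ _
        _ = _ := by rw [abs_neg]
    have := abs_nonneg ((-r - k : ℤ):ℝ)
    have := abs_nonneg (r:ℝ)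
    rw [hR]
    nlinarith
  have h7 : 1 + |(k:ℝ)| ≤ 2 * (1 + |((k + 1 : ℤ):ℝ)|) := by
    have h8 : |(k:ℝ)| ≤ |((k + 1 : ℤ):ℝ)| + 1 := by
      have h9 : (k:ℝ) = ((k + 1 : ℤ):ℝ) - 1 := by push_cast; ring
      calc |(k:ℝ)| = |((k + 1 : ℤ):ℝ) - 1| := by rw [← h9]
        _ ≤ |((k + 1 : ℤ):ℝ)| + |(1:ℝ)| := abs_sub _ _
        _ = _ := by rw [abs_one]
    have := abs_nonneg ((k + 1 : ℤ):ℝ)
    linarith
  have hp : 0 ≤ 1 + |(k:ℝ)| := by positivity
  have h8 : |c (-r - k)| * (1 + |(k:ℝ)|) ^ j ≤ R ^ j * C := by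
    calc |c (-r - k)| * (1 + |(k:ℝ)|) ^ j ≤ |c (-r - k)| * (R * (1 + |((-r - k : ℤ):ℝ)|)) ^ j := by
          gcongr
      _ = R ^ j * (|c (-r - k)| * (1 + |((-r - k : ℤ):ℝ)|) ^ j) := by rw [mul_pow]; ring
      _ ≤ R ^ j * C := by gcongr; exact hC _
  have h9 : |c (k + 1)| * (1 + |(k:ℝ)|) ^ j ≤ 2 ^ j * C := by
    calc |c (k + 1)| * (1 + |(k:ℝ)|) ^ j ≤ |c (k + 1)| * (2 * (1 + |((k + 1 : ℤ):ℝ)|)) ^ j := by
          gcongr
      _ = 2 ^ j * (|c (k + 1)| * (1 + |((k + 1 : ℤ):ℝ)|) ^ j) := by rw [mul_pow]; ring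
      _ ≤ 2 ^ j * C := by gcongr; exact hC _
  calc |c k| * (1 + |(k:ℝ)|) ^ (j + 1) = (1 + |(k:ℝ)|) * (|c k| * (1 + |(k:ℝ)|) ^ j) := by ring
      _ ≤ (N * |ν - k|) * (|c k| * (1 + |(k:ℝ)|) ^ j) := by gcongr; exact hN k
      _ = N * ((|ν - k| * |c k|) * (1 + |(k:ℝ)|) ^ j) := by ring
      _ ≤ N * ((|e| * |c (-r - k)| + |μ| * |c (k + 1)|) * (1 + |(k:ℝ)|) ^ j) := by gcongr
      _ = N * (|e| * (|c (-r - k)| * (1 + |(k:ℝ)|) ^ j) + |μ| * (|c (k + 1)| * (1 + |(k:ℝ)|) ^ j)) := by ring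
      _ ≤ N * (|e| * (R ^ j * C) + |μ| * (2 ^ j * C)) := by gcongr

lemma GRec.decay {ν μ e : ℝ} {r : ℤ} {c : ℤ → ℝ} (h : GRec ν μ e r c) {N : ℝ} (hN0 : 0 < N)
    (hN : ∀ k : ℤ, 1 + |(k:ℝ)| ≤ N * |ν - k|) (hb : ∃ C, ∀ k, |c k| ≤ C) (j : ℕ) :
    ∃ D, 0 ≤ D ∧ ∀ k : ℤ, |c k| * (1 + |(k:ℝ)|) ^ j ≤ D := by
  induction j with
  | zero =>
    obtain ⟨C, hC⟩ := hb
    exact ⟨C, (abs_nonneg _).trans (hC 0), fun k => by simpa using hC k⟩
  | succ j ih =>
    obtain ⟨C, hC0, hC⟩ := ih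
    exact h.decay_step hN0 hN hC0 hC

lemma nonint_bound {ν : ℝ} (hν : ∀ k : ℤ, ν ≠ k) : ∃ N, 0 < N ∧ ∀ k : ℤ, 1 + |(k:ℝ)| ≤ N * |ν - k| := by
  obtain ⟨η, hη, hk⟩ : ∃ η, 0 < η ∧ ∀ k : ℤ, η ≤ |ν - k| := by
    refine ⟨min (ν - ⌊ν⌋) (⌊ν⌋ + 1 - ν), lt_min ?_ ?_, fun k => ?_⟩
    · have := Int.floor_le ν
      exact sub_pos.2 (lt_of_le_of_ne this (Ne.symm (hν _)))
    · have := Int.lt_floor_add_one ν
      linarith
    · rcases le_or_gt k ⌊ν⌋ with h | h
      · have h1 : (k:ℝ) ≤ ⌊ν⌋ := by exact_mod_cast h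
        refine (min_le_left _ _).trans (le_trans ?_ (le_abs_self _))
        linarith
      · have h1 : ((⌊ν⌋:ℤ):ℝ) + 1 ≤ k := by exact_mod_cast h
        refine (min_le_right _ _).trans (le_trans ?_ (neg_le_abs _))
        linarith
  refine ⟨(1 + |ν|) / η + 1, by positivity, fun k => ?_⟩
  have h1 : |(k:ℝ)| ≤ |ν| + |ν - k| := by
    have : (k:ℝ) = ν - (ν - k) := by ring
    calc |(k:ℝ)| = |ν - (ν - k)| := by rw [← this]
      _ ≤ _ := abs_sub _ _
  have h2 : 1 + |ν| ≤ (1 + |ν|) / η * |ν - k| := by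
    rw [div_mul_eq_mul_div, le_div_iff₀ hη]
    have := hk k
    gcongr
  linarith


lemma GRec.zero {ν μ e : ℝ} {r : ℤ} {h : ℤ → ℝ} (hr : GRec ν μ e r h) (hμ : μ ≠ 0)
    (hne : ∀ k : ℤ, ν - k ≠ 0) {k0 : ℤ} (h0 : h k0 = 0) (h1 : h (-r - k0) = 0)
    (hk : k0 ≤ -r - k0 + 1) : ∀ j, h j = 0 := by
  have key : ∀ i : ℕ, h (k0 + i) = 0 ∧ h (-r - k0 - i) = 0 := by
    intro i
    induction i with
    | zero => simpa using ⟨h0, h1⟩
    | succ i ih =>
      have a1 := hr (k0 + i)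
      rw [show -r - (k0 + (i:ℤ)) = -r - k0 - i by ring, ih.1, ih.2] at a1
      have a2 : h (k0 + i + 1) = 0 := by
        have : μ * h (k0 + i + 1) = 0 := by linarith
        exact (mul_eq_zero.1 this).resolve_left hμ
      have a3 := hr (-r - k0 - i - 1)
      rw [show -r - (-r - k0 - (i:ℤ) - 1) = k0 + i + 1 by ring, a2,
        show -r - k0 - (i:ℤ) - 1 + 1 = -r - k0 - i by ring, ih.2] at a3
      have a4 : h (-r - k0 - i - 1) = 0 := by
        have : (ν - ((-r - k0 - (i:ℤ) - 1 : ℤ) : ℝ)) * h (-r - k0 - i - 1) = 0 := by linarith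
        exact (mul_eq_zero.1 this).resolve_left (hne _)
      push_cast
      refine ⟨by rw [← add_assoc]; exact a2, ?_⟩
      rw [show -r - k0 - ((i:ℤ) + 1) = -r - k0 - i - 1 by ring]; exact a4
  intro j
  rcases le_or_gt k0 j with hj | hj
  · have := (key (j - k0).toNat).1
    rwa [Int.toNat_of_nonneg (by linarith), show k0 + (j - k0) = j by ring] at this
  · have := (key (-r - k0 - j).toNat).2
    rwa [Int.toNat_of_nonneg (by linarith), show -r - k0 - (-r - k0 - j) = j by ring] at this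

/-- Constrictions have integer abscissa. -/
theorem ident_int {b μ e : ℝ} {r : ℤ} (hμ : 0 < μ) (hb0 : 0 ≤ b)
    (hall : ∀ x, P b (2 * μ) (2 * e) x = x + 2 * Real.pi * r) : ∃ k : ℤ, (b - r) / 2 = k := by
  by_contra hcon
  push Not at hcon
  set ν := (b - r) / 2 with hν
  have hU := hall (Real.pi / 2)
  have hV : P b (2 * μ) (-(2 * e)) (Real.pi / 2) = Real.pi / 2 + 2 * Real.pi * r := by
    have := (P_neg b (2 * μ) (-(2 * e)) (Real.pi / 2)).1
    rw [neg_neg, hall] at this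
    rw [this]; ring
  obtain ⟨h, hr, hb, hj⟩ := fourier_gen hU
  obtain ⟨g, gr, gb, gj⟩ := fourier_gen hV
  rw [show 2 * e / 2 = e by ring, ← hν] at hr
  rw [show -(2 * e) / 2 = -e by ring, ← hν] at gr
  obtain ⟨N, hN0, hN⟩ := nonint_bound hcon
  have hne : ∀ k : ℤ, ν - k ≠ 0 := fun k h0 => hcon k (by linarith)
  have hne' : ∀ k : ℤ, ν + r + k + 1 ≠ 0 := fun k h0 => hcon (-r - k - 1) (by push_cast; linarith)
  set Cas : ℤ → ℝ := fun k => h k * g (-r - k) + h (-r - k) * g k with hCas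
  have hrec0 : ∀ k : ℤ, (ν - k) * Cas k = -μ * (h (k + 1) * g (-r - k) + h (-r - k) * g (k + 1)) := by
    intro k
    have h1 := hr k
    have h2 := gr k
    simp only [hCas]
    linear_combination g (-r - k) * h1 + h (-r - k) * h2
  have hrec : ∀ k : ℤ, (ν + r + k + 1) * Cas (k + 1) = (ν - k) * Cas k := by
    intro k
    have h1 := hr k
    have h2 := gr k
    have h3 := hr (-r - (k + 1))
    have h4 := gr (-r - (k + 1))
    rw [show -r - (k + 1) + 1 = -r - k by ring, show -r - (-r - (k + 1)) = k + 1 by ring] at h3 h4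
    simp only [hCas]
    push_cast at h3 h4
    linear_combination h (k + 1) * h4 + g (k + 1) * h3 - g (-r - k) * h1 - h (-r - k) * h2
  -- decay of Cas
  obtain ⟨M, hM⟩ := exists_nat_ge (b + 3)
  obtain ⟨D1, hD1, hd1⟩ := hr.decay hN0 hN hb (M + 1)
  obtain ⟨D2, hD2, hd2⟩ := gr.decay hN0 hN gb (M + 1)
  obtain ⟨D3, hD3, hd3⟩ := hr.decay hN0 hN hb 0
  obtain ⟨D4, hD4, hd4⟩ := gr.decay hN0 hN gb 0
  have hd3' : ∀ k, |h k| ≤ D3 := fun k => by simpa using hd3 k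
  have hd4' : ∀ k, |g k| ≤ D4 := fun k => by simpa using hd4 k
  have hCasd : ∀ k : ℤ, |Cas k| * (1 + |(k:ℝ)|) ^ (M + 1) ≤ D1 * D4 + D3 * D2 := by
    intro k
    have h1 : |Cas k| ≤ |h k| * |g (-r - k)| + |h (-r - k)| * |g k| := by
      simp only [hCas]
      refine (abs_add_le _ _).trans ?_
      rw [abs_mul, abs_mul]
    have h2 : 0 ≤ (1 + |(k:ℝ)|) ^ (M + 1) := by positivity
    calc |Cas k| * (1 + |(k:ℝ)|) ^ (M + 1)
        ≤ (|h k| * |g (-r - k)| + |h (-r - k)| * |g k|) * (1 + |(k:ℝ)|) ^ (M + 1) := by gcongr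
      _ = (|h k| * (1 + |(k:ℝ)|) ^ (M + 1)) * |g (-r - k)| +
          |h (-r - k)| * (|g k| * (1 + |(k:ℝ)|) ^ (M + 1)) := by ring
      _ ≤ D1 * D4 + D3 * D2 := by
          have a1 := hd1 k
          have a2 := hd2 k
          have a3 := hd3' (-r - k)
          have a4 := hd4' (-r - k)
          gcongr
  obtain ⟨K0, hK0⟩ := exists_nat_ge (|ν| + |(r:ℝ)| + 1 + M * |ν| + b)
  have hν0 := abs_nonneg ν
  have hr0 := abs_nonneg (r:ℝ)
  have hMν : 0 ≤ (M:ℝ) * |ν| := by positivity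
  -- monotone
  set u : ℕ → ℝ := fun i => |Cas (K0 + 1 + i)| * ((K0:ℝ) + 1 + i) ^ M with hu
  have hmono : ∀ i, u i ≤ u (i + 1) := by
    intro i
    have h1 := hrec (K0 + 1 + i)
    set k : ℝ := (K0:ℝ) + 1 + i with hk
    have hkK : (K0:ℝ) + 1 ≤ k := by rw [hk]; linarith [(Nat.cast_nonneg i : (0:ℝ) ≤ i)]
    have e1 : ((K0 + 1 + i : ℤ) : ℝ) = k := by rw [hk]; push_cast; ring
    have e2 : (K0:ℤ) + 1 + ((i + 1 : ℕ) : ℤ) = K0 + 1 + i + 1 := by push_cast; ring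
    have hνle := abs_le.1 (le_refl |ν|)
    have hrle := abs_le.1 (le_refl |(r:ℝ)|)
    have hkpos : 0 < k - ν := by linarith [hνle.2]
    have hkpos2 : 0 < ν + r + k + 1 := by linarith [hνle.1, hrle.1]
    rw [e1] at h1
    have h2 : (ν + r + k + 1) * |Cas (K0 + 1 + i + 1)| = (k - ν) * |Cas (K0 + 1 + i)| := by
      have h2a : |(ν + r + k + 1) * Cas (K0 + 1 + i + 1)| = |(ν - k) * Cas (K0 + 1 + i)| := by rw [h1]
      rw [abs_mul, abs_mul, abs_of_pos hkpos2, abs_sub_comm ν k, abs_of_pos hkpos] at h2a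
      exact h2a
    have hk0 : 0 < k := by linarith
    have hbern : 1 + (M:ℝ) * (1 / k) ≤ (1 + 1 / k) ^ M :=
      one_add_mul_le_pow (by have : 0 ≤ 1 / k := by positivity
                             linarith) M
    have hkey : (ν + r + k + 1) * k ^ M ≤ (k - ν) * (k + 1) ^ M := by
      have h3 : (k + 1) ^ M = k ^ M * (1 + 1 / k) ^ M := by
        rw [← mul_pow]; congr 1; field_simp
      rw [h3]
      have h4 : ν + r + k + 1 ≤ (k - ν) * (1 + M * (1 / k)) := by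
        have h5 : (k - ν) * (1 + M * (1 / k)) = k - ν + M - M * ν / k := by field_simp; ring
        have h6 : M * ν / k ≤ 1 := by
          rw [div_le_one hk0]
          have : (M:ℝ) * ν ≤ M * |ν| := mul_le_mul_of_nonneg_left hνle.2 (Nat.cast_nonneg _)
          linarith
        have h7 : b = r + 2 * ν := by rw [hν]; ring
        rw [h5]; linarith
      calc (ν + r + k + 1) * k ^ M ≤ ((k - ν) * (1 + M * (1 / k))) * k ^ M := by gcongr
        _ ≤ ((k - ν) * (1 + 1 / k) ^ M) * k ^ M := by gcongr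
        _ = _ := by ring
    simp only [hu]
    rw [e2]
    have e3 : (K0:ℝ) + 1 + ((i + 1 : ℕ) : ℝ) = k + 1 := by rw [hk]; push_cast; ring
    rw [e3]
    have h8 : (ν + r + k + 1) * (|Cas (K0 + 1 + i)| * k ^ M) ≤
        (ν + r + k + 1) * (|Cas (K0 + 1 + i + 1)| * (k + 1) ^ M) := by
      calc (ν + r + k + 1) * (|Cas (K0 + 1 + i)| * k ^ M)
          = |Cas (K0 + 1 + i)| * ((ν + r + k + 1) * k ^ M) := by ring
        _ ≤ |Cas (K0 + 1 + i)| * ((k - ν) * (k + 1) ^ M) := by gcongr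
        _ = ((k - ν) * |Cas (K0 + 1 + i)|) * (k + 1) ^ M := by ring
        _ = _ := by rw [← h2]; ring
    exact le_of_mul_le_mul_left h8 hkpos2
  have hum : Monotone u := monotone_nat_of_le_succ hmono
  have hu0 : Tendsto u atTop (𝓝 0) := by
    have hC : ∀ i, u i ≤ (D1 * D4 + D3 * D2) / ((i:ℝ) + 1) := by
      intro i
      rw [le_div_iff₀ (by positivity)]
      have h1 := hCasd (K0 + 1 + i)
      have e1 : |((K0 + 1 + i : ℤ) : ℝ)| = (K0:ℝ) + 1 + i := by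
        push_cast; rw [abs_of_nonneg (by positivity)]
      rw [e1] at h1
      refine le_trans ?_ h1
      simp only [hu]
      have h2 : ((K0:ℝ) + 1 + i) ^ M * ((i:ℝ) + 1) ≤ (1 + ((K0:ℝ) + 1 + i)) ^ (M + 1) := by
        rw [pow_succ]
        have a1 : ((K0:ℝ) + 1 + i) ^ M ≤ (1 + ((K0:ℝ) + 1 + i)) ^ M :=
          pow_le_pow_left₀ (by positivity) (by linarith) M
        have a2 : (i:ℝ) + 1 ≤ 1 + ((K0:ℝ) + 1 + i) := by
          have : (0:ℝ) ≤ K0 := Nat.cast_nonneg _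
          linarith
        gcongr
      rw [mul_assoc]
      gcongr
    have hlim : Tendsto (fun i : ℕ => (D1 * D4 + D3 * D2) / ((i:ℝ) + 1)) atTop (𝓝 0) :=
      tendsto_const_nhds.div_atTop
        (tendsto_atTop_add_const_right _ _ tendsto_natCast_atTop_atTop)
    exact squeeze_zero (fun i => by simp only [hu]; positivity) hC hlim
  have hu_le : ∀ i, u i ≤ 0 := fun i => hum.ge_of_tendsto hu0 i
  have hCasz : ∀ i : ℕ, Cas (K0 + 1 + i) = 0 := by
    intro i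
    have h1 := hu_le i
    simp only [hu] at h1
    by_contra h2
    have h3 : 0 < |Cas (K0 + 1 + i)| := abs_pos.2 h2
    have h4 : 0 < ((K0:ℝ) + 1 + i) ^ M := by positivity
    have := mul_pos h3 h4
    linarith
  have hdown : ∀ i : ℕ, Cas (K0 + 1 - i) = 0 := by
    intro i
    induction i with
    | zero => simpa using hCasz 0
    | succ i ih =>
      have h1 := hrec (K0 + 1 - i - 1)
      rw [show (K0:ℤ) + 1 - i - 1 + 1 = K0 + 1 - i by ring, ih, mul_zero] at h1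
      have h2 := (mul_eq_zero.1 h1.symm).resolve_left (hne _)
      push_cast
      rw [show (K0:ℤ) + 1 - (i + 1) = K0 + 1 - i - 1 by ring]; exact h2
  have hCas0 : ∀ k, Cas k = 0 := by
    intro k
    rcases le_or_gt k (K0 + 1) with h | h
    · have := hdown ((K0:ℤ) + 1 - k).toNat
      rwa [Int.toNat_of_nonneg (by linarith), show (K0:ℤ) + 1 - (K0 + 1 - k) = k by ring] at this
    · have := hCasz (k - (K0 + 1)).toNat
      rwa [Int.toNat_of_nonneg (by linarith), show (K0:ℤ) + 1 + (k - (K0 + 1)) = k by ring] at this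
  rcases Int.even_or_odd' r with ⟨m, hm | hm⟩
  · have h1 := hCas0 (-m)
    simp only [hCas] at h1
    rw [show -r - -m = -m by rw [hm]; ring] at h1
    have h2 : h (-m) * g (-m) = 0 := by linarith
    rcases mul_eq_zero.1 h2 with h3 | h3
    · obtain ⟨j, hj⟩ := hj
      exact hj (hr.zero hμ.ne' hne h3 (by rw [show -r - -m = -m by rw [hm]; ring]; exact h3)
        (by rw [hm]; linarith) j)
    · obtain ⟨j, gj⟩ := gj
      exact gj (gr.zero hμ.ne' hne h3 (by rw [show -r - -m = -m by rw [hm]; ring]; exact h3)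
        (by rw [hm]; linarith) j)
  · have h1 := hrec0 (-m - 1)
    rw [hCas0, mul_zero, show -r - (-m - 1) = -m by rw [hm]; ring, show -m - 1 + 1 = -m by ring] at h1
    have h2 : h (-m) * g (-m) = 0 := by
      have : μ * (h (-m) * g (-m)) = 0 := by linarith
      exact (mul_eq_zero.1 this).resolve_left hμ.ne'
    have e3 : -r - -m = -m - 1 := by rw [hm]; ring
    rcases mul_eq_zero.1 h2 with h3 | h3
    · have h4 : h (-m - 1) = 0 := by
        have a1 := hr (-m - 1)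
        rw [show -r - (-m - 1) = -m by rw [hm]; ring, show -m - 1 + 1 = -m by ring, h3] at a1
        have : (ν - ((-m - 1 : ℤ) : ℝ)) * h (-m - 1) = 0 := by linarith
        exact (mul_eq_zero.1 this).resolve_left (hne _)
      obtain ⟨j, hj⟩ := hj
      exact hj (hr.zero hμ.ne' hne h3 (by rw [e3]; exact h4) (by rw [e3]; linarith) j)
    · have h4 : g (-m - 1) = 0 := by
        have a1 := gr (-m - 1)
        rw [show -r - (-m - 1) = -m by rw [hm]; ring, show -m - 1 + 1 = -m by ring, h3] at a1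
        have : (ν - ((-m - 1 : ℤ) : ℝ)) * g (-m - 1) = 0 := by linarith
        exact (mul_eq_zero.1 this).resolve_left (hne _)
      obtain ⟨j, gj⟩ := gj
      exact gj (gr.zero hμ.ne' hne h3 (by rw [e3]; exact h4) (by rw [e3]; linarith) j)

end H535R3
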