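import Pool.Agent.H535R3.KA

set_option autoImplicit false
open Set Filter Topology Complex ComplexConjugate

namespace H535R3

/-- Fourier data of a symmetric periodic solution. -/
lemma fourier_data2 {n : ℕ} {m : ℤ} {μ ε : ℝ}
    (h : P (n + 1) (2 * μ) ε (Real.pi / 2) = Real.pi / 2 + 2 * Real.pi * ((1 - n + 2 * m : ℤ) : ℝ)) :
    ∃ c : ℤ → ℝ, RRec n μ (ε / 2) c ∧ (∃ C, ∀ k, |c k| ≤ C) ∧
      (Summable c → ∀ t : ℝ, HasSum (fun k : ℤ => (c k : ℂ) * exp (I * k * t))
        (GG n μ ε (fl (n + 1) (2 * μ) ε (Real.pi / 2)) t)) := by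
  set φ := fl (n + 1) (2 * μ) ε (Real.pi / 2) with hφ
  set G := GG n μ ε φ with hG
  have hsol : LSol n μ ε G := GG_sol (fl_sol (n + 1) (2 * μ) ε (Real.pi / 2))
  have hcont : Continuous G := continuous_iff_continuousAt.2 fun t => (hsol t).continuousAt
  have hper : ∀ t, G (t + 2 * Real.pi) = G t := by
    intro t
    rw [hG, GG, GG, exp_eq_exp_iff_exists_int]
    refine ⟨m, ?_⟩
    rw [gg, gg, hφ, (Cc_per h).2, fl_per h, Real.cos_add_two_pi]
    push_cast
    ring
  have hsym : ∀ t, G (-t) = conj (G t) := by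
    intro t
    rw [hG, GG, GG, ← exp_conj]
    congr 1
    rw [gg, gg, hφ, Cc_even, sym_sol, Real.cos_neg]
    simp only [map_add, map_mul, conj_ofReal, conj_I]
    push_cast
    ring
  have hreal : ∀ k, ((cf G k).re : ℂ) = cf G k := fun k => conj_eq_iff_re.1 (cf_conj hsym k)
  have hper' : Function.Periodic G (2 * Real.pi) := hper
  obtain ⟨C, hC⟩ := (hper'.isBounded_of_continuous Real.two_pi_pos.ne' hcont).exists_norm_le
  refine ⟨fun k => (cf G k).re, ?_, ⟨C, fun k => ?_⟩, ?_⟩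
  · intro k
    have h1 := cf_rec hsol hper hsym k
    rw [← hreal, ← hreal k, ← hreal (n - 1 - k)] at h1
    exact_mod_cast h1
  · exact (abs_re_le_norm _).trans (cf_bound (fun t => hC _ (mem_range_self t)) k)
  · intro hs t
    have hs2 : Summable (cf G) := by
      have : (cf G) = fun k => (((cf G k).re : ℝ) : ℂ) := funext fun k => (hreal k).symm
      rw [this]
      exact_mod_cast hs
    have := cf_expand hcont hper hs2 t
    simp_rw [hreal]
    exact this


lemma second_gauge2 {n : ℕ} {m : ℤ} {μ ε : ℝ}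
    (h : P (n + 1) (2 * μ) ε (Real.pi / 2) = Real.pi / 2 + 2 * Real.pi * ((1 - n + 2 * m : ℤ) : ℝ)) :
    ∃ F : ℤ → ℝ, FRec n μ (ε / 2) F ∧ (∃ C, ∀ k, |F k| ≤ C) ∧
      ∀ t : ℝ, HH F t = exp ((2 * μ * Real.cos t : ℝ) : ℂ) *
        GG n μ ε (fl (n + 1) (2 * μ) ε (Real.pi / 2)) t := by
  set φ := fl (n + 1) (2 * μ) ε (Real.pi / 2) with hφ
  set G0 := GG n μ ε φ with hG0
  have hsol0 : LSol n μ ε G0 := GG_sol (fl_sol (n + 1) (2 * μ) ε (Real.pi / 2))
  set G : ℝ → ℂ := fun t => exp ((2 * μ * Real.cos t : ℝ) : ℂ) * G0 t with hG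
  have hsol : ∀ t, HasDerivAt G (lv2 n μ ε t (G t)) t := by
    intro t
    have h1 : HasDerivAt (fun t : ℝ => 2 * μ * Real.cos t) (2 * μ * (-Real.sin t)) t :=
      (Real.hasDerivAt_cos t).const_mul _
    have h2 := (h1.ofReal_comp.cexp).mul (hsol0 t)
    refine h2.congr_deriv ?_
    have e1 : exp (-(I * t)) = Real.cos t - I * Real.sin t := by
      rw [show -(I * (t:ℂ)) = ((-t : ℝ) : ℂ) * I by push_cast; ring, exp_mul_I]
      push_cast
      rw [Complex.cos_neg, Complex.sin_neg]; ring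
    have e2 : exp (I * t) = Real.cos t + I * Real.sin t := by
      rw [mul_comm, exp_mul_I]; push_cast; ring
    simp only [lv, lv2, hG, map_mul, e1, e2, ← exp_conj, conj_ofReal]
    push_cast
    have hI : I * I = -1 := I_mul_I
    linear_combination (-(2 * μ * Complex.sin t * exp (2 * μ * Complex.cos t) * G0 t)) * hI
  have hcont : Continuous G := continuous_iff_continuousAt.2 fun t => (hsol t).continuousAt
  have hper : ∀ t, G (t + 2 * Real.pi) = G t := by
    intro t
    simp only [hG, Real.cos_add_two_pi]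
    congr 1
    rw [hG0, GG, GG, exp_eq_exp_iff_exists_int]
    refine ⟨m, ?_⟩
    rw [gg, gg, hφ, (Cc_per h).2, fl_per h, Real.cos_add_two_pi]
    push_cast
    ring
  have hsym : ∀ t, G (-t) = conj (G t) := by
    intro t
    simp only [hG, Real.cos_neg, map_mul, ← exp_conj, conj_ofReal]
    congr 1
    rw [hG0, GG, GG, ← exp_conj]
    congr 1
    rw [gg, gg, hφ, Cc_even, sym_sol, Real.cos_neg]
    simp only [map_add, map_mul, conj_ofReal, conj_I]
    push_cast
    ring
  have hreal : ∀ k, ((cf G k).re : ℂ) = cf G k := fun k => conj_eq_iff_re.1 (cf_conj hsym k)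
  have hper' : Function.Periodic G (2 * Real.pi) := hper
  obtain ⟨C, hC⟩ := (hper'.isBounded_of_continuous Real.two_pi_pos.ne' hcont).exists_norm_le
  have hrec : FRec n μ (ε / 2) (fun k => (cf G k).re) := by
    intro k
    have h1 := cf_rec2 hsol hper hsym k
    rw [← hreal, ← hreal k, ← hreal (n - 1 - k)] at h1
    have h2 : μ * (cf G (k - 1)).re + ((n : ℝ) - k) * (cf G k).re = (ε / 2) * (cf G (n - 1 - k)).re := by
      exact_mod_cast h1
    simp only
    linarith
  have hb : ∃ C, ∀ k, |(cf G k).re| ≤ C :=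
    ⟨C, fun k => (abs_re_le_norm _).trans (cf_bound (fun t => hC _ (mem_range_self t)) k)⟩
  refine ⟨fun k => (cf G k).re, hrec, hb, fun t => ?_⟩
  obtain ⟨D, -, hD⟩ := decay' hrec hb 3
  have hs := (summable_c (summables hD)).of_abs
  have hs2 : Summable (cf G) := by
    have : (cf G) = fun k => (((cf G k).re : ℝ) : ℂ) := funext fun k => (hreal k).symm
    rw [this]
    exact_mod_cast hs
  have h3 := cf_expand hcont hper hs2 t
  have h4 : (HH (fun k => (cf G k).re) t) = G t := by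
    rw [HH]
    refine HasSum.tsum_eq ?_
    simp_rw [hreal]
    exact h3
  exact h4


/-- Polynomial data. -/
structure PG (n : ℕ) (μ e : ℝ) (c : ℤ → ℝ) : Prop where
  rr : RRec n μ e c
  supp : ∀ k : ℤ, k < 0 ∨ n < k → c k = 0

lemma PG.c0 {n : ℕ} {μ e : ℝ} {c : ℤ → ℝ} (h : PG n μ e c) : μ * c 0 = e * c n := by
  have h1 := h.rr (-1)
  rw [h.supp (-1) (Or.inl (by norm_num)), mul_zero, add_zero] at h1
  have e1 : ((n:ℤ) - 1 - -1) = n := by ring
  rw [e1] at h1
  simpa using h1

lemma PG.q_deriv {n : ℕ} {μ e : ℝ} {c : ℤ → ℝ} (h : PG n μ e c) (x : ℝ) :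
    HasDerivAt (qq n c) (e * pp n c x - μ * qq n c x) x := by
  have h1 : HasDerivAt (qq n c) (∑ k ∈ Finset.range (n + 1), c ((n:ℤ) - k) * (k * x ^ (k - 1))) x := by
    unfold qq
    refine HasDerivAt.fun_sum fun k _ => ?_
    exact (hasDerivAt_pow k x).const_mul _
  refine h1.congr_deriv ?_
  rw [Finset.sum_range_succ', pp, qq, Finset.mul_sum, Finset.mul_sum, ← Finset.sum_sub_distrib,
    Finset.sum_range_succ]
  have h2 : e * (c n * x ^ n) - μ * (c ((n:ℤ) - n) * x ^ n) = 0 := by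
    rw [sub_self]
    linear_combination (-x ^ n) * h.c0
  rw [h2, add_zero]
  simp only [Nat.cast_zero, zero_mul, mul_zero, add_zero]
  refine Finset.sum_congr rfl fun k _ => ?_
  have h3 := h.rr (n - k - 1)
  have e1 : ((n:ℤ) - k - 1 + 1) = n - k := by ring
  have e2 : ((n:ℤ) - 1 - (n - k - 1)) = k := by ring
  rw [e1, e2] at h3
  have e3 : ((n:ℤ) - ((k + 1 : ℕ) : ℤ)) = n - k - 1 := by push_cast; ring
  rw [e3, Nat.add_sub_cancel]
  push_cast at h3 ⊢
  linear_combination (x ^ k) * h3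

lemma PG.p_deriv {n : ℕ} {μ e : ℝ} {c : ℤ → ℝ} (h : PG n μ e c) (x : ℝ) :
    ∃ p', HasDerivAt (pp n c) p' x ∧ x ^ 2 * p' = (n * x + μ) * pp n c x - e * qq n c x := by
  refine ⟨∑ k ∈ Finset.range (n + 1), c k * (k * x ^ (k - 1)), ?_, ?_⟩
  · unfold pp
    refine HasDerivAt.fun_sum fun k _ => ?_
    exact (hasDerivAt_pow k x).const_mul _
  · have h1 : x ^ 2 * ∑ k ∈ Finset.range (n + 1), c k * (k * x ^ (k - 1)) =
        ∑ k ∈ Finset.range (n + 1), (k * c k) * x ^ (k + 1) := by
      rw [Finset.mul_sum]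
      refine Finset.sum_congr rfl fun k _ => ?_
      rcases k with _ | k
      · simp
      · rw [Nat.add_sub_cancel]; ring
    have h2 : ∀ k ∈ Finset.range (n + 1), ((k:ℝ) * c k) * x ^ (k + 1) =
        (n * x) * (c k * x ^ k) + μ * (c ((k + 1 : ℕ) : ℤ) * x ^ (k + 1)) -
          e * (c ((n:ℤ) - ((k + 1 : ℕ) : ℤ)) * x ^ (k + 1)) := by
      intro k _
      have h3 := h.rr k
      have e1 : ((n:ℤ) - ((k + 1 : ℕ) : ℤ)) = n - 1 - k := by push_cast; ring
      have e2 : ((k + 1 : ℕ) : ℤ) = k + 1 := by push_cast; ring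
      rw [e1, e2]
      push_cast at h3
      linear_combination (-x ^ (k + 1)) * h3
    rw [h1, Finset.sum_congr rfl h2, Finset.sum_sub_distrib, Finset.sum_add_distrib,
      ← Finset.mul_sum, ← Finset.mul_sum, ← Finset.mul_sum]
    have h3 : ∑ k ∈ Finset.range (n + 1), c ((k + 1 : ℕ) : ℤ) * x ^ (k + 1) = pp n c x - c 0 := by
      have h4 := Finset.sum_range_succ' (fun k : ℕ => c (k : ℤ) * x ^ k) (n + 1)
      rw [Finset.sum_range_succ] at h4
      have h5 : c ((n + 1 : ℕ) : ℤ) = 0 := h.supp _ (Or.inr (by push_cast; linarith))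
      rw [h5] at h4
      simp only [Nat.cast_zero, pow_zero, mul_one, zero_mul, add_zero] at h4
      rw [pp, h4]; ring
    have h6 : ∑ k ∈ Finset.range (n + 1), c ((n:ℤ) - ((k + 1 : ℕ) : ℤ)) * x ^ (k + 1) =
        qq n c x - c n := by
      have h4 := Finset.sum_range_succ' (fun k : ℕ => c ((n:ℤ) - (k : ℤ)) * x ^ k) (n + 1)
      rw [Finset.sum_range_succ] at h4
      have h5 : c ((n:ℤ) - ((n + 1 : ℕ) : ℤ)) = 0 := h.supp _ (Or.inl (by push_cast; linarith))
      rw [h5] at h4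
      simp only [Nat.cast_zero, pow_zero, mul_one, zero_mul, add_zero, sub_zero] at h4
      rw [qq, h4]; ring
    rw [h3, h6]
    have h7 := h.c0
    have h8 : ∑ k ∈ Finset.range (n + 1), c (k:ℤ) * x ^ k = pp n c x := rfl
    rw [h8]
    linear_combination (-1) * h7


lemma pp_neg_one {n : ℕ} {μ ε : ℝ} {c : ℤ → ℝ}
    (hG : ∀ t : ℝ, GG n μ ε (fl (n + 1) (2 * μ) ε (Real.pi / 2)) t =
        ∑ k ∈ Finset.range (n + 1), (c k : ℂ) * Complex.exp (Complex.I * k * t)) :
    pp n c (-1) ≠ 0 := by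
  intro h0
  have h1 := hG Real.pi
  have h2 : (∑ k ∈ Finset.range (n + 1), (c k : ℂ) * Complex.exp (Complex.I * k * (Real.pi : ℝ))) =
      ((pp n c (-1) : ℝ) : ℂ) := by
    rw [pp]
    push_cast
    refine Finset.sum_congr rfl fun k _ => ?_
    congr 1
    rw [show (Complex.I * k * (Real.pi : ℂ)) = k * (Real.pi * Complex.I) by ring, exp_nat_mul, exp_pi_mul_I]
  rw [h2, h0] at h1
  exact exp_ne_zero _ (h1.trans (by simp))

lemma PG.zero {n : ℕ} {μ e : ℝ} {c : ℤ → ℝ} (h : PG n μ e c) (hμ : 0 < μ) (he : e ≠ 0) (h0 : c 0 = 0) :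
    ∀ k, c k = 0 := by
  have key : ∀ i : ℕ, i ≤ n → c i = 0 ∧ c ((n:ℤ) - i) = 0 := by
    intro i
    induction i with
    | zero =>
      intro _
      have h1 := h.c0
      rw [h0, mul_zero] at h1
      have := (mul_eq_zero.1 h1.symm).resolve_left he
      simpa using ⟨h0, this⟩
    | succ i ih =>
      intro hi
      obtain ⟨h1, h2⟩ := ih (by omega)
      have h3 := h.rr ((n:ℤ) - ((i + 1 : ℕ) : ℤ))
      rw [show (n:ℤ) - ((i + 1 : ℕ) : ℤ) + 1 = n - i by push_cast; ring, h2,
        show (n:ℤ) - 1 - (n - ((i + 1 : ℕ) : ℤ)) = i by push_cast; ring, h1] at h3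
      have h4 : c ((n:ℤ) - ((i + 1 : ℕ) : ℤ)) = 0 := by
        push_cast at h3 ⊢
        have h5 : ((i:ℝ) + 1) * c ((n:ℤ) - (i + 1)) = 0 := by linarith
        exact (mul_eq_zero.1 h5).resolve_left (by positivity)
      refine ⟨?_, h4⟩
      have h5 := h.rr i
      rw [show (n:ℤ) - 1 - i = n - ((i + 1 : ℕ) : ℤ) by push_cast; ring, h4, h1] at h5
      push_cast at h5 ⊢
      have h6 : μ * c ((i:ℤ) + 1) = 0 := by linarith
      exact (mul_eq_zero.1 h6).resolve_left hμ.ne'
  intro k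
  by_cases hk : k < 0 ∨ n < k
  · exact h.supp k hk
  · push Not at hk
    have := (key k.toNat (by omega)).1
    rwa [Int.toNat_of_nonneg hk.1] at this

lemma no_two_poly {n : ℕ} {μ e : ℝ} (hμ : 0 < μ) {c c' : ℤ → ℝ} (h : PG n μ e c)
    (h' : PG n μ (-e) c') (h1 : pp n c (-1) ≠ 0) (h2 : pp n c' (-1) ≠ 0) : False := by
  set p : Polynomial ℝ := ∑ k ∈ Finset.range (n + 1), Polynomial.C (c k) * Polynomial.X ^ k with hp
  set q : Polynomial ℝ := ∑ k ∈ Finset.range (n + 1), Polynomial.C (c ((n:ℤ) - k)) * Polynomial.X ^ k with hq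
  set p' : Polynomial ℝ := ∑ k ∈ Finset.range (n + 1), Polynomial.C (c' k) * Polynomial.X ^ k with hp'
  set q' : Polynomial ℝ := ∑ k ∈ Finset.range (n + 1), Polynomial.C (c' ((n:ℤ) - k)) * Polynomial.X ^ k with hq'
  have ep : ∀ x, p.eval x = pp n c x := fun x => by simp [hp, pp, Polynomial.eval_finset_sum]
  have eq : ∀ x, q.eval x = qq n c x := fun x => by simp [hq, qq, Polynomial.eval_finset_sum]
  have ep' : ∀ x, p'.eval x = pp n c' x := fun x => by simp [hp', pp, Polynomial.eval_finset_sum]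
  have eq' : ∀ x, q'.eval x = qq n c' x := fun x => by simp [hq', qq, Polynomial.eval_finset_sum]
  set W : Polynomial ℝ := p * q' + q * p' with hW
  have hWe : Polynomial.X ^ 2 * Polynomial.derivative W =
      (Polynomial.C μ + Polynomial.C (n:ℝ) * Polynomial.X - Polynomial.C μ * Polynomial.X ^ 2) * W := by
    apply Polynomial.funext
    intro x
    obtain ⟨d1, hd1, hd1'⟩ := h.p_deriv x
    obtain ⟨d2, hd2, hd2'⟩ := h'.p_deriv x
    have hd3 := h.q_deriv x
    have hd4 := h'.q_deriv x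
    have hw := Polynomial.hasDerivAt W x
    have hw2 : HasDerivAt (fun x => W.eval x)
        ((d1 * qq n c' x + pp n c x * (-e * pp n c' x - μ * qq n c' x)) +
        ((e * pp n c x - μ * qq n c x) * pp n c' x + qq n c x * d2)) x := by
      have : (fun x => W.eval x) = fun x => pp n c x * qq n c' x + qq n c x * pp n c' x := by
        funext y
        simp only [hW, Polynomial.eval_add, Polynomial.eval_mul, ep, eq, ep', eq']
      rw [this]
      exact (hd1.mul hd4).add (hd3.mul hd2)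
    have hw3 := hw.unique hw2
    simp only [Polynomial.eval_mul, Polynomial.eval_pow, Polynomial.eval_X, Polynomial.eval_sub,
      Polynomial.eval_add, Polynomial.eval_C]
    rw [hw3]
    have : W.eval x = pp n c x * qq n c' x + qq n c x * pp n c' x := by
      simp only [hW, Polynomial.eval_add, Polynomial.eval_mul, ep, eq, ep', eq']
    rw [this]
    linear_combination qq n c' x * hd1' + qq n c x * hd2'
  have hW0 : W = 0 := by
    by_contra hne
    have hd : (Polynomial.X ^ 2 * Polynomial.derivative W).natDegree < W.natDegree + 2 := by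
      by_cases hd0 : Polynomial.derivative W = 0
      · rw [hd0, mul_zero, Polynomial.natDegree_zero]; omega
      · have h3 : W.natDegree ≠ 0 := by
          intro h4
          exact hd0 (Polynomial.derivative_of_natDegree_zero h4)
        have h5 := Polynomial.natDegree_derivative_lt h3
        have h6 := Polynomial.natDegree_mul_le (p := (Polynomial.X ^ 2 : Polynomial ℝ))
          (q := Polynomial.derivative W)
        rw [Polynomial.natDegree_X_pow] at h6
        omega
    rw [hWe] at hd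
    have hl : (Polynomial.C μ + Polynomial.C (n:ℝ) * Polynomial.X - Polynomial.C μ * Polynomial.X ^ 2 :
        Polynomial ℝ).natDegree = 2 := by
      have : (Polynomial.C μ + Polynomial.C (n:ℝ) * Polynomial.X - Polynomial.C μ * Polynomial.X ^ 2 :
        Polynomial ℝ) = Polynomial.C (-μ) * Polynomial.X ^ 2 + Polynomial.C (n:ℝ) * Polynomial.X +
          Polynomial.C μ := by
        rw [Polynomial.C_neg]; ring
      rw [this, Polynomial.natDegree_quadratic (neg_ne_zero.2 hμ.ne')]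
    have hne2 : (Polynomial.C μ + Polynomial.C (n:ℝ) * Polynomial.X - Polynomial.C μ * Polynomial.X ^ 2 :
        Polynomial ℝ) ≠ 0 := by
      intro h0
      rw [h0, Polynomial.natDegree_zero] at hl
      omega
    rw [Polynomial.natDegree_mul hne2 hne, hl] at hd
    omega
  have h3 : W.eval (-1) = 0 := by rw [hW0, Polynomial.eval_zero]
  have h4 : W.eval (-1) = pp n c (-1) * qq n c' (-1) + qq n c (-1) * pp n c' (-1) := by
    simp only [hW, Polynomial.eval_add, Polynomial.eval_mul, ep, eq, ep', eq']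
  rw [h4, qq_eq (by norm_num), qq_eq (by norm_num)] at h3
  norm_num at h3
  have h5 : 2 * ((-1:ℝ) ^ n * (pp n c (-1) * pp n c' (-1))) = 0 := by
    linear_combination h3
  have h6 : ((-1:ℝ) ^ n) ≠ 0 := pow_ne_zero _ (by norm_num)
  exact (mul_ne_zero two_ne_zero (mul_ne_zero h6 (mul_ne_zero h1 h2))) h5

lemma both_ne {n : ℕ} {μ e : ℝ} (hμ : 0 < μ) (he : 0 < e) {c c' : ℤ → ℝ}
    (hr : RRec n μ (2 * e / 2) c) (hb : ∃ C, ∀ k, |c k| ≤ C)
    (hG : Summable c → ∀ t : ℝ, HasSum (fun k : ℤ => (c k : ℂ) * exp (I * k * t))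
        (GG n μ (2 * e) (fl (n + 1) (2 * μ) (2 * e) (Real.pi / 2)) t))
    (hr' : RRec n μ (-(2 * e) / 2) c') (hb' : ∃ C, ∀ k, |c' k| ≤ C)
    (hG' : Summable c' → ∀ t : ℝ, HasSum (fun k : ℤ => (c' k : ℂ) * exp (I * k * t))
        (GG n μ (-(2 * e)) (fl (n + 1) (2 * μ) (-(2 * e)) (Real.pi / 2)) t)) :
    c (-1) ≠ 0 ∧ c' (-1) ≠ 0 := by
  have e2 : 2 * e / 2 = e := by ring
  have e3 : -(2 * e) / 2 = -e := by ring
  have r1 := hr
  have r2 := hr'
  rw [e2] at r1
  rw [e3] at r2
  have k1 : c (-1) = 0 → c' (-1) ≠ 0 → False := by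
    intro h0 h1
    obtain ⟨hz, hG1⟩ := poly_rep hμ.ne' hr hG h0
    have hp := pp_neg_one hG1
    have hc0 : c 0 ≠ 0 := by
      intro h2
      have h3 := PG.zero ⟨r1, hz⟩ hμ he.ne' h2
      apply hp
      rw [pp]
      exact Finset.sum_eq_zero fun k _ => by rw [h3, zero_mul]
    exact no_both hμ he.ne' r1 hz hc0 r2 hb' h1
  have k2 : c' (-1) = 0 → c (-1) ≠ 0 → False := by
    intro h0 h1
    obtain ⟨hz, hG1⟩ := poly_rep hμ.ne' hr' hG' h0
    have hp := pp_neg_one hG1
    have hc0 : c' 0 ≠ 0 := by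
      intro h2
      have h3 := PG.zero ⟨r2, hz⟩ hμ (neg_ne_zero.2 he.ne') h2
      apply hp
      rw [pp]
      exact Finset.sum_eq_zero fun k _ => by rw [h3, zero_mul]
    exact no_both hμ (neg_ne_zero.2 he.ne') r2 hz hc0 (by rw [neg_neg]; exact r1) hb h1
  have k3 : ¬ (c (-1) = 0 ∧ c' (-1) = 0) := by
    rintro ⟨h0, h1⟩
    obtain ⟨hz, hG1⟩ := poly_rep hμ.ne' hr hG h0
    obtain ⟨hz', hG1'⟩ := poly_rep hμ.ne' hr' hG' h1
    exact no_two_poly hμ ⟨r1, hz⟩ ⟨r2, hz'⟩ (pp_neg_one hG1) (pp_neg_one hG1')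
  constructor
  · intro h0
    by_cases h1 : c' (-1) = 0
    · exact k3 ⟨h0, h1⟩
    · exact k1 h0 h1
  · intro h0
    by_cases h1 : c (-1) = 0
    · exact k3 ⟨h1, h0⟩
    · exact k2 h0 h1

/-- Winding bound at identity points. -/
lemma wind_gen {n : ℕ} {m : ℤ} {μ e : ℝ} (hμ : 0 < μ) (he : 0 < e) (hm0 : 0 ≤ m)
    (hall : ∀ x, P (n + 1) (2 * μ) (2 * e) x = x + 2 * Real.pi * ((1 - n + 2 * m : ℤ) : ℝ)) :
    (n : ℤ) ≤ m := by
  have hU := hall (Real.pi / 2)
  have hV : P (n + 1) (2 * μ) (-(2 * e)) (Real.pi / 2) =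
      Real.pi / 2 + 2 * Real.pi * ((1 - n + 2 * m : ℤ) : ℝ) := by
    have := (P_neg (n + 1) (2 * μ) (-(2 * e)) (Real.pi / 2)).1
    rw [neg_neg, hall] at this
    rw [this]; ring
  have e2 : 2 * e / 2 = e := by ring
  have e3 : -(2 * e) / 2 = -e := by ring
  obtain ⟨c, hr, hb, hG⟩ := fourier_data2 hU
  obtain ⟨c', hr', hb', hG'⟩ := fourier_data2 hV
  obtain ⟨hc1, hc1'⟩ := both_ne hμ he hr hb hG hr' hb' hG'
  obtain ⟨F, hF, hFb, hFG⟩ := second_gauge2 hU
  obtain ⟨F', hF', hFb', hFG'⟩ := second_gauge2 hV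
  rw [e2] at hr hF
  rw [e3] at hr' hF'
  have hF1 : F (-1) = 0 := F_neg_one hF hFb hr' hb' hc1'
  have hF1' : F' (-1) = 0 := F_neg_one hF' hFb' (by rw [neg_neg]; exact hr) hb hc1
  have hmid := F_middle hμ hF hF1
  have hmid' := F_middle hμ hF' hF1'
  -- outer relations
  have hout : ∀ (e : ℝ) (F : ℤ → ℝ), FRec n μ e F → F (-1) = 0 →
      μ * F (-2) = e * F n ∧ (∀ m : ℕ, ((m:ℝ) + 1) * F (n + (m + 1 : ℕ)) = μ * F (n + m) - e * F (-2 - m)) ∧
      (∀ m : ℕ, μ * F (-2 - (m + 1 : ℕ)) = e * F (n + (m + 1 : ℕ)) - (n + 2 + m) * F (-2 - m)) := by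
    intro e F hF h0
    refine ⟨?_, fun m => ?_, fun m => ?_⟩
    · have h1 := hF (-1)
      rw [h0, show (-1:ℤ) - 1 = -2 by norm_num, show (n:ℤ) - 1 - -1 = n by ring] at h1
      linarith
    · have h1 := hF (n + (m + 1 : ℕ))
      rw [show (n:ℤ) + ((m + 1 : ℕ) : ℤ) - 1 = n + m by push_cast; ring,
        show (n:ℤ) - 1 - (n + ((m + 1 : ℕ) : ℤ)) = -2 - m by push_cast; ring] at h1
      push_cast at h1 ⊢
      linear_combination h1
    · have h1 := hF (-2 - m)
      rw [show (-2:ℤ) - (m:ℤ) - 1 = -2 - ((m + 1 : ℕ) : ℤ) by push_cast; ring,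
        show (n:ℤ) - 1 - (-2 - m) = n + ((m + 1 : ℕ) : ℤ) by push_cast; ring] at h1
      push_cast at h1 ⊢
      linear_combination -h1
  obtain ⟨o1, o2, o3⟩ := hout e F hF hF1
  obtain ⟨o1', o2', o3'⟩ := hout (-e) F' hF' hF1'
  -- nonvanishing
  have hnz : ∀ (e : ℝ) (F : ℤ → ℝ), (μ * F (-2) = e * F n) → (∀ m : ℕ, ((m:ℝ) + 1) * F (n + (m + 1 : ℕ)) =
      μ * F (n + m) - e * F (-2 - m)) →
      (∀ m : ℕ, μ * F (-2 - (m + 1 : ℕ)) = e * F (n + (m + 1 : ℕ)) - (n + 2 + m) * F (-2 - m)) →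
      (∀ j : ℤ, -1 ≤ j → j < n → F j = 0) → F n = 0 → ∀ k, F k = 0 := by
    intro e F o1 o2 o3 hm h0
    have key : ∀ m : ℕ, F (n + m) = 0 ∧ F (-2 - m) = 0 := by
      intro m
      induction m with
      | zero =>
        rw [h0, mul_zero] at o1
        have := (mul_eq_zero.1 o1).resolve_left hμ.ne'
        simpa using ⟨h0, this⟩
      | succ m ih =>
        have h1 := o2 m
        rw [ih.1, ih.2, mul_zero, mul_zero, sub_zero] at h1
        have h2 := (mul_eq_zero.1 h1).resolve_left (by positivity)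
        have h3 := o3 m
        rw [h2, ih.2, mul_zero, mul_zero, sub_zero] at h3
        exact ⟨h2, (mul_eq_zero.1 h3).resolve_left hμ.ne'⟩
    intro k
    by_cases hk1 : (n:ℤ) ≤ k
    · have := (key (k - n).toNat).1
      rwa [show (n:ℤ) + (((k - n).toNat : ℕ) : ℤ) = k by omega] at this
    · by_cases hk2 : k ≤ -2
      · have := (key (-2 - k).toNat).2
        rwa [show (-2:ℤ) - (((-2 - k).toNat : ℕ) : ℤ) = k by omega] at this
      · exact hm k (by omega) (by omega)
  have hGne : ∀ (ε : ℝ) (φ : ℝ → ℝ) (t : ℝ), exp ((2 * μ * Real.cos t : ℝ) : ℂ) * GG n μ ε φ t ≠ 0 :=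
    fun ε φ t => mul_ne_zero (exp_ne_zero _) (exp_ne_zero _)
  have hFn : F n ≠ 0 := by
    intro h0
    have h1 := hnz e F o1 o2 o3 hmid h0
    have h2 := hFG 0
    apply hGne (2 * e) (fl (n + 1) (2 * μ) (2 * e) (Real.pi / 2)) 0
    rw [← h2, HH]
    simp [h1]
  have hFn' : F' n ≠ 0 := by
    intro h0
    have h1 := hnz (-e) F' o1' o2' o3' hmid' h0
    have h2 := hFG' 0
    apply hGne (-(2 * e)) (fl (n + 1) (2 * μ) (-(2 * e)) (Real.pi / 2)) 0
    rw [← h2, HH]
    simp [h1]
  set τ := F' n / F n with hτ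
  have hτF : F' n = τ * F n := by rw [hτ]; field_simp
  have hprop : ∀ m : ℕ, F' (n + m) = τ * F (n + m) ∧ F' (-2 - m) = -(τ * F (-2 - m)) := by
    intro m
    induction m with
    | zero =>
      have h1 : μ * (F' (-2) + τ * F (-2)) = 0 := by
        linear_combination o1' + τ * o1 - e * hτF
      have h2 := (mul_eq_zero.1 h1).resolve_left hμ.ne'
      simp only [Nat.cast_zero, add_zero, sub_zero]
      exact ⟨hτF, by linarith⟩
    | succ m ih =>
      have h1 := o2 m
      have h2 := o2' m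
      rw [ih.1, ih.2] at h2
      have h3 : ((m:ℝ) + 1) * (F' (n + (m + 1 : ℕ)) - τ * F (n + (m + 1 : ℕ))) = 0 := by
        linear_combination h2 - τ * h1
      have h4 := (mul_eq_zero.1 h3).resolve_left (by positivity)
      have h5 := o3 m
      have h6 := o3' m
      rw [ih.2] at h6
      have h7 : μ * (F' (-2 - (m + 1 : ℕ)) + τ * F (-2 - (m + 1 : ℕ))) = 0 := by
        linear_combination h6 + τ * h5 - e * h4
      have h8 := (mul_eq_zero.1 h7).resolve_left hμ.ne'
      exact ⟨by linarith, by linarith⟩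
  -- the two series
  obtain ⟨D, hD0, hD⟩ := decay' hF hFb 3
  have hsF := summables hD
  set aZ : ℤ → ℝ := fun k => if 0 ≤ k then F (n + k) else 0 with haZ
  set bZ : ℤ → ℝ := fun k => if 0 ≤ k then F (-2 - k) else 0 with hbZ
  have hsa : Summable (fun k : ℤ => (|(k:ℝ)| + 1) * |aZ k|) := by
    refine summables (D := D) fun k => ?_
    simp only [haZ]
    split_ifs with hk
    · refine le_trans ?_ (hD (n + k))
      have hk' : (0:ℝ) ≤ k := by exact_mod_cast hk
      have hn' : (0:ℝ) ≤ n := n.cast_nonneg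
      push_cast
      rw [abs_of_nonneg hk', abs_of_nonneg (by positivity : (0:ℝ) ≤ (n:ℝ) + k)]
      gcongr
      linarith
    · simp only [abs_zero, zero_mul]; exact hD0
  have hsb : Summable (fun k : ℤ => (|(k:ℝ)| + 1) * |bZ k|) := by
    refine summables (D := D) fun k => ?_
    simp only [hbZ]
    split_ifs with hk
    · refine le_trans ?_ (hD (-2 - k))
      have hk' : (0:ℝ) ≤ k := by exact_mod_cast hk
      push_cast
      rw [abs_of_nonneg hk', abs_of_nonpos (by linarith : -2 - (k:ℝ) ≤ 0)]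
      gcongr
      linarith
    · simp only [abs_zero, zero_mul]; exact hD0
  have sa := summable_c hsa
  have sb := summable_c hsb
  have sa1 : Summable fun k : ℤ => |aZ (k - n)| := ((Equiv.subRight (n:ℤ)).summable_iff (f := fun k => |aZ k|)).2 sa
  have sb1 : Summable fun k : ℤ => |bZ (-(k - -2))| :=
    (((Equiv.subRight (-2:ℤ)).trans (Equiv.neg ℤ)).summable_iff (f := fun k => |bZ k|)).2 sb
  have hsplit : ∀ k : ℤ, F k = aZ (k - n) + bZ (-(k - -2)) := by
    intro k
    simp only [haZ, hbZ]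
    by_cases hk1 : (n:ℤ) ≤ k
    · rw [if_pos (by omega), if_neg (by omega), add_zero]; congr 1; ring
    · by_cases hk2 : k ≤ -2
      · rw [if_neg (by omega), if_pos (by omega), zero_add]; congr 1; ring
      · rw [if_neg (by omega), if_neg (by omega), hmid k (by omega) (by omega), add_zero]
  have hsplit' : ∀ k : ℤ, F' k = τ * aZ (k - n) + (-τ) * bZ (-(k - -2)) := by
    intro k
    simp only [haZ, hbZ]
    by_cases hk1 : (n:ℤ) ≤ k
    · rw [if_pos (by omega), if_neg (by omega), mul_zero, add_zero]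
      have := (hprop (k - n).toNat).1
      rw [show (n:ℤ) + (((k - n).toNat : ℕ) : ℤ) = k by omega] at this
      rw [this, show (n:ℤ) + (k - n) = k by ring]
    · by_cases hk2 : k ≤ -2
      · rw [if_neg (by omega), if_pos (by omega), mul_zero, zero_add]
        have := (hprop (-2 - k).toNat).2
        rw [show (-2:ℤ) - (((-2 - k).toNat : ℕ) : ℤ) = k by omega] at this
        rw [this, show (-2:ℤ) - -(k - -2) = k by ring]; ring
      · rw [if_neg (by omega), if_neg (by omega), hmid' k (by omega) (by omega)]; ring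
  have hHF : ∀ t, HH F t = exp (I * (n:ℂ) * t) * HH aZ t + exp (-(2 * I * t)) * conj (HH bZ t) := by
    intro t
    have h1 : HH F t = HH (fun k => aZ (k - n) + bZ (-(k - -2))) t := by
      congr 1; funext k; exact hsplit k
    rw [h1, HH_add sa1 sb1, HH_conj]
    have h2 := HH_e aZ n t
    have h3 := HH_e (fun k => bZ (-k)) (-2) t
    push_cast at h2 h3
    rw [← h2, ← h3]
    congr 3
    ring
  have hHF' : ∀ t, HH F' t = τ * (exp (I * (n:ℂ) * t) * HH aZ t - exp (-(2 * I * t)) * conj (HH bZ t)) := by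
    intro t
    have h1 : HH F' t = HH (fun k => τ * aZ (k - n) + (-τ) * bZ (-(k - -2))) t := by
      congr 1; funext k; exact hsplit' k
    have s1 : Summable fun k : ℤ => |τ * aZ (k - n)| := by
      simp_rw [abs_mul]; exact sa1.mul_left _
    have s2 : Summable fun k : ℤ => |(-τ) * bZ (-(k - -2))| := by
      simp_rw [abs_mul (-τ)]; exact sb1.mul_left _
    rw [h1, HH_add s1 s2, HH_smul, HH_smul (-τ) (fun k => bZ (-(k - -2))), HH_conj]
    have h2 := HH_e aZ n t
    have h3 := HH_e (fun k => bZ (-k)) (-2) t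
    push_cast at h2 h3
    rw [← h2, ← h3]
    have h4 : exp (-(2 * I * (t:ℂ))) = exp (I * (-2) * t) := by congr 1; ring
    rw [h4]; push_cast; ring
  -- positivity
  set φ := fl (n + 1) (2 * μ) (2 * e) (Real.pi / 2) with hφd
  set φ' := fl (n + 1) (2 * μ) (-(2 * e)) (Real.pi / 2) with hφd'
  have hφ : Sol (n + 1) (2 * μ) (2 * e) φ := fl_sol _ _ _ _
  have hφ' : Sol (n + 1) (2 * μ) (-(2 * e)) φ' := fl_sol _ _ _ _
  have hcos : ∀ t, 0 < Real.cos ((φ' t - φ t) / 2) := by
    intro t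
    have h1 := hφ'.add_pi
    rw [neg_neg] at h1
    have h2 := mob h1 hφ t
    have h3 : φ' 0 = Real.pi / 2 := by rw [hφd', fl_zero]
    have h4 : φ 0 = Real.pi / 2 := by rw [hφd, fl_zero]
    simp only [h3, h4] at h2
    rw [show (φ' t + Real.pi - φ t) / 2 = (φ' t - φ t) / 2 + Real.pi / 2 by ring, Real.sin_add_pi_div_two,
      show (Real.pi / 2 + Real.pi - Real.pi / 2) / 2 = Real.pi / 2 by ring, Real.sin_pi_div_two, one_mul] at h2
    rw [h2]; exact Real.exp_pos _
  have hpos : ∀ t, 0 < (conj (HH F t) * HH F' t).re := by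
    intro t
    rw [hFG, hFG', GG, GG, ← exp_add, ← exp_add, ← exp_conj, ← exp_add]
    have : conj (((2 * μ * Real.cos t : ℝ) : ℂ) + gg n μ (2 * e) φ t) +
        (((2 * μ * Real.cos t : ℝ) : ℂ) + gg n μ (-(2 * e)) φ' t) =
        ((4 * μ * Real.cos t + (2 * e / 2 * Cc φ t - μ * Real.cos t) +
          (-(2 * e) / 2 * Cc φ' t - μ * Real.cos t) : ℝ) : ℂ) + (((φ' t - φ t) / 2 : ℝ) : ℂ) * I := by
      simp only [gg, map_add, map_mul, conj_ofReal, conj_I]
      push_cast
      ring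
    rw [this, exp_re]
    simp only [add_re, ofReal_re, re_ofReal_mul, I_re, mul_zero, add_zero, add_im, ofReal_im,
      im_ofReal_mul, I_im, mul_one, zero_add]
    exact mul_pos (Real.exp_pos _) (hcos t)
  have hre : ∀ t, (conj (HH F t) * HH F' t).re = τ * (normSq (HH aZ t) - normSq (HH bZ t)) := by
    intro t
    rw [hHF, hHF']
    have h1 : normSq (exp (I * (n:ℂ) * t)) = 1 := by
      rw [normSq_eq_norm_sq]
      have := norm_ek n t
      push_cast at this
      rw [this]; norm_num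
    have h2 : normSq (exp (-(2 * I * t))) = 1 := by
      rw [normSq_eq_norm_sq]
      have := norm_ek (-2) t
      push_cast at this
      rw [show -(2 * I * (t:ℂ)) = I * (-2) * t by ring, this]; norm_num
    set x := exp (I * (n:ℂ) * t)
    set y := exp (-(2 * I * t))
    have e4 : normSq (HH aZ t) = normSq (x * HH aZ t) := by rw [map_mul, h1, one_mul]
    have e5 : normSq (HH bZ t) = normSq (y * conj (HH bZ t)) := by rw [map_mul, h2, one_mul, normSq_conj]
    rw [e4, e5]
    set p := x * HH aZ t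
    set q := y * conj (HH bZ t)
    simp only [normSq_apply, mul_re, map_add, add_re, conj_re, add_im, conj_im, sub_re, sub_im, ofReal_re,
      ofReal_im, mul_im]
    ring
  -- the lift
  set g : ℝ → ℂ := fun t => ((2 * μ * Real.cos t : ℝ) : ℂ) + gg n μ (2 * e) φ t with hg
  have hgc : Continuous g := by
    have h1 : Continuous (gg n μ (2 * e) φ) :=
      continuous_iff_continuousAt.2 fun t => (gg_deriv hφ t).continuousAt
    simp only [hg]; fun_prop
  have hgF : ∀ t, exp (g t) = HH F t := by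
    intro t; rw [hFG, hg, exp_add]; rfl
  have hgT : g (2 * Real.pi) - g 0 = 2 * Real.pi * I * m := by
    have h0 : φ 0 = Real.pi / 2 := by rw [hφd, fl_zero]
    have h1 : φ (2 * Real.pi) = Real.pi / 2 + 2 * Real.pi * ((1 - n + 2 * m : ℤ) : ℝ) := hU
    have h2 : Cc φ (2 * Real.pi) = 0 := (Cc_per hU).1
    simp only [hg, gg, h0, h1, h2, Cc_zero, Real.cos_two_pi, Real.cos_zero]
    push_cast
    ring
  have hac := HH_cont hsa
  have hbc := HH_cont hsb
  have hE2 : ∀ m : ℤ, exp (I * m * ((2 * Real.pi : ℝ) : ℂ)) = 1 := by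
    intro m
    rw [exp_eq_one_iff]
    exact ⟨m, by push_cast; ring⟩
  have haZn : ∀ k < 0, aZ k = 0 := fun k hk => by simp only [haZ]; rw [if_neg (by omega)]
  have hbZn : ∀ k < 0, bZ k = 0 := fun k hk => by simp only [hbZ]; rw [if_neg (by omega)]
  have hτ0 : τ ≠ 0 := div_ne_zero hFn' hFn
  have hn1 : ∀ (m : ℤ) (t : ℝ), ‖exp (I * m * t)‖ = 1 := norm_ek
  have hτpos : 0 < τ := by
    by_contra hc
    have hneg : τ < 0 := lt_of_le_of_ne (not_lt.1 hc) hτ0
    have hlt : ∀ t, ‖HH aZ t‖ < ‖HH bZ t‖ := by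
      intro t
      have h1 := hpos t
      rw [hre, normSq_eq_norm_sq, normSq_eq_norm_sq] at h1
      have h2 : ‖HH aZ t‖ ^ 2 < ‖HH bZ t‖ ^ 2 := by nlinarith
      exact lt_of_pow_lt_pow_left₀ 2 (norm_nonneg _) h2
    have hbne : ∀ t, HH bZ t ≠ 0 := fun t => norm_pos_iff.1 (lt_of_le_of_lt (norm_nonneg _) (hlt t))
    have hcb : ∀ t, conj (HH bZ t) ≠ 0 := fun t => by
      rw [Ne, map_eq_zero]; exact hbne t
    set r : ℝ → ℂ := fun t => exp (I * ((n + 2 : ℤ) : ℂ) * t) * HH aZ t / conj (HH bZ t) with hrd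
    have hrn : ∀ t, ‖r t‖ < 1 := by
      intro t
      simp only [hrd]
      rw [norm_div, norm_mul, hn1, one_mul, Complex.norm_conj, div_lt_one (norm_pos_iff.2 (hbne t))]
      exact hlt t
    have hrc : Continuous r := by
      refine Continuous.div ?_ (Complex.continuous_conj.comp hbc) hcb
      exact (by fun_prop : Continuous fun t : ℝ => exp (I * ((n + 2 : ℤ) : ℂ) * (t:ℂ))).mul hac
    have hsp : ∀ t, 1 + r t ∈ slitPlane := fun t => mem_slitPlane_of_norm_lt_one (hrn t)
    have hgm : ∀ t, exp (g t + 2 * I * t - log (1 + r t)) = conj (HH bZ t) := by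
      intro t
      rw [exp_sub, exp_log (slitPlane_ne_zero (hsp t)), exp_add, hgF, hHF,
        div_eq_iff (slitPlane_ne_zero (hsp t))]
      have e6 : conj (HH bZ t) * (1 + r t) = conj (HH bZ t) + exp (I * ((n + 2 : ℤ) : ℂ) * t) * HH aZ t := by
        simp only [hrd]
        have := hcb t
        field_simp
      have e7 : exp (I * ((n + 2 : ℤ) : ℂ) * t) = exp (I * (n:ℂ) * t) * exp (2 * I * t) := by
        rw [← exp_add]; congr 1; push_cast; ring
      have e8 : exp (-(2 * I * (t:ℂ))) * exp (2 * I * t) = 1 := by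
        rw [← exp_add, neg_add_cancel, exp_zero]
      rw [e6, e7]
      linear_combination conj (HH bZ t) * e8
    have hw := winding (h := fun m => ((bZ m : ℝ) : ℂ)) (g := fun t => conj (g t + 2 * I * t - log (1 + r t)))
      (N := -(m + 2)) ?_ ?_ ?_ ?_
    · have := hw.1; omega
    · have := sb.comp_injective (Nat.cast_injective (R := ℤ))
      refine this.congr fun m => ?_
      simp
    · refine Complex.continuous_conj.comp ?_
      exact (hgc.add (by fun_prop)).sub ((continuous_const.add hrc).clog hsp)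
    · intro t
      rw [exp_conj, hgm, Complex.conj_conj]
      exact (HH_nat hbZn t).symm
    · have hr2 : r (2 * Real.pi) = r 0 := by
        have p1 := HH_per aZ 0
        have p2 := HH_per bZ 0
        rw [zero_add] at p1 p2
        simp only [hrd, p1, p2, hE2]; simp
      rw [← map_sub, hr2]
      have : g (2 * Real.pi) + 2 * I * ((2 * Real.pi : ℝ) : ℂ) - log (1 + r 0) -
          (g 0 + 2 * I * ((0:ℝ) : ℂ) - log (1 + r 0)) = (g (2 * Real.pi) - g 0) + 4 * Real.pi * I := by
        push_cast; ring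
      rw [this, hgT]
      simp only [map_add, map_mul, conj_I, conj_ofReal, map_intCast, map_ofNat]
      push_cast; ring
  have hlt : ∀ t, ‖HH bZ t‖ < ‖HH aZ t‖ := by
    intro t
    have h1 := hpos t
    rw [hre, normSq_eq_norm_sq, normSq_eq_norm_sq] at h1
    have h2 : ‖HH bZ t‖ ^ 2 < ‖HH aZ t‖ ^ 2 := by nlinarith
    exact lt_of_pow_lt_pow_left₀ 2 (norm_nonneg _) h2
  have hane : ∀ t, HH aZ t ≠ 0 := fun t => norm_pos_iff.1 (lt_of_le_of_lt (norm_nonneg _) (hlt t))
  set r : ℝ → ℂ := fun t => exp (I * ((-(n + 2) : ℤ) : ℂ) * t) * conj (HH bZ t) / HH aZ t with hrd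
  have hrn : ∀ t, ‖r t‖ < 1 := by
    intro t
    simp only [hrd]
    rw [norm_div, norm_mul, hn1, one_mul, Complex.norm_conj, div_lt_one (norm_pos_iff.2 (hane t))]
    exact hlt t
  have hrc : Continuous r := by
    refine Continuous.div ?_ hac hane
    exact (by fun_prop : Continuous fun t : ℝ => exp (I * ((-(n + 2) : ℤ) : ℂ) * (t:ℂ))).mul
      (Complex.continuous_conj.comp hbc)
  have hsp : ∀ t, 1 + r t ∈ slitPlane := fun t => mem_slitPlane_of_norm_lt_one (hrn t)
  have hgm : ∀ t, exp (g t - I * n * t - log (1 + r t)) = HH aZ t := by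
    intro t
    rw [exp_sub, exp_log (slitPlane_ne_zero (hsp t)), exp_sub, hgF, hHF,
      div_eq_iff (slitPlane_ne_zero (hsp t)), div_eq_iff (exp_ne_zero _)]
    have e6 : HH aZ t * (1 + r t) = HH aZ t + exp (I * ((-(n + 2) : ℤ) : ℂ) * t) * conj (HH bZ t) := by
      simp only [hrd]
      have := hane t
      field_simp
    have e7 : exp (I * ((-(n + 2) : ℤ) : ℂ) * t) * exp (I * (n:ℂ) * t) = exp (-(2 * I * t)) := by
      rw [← exp_add]; congr 1; push_cast; ring
    rw [e6]
    linear_combination -(conj (HH bZ t)) * e7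
  have hw := winding (h := fun m => ((aZ m : ℝ) : ℂ)) (g := fun t => g t - I * n * t - log (1 + r t))
    (N := m - n) ?_ ?_ ?_ ?_
  · have := hw.1; omega
  · have := sa.comp_injective (Nat.cast_injective (R := ℤ))
    refine this.congr fun m => ?_
    simp
  · exact (hgc.sub (by fun_prop)).sub ((continuous_const.add hrc).clog hsp)
  · intro t
    rw [hgm]
    exact (HH_nat haZn t).symm
  · have hr2 : r (2 * Real.pi) = r 0 := by
      have p1 := HH_per aZ 0
      have p2 := HH_per bZ 0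
      rw [zero_add] at p1 p2
      simp only [hrd, p1, p2, hE2]; simp
    rw [hr2]
    have : g (2 * Real.pi) - I * n * ((2 * Real.pi : ℝ) : ℂ) - log (1 + r 0) -
        (g 0 - I * n * ((0:ℝ) : ℂ) - log (1 + r 0)) = (g (2 * Real.pi) - g 0) - 2 * Real.pi * I * n := by
      push_cast; ring
    rw [this, hgT]
    push_cast; ring


end H535R3
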