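import Pool.Agent.H535R3.KB
import Pool.Agent.H535R3.JY

set_option autoImplicit false
open Set Filter Topology

namespace H535R3

/-- A singleton slice forces identity monodromy. -/
lemma single_ident {r : ℤ} {ε b a : ℝ} (h : (b, a) ∈ Ls r ε)
    (hu : ∀ b', (b', a) ∈ Ls r ε → b' = b) (x : ℝ) : P b a ε x = x + 2 * Real.pi * r := by
  by_contra hne
  obtain ⟨x0, hx0⟩ := h
  simp only at hx0
  have hcb : Continuous fun b' : ℝ => P b' a ε x :=
    continuous_P.comp (f := fun b' : ℝ => (b', a, ε, x)) (by fun_prop)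
  have hcx : ∀ b', Continuous fun y : ℝ => P b' a ε y - y := fun b' =>
    (continuous_P.comp (f := fun y : ℝ => (b', a, ε, y)) (by fun_prop)).sub continuous_id
  rcases lt_or_gt_of_ne hne with h1 | h1
  · have h2 : ∀ᶠ b' in 𝓝[>] b, P b' a ε x < x + 2 * Real.pi * r :=
      (hcb.continuousAt.tendsto.mono_left nhdsWithin_le_nhds).eventually (gt_mem_nhds h1)
    obtain ⟨b', hb1, hb2⟩ := (h2.and self_mem_nhdsWithin).exists
    have hb3 : b < b' := hb2
    have h3 := P_lt_of_b (a := a) (ε := ε) (x := x0) hb3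
    obtain ⟨y, hy⟩ := mem_range_of_exists_le_of_exists_ge (hcx b')
      (c := 2 * Real.pi * r) ⟨x, by linarith⟩ ⟨x0, by linarith⟩
    have := hu b' ⟨y, by simp only at hy ⊢; linarith⟩
    linarith
  · have h2 : ∀ᶠ b' in 𝓝[<] b, x + 2 * Real.pi * r < P b' a ε x :=
      (hcb.continuousAt.tendsto.mono_left nhdsWithin_le_nhds).eventually (lt_mem_nhds h1)
    obtain ⟨b', hb1, hb2⟩ := (h2.and self_mem_nhdsWithin).exists
    have hb3 : b' < b := hb2
    have h3 := P_lt_of_b (a := a) (ε := ε) (x := x0) hb3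
    obtain ⟨y, hy⟩ := mem_range_of_exists_le_of_exists_ge (hcx b')
      (c := 2 * Real.pi * r) ⟨x0, by linarith⟩ ⟨x, by linarith⟩
    have := hu b' ⟨y, by simp only at hy ⊢; linarith⟩
    linarith

/-- Identity points with positive number `r` lie on the axis `b = r`. -/
theorem ident_axis {ε b a : ℝ} {r : ℕ} (hr : 1 ≤ r) (hε : 0 < ε) (ha : 0 < a)
    (hall : ∀ x, P b a ε x = x + 2 * Real.pi * r) : b = r := by
  have hsr : (r:ℝ) - 1 < b := strictly_right hε hr ha.le ⟨0, hall 0⟩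
  have hr1 : (1:ℝ) ≤ r := by exact_mod_cast hr
  obtain ⟨μ, hμ⟩ : ∃ μ, a = 2 * μ := ⟨a / 2, by ring⟩
  obtain ⟨e, he⟩ : ∃ e, ε = 2 * e := ⟨ε / 2, by ring⟩
  subst hμ he
  have hμ0 : 0 < μ := by linarith
  have he0 : 0 < e := by linarith
  have hb0 : 0 ≤ b := by linarith
  obtain ⟨k, hk⟩ := ident_int (b := b) (e := e) (r := (r:ℤ)) hμ0 hb0 (by exact_mod_cast hall)
  have hbk : b = r + 2 * k := by
    push_cast at hk; linarith
  have hk0 : 0 ≤ k := by
    by_contra hc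
    have h1 : k ≤ -1 := by omega
    have h2 : (k:ℝ) ≤ -1 := by exact_mod_cast h1
    linarith
  obtain ⟨K, rfl⟩ : ∃ K : ℕ, k = K := ⟨k.toNat, by omega⟩
  set n : ℕ := r + 2 * K - 1 with hn
  have hn1 : (n:ℤ) = r + 2 * K - 1 := by omega
  have hn2 : (n:ℝ) = r + 2 * K - 1 := by exact_mod_cast hn1
  have hbn : b = n + 1 := by rw [hn2, hbk]; push_cast; ring
  have h1 := wind_gen (n := n) (m := (r:ℤ) + K - 1) hμ0 he0 (by omega) (fun x => by
    rw [← hbn, hall x]
    push_cast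
    rw [hn2]; ring)
  have hK : K = 0 := by omega
  rw [hbk, hK]; simp

/-- Height of identity points. -/
lemma ident_height {ε a : ℝ} {n : ℕ} (hε : 0 < ε) (ha : 0 < a)
    (hall : ∀ x, P (n + 1) a ε x = x + 2 * Real.pi * ((n + 1 : ℤ) : ℝ)) : (n:ℝ) + 1 + ε ≤ a := by
  obtain ⟨μ, hμ⟩ : ∃ μ, a = 2 * μ := ⟨a / 2, by ring⟩
  obtain ⟨e, he⟩ : ∃ e, ε = 2 * e := ⟨ε / 2, by ring⟩
  subst hμ he
  by_contra hc
  push Not at hc
  have hμ0 : 0 < μ := by linarith
  have he0 : 0 < e := by linarith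
  obtain ⟨a', b', -, r0, ra, rb, hC, hA⟩ := ident_data hμ0 he0 hall
  exact no_ext hμ0 he0 hc r0 ra rb hC hA

/-- Trapping. -/
lemma trap {b a ε : ℝ} (ha : 0 ≤ a) (h : b + a < ε) : P b a ε (Real.pi / 2) < Real.pi / 2 := by
  have := stay_pos (f := fun t => Real.pi / 2 - fl b a ε (Real.pi / 2) t)
    (fun t => (fl_sol b a ε (Real.pi / 2) t).const_sub _) (by rw [fl_zero]; simp)
    (fun t _ h0 => by
      have h2 : fl b a ε (Real.pi / 2) t = Real.pi / 2 := by linarith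
      rw [h2, Real.sin_pi_div_two]
      have := Real.cos_le_one t
      nlinarith) Real.two_pi_pos
  rw [P]; linarith

/-- Monotonicity in the forcing. -/
lemma P_le_of_force {b b' a a' ε x : ℝ} (h : b + |a' - a| ≤ b') : P b a' ε x ≤ P b' a ε x := by
  -- strict version, then a limit
  have hs : ∀ c, 0 < c → P (b - c) a' ε x ≤ P b' a ε x := by
    intro c hc
    have h1 := stay_pos (f := fun t => fl b' a ε x t - fl (b - c) a' ε x t)
      (fun t => (fl_sol b' a ε x t).sub (fl_sol (b - c) a' ε x t)) (by rw [fl_zero, fl_zero]; simp)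
      (fun t _ h0 => by
        have h2 : fl b' a ε x t = fl (b - c) a' ε x t := by linarith
        rw [h2]
        have h3 : (a' - a) * Real.cos t ≤ |a' - a| := by
          calc (a' - a) * Real.cos t ≤ |(a' - a) * Real.cos t| := le_abs_self _
            _ = |a' - a| * |Real.cos t| := abs_mul _ _
            _ ≤ |a' - a| * 1 := by gcongr; exact Real.abs_cos_le_one t
            _ = |a' - a| := mul_one _
        nlinarith) Real.two_pi_pos
    rw [P, P]; linarith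
  have hc : Continuous fun c : ℝ => P (b - c) a' ε x :=
    continuous_P.comp (f := fun c : ℝ => (b - c, a', ε, x)) (by fun_prop)
  have ht : Tendsto (fun c : ℝ => P (b - c) a' ε x) (𝓝[>] 0) (𝓝 (P (b - 0) a' ε x)) :=
    hc.continuousAt.tendsto.mono_left nhdsWithin_le_nhds
  rw [sub_zero] at ht
  refine le_of_tendsto ht ?_
  filter_upwards [self_mem_nhdsWithin] with c hc
  exact hs c hc

/-- Locked with number `r` is incompatible with `P x ≥ x + 2π(r+1)`. -/
lemma lock_lt {b a ε x y : ℝ} {r : ℤ} (hx : x + 2 * Real.pi * (r + 1) ≤ P b a ε x)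
    (hy : P b a ε y = y + 2 * Real.pi * r) : False := by
  obtain ⟨m, hm1, hm2⟩ := exists_shift x y
  have h1 := (P_mono b a ε).monotone hm1
  rw [P_add, hy] at h1
  have := Real.pi_pos
  linarith

/-- Right bound. -/
lemma upper {ε b a : ℝ} (r : ℕ) (hε : 0 < ε) (ha : ε + r ≤ a) (h : (b, a) ∈ Ls r ε) : b < r + 2 := by
  by_contra hc
  push Not at hc
  obtain ⟨y, hy⟩ := h
  simp only at hy
  have hr0 : (0:ℝ) ≤ r := r.cast_nonneg
  set a' := max a (ε + r + 1) with ha'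
  have h1 : a ≤ a' := le_max_left _ _
  have h2 : ε + r + 1 ≤ a' := le_max_right _ _
  have h3 : a' - a ≤ 1 := by
    rw [ha', sub_le_iff_le_add]
    refine max_le (by linarith) (by linarith)
  have hMM := MM_le r (δ := ε / 2) (by positivity)
  obtain ⟨x, hx⟩ := (axis_iff r (a := a') (by linarith) hε).2 (by linarith)
  simp only at hx
  have h4 := P_le_of_force (b := (r:ℝ) + 1) (b' := b) (a := a) (a' := a') (ε := ε) (x := x) (by
    rw [abs_of_nonneg (by linarith)]; linarith)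
  rw [hx] at h4
  refine lock_lt (r := (r:ℤ)) (x := x) ?_ hy
  push_cast at h4 ⊢
  exact h4

lemma single_neg {r : ℤ} {ε b a : ℝ} (hu : ∀ b', (b', a) ∈ Ls r ε → b' = b) :
    ∀ b', (b', a) ∈ Ls (-r) ε → b' = -b := by
  intro b' hb'
  have h1 := Ls_neg hb'
  rw [neg_neg] at h1
  have := hu _ h1
  linarith

lemma main_nat (r : ℕ) {ε b1 a1 : ℝ} (hε : 0 < ε) (ha1 : 0 < a1) (h1 : (b1, a1) ∈ Ls r ε)
    (hu : ∀ b', (b', a1) ∈ Ls r ε → b' = b1) {b a : ℝ} (ha : a1 ≤ a) (h : (b, a) ∈ Ls r ε) :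
    ε ≤ a1 ∧ |b| < r + 2 := by
  have hall := single_ident h1 hu
  have hr0 : (0:ℝ) ≤ r := r.cast_nonneg
  have hlow : ε + r ≤ a1 := by
    rcases Nat.eq_zero_or_pos r with h0 | h0
    · subst h0
      have h2 := Ls_neg h1
      have hb0 : b1 = 0 := by
        have := hu _ (by simpa using h2)
        linarith
      by_contra hc
      push Not at hc
      have h3 := trap (b := b1) (a := a1) (ε := ε) ha1.le (by
        rw [hb0]; simp only [Nat.cast_zero, add_zero] at hc; linarith)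
      have h4 := hall (Real.pi / 2)
      push_cast at h4
      rw [mul_zero, add_zero] at h4
      linarith
    · have hb := ident_axis (ε := ε) h0 hε ha1 (by exact_mod_cast hall)
      obtain ⟨n, rfl⟩ : ∃ n, r = n + 1 := ⟨r - 1, by omega⟩
      have h3 := ident_height (n := n) hε ha1 (fun x => by
        have := hall x
        rw [hb] at this
        push_cast at this ⊢
        exact this)
      push_cast
      linarith
  refine ⟨by linarith, ?_⟩
  have hup := upper r hε (hlow.trans ha) h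
  rw [abs_lt]
  refine ⟨?_, hup⟩
  rcases Nat.eq_zero_or_pos r with h0 | h0
  · subst h0
    have h2 := Ls_neg h
    have h3 := upper 0 hε (hlow.trans ha) (by simpa using h2)
    linarith
  · obtain ⟨x, hx⟩ := h
    have h2 := strictly_right hε h0 (b := b) (a := a) (by linarith) ⟨x, by exact_mod_cast hx⟩
    linarith

lemma main_int (r : ℤ) {ε b1 a1 : ℝ} (hε : 0 < ε) (ha1 : 0 < a1) (h1 : (b1, a1) ∈ Ls r ε)
    (hu : ∀ b', (b', a1) ∈ Ls r ε → b' = b1) {b a : ℝ} (ha : a1 ≤ a) (h : (b, a) ∈ Ls r ε) :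
    ε ≤ a1 ∧ |b| < |(r:ℝ)| + 2 := by
  rcases le_total 0 r with hr | hr
  · obtain ⟨n, rfl⟩ : ∃ n : ℕ, r = n := ⟨r.toNat, by omega⟩
    have := main_nat n hε ha1 h1 hu ha h
    have e1 : |(((n:ℕ):ℤ):ℝ)| = n := by
      rw [Int.cast_natCast]; exact abs_of_nonneg (Nat.cast_nonneg n)
    rw [e1]
    exact this
  · obtain ⟨n, hn⟩ : ∃ n : ℕ, -r = n := ⟨(-r).toNat, by omega⟩
    have h1' := Ls_neg h1
    have h' := Ls_neg h
    have hu' := single_neg hu
    rw [hn] at h1' h' hu'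
    have := main_nat n hε ha1 h1' hu' ha h'
    rw [abs_neg] at this
    have e1 : |(r:ℝ)| = n := by
      rw [← abs_neg, ← Int.cast_neg, hn, Int.cast_natCast]; exact abs_of_nonneg (Nat.cast_nonneg n)
    rw [e1]
    exact this

/-- Membership in the frozen form. -/
lemma mem_frozen {ω : ℝ} (hω : 0 < ω) (r : ℤ) (B A : ℝ) :
    (∃ φ : ℝ → ℝ, (∀ t : ℝ, HasDerivAt φ (-Real.sin (φ t) + B + A * Real.cos (ω * t)) t) ∧
            Tendsto (fun t : ℝ => φ t / t) atTop (𝓝 ((r : ℝ) * ω))) ↔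
      (B / ω, A / ω) ∈ Ls r (1 / ω) := by
  have h1 : (B, A) ∈ {p : ℝ × ℝ | ∃ φ : ℝ → ℝ,
      (∀ t : ℝ, HasDerivAt φ (-Real.sin (φ t) + p.1 + p.2 * Real.cos (ω * t)) t) ∧
      Tendsto (fun t : ℝ => φ t / (ω * t)) atTop (𝓝 (r : ℝ))} ↔ (B, A) ∈ LL ω r := by
    rw [LL_exists hω r]
  rw [← mem_LL hω, ← h1, mem_ofPred_eq]
  constructor
  · rintro ⟨φ, h2, h3⟩
    refine ⟨φ, h2, ?_⟩
    have h4 := h3.div_const ω
    rw [mul_div_cancel_right₀ _ hω.ne'] at h4
    refine h4.congr fun t => ?_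
    rw [div_div, mul_comm t ω]
  · rintro ⟨φ, h2, h3⟩
    refine ⟨φ, h2, ?_⟩
    have h4 := h3.mul_const ω
    refine h4.congr fun t => ?_
    rw [div_mul_eq_mul_div, mul_comm (φ t) ω, mul_div_mul_left _ _ hω.ne']

theorem ray_limit :
    ∀ r : ℤ, ∀ ε : ℝ, 0 < ε → ∃ δ : ℝ, 0 < δ ∧
      ∀ ω : ℝ, 0 < ω → ω < δ →
      ∀ B₁ A₁ : ℝ, 0 < A₁ →
        ((∃ φ : ℝ → ℝ, (∀ t : ℝ, HasDerivAt φ (-Real.sin (φ t) + B₁ + A₁ * Real.cos (ω * t)) t) ∧
            Tendsto (fun t : ℝ => φ t / t) atTop (𝓝 ((r : ℝ) * ω))) ∧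
          ∀ B'' : ℝ, (∃ φ : ℝ → ℝ, (∀ t : ℝ, HasDerivAt φ (-Real.sin (φ t) + B'' + A₁ * Real.cos (ω * t)) t) ∧
            Tendsto (fun t : ℝ => φ t / t) atTop (𝓝 ((r : ℝ) * ω))) → B'' = B₁) →
        ∀ B A : ℝ, A₁ ≤ A →
          (∃ φ : ℝ → ℝ, (∀ t : ℝ, HasDerivAt φ (-Real.sin (φ t) + B + A * Real.cos (ω * t)) t) ∧
            Tendsto (fun t : ℝ => φ t / t) atTop (𝓝 ((r : ℝ) * ω))) →
          ∃ a : ℝ, 1 ≤ a ∧ B ^ 2 + (A - a) ^ 2 < ε ^ 2 := by
  intro r ε hε
  refine ⟨ε / (|(r:ℝ)| + 2), by positivity, ?_⟩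
  intro ω hω hωδ B₁ A₁ hA₁ ⟨h1, hu⟩ B A hA h
  rw [mem_frozen hω] at h1 h
  have hu' : ∀ b', (b', A₁ / ω) ∈ Ls r (1 / ω) → b' = B₁ / ω := by
    intro b' hb'
    have := hu (b' * ω) ((mem_frozen hω r _ _).2 (by rwa [mul_div_cancel_right₀ _ hω.ne']))
    rw [← this, mul_div_cancel_right₀ _ hω.ne']
  obtain ⟨h2, h3⟩ := main_int r (ε := 1 / ω) (by positivity) (by positivity) h1 hu'
    (div_le_div_of_nonneg_right hA hω.le) h
  refine ⟨A, ?_, ?_⟩
  · rw [div_le_div_iff_of_pos_right hω] at h2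
    linarith
  · rw [sub_self]
    rw [abs_div, abs_of_pos hω, div_lt_iff₀ hω] at h3
    rw [lt_div_iff₀ (by positivity)] at hωδ
    have h4 : |B| < ε := by linarith
    have h5 : B ^ 2 < ε ^ 2 := by
      rw [← sq_abs B]
      exact pow_lt_pow_left₀ h4 (abs_nonneg _) two_ne_zero
    linarith

end H535R3
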