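import Pool.Agent.H535R3.KC

set_option autoImplicit false
open Set Filter Topology

namespace H535R3

/-- `E_j = μ^j / j!`. -/
noncomputable def Ej (μ : ℝ) (j : ℕ) : ℝ := μ ^ j / j.factorial

lemma Ej_zero (μ : ℝ) : Ej μ 0 = 1 := by simp [Ej]

lemma Ej_succ (μ : ℝ) (j : ℕ) : ((j:ℝ) + 1) * Ej μ (j + 1) = μ * Ej μ j := by
  unfold Ej; rw [Nat.factorial_succ]; push_cast; field_simp; ring

lemma Ej_summable (μ : ℝ) : Summable (Ej μ) := Real.summable_pow_div_factorial μ

lemma Ej_abs (μ : ℝ) : Summable fun j => |Ej μ j| := by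
  have : (fun j => |Ej μ j|) = Ej |μ| := by
    funext j; simp [Ej, abs_div, abs_pow]
  rw [this]; exact Ej_summable _

/-- convolution -/
noncomputable def cv (f g : ℕ → ℝ) (k : ℕ) : ℝ := ∑ p ∈ Finset.HasAntidiagonal.antidiagonal k, f p.1 * g p.2

lemma cv_eq (f g : ℕ → ℝ) (k : ℕ) :
    cv f g k = PowerSeries.coeff k (PowerSeries.mk f * PowerSeries.mk g) := by
  rw [PowerSeries.coeff_mul, cv]; simp

lemma dE (μ : ℝ) : PowerSeries.derivative ℝ (PowerSeries.mk (Ej μ)) =
    PowerSeries.C μ * PowerSeries.mk (Ej μ) := by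
  ext j
  rw [PowerSeries.coeff_derivative, PowerSeries.coeff_mk, PowerSeries.coeff_C_mul, PowerSeries.coeff_mk]
  linarith [Ej_succ μ j]

lemma dmk (f : ℕ → ℝ) : PowerSeries.derivative ℝ (PowerSeries.mk f) =
    PowerSeries.mk (fun i => ((i:ℝ) + 1) * f (i + 1)) := by
  ext j
  rw [PowerSeries.coeff_derivative, PowerSeries.coeff_mk, PowerSeries.coeff_mk]
  ring

lemma cv_deriv (μ : ℝ) (f : ℕ → ℝ) (k : ℕ) :
    ((k:ℝ) + 1) * cv f (Ej μ) (k + 1) = cv (fun i => ((i:ℝ) + 1) * f (i + 1)) (Ej μ) k +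
      μ * cv f (Ej μ) k := by
  have h := congrArg (PowerSeries.coeff k)
    ((PowerSeries.derivative ℝ).leibniz (PowerSeries.mk f) (PowerSeries.mk (Ej μ)))
  rw [PowerSeries.coeff_derivative, ← cv_eq, dE, dmk, smul_eq_mul, smul_eq_mul, map_add,
    mul_left_comm, PowerSeries.coeff_C_mul, ← cv_eq, mul_comm (PowerSeries.mk (Ej μ)), ← cv_eq] at h
  linarith

lemma cv_rb {μ e r s : ℝ} (hsr : s = r + 1) {ah bh : ℕ → ℝ} (h0 : e * ah 0 = μ * bh 0)
    (h1 : e * ah 1 = μ * bh 1 + (r + 1) * bh 0)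
    (h2 : ∀ m : ℕ, e * ah (m + 2) = μ * bh (m + 2) + (r + 2 + m) * bh (m + 1) + μ * bh m) (k : ℕ) :
    μ * cv bh (Ej μ) (k + 1) = e * cv ah (Ej μ) (k + 1) - (r + 1 + k) * cv bh (Ej μ) k := by
  have hS : PowerSeries.C e * PowerSeries.mk ah = PowerSeries.C μ * PowerSeries.mk bh +
      PowerSeries.X * (PowerSeries.C s * PowerSeries.mk bh) +
      PowerSeries.X * (PowerSeries.X * (PowerSeries.derivative ℝ (PowerSeries.mk bh) +
        PowerSeries.C μ * PowerSeries.mk bh)) := by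
    ext m
    rcases m with _ | _ | m
    · simp only [map_add, PowerSeries.coeff_C_mul, PowerSeries.coeff_mk, PowerSeries.coeff_zero_X_mul]
      linarith
    · simp only [map_add, PowerSeries.coeff_C_mul, PowerSeries.coeff_mk, PowerSeries.coeff_succ_X_mul,
        PowerSeries.coeff_zero_X_mul, zero_add]
      rw [hsr]; linarith
    · simp only [map_add, PowerSeries.coeff_C_mul, PowerSeries.coeff_mk, PowerSeries.coeff_succ_X_mul,
        PowerSeries.coeff_derivative]
      have := h2 m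
      rw [show m + 1 + 1 = m + 2 from rfl, this, hsr]; ring
  have hS2 : PowerSeries.C e * (PowerSeries.mk ah * PowerSeries.mk (Ej μ)) =
      PowerSeries.C μ * (PowerSeries.mk bh * PowerSeries.mk (Ej μ)) +
      PowerSeries.X * (PowerSeries.C s * (PowerSeries.mk bh * PowerSeries.mk (Ej μ))) +
      PowerSeries.X * (PowerSeries.X *
        (PowerSeries.derivative ℝ (PowerSeries.mk bh * PowerSeries.mk (Ej μ)))) := by
    rw [(PowerSeries.derivative ℝ).leibniz, dE, smul_eq_mul, smul_eq_mul]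
    linear_combination (PowerSeries.mk (Ej μ)) * hS
  have h3 := congrArg (PowerSeries.coeff (k + 1)) hS2
  rw [map_add, map_add, PowerSeries.coeff_succ_X_mul, PowerSeries.coeff_succ_X_mul,
    PowerSeries.coeff_C_mul, PowerSeries.coeff_C_mul, PowerSeries.coeff_C_mul, ← cv_eq, ← cv_eq,
    ← cv_eq] at h3
  have h4 : PowerSeries.coeff k (PowerSeries.X *
      PowerSeries.derivative ℝ (PowerSeries.mk bh * PowerSeries.mk (Ej μ))) = k * cv bh (Ej μ) k := by
    rcases k with _ | k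
    · rw [PowerSeries.coeff_zero_X_mul]; simp
    · rw [PowerSeries.coeff_succ_X_mul, PowerSeries.coeff_derivative, ← cv_eq]; push_cast; ring
  rw [h4, hsr] at h3
  linarith

lemma interchange {w f : ℕ → ℝ} {μ C : ℝ} (hw : ∀ k, |w k| ≤ C) (hf : Summable fun i => |f i|) :
    ∑' k, w k * cv f (Ej μ) k = ∑' i, f i * ∑' j, Ej μ j * w (i + j) := by
  set F : ℕ × ℕ → ℝ := fun p => f p.1 * Ej μ p.2 * w (p.1 + p.2) with hF
  have hC : 0 ≤ C := (abs_nonneg _).trans (hw 0)
  have hs0 : Summable fun p : ℕ × ℕ => |f p.1| * |Ej μ p.2| :=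
    hf.mul_of_nonneg (Ej_abs μ) (fun _ => abs_nonneg _) (fun _ => abs_nonneg _)
  have hs : Summable F := by
    refine Summable.of_norm_bounded (hs0.mul_right C) fun p => ?_
    rw [hF, Real.norm_eq_abs, abs_mul, abs_mul]
    gcongr
    exact hw _
  have h1 : ∑' p, F p = ∑' i, ∑' j, F (i, j) := hs.tsum_prod
  have h2 : ∑' p, F p = ∑' k, ∑ p ∈ Finset.HasAntidiagonal.antidiagonal k, F p := by
    rw [← Finset.HasAntidiagonal.sigmaAntidiagonalEquivProd.tsum_eq F]
    have hs' := (Finset.HasAntidiagonal.sigmaAntidiagonalEquivProd.summable_iff (f := F)).2 hs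
    refine (Summable.tsum_sigma' (fun k => (hasSum_fintype _).summable) hs').trans ?_
    refine tsum_congr fun k => ?_
    rw [tsum_fintype]
    exact Finset.sum_coe_sort (Finset.HasAntidiagonal.antidiagonal k) F
  have h3 : ∀ k, w k * cv f (Ej μ) k = ∑ p ∈ Finset.HasAntidiagonal.antidiagonal k, F p := by
    intro k
    rw [cv, Finset.mul_sum]
    refine Finset.sum_congr rfl fun p hp => ?_
    rw [Finset.HasAntidiagonal.mem_antidiagonal] at hp
    simp only [hF, hp]; ring
  simp_rw [h3]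
  rw [← h2, h1]
  refine tsum_congr fun i => ?_
  rw [← tsum_mul_left]
  refine tsum_congr fun j => ?_
  simp only [hF]; ring

/-- Weighted tail sums. -/
noncomputable def tl (μ : ℝ) (w : ℕ → ℝ) (m : ℕ) : ℝ := ∑' j, Ej μ j * w (m + j)

lemma tl_hasSum {μ C : ℝ} {w : ℕ → ℝ} (hw : ∀ k, |w k| ≤ C) (m : ℕ) :
    HasSum (fun j => Ej μ j * w (m + j)) (tl μ w m) := by
  refine Summable.hasSum ?_
  refine Summable.of_norm_bounded ((Ej_abs μ).mul_right C) fun j => ?_
  rw [Real.norm_eq_abs, abs_mul]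
  gcongr
  exact hw _

lemma tl_hasSum' {μ C : ℝ} {w : ℕ → ℝ} (hw : ∀ k, |w k| ≤ C) (m : ℕ) :
    HasSum (fun j : ℕ => Ej μ j * ((j:ℝ) * w (m + j))) (μ * tl μ w (m + 1)) := by
  have h1 : HasSum (fun j : ℕ => Ej μ (j + 1) * (((j + 1 : ℕ) : ℝ) * w (m + (j + 1)))) (μ * tl μ w (m + 1)) := by
    refine ((tl_hasSum (μ := μ) hw (m + 1)).mul_left μ).congr_fun ?_
    intro j
    have := Ej_succ μ j
    rw [show m + 1 + j = m + (j + 1) by ring]
    push_cast
    linear_combination (w (m + (j + 1))) * this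
  have h2 := (hasSum_nat_add_iff (f := fun j : ℕ => Ej μ j * ((j:ℝ) * w (m + j))) 1).1 h1
  simpa using h2

/-- The tail sums of an adjoint solution. -/
lemma tl_rec {μ e r C : ℝ} (he : e ≠ 0) {w x : ℕ → ℝ} (hw : ∀ k, |w k| ≤ C) (hx : ∀ k, |x k| ≤ C)
    (h0 : μ * x 0 = e * w 0) (rx : ∀ m : ℕ, ((m:ℝ) + 1) * x m = μ * x (m + 1) - e * w (m + 1))
    (rw' : ∀ m : ℕ, (r + 1 + m) * w (m + 1) = e * x m - μ * w m) :
    tl μ w 0 = 0 ∧ (∀ m : ℕ, ((m:ℝ) + 1) * tl μ x m = -(e * tl μ w (m + 1))) ∧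
      ∀ m : ℕ, (r + 1 + m) * tl μ w (m + 1) + μ * tl μ w (m + 2) + μ * tl μ w m = e * tl μ x m := by
  refine ⟨?_, fun m => ?_, fun m => ?_⟩
  · have h1 := ((tl_hasSum (μ := μ) hx 0).mul_left μ).sub ((tl_hasSum (μ := μ) hw 0).mul_left e)
    have h2 : HasSum (fun j : ℕ => μ * (Ej μ j * x (0 + j)) - e * (Ej μ j * w (0 + j))) (μ * tl μ x 0) := by
      have h3 : HasSum (fun j : ℕ => μ * (Ej μ (j + 1) * x (0 + (j + 1))) - e * (Ej μ (j + 1) * w (0 + (j + 1))))
          (μ * tl μ x 0) := by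
        refine ((tl_hasSum (μ := μ) hx 0).mul_left μ).congr_fun ?_
        intro j
        have a1 := Ej_succ μ j
        have a2 := rx j
        simp only [zero_add]
        linear_combination (-Ej μ (j + 1)) * a2 + x j * a1
      have h4 := (hasSum_nat_add_iff
        (f := fun j : ℕ => μ * (Ej μ j * x (0 + j)) - e * (Ej μ j * w (0 + j))) 1).1 h3
      rw [Finset.sum_range_one, Ej_zero] at h4
      simp only [add_zero, one_mul] at h4
      rwa [h0, sub_self, add_zero] at h4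
    have := h1.unique h2
    have h5 : e * tl μ w 0 = 0 := by linarith
    exact (mul_eq_zero.1 h5).resolve_left he
  · have h1 := ((tl_hasSum (μ := μ) hx m).mul_left ((m:ℝ) + 1)).add (tl_hasSum' (μ := μ) hx m)
    have h2 := ((tl_hasSum (μ := μ) hx (m + 1)).mul_left μ).sub ((tl_hasSum (μ := μ) hw (m + 1)).mul_left e)
    have h3 := h1.unique (h2.congr_fun (fun j => by
      have := rx (m + j)
      rw [show m + 1 + j = m + j + 1 by ring]
      push_cast at this
      linear_combination (Ej μ j) * this))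
    linarith
  · have h1 := (((tl_hasSum (μ := μ) hw (m + 1)).mul_left (r + 1 + m))).add (tl_hasSum' (μ := μ) hw (m + 1))
    have h2 := ((tl_hasSum (μ := μ) hx m).mul_left e).sub ((tl_hasSum (μ := μ) hw m).mul_left μ)
    have h3 := h1.unique (h2.congr_fun (fun j => by
      have := rw' (m + j)
      rw [show m + 1 + j = m + j + 1 by ring]
      push_cast at this
      linear_combination (Ej μ j) * this))
    linarith

/-- Weights. -/
noncomputable def bw (r : ℕ) : ℕ → ℝ
  | 0 => 1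
  | m + 1 => -(bw r m * (m + 1) / (r + 1 + m))

lemma bw_succ (r m : ℕ) : ((r:ℝ) + 1 + m) * bw r (m + 1) = -((m + 1) * bw r m) := by
  have : (r:ℝ) + 1 + m ≠ 0 := by positivity
  rw [bw]; field_simp

lemma bw_abs (r m : ℕ) : |bw r m| ≤ 1 := by
  induction m with
  | zero => simp [bw]
  | succ m ih =>
    rw [bw, abs_neg, abs_div, abs_mul, abs_of_pos (by positivity : (0:ℝ) < (m:ℝ) + 1),
      abs_of_pos (by positivity : (0:ℝ) < (r:ℝ) + 1 + m), div_le_one (by positivity)]
    have : (0:ℝ) ≤ r := r.cast_nonneg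
    have h2 : |bw r m| * ((m:ℝ) + 1) ≤ 1 * ((m:ℝ) + 1) := by gcongr
    linarith

lemma cv_inv (μ : ℝ) (k : ℕ) : cv (Ej (-μ)) (Ej μ) (k + 1) = 0 := by
  have h := cv_deriv μ (Ej (-μ)) k
  have h2 : (fun i : ℕ => ((i:ℝ) + 1) * Ej (-μ) (i + 1)) = fun i => -μ * Ej (-μ) i := by
    funext i; exact Ej_succ (-μ) i
  rw [h2] at h
  have h3 : cv (fun i => -μ * Ej (-μ) i) (Ej μ) k = -μ * cv (Ej (-μ)) (Ej μ) k := by
    rw [cv, cv, Finset.mul_sum]
    exact Finset.sum_congr rfl fun _ _ => by ring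
  rw [h3] at h
  have h4 : ((k:ℝ) + 1) * cv (Ej (-μ)) (Ej μ) (k + 1) = 0 := by linarith
  exact (mul_eq_zero.1 h4).resolve_left (by positivity)

lemma cv_zero (f g : ℕ → ℝ) : cv f g 0 = f 0 * g 0 := by simp [cv]

lemma form_ne {r : ℕ} {μ e : ℝ} (hμ : 0 < μ) (he : 0 < e) {a b : ℕ → ℝ} (ha0 : a 0 ≠ 0)
    (hb0 : μ * b 0 = e * a 0) (ra : ∀ m : ℕ, ((m:ℝ) + 1) * a (m + 1) = μ * a m - e * b m)
    (rb : ∀ m : ℕ, μ * b (m + 1) = e * a (m + 1) - (r + 1 + m) * b m) {D : ℝ} (hD0 : 0 ≤ D)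
    (hD : ∀ m : ℕ, |a m| ≤ D / 2 ^ m ∧ |b m| ≤ D / 2 ^ m) : ∑' m, bw r m * a m * b m ≠ 0 := by
  intro hsum
  set w : ℕ → ℝ := fun m => bw r m * a m with hwd
  set x : ℕ → ℝ := fun m => bw r m * b m with hxd
  have hpow : ∀ m : ℕ, D / 2 ^ m ≤ D := fun m => div_le_self hD0 (one_le_pow₀ (by norm_num))
  have hw' : ∀ k, |w k| ≤ D / 2 ^ k := by
    intro k
    simp only [hwd]
    rw [abs_mul]
    calc |bw r k| * |a k| ≤ 1 * (D / 2 ^ k) := by
          gcongr
          · exact bw_abs r k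
          · exact (hD k).1
      _ = D / 2 ^ k := one_mul _
  have hw : ∀ k, |w k| ≤ D := fun k => (hw' k).trans (hpow k)
  have hx : ∀ k, |x k| ≤ D := by
    intro k
    simp only [hxd]
    rw [abs_mul]
    calc |bw r k| * |b k| ≤ 1 * (D / 2 ^ k) := by
          gcongr
          · exact bw_abs r k
          · exact (hD k).2
      _ ≤ D := by rw [one_mul]; exact hpow k
  obtain ⟨t0, t1, t2⟩ := tl_rec (μ := μ) (r := (r:ℝ)) he.ne' hw hx (by
      simp only [hwd, hxd, bw]; linarith)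
    (by
      intro m
      simp only [hwd, hxd]
      linear_combination (b m) * bw_succ r m - bw r (m + 1) * rb m)
    (by
      intro m
      simp only [hwd, hxd]
      linear_combination a (m + 1) * bw_succ r m - bw r m * ra m)
  set η := tl μ w with hη
  set ζ := tl μ x with hζ
  have h3 : ∀ m : ℕ, ((m:ℝ) + 1) * ((r + 1 + m) * η (m + 1) + μ * η (m + 2) + μ * η m) =
      -(e ^ 2 * η (m + 1)) := by
    intro m
    rw [t2]
    linear_combination e * t1 m
  have hη1 : η 1 ≠ 0 := by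
    intro h1
    have hz : ∀ m, η m = 0 ∧ η (m + 1) = 0 := by
      intro m
      induction m with
      | zero => exact ⟨t0, h1⟩
      | succ m ih =>
        refine ⟨ih.2, ?_⟩
        have h4 := h3 m
        rw [ih.1, ih.2] at h4
        have h5 : (((m:ℝ) + 1) * μ) * η (m + 2) = 0 := by linarith
        exact (mul_eq_zero.1 h5).resolve_left (by positivity)
    have h4 := interchange (μ := μ) (f := Ej (-μ)) hw (Ej_abs (-μ))
    have h5 : ∑' i, Ej (-μ) i * ∑' j, Ej μ j * w (i + j) = 0 := by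
      have : ∀ i, Ej (-μ) i * ∑' j, Ej μ j * w (i + j) = 0 := by
        intro i
        have := (hz i).1
        rw [hη, tl] at this
        rw [this, mul_zero]
      simp only [this, tsum_zero]
    have h6 : ∑' k, w k * cv (Ej (-μ)) (Ej μ) k = w 0 := by
      rw [tsum_eq_single 0]
      · rw [cv_zero, Ej_zero, Ej_zero]; ring
      · intro k hk
        obtain ⟨k, rfl⟩ := Nat.exists_eq_succ_of_ne_zero hk
        rw [Nat.succ_eq_add_one, cv_inv, mul_zero]
    rw [h5, h6] at h4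
    simp only [hwd, bw, one_mul] at h4
    exact ha0 h4
  -- decay of η
  set S := ∑' j, |Ej μ j| with hS
  have hηd : ∀ m, |η m| ≤ D * S / 2 ^ m := by
    intro m
    have h4 : ∀ j, ‖Ej μ j * w (m + j)‖ ≤ |Ej μ j| * (D / 2 ^ m) := by
      intro j
      rw [Real.norm_eq_abs, abs_mul]
      gcongr
      refine (hw' _).trans ?_
      gcongr
      · norm_num
      · omega
    have h5 := tsum_of_norm_bounded (((Ej_abs μ).mul_right (D / 2 ^ m)).hasSum) h4
    rw [tsum_mul_right] at h5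
    rw [hη, tl, ← Real.norm_eq_abs]
    refine h5.trans (le_of_eq ?_)
    rw [hS]; ring
  have hS0 : 0 ≤ S := tsum_nonneg fun _ => abs_nonneg _
  have hηs : Summable fun m => |η m| := by
    refine Summable.of_nonneg_of_le (fun _ => abs_nonneg _) hηd ?_
    have : (fun m : ℕ => D * S / 2 ^ m) = fun m : ℕ => D * S * (1 / 2 : ℝ) ^ m := by
      funext m; rw [one_div, inv_pow]; rfl
    rw [this]
    exact (summable_geometric_of_lt_one (by norm_num) (by norm_num)).mul_left _
  -- the hatted sequences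
  set bh : ℕ → ℝ := fun i => η (i + 1) with hbh
  set ah : ℕ → ℝ := fun i => Nat.casesOn i (μ * η 1 / e) (fun i => ζ i) with hah
  have ah0 : ah 0 = μ * η 1 / e := rfl
  have ahs : ∀ i, ah (i + 1) = ζ i := fun i => rfl
  have c1 : ∀ k : ℕ, ((k:ℝ) + 1) * cv ah (Ej μ) (k + 1) = μ * cv ah (Ej μ) k - e * cv bh (Ej μ) k := by
    intro k
    rw [cv_deriv]
    have : (fun i : ℕ => ((i:ℝ) + 1) * ah (i + 1)) = fun i => -e * bh i := by
      funext i
      rw [ahs, t1]; simp only [hbh]; ring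
    rw [this]
    have h3 : cv (fun i => -e * bh i) (Ej μ) k = -e * cv bh (Ej μ) k := by
      rw [cv, cv, Finset.mul_sum]
      exact Finset.sum_congr rfl fun _ _ => by ring
    rw [h3]; ring
  have c2 : ∀ k : ℕ, μ * cv bh (Ej μ) (k + 1) = e * cv ah (Ej μ) (k + 1) - (r + 1 + k) * cv bh (Ej μ) k := by
    intro k
    refine cv_rb (s := (r:ℝ) + 1) (r := (r:ℝ)) rfl ?_ ?_ ?_ k
    · rw [ah0]; simp only [hbh]; field_simp
    · have := t2 0
      rw [show ah 1 = ζ 0 from rfl]; simp only [hbh]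
      rw [t0] at this
      push_cast at this
      linarith
    · intro m
      have := t2 (m + 1)
      rw [show m + 2 = (m + 1) + 1 from rfl, ahs]; simp only [hbh]
      push_cast at this
      rw [← this]; ring
  have c0 : μ * cv bh (Ej μ) 0 = e * cv ah (Ej μ) 0 := by
    rw [cv_zero, cv_zero, ah0, Ej_zero]; simp only [hbh]; field_simp
  have hun : ∀ k, cv ah (Ej μ) k * a 0 = a k * cv ah (Ej μ) 0 ∧
      cv bh (Ej μ) k * a 0 = b k * cv ah (Ej μ) 0 := by
    intro k
    induction k with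
    | zero =>
      refine ⟨mul_comm _ _, ?_⟩
      have : μ * (cv bh (Ej μ) 0 * a 0) = μ * (b 0 * cv ah (Ej μ) 0) := by
        linear_combination a 0 * c0 - cv ah (Ej μ) 0 * hb0
      exact mul_left_cancel₀ hμ.ne' this
    | succ k ih =>
      have h4 : cv ah (Ej μ) (k + 1) * a 0 = a (k + 1) * cv ah (Ej μ) 0 := by
        have h5 : ((k:ℝ) + 1) * (cv ah (Ej μ) (k + 1) * a 0) = ((k:ℝ) + 1) * (a (k + 1) * cv ah (Ej μ) 0) := by
          linear_combination a 0 * c1 k - cv ah (Ej μ) 0 * ra k + μ * ih.1 - e * ih.2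
        exact mul_left_cancel₀ (by positivity) h5
      refine ⟨h4, ?_⟩
      have : μ * (cv bh (Ej μ) (k + 1) * a 0) = μ * (b (k + 1) * cv ah (Ej μ) 0) := by
        linear_combination a 0 * c2 k - cv ah (Ej μ) 0 * rb k + e * h4 - (r + 1 + k) * ih.2
      exact mul_left_cancel₀ hμ.ne' this
  -- T = 0
  have hT : ∑' i, η i * η (i + 1) = 0 := by
    have hbs : Summable fun i => |bh i| := (summable_nat_add_iff 1).2 hηs
    have h4 := interchange (μ := μ) (f := bh) hw hbs
    have h5 : ∑' k, w k * cv bh (Ej μ) k = 0 := by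
      have h6 : ∀ k, w k * cv bh (Ej μ) k = (bw r k * a k * b k) * (cv ah (Ej μ) 0 / a 0) := by
        intro k
        have := (hun k).2
        have h7 : cv bh (Ej μ) k = b k * cv ah (Ej μ) 0 / a 0 := by
          rw [eq_div_iff ha0]; exact this
        rw [h7]; simp only [hwd]; ring
      simp_rw [h6]
      rw [tsum_mul_right, hsum, zero_mul]
    rw [h5] at h4
    rw [h4]
    refine tsum_congr fun i => ?_
    simp only [hbh]
    rw [hη, tl]; ring
  -- positivity
  have hsη : Summable fun i => η i * η (i + 1) := by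
    refine Summable.of_norm_bounded (hηs.mul_right (D * S)) fun i => ?_
    rw [Real.norm_eq_abs, abs_mul]
    gcongr
    refine (hηd _).trans (div_le_self (by positivity) (one_le_pow₀ (by norm_num)))
  have hsη1 : HasSum (fun i => η (i + 1) * η (i + 1 + 1)) 0 := by
    have h4 := hsη.tsum_eq_zero_add
    rw [hT, t0, zero_mul, zero_add] at h4
    have h5 : Summable fun i => η (i + 1) * η (i + 1 + 1) := (summable_nat_add_iff 1).2 hsη
    rw [h4]; exact h5.hasSum
  have hsη0 : HasSum (fun i => η i * η (i + 1)) 0 := by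
    have := hsη.hasSum; rwa [hT] at this
  have hg : HasSum (fun m : ℕ => ((r + 1 + m) + e ^ 2 / (m + 1)) * η (m + 1) ^ 2) 0 := by
    have h4 := (hsη1.add hsη0).mul_left (-μ)
    rw [add_zero, mul_zero] at h4
    refine h4.congr_fun fun m => ?_
    have h5 := h3 m
    have h6 : ((m:ℝ) + 1) ≠ 0 := by positivity
    have h7 : (r + 1 + m) * η (m + 1) + μ * η (m + 2) + μ * η m = -(e ^ 2 / (m + 1) * η (m + 1)) := by
      field_simp
      linear_combination h5
    have h8 : η (m + 1 + 1) = η (m + 2) := rfl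
    rw [h8]
    linear_combination (η (m + 1)) * h7
  have hz := congrFun ((hasSum_zero_iff_of_nonneg (fun m => by
    positivity)).1 hg) 0
  simp only [Nat.cast_zero, add_zero, zero_add, Pi.zero_apply] at hz
  have h9 := (mul_eq_zero.1 hz).resolve_left (by positivity)
  exact hη1 (pow_eq_zero_iff two_ne_zero |>.1 h9)

end H535R3
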