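import Pool.Agent.H535R3.KD

set_option autoImplicit false
open Set Filter Topology Complex ComplexConjugate

namespace H535R3

/-- Fourier data of a symmetric periodic solution. -/
lemma fourier_data3 {n : ℕ} {μ ε : ℝ}
    (h : P (n + 1) (2 * μ) ε (Real.pi / 2) = Real.pi / 2 + 2 * Real.pi * ((n + 1 : ℤ) : ℝ)) :
    ∃ c : ℤ → ℝ, RRec n μ (ε / 2) c ∧ (∃ C, ∀ k, |c k| ≤ C) ∧
      (Summable c → ∀ t : ℝ, HasSum (fun k : ℤ => (c k : ℂ) * exp (I * k * t))
        (GG n μ ε (fl (n + 1) (2 * μ) ε (Real.pi / 2)) t)) ∧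
      ∀ k, (c k : ℂ) = cf (GG n μ ε (fl (n + 1) (2 * μ) ε (Real.pi / 2))) k := by
  set φ := fl (n + 1) (2 * μ) ε (Real.pi / 2) with hφ
  set G := GG n μ ε φ with hG
  have hsol : LSol n μ ε G := GG_sol (fl_sol (n + 1) (2 * μ) ε (Real.pi / 2))
  have hcont : Continuous G := continuous_iff_continuousAt.2 fun t => (hsol t).continuousAt
  have hper : ∀ t, G (t + 2 * Real.pi) = G t := by
    intro t
    rw [hG, GG, GG, exp_eq_exp_iff_exists_int]
    refine ⟨n, ?_⟩
    rw [gg, gg, hφ, (Cc_per h).2, fl_per h, Real.cos_add_two_pi]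
    push_cast
    ring
  have hsym : ∀ t, G (-t) = conj (G t) := by
    intro t
    rw [hG, GG, GG, ← exp_conj]
    congr 1
    rw [gg, gg, hφ, Cc_even, sym_sol, Real.cos_neg]
    simp only [map_add, map_mul, conj_ofReal, conj_I]
    push_cast
    ring
  have hreal : ∀ k, ((cf G k).re : ℂ) = cf G k := fun k => conj_eq_iff_re.1 (cf_conj hsym k)
  have hper' : Function.Periodic G (2 * Real.pi) := hper
  obtain ⟨C, hC⟩ := (hper'.isBounded_of_continuous Real.two_pi_pos.ne' hcont).exists_norm_le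
  refine ⟨fun k => (cf G k).re, ?_, ⟨C, fun k => ?_⟩, ?_, hreal⟩
  · intro k
    have h1 := cf_rec hsol hper hsym k
    rw [← hreal, ← hreal k, ← hreal (n - 1 - k)] at h1
    exact_mod_cast h1
  · exact (abs_re_le_norm _).trans (cf_bound (fun t => hC _ (mem_range_self t)) k)
  · intro hs t
    have hs2 : Summable (cf G) := by
      have : (cf G) = fun k => (((cf G k).re : ℝ) : ℂ) := funext fun k => (hreal k).symm
      rw [this]
      exact_mod_cast hs
    have := cf_expand hcont hper hs2 t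
    simp_rw [hreal]
    exact this


lemma GG_norm {n : ℕ} {μ ε : ℝ} (φ : ℝ → ℝ) (t : ℝ) :
    conj (GG n μ ε φ t) * GG n μ ε φ t = exp ((ε * Cc φ t - 2 * μ * Real.cos t : ℝ) : ℂ) := by
  rw [GG, ← exp_conj, ← exp_add]
  congr 1
  simp only [gg, map_add, map_mul, conj_ofReal, conj_I]
  push_cast
  ring

/-- Pairing. -/
lemma pairing {G : ℝ → ℂ} {R : ℝ → ℝ} {F c : ℤ → ℝ} (hG : Continuous G) (hc : ∀ k, (c k : ℂ) = cf G k)
    (hF : Summable fun k => |F k|) (hR : ∀ t, conj (HH F t) * G t = ((R t : ℝ) : ℂ))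
    {C : ℝ} (hC : ∀ t, ‖G t‖ ≤ C) (hRc : Continuous R)
    (hI : ∫ t in (-Real.pi)..Real.pi, Real.cos t * R t = 0) : ∑' k, F k * c (k + 1) = 0 := by
  have h1 : HasSum (fun k : ℤ => ∫ t in (-Real.pi)..Real.pi, (F k : ℂ) * (G t * exp (-(I * ((k + 1 : ℤ) : ℂ) * t))))
      (∫ t in (-Real.pi)..Real.pi, conj (HH F t) * G t * exp (-(I * t))) := by
    refine intervalIntegral.hasSum_integral_of_dominated_convergence (bound := fun k _ => |F k| * C)
      ?_ ?_ ?_ ?_ ?_
    · intro k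
      exact (by fun_prop : Continuous fun t : ℝ => (F k : ℂ) * (G t * exp (-(I * ((k + 1 : ℤ) : ℂ) * t)))).aestronglyMeasurable
    · intro k
      refine Eventually.of_forall fun t _ => ?_
      rw [norm_mul, norm_mul, Complex.norm_real, Real.norm_eq_abs]
      have : ‖exp (-(I * ((k + 1 : ℤ) : ℂ) * t))‖ = 1 := by
        have := norm_ek (-(k + 1)) t
        rw [← this]; congr 2; push_cast; ring
      rw [this, mul_one]
      exact mul_le_mul_of_nonneg_left (hC t) (abs_nonneg _)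
    · exact Eventually.of_forall fun t _ => hF.mul_right C
    · exact intervalIntegrable_const
    · refine Eventually.of_forall fun t _ => ?_
      have h2 := (HH_summable hF t).hasSum
      have h3 := Complex.hasSum_conj'.2 h2
      have h4 := (h3.mul_right (G t * exp (-(I * t))))
      have h5 : conj (HH F t) * (G t * exp (-(I * t))) = conj (HH F t) * G t * exp (-(I * t)) := by ring
      rw [← h5]
      refine h4.congr_fun fun k => ?_
      rw [map_mul, conj_ofReal, ← exp_conj]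
      have : exp (-(I * ((k + 1 : ℤ) : ℂ) * t)) = exp (conj (I * k * t)) * exp (-(I * t)) := by
        rw [← exp_add]; congr 1
        simp only [map_mul, conj_I, conj_ofReal, map_intCast]
        push_cast; ring
      rw [this]; ring
  have h2 : (∫ t in (-Real.pi)..Real.pi, conj (HH F t) * G t * exp (-(I * t))).re = 0 := by
    have h3 : ∀ t : ℝ, (conj (HH F t) * G t * exp (-(I * t))).re = Real.cos t * R t := by
      intro t
      rw [hR, re_ofReal_mul]
      have e1 : exp (-(I * t)) = Real.cos t - I * Real.sin t := by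
        rw [show -(I * (t:ℂ)) = ((-t : ℝ) : ℂ) * I by push_cast; ring, exp_mul_I]
        push_cast
        rw [Complex.cos_neg, Complex.sin_neg]; ring
      rw [e1, sub_re, ofReal_re, I_mul_re, ofReal_im, neg_zero, sub_zero, mul_comm]
    have h4 : Continuous fun t : ℝ => conj (HH F t) * G t * exp (-(I * t)) := by
      have : (fun t : ℝ => conj (HH F t) * G t * exp (-(I * t))) = fun t : ℝ => ((R t : ℝ) : ℂ) * exp (-(I * t)) := by
        funext t; rw [hR]
      rw [this]; fun_prop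
    have h5 := Complex.reCLM.intervalIntegral_comp_comm (μ := MeasureTheory.volume)
      (h4.intervalIntegrable (-Real.pi) Real.pi)
    simp only [Complex.reCLM_apply] at h5
    rw [← h5]
    simp_rw [h3]
    exact hI
  have h3 : HasSum (fun k : ℤ => ((2 * Real.pi * (F k * c (k + 1)) : ℝ) : ℂ))
      (∫ t in (-Real.pi)..Real.pi, conj (HH F t) * G t * exp (-(I * t))) := by
    refine h1.congr_fun fun k => ?_
    rw [intervalIntegral.integral_const_mul]
    have := hc (k + 1)
    rw [cf] at this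
    have hpi : (Real.pi : ℂ) ≠ 0 := by exact_mod_cast Real.pi_ne_zero
    push_cast
    rw [this]
    push_cast
    field_simp
  have h4 := Complex.hasSum_re h3
  rw [h2] at h4
  simp only [ofReal_re] at h4
  have h5 := h4.mul_left (1 / (2 * Real.pi))
  rw [mul_zero] at h5
  have h6 : HasSum (fun k : ℤ => F k * c (k + 1)) 0 := by
    refine h5.congr_fun fun k => ?_
    have := Real.pi_ne_zero
    field_simp
  exact h6.tsum_eq

lemma pq_form {r : ℕ} {μ e : ℝ} (hμ : 0 < μ) {a b p q : ℕ → ℝ} 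
    (hb0 : μ * b 0 = e * a 0) (ra : ∀ m : ℕ, ((m:ℝ) + 1) * a (m + 1) = μ * a m - e * b m)
    (rb : ∀ m : ℕ, μ * b (m + 1) = e * a (m + 1) - (r + 1 + m) * b m)
    (hp0 : μ * p 0 = e * q 0) (rp : ∀ m : ℕ, ((m:ℝ) + 1) * p m = μ * p (m + 1) - e * q (m + 1))
    (rq : ∀ m : ℕ, ((r:ℝ) + 1 + m) * q (m + 1) = e * p m - μ * q m) (m : ℕ) :
    p m * a 0 = q 0 * (bw r m * b m) ∧ q m * a 0 = q 0 * (bw r m * a m) := by
  induction m with
  | zero =>
    refine ⟨?_, by simp [bw]⟩
    have : μ * (p 0 * a 0) = μ * (q 0 * (bw r 0 * b 0)) := by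
      simp only [bw]
      linear_combination a 0 * hp0 - q 0 * hb0
    exact mul_left_cancel₀ hμ.ne' this
  | succ m ih =>
    have h1 : q (m + 1) * a 0 = q 0 * (bw r (m + 1) * a (m + 1)) := by
      have : ((r:ℝ) + 1 + m) * (q (m + 1) * a 0) = ((r:ℝ) + 1 + m) * (q 0 * (bw r (m + 1) * a (m + 1))) := by
        linear_combination a 0 * rq m + e * ih.1 - μ * ih.2 - q 0 * a (m + 1) * bw_succ r m +
          q 0 * bw r m * ra m
      exact mul_left_cancel₀ (by positivity) this
    refine ⟨?_, h1⟩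
    have : μ * (p (m + 1) * a 0) = μ * (q 0 * (bw r (m + 1) * b (m + 1))) := by
      linear_combination (-a 0) * rp m + e * h1 + ((m:ℝ) + 1) * ih.1 - q 0 * bw r (m + 1) * rb m +
        q 0 * b m * bw_succ r m
    exact mul_left_cancel₀ hμ.ne' this

/-- The pairing sum does not vanish. -/
lemma pair_ne {r : ℕ} {μ e : ℝ} (hμ : 0 < μ) (he : 0 < e) {a b p q : ℕ → ℝ} (ha0 : a 0 ≠ 0)
    (hb0 : μ * b 0 = e * a 0) (ra : ∀ m : ℕ, ((m:ℝ) + 1) * a (m + 1) = μ * a m - e * b m)
    (rb : ∀ m : ℕ, μ * b (m + 1) = e * a (m + 1) - (r + 1 + m) * b m) {D : ℝ} (hD0 : 0 ≤ D)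
    (hD : ∀ m : ℕ, |a m| ≤ D / 2 ^ m ∧ |b m| ≤ D / 2 ^ m) (hq0 : q 0 ≠ 0)
    (hp0 : μ * p 0 = e * q 0) (rp : ∀ m : ℕ, ((m:ℝ) + 1) * p m = μ * p (m + 1) - e * q (m + 1))
    (rq : ∀ m : ℕ, ((r:ℝ) + 1 + m) * q (m + 1) = e * p m - μ * q m) :
    ∑' m, (a m * p m + b m * q m) ≠ 0 := by
  have h1 : ∀ m, a m * p m + b m * q m = (2 * (q 0 / a 0)) * (bw r m * a m * b m) := by
    intro m
    obtain ⟨h2, h3⟩ := pq_form hμ hb0 ra rb hp0 rp rq m
    field_simp
    linear_combination a m * h2 + b m * h3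
  simp_rw [h1]
  rw [tsum_mul_left]
  refine mul_ne_zero (by positivity) (form_ne hμ he ha0 hb0 ra rb hD0 hD)

end H535R3
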