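import Pool.Agent.H535R3.KE

set_option autoImplicit false
open Set Filter Topology Complex ComplexConjugate

namespace H535R3

/-- Splitting of an integer sum supported outside a window. -/
lemma int_split {f : ℤ → ℝ} (hf : Summable f) {n : ℕ} (h0 : ∀ k : ℤ, -1 ≤ k → k < n → f k = 0) :
    ∑' k, f k = ∑' m : ℕ, (f (n + m) + f (-2 - m)) := by
  have s1 : Summable fun m : ℕ => f m := hf.comp_injective Nat.cast_injective
  have s2 : Summable fun m : ℕ => f (-(m + 1)) := hf.comp_injective (fun a b h => by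
    simp only [neg_inj, add_left_inj, Nat.cast_inj] at h; exact h)
  have s3 : Summable fun m : ℕ => f (n + m) := hf.comp_injective (fun a b h => by
    simp only [add_right_inj, Nat.cast_inj] at h; exact h)
  have s4 : Summable fun m : ℕ => f (-2 - m) := hf.comp_injective (fun a b h => by
    simp only [sub_right_inj, Nat.cast_inj] at h; exact h)
  rw [tsum_of_nat_of_neg_add_one s1 s2, Summable.tsum_add s3 s4]
  congr 1
  · rw [← s1.sum_add_tsum_nat_add n]
    rw [Finset.sum_eq_zero, zero_add]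
    · refine tsum_congr fun i => ?_
      congr 1; push_cast; ring
    · intro i hi
      exact h0 i (by omega) (by exact_mod_cast Finset.mem_range.1 hi)
  · rw [s2.tsum_eq_zero_add]
    have : f (-(((0:ℕ):ℤ) + 1)) = 0 := by
      rcases Nat.eq_zero_or_pos n with h | h
      · exact h0 _ (by norm_num) (by subst h; norm_num)
      · exact h0 _ (by norm_num) (by push_cast; omega)
    rw [this, zero_add]
    refine tsum_congr fun i => ?_
    congr 1; push_cast; ring

theorem Ic_ne {n : ℕ} {μ e : ℝ} (hμ : 0 < μ) (he : 0 < e)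
    (hall : ∀ x, P (n + 1) (2 * μ) (2 * e) x = x + 2 * Real.pi * ((n + 1 : ℤ) : ℝ)) :
    ∫ t in (-Real.pi)..Real.pi, Real.cos t *
      Real.exp (2 * e * Cc (fl (n + 1) (2 * μ) (2 * e) (Real.pi / 2)) t) ≠ 0 := by
  intro hI
  have hU := hall (Real.pi / 2)
  have hV : P (n + 1) (2 * μ) (-(2 * e)) (Real.pi / 2) = Real.pi / 2 + 2 * Real.pi * ((n + 1 : ℤ) : ℝ) := by
    have := (P_neg (n + 1) (2 * μ) (-(2 * e)) (Real.pi / 2)).1
    rw [neg_neg, hall] at this
    rw [this]; ring
  have e2 : 2 * e / 2 = e := by ring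
  have e3 : -(2 * e) / 2 = -e := by ring
  obtain ⟨c, hr, hb, hG, hcf⟩ := fourier_data3 hU
  obtain ⟨c', hr', hb', hG', -⟩ := fourier_data3 hV
  obtain ⟨hc1, hc1'⟩ := both_ne hμ he hr hb hG hr' hb' hG'
  obtain ⟨F, hF, hFb, hFG⟩ := second_gauge hU
  rw [e2] at hr hF
  rw [e3] at hr'
  have hF1 : F (-1) = 0 := F_neg_one hF hFb hr' hb' hc1'
  have hmid := F_middle hμ hF hF1
  have o1 : μ * F (-2) = e * F n := by
    have h1 := hF (-1)
    rw [hF1, show (-1:ℤ) - 1 = -2 by norm_num, show (n:ℤ) - 1 - -1 = n by ring] at h1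
    linarith
  have o2 : ∀ m : ℕ, ((m:ℝ) + 1) * F (n + (m + 1 : ℕ)) = μ * F (n + m) - e * F (-2 - m) := by
    intro m
    have h1 := hF (n + (m + 1 : ℕ))
    rw [show (n:ℤ) + ((m + 1 : ℕ) : ℤ) - 1 = n + m by push_cast; ring,
      show (n:ℤ) - 1 - (n + ((m + 1 : ℕ) : ℤ)) = -2 - m by push_cast; ring] at h1
    push_cast at h1 ⊢
    linear_combination h1
  have o3 : ∀ m : ℕ, μ * F (-2 - (m + 1 : ℕ)) = e * F (n + (m + 1 : ℕ)) - (n + 2 + m) * F (-2 - m) := by
    intro m
    have h1 := hF (-2 - m)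
    rw [show (-2:ℤ) - (m:ℤ) - 1 = -2 - ((m + 1 : ℕ) : ℤ) by push_cast; ring,
      show (n:ℤ) - 1 - (-2 - m) = n + ((m + 1 : ℕ) : ℤ) by push_cast; ring] at h1
    push_cast at h1 ⊢
    linear_combination -h1
  have hFn : F n ≠ 0 := by
    intro h0
    have key : ∀ m : ℕ, F (n + m) = 0 ∧ F (-2 - m) = 0 := by
      intro m
      induction m with
      | zero =>
        rw [h0, mul_zero] at o1
        have := (mul_eq_zero.1 o1).resolve_left hμ.ne'
        simpa using ⟨h0, this⟩
      | succ m ih =>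
        have h1 := o2 m
        rw [ih.1, ih.2, mul_zero, mul_zero, sub_zero] at h1
        have h2 := (mul_eq_zero.1 h1).resolve_left (by positivity)
        have h3 := o3 m
        rw [h2, ih.2, mul_zero, mul_zero, sub_zero] at h3
        exact ⟨h2, (mul_eq_zero.1 h3).resolve_left hμ.ne'⟩
    have hz : ∀ k, F k = 0 := by
      intro k
      by_cases hk1 : (n:ℤ) ≤ k
      · have := (key (k - n).toNat).1
        rwa [show (n:ℤ) + (((k - n).toNat : ℕ) : ℤ) = k by omega] at this
      · by_cases hk2 : k ≤ -2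
        · have := (key (-2 - k).toNat).2
          rwa [show (-2:ℤ) - (((-2 - k).toNat : ℕ) : ℤ) = k by omega] at this
        · exact hmid k (by omega) (by omega)
    have h2 := hFG 0
    apply mul_ne_zero (exp_ne_zero ((2 * μ * Real.cos 0 : ℝ) : ℂ)) (exp_ne_zero (gg n μ (2 * e)
      (fl (n + 1) (2 * μ) (2 * e) (Real.pi / 2)) 0))
    have h3 : HH F 0 = 0 := by rw [HH]; simp [hz]
    rw [h3] at h2
    exact h2.symm
  obtain ⟨D0, hD00, hD0⟩ := decay' hF hFb 3
  have sF := summable_c (summables hD0)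
  set φ := fl (n + 1) (2 * μ) (2 * e) (Real.pi / 2) with hφ
  have hsol : LSol n μ (2 * e) (GG n μ (2 * e) φ) := GG_sol (fl_sol _ _ _ _)
  have hcont : Continuous (GG n μ (2 * e) φ) := continuous_iff_continuousAt.2 fun t => (hsol t).continuousAt
  have hper : Function.Periodic (GG n μ (2 * e) φ) (2 * Real.pi) := by
    intro t
    rw [GG, GG, exp_eq_exp_iff_exists_int]
    refine ⟨n, ?_⟩
    rw [gg, gg, hφ, (Cc_per hU).2, fl_per hU, Real.cos_add_two_pi]
    push_cast
    ring
  obtain ⟨C, hC⟩ := (hper.isBounded_of_continuous Real.two_pi_pos.ne' hcont).exists_norm_le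
  have hCcc : Continuous (Cc φ) := continuous_iff_continuousAt.2 fun t =>
    (Cc_deriv (fl_sol _ _ _ _).cont t).continuousAt
  have hp := pairing (R := fun t => Real.exp (2 * e * Cc φ t)) hcont hcf sF (by
    intro t
    rw [hFG, map_mul, ← exp_conj, conj_ofReal, mul_assoc, GG_norm, ← exp_add, ofReal_exp]
    congr 1
    push_cast; ring) (C := C) (fun t => hC _ (mem_range_self t)) (by fun_prop) hI
  obtain ⟨B, hB⟩ := hb
  have sf : Summable fun k : ℤ => F k * c (k + 1) := by
    refine Summable.of_norm_bounded (sF.mul_right B) fun k => ?_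
    rw [Real.norm_eq_abs, abs_mul]
    gcongr
    exact hB _
  rw [int_split sf (n := n) (fun k h1 h2 => by rw [hmid k h1 h2, zero_mul])] at hp
  obtain ⟨D, hD0', hD⟩ := exp_decay hμ he (a := fun m => F (n + m)) (b := fun m => F (-2 - m)) o2 o3 (by
    obtain ⟨C, hC⟩ := hFb
    exact ⟨C, fun m => ⟨hC _, hC _⟩⟩)
  refine pair_ne (r := n + 1) hμ he (a := fun m => F (n + m)) (b := fun m => F (-2 - m))
    (p := fun m => c (n + 1 + m)) (q := fun m => c (-1 - m)) ?_ ?_ o2 ?_ hD0' hD ?_ ?_ ?_ ?_ ?_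
  · simpa using hFn
  · simpa using o1
  · intro m
    have := o3 m
    push_cast at this ⊢
    linarith
  · simpa using hc1
  · have := hr n
    rw [show (n:ℤ) - 1 - n = -1 by ring] at this
    push_cast at this
    simp only [Nat.cast_zero, add_zero, sub_zero]
    linarith
  · intro m
    have := hr (n + 1 + m)
    rw [show (n:ℤ) - 1 - (n + 1 + m) = -1 - ((m + 1 : ℕ) : ℤ) by push_cast; ring,
      show (n:ℤ) + 1 + m + 1 = n + 1 + ((m + 1 : ℕ) : ℤ) by push_cast; ring] at this
    push_cast at this ⊢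
    linarith
  · intro m
    have := hr (-1 - ((m + 1 : ℕ) : ℤ))
    rw [show (n:ℤ) - 1 - (-1 - ((m + 1 : ℕ) : ℤ)) = n + 1 + m by push_cast; ring,
      show (-1:ℤ) - ((m + 1 : ℕ) : ℤ) + 1 = -1 - m by push_cast; ring] at this
    push_cast at this ⊢
    linarith
  · rw [← hp]
    refine tsum_congr fun m => ?_
    rw [show (n:ℤ) + m + 1 = n + 1 + m by ring, show (-2:ℤ) - m + 1 = -1 - m by ring]

end H535R3
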