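import Pool.Agent.H535R3.KF

set_option autoImplicit false
open Set Filter Topology

namespace H535R3

lemma stay_pos_on {f f' : ℝ → ℝ} {T : ℝ} (hd : ∀ t, HasDerivAt f (f' t) t) (h0 : 0 ≤ f 0)
    (hz : ∀ t, 0 ≤ t → t ≤ T → f t = 0 → 0 < f' t) {t : ℝ} (ht : 0 < t) (htT : t ≤ T) : 0 < f t := by
  have hc : Continuous f := continuous_iff_continuousAt.2 fun t => (hd t).continuousAt
  by_contra hcon
  push Not at hcon
  obtain ⟨t0, h1, h2, h3⟩ : ∃ t0, 0 ≤ t0 ∧ t0 < t ∧ 0 < f t0 := by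
    rcases h0.lt_or_eq with h | h
    · exact ⟨0, le_rfl, ht, h⟩
    · have hp := hz 0 le_rfl (ht.le.trans htT) h.symm
      have h4 := (hasDerivAt_iff_tendsto_slope.1 (hd 0)).mono_left
        (nhdsWithin_mono 0 (fun t (ht : t ∈ Ioi (0:ℝ)) => (ne_of_gt ht : t ≠ 0)))
      have h5 : ∀ᶠ x in 𝓝[>] (0:ℝ), 0 < slope f 0 x := h4.eventually (lt_mem_nhds hp)
      obtain ⟨x, hx1, hx2⟩ := (h5.and (Ioo_mem_nhdsGT ht)).exists
      rw [slope_def_field, ← h, sub_zero, sub_zero] at hx1
      refine ⟨x, hx2.1.le, hx2.2, ?_⟩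
      have := mul_pos hx1 hx2.1
      rwa [div_mul_cancel₀ _ hx2.1.ne'] at this
  obtain ⟨s, hs1, hs2, hs3, hs4⟩ := first_zero h2.le hc.continuousOn h3 hcon
  have h6 := deriv_nonpos_of_first hs1 (hd s) hs3 hs4
  linarith [hz s (h1.trans hs1.le) (hs2.trans htT) hs3]

lemma sin_taylor (x : ℝ) {h : ℝ} (hh : |h| ≤ 1) :
    |Real.sin (x + h) - Real.sin x - h * Real.cos x| ≤ h ^ 2 := by
  have e1 : Real.sin (x + h) - Real.sin x - h * Real.cos x =
      Real.sin x * (Real.cos h - 1) + Real.cos x * (Real.sin h - h) := by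
    rw [Real.sin_add]; ring
  have h1 : |Real.cos h - 1| ≤ h ^ 2 / 2 := by
    rw [abs_le]
    have := Real.one_sub_sq_div_two_le_cos (x := h)
    have := Real.cos_le_one h
    constructor <;> nlinarith [sq_nonneg h]
  have h2 : |Real.sin h - h| ≤ h ^ 2 / 2 := by
    have a1 := Real.sin_bound hh
    have a2 : |h| ^ 3 ≤ h ^ 2 := by
      rw [← sq_abs h, pow_succ]
      have := mul_le_mul_of_nonneg_left hh (sq_nonneg |h|)
      linarith
    have a3 : |h| ^ 5 ≤ h ^ 2 := by
      have h3 : |h| ^ 5 = |h| ^ 3 * |h| ^ 2 := by ring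
      have h4 : |h| ^ 3 * |h| ^ 2 ≤ |h| ^ 3 * 1 :=
        mul_le_mul_of_nonneg_left (pow_le_one₀ (abs_nonneg _) hh) (by positivity)
      linarith
    have a4 : Real.sin h - h = (Real.sin h - (h - h ^ 3 / 6)) + (-(h ^ 3 / 6)) := by ring
    rw [a4]
    refine (abs_add_le _ _).trans ?_
    have a5 : |-(h ^ 3 / 6)| = |h| ^ 3 / 6 := by
      rw [abs_neg, abs_div, abs_pow]; norm_num
    rw [a5]
    have := sq_nonneg h
    linarith
  rw [e1]
  refine (abs_add_le _ _).trans ?_
  rw [abs_mul, abs_mul]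
  have b1 : |Real.sin x| * |Real.cos h - 1| ≤ 1 * (h ^ 2 / 2) :=
    mul_le_mul (Real.abs_sin_le_one x) h1 (abs_nonneg _) zero_le_one
  have b2 : |Real.cos x| * |Real.sin h - h| ≤ 1 * (h ^ 2 / 2) :=
    mul_le_mul (Real.abs_cos_le_one x) h2 (abs_nonneg _) zero_le_one
  linarith

lemma push_up {b a ε x η σ : ℝ} (hC : Cc (fl b a ε x) (2 * Real.pi) = 0)
    (hpos : 0 < ∫ u in (0:ℝ)..(2 * Real.pi), (η + σ * Real.cos u) * Real.exp (ε * Cc (fl b a ε x) u)) :
    ∀ᶠ s in 𝓝[>] (0:ℝ), P b a ε x < P (b + η * s) (a + σ * s) ε x := by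
  set φ := fl b a ε x with hφd
  have hφ : Sol b a ε φ := fl_sol b a ε x
  have hCc : Continuous (Cc φ) := continuous_iff_continuousAt.2 fun t => (Cc_deriv hφ.cont t).continuousAt
  set I := ∫ u in (0:ℝ)..(2 * Real.pi), (η + σ * Real.cos u) * Real.exp (ε * Cc φ u) with hI
  set J := ∫ u in (0:ℝ)..(2 * Real.pi), Real.exp (ε * Cc φ u) with hJ
  have hJ0 : 0 < J := intervalIntegral.intervalIntegral_pos_of_pos
    (Continuous.intervalIntegrable (by fun_prop) _ _) (fun _ => Real.exp_pos _) Real.two_pi_pos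
  set δ := I / (2 * J) with hδ
  have hδ0 : 0 < δ := by positivity
  set g : ℝ → ℝ := fun u => (η + σ * Real.cos u - δ) * Real.exp (ε * Cc φ u) with hg
  have hgc : Continuous g := by fun_prop
  set Y : ℝ → ℝ := fun t => Real.exp (-(ε * Cc φ t)) * ∫ u in (0:ℝ)..t, g u with hY
  have hYd : ∀ t, HasDerivAt Y (-ε * Real.cos (φ t) * Y t + (η + σ * Real.cos t - δ)) t := by
    intro t
    have h1 : HasDerivAt (fun t => ∫ u in (0:ℝ)..t, g u) (g t) t :=
      (hgc.integral_hasStrictDerivAt 0 t).hasDerivAt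
    have h2 : HasDerivAt (fun t => Real.exp (-(ε * Cc φ t)))
        (Real.exp (-(ε * Cc φ t)) * (-(ε * Real.cos (φ t)))) t :=
      (((Cc_deriv hφ.cont t).const_mul ε).neg).exp
    refine (h2.mul h1).congr_deriv ?_
    have h3 : Real.exp (-(ε * Cc φ t)) * Real.exp (ε * Cc φ t) = 1 := by
      rw [← Real.exp_add, neg_add_cancel, Real.exp_zero]
    simp only [hY, hg]
    linear_combination (η + σ * Real.cos t - δ) * h3
  have hY0 : Y 0 = 0 := by simp [hY]
  have hYT : Y (2 * Real.pi) = I / 2 := by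
    simp only [hY]
    rw [hC, mul_zero, neg_zero, Real.exp_zero, one_mul]
    have h1 : ∀ u, g u = (η + σ * Real.cos u) * Real.exp (ε * Cc φ u) - δ * Real.exp (ε * Cc φ u) := by
      intro u; simp only [hg]; ring
    simp_rw [h1]
    rw [intervalIntegral.integral_sub (Continuous.intervalIntegrable (by fun_prop) _ _)
      (Continuous.intervalIntegrable (by fun_prop) _ _), intervalIntegral.integral_const_mul, ← hI, ← hJ, hδ]
    field_simp
    ring
  have hYc : Continuous Y := continuous_iff_continuousAt.2 fun t => (hYd t).continuousAt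
  obtain ⟨K0, hK0⟩ := (isCompact_Icc (a := (0:ℝ)) (b := 2 * Real.pi)).exists_bound_of_continuousOn hYc.continuousOn
  set K := |K0| + 1 with hK
  have hKp : 0 < K := by positivity
  have hKb : ∀ t ∈ Icc (0:ℝ) (2 * Real.pi), |Y t| ≤ K := by
    intro t ht
    have := hK0 t ht
    rw [Real.norm_eq_abs] at this
    have h2 := le_abs_self K0
    linarith
  set s0 := min (1 / K) (δ / ((|ε| + 1) * K ^ 2)) with hs0
  have hs0p : 0 < s0 := by positivity
  filter_upwards [Ioo_mem_nhdsGT hs0p] with s hs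
  have hs1 : s * K ≤ 1 := by
    have := hs.2.le.trans (min_le_left _ _)
    rwa [le_div_iff₀ hKp] at this
  have hs2 : s * ((|ε| + 1) * K ^ 2) < δ := by
    have := hs.2.trans_le (min_le_right _ _)
    rwa [lt_div_iff₀ (by positivity)] at this
  have h1 := stay_pos_on (f := fun t => fl (b + η * s) (a + σ * s) ε x t - (φ t + s * Y t)) (T := 2 * Real.pi)
    (fun t => (fl_sol (b + η * s) (a + σ * s) ε x t).sub ((hφ t).add ((hYd t).const_mul s)))
    (by rw [fl_zero, hφd, fl_zero, hY0]; simp)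
    (fun t ht1 ht2 h0 => by
      have h2 : fl (b + η * s) (a + σ * s) ε x t = φ t + s * Y t := by linarith
      rw [h2]
      have h3 : |s * Y t| ≤ s * K := by
        rw [abs_mul, abs_of_pos hs.1]
        exact mul_le_mul_of_nonneg_left (hKb t ⟨ht1, ht2⟩) hs.1.le
      have h4 := sin_taylor (φ t) (h3.trans hs1)
      have h5 : (s * Y t) ^ 2 ≤ (s * K) ^ 2 := by
        rw [← sq_abs]; exact pow_le_pow_left₀ (abs_nonneg _) h3 2
      have h6 : ε * (Real.sin (φ t + s * Y t) - Real.sin (φ t) - s * Y t * Real.cos (φ t)) ≤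
          |ε| * (s * K) ^ 2 := by
        refine (le_abs_self _).trans ?_
        rw [abs_mul]
        gcongr
        exact h4.trans h5
      have h7 : |ε| * (s * K) ^ 2 < s * δ := by
        have h8 : |ε| * (s * K) ^ 2 ≤ s * (s * ((|ε| + 1) * K ^ 2)) := by
          have : 0 ≤ s ^ 2 * K ^ 2 := by positivity
          nlinarith
        exact h8.trans_lt (mul_lt_mul_of_pos_left hs2 hs.1)
      linarith) Real.two_pi_pos le_rfl
  have h2 : 0 < s * Y (2 * Real.pi) := by rw [hYT]; have := hs.1; positivity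
  have h3 : P b a ε x = φ (2 * Real.pi) := rfl
  have h4 : P (b + η * s) (a + σ * s) ε x = fl (b + η * s) (a + σ * s) ε x (2 * Real.pi) := rfl
  rw [h3, h4]
  linarith

/-- Change of sign. -/
lemma fl_flip (b a ε x t : ℝ) : fl (-b) (-a) ε (-x) t = -(fl b a ε x t) := by
  have h : Sol (-b) (-a) ε (fun t => -(fl b a ε x t)) := by
    intro t
    refine (fl_sol b a ε x t).neg.congr_deriv ?_
    rw [Real.sin_neg]; ring
  have h2 := congrFun h.eq_fl t
  simp only [fl_zero] at h2
  exact h2.symm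

lemma push_down {b a ε x η σ : ℝ} (hC : Cc (fl b a ε x) (2 * Real.pi) = 0)
    (hneg : ∫ u in (0:ℝ)..(2 * Real.pi), (η + σ * Real.cos u) * Real.exp (ε * Cc (fl b a ε x) u) < 0) :
    ∀ᶠ s in 𝓝[>] (0:ℝ), P (b + η * s) (a + σ * s) ε x < P b a ε x := by
  have hCe : Cc (fl (-b) (-a) ε (-x)) = Cc (fl b a ε x) := by
    funext t
    unfold Cc
    simp_rw [fl_flip, Real.cos_neg]
  have h1 := push_up (b := -b) (a := -a) (ε := ε) (x := -x) (η := -η) (σ := -σ) (by rw [hCe]; exact hC) (by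
    rw [hCe]
    have : ∀ u, (-η + -σ * Real.cos u) * Real.exp (ε * Cc (fl b a ε x) u) =
        -((η + σ * Real.cos u) * Real.exp (ε * Cc (fl b a ε x) u)) := by intro u; ring
    simp_rw [this]
    rw [intervalIntegral.integral_neg]
    linarith)
  filter_upwards [h1] with s hs
  have h2 : P (-b) (-a) ε (-x) = -(P b a ε x) := fl_flip b a ε x (2 * Real.pi)
  have h3 : P (-b + -η * s) (-a + -σ * s) ε (-x) = -(P (b + η * s) (a + σ * s) ε x) := by
    have := fl_flip (b + η * s) (a + σ * s) ε x (2 * Real.pi)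
    rw [show -(b + η * s) = -b + -η * s by ring, show -(a + σ * s) = -a + -σ * s by ring] at this
    exact this
  rw [h2, h3] at hs
  linarith

/-- Outside the slice on the right. -/
lemma right_of {r : ℤ} {ε b b' a : ℝ} (hb : (b', a) ∈ Ls r ε) (hlt : b' < b) (hn : (b, a) ∉ Ls r ε)
    (x : ℝ) : x + 2 * Real.pi * r < P b a ε x := by
  by_contra hc
  push Not at hc
  obtain ⟨x0, hx0⟩ := hb
  simp only at hx0
  have h1 := P_lt_of_b (a := a) (ε := ε) (x := x0) hlt
  have hcx : Continuous fun y : ℝ => P b a ε y - y :=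
    (continuous_P.comp (f := fun y : ℝ => (b, a, ε, y)) (by fun_prop)).sub continuous_id
  obtain ⟨y, hy⟩ := mem_range_of_exists_le_of_exists_ge hcx
    (c := 2 * Real.pi * r) ⟨x, by linarith⟩ ⟨x0, by linarith⟩
  exact hn ⟨y, by simp only at hy ⊢; linarith⟩

lemma left_of {r : ℤ} {ε b b' a : ℝ} (hb : (b', a) ∈ Ls r ε) (hlt : b < b') (hn : (b, a) ∉ Ls r ε)
    (x : ℝ) : P b a ε x < x + 2 * Real.pi * r := by
  by_contra hc
  push Not at hc
  obtain ⟨x0, hx0⟩ := hb
  simp only at hx0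
  have h1 := P_lt_of_b (a := a) (ε := ε) (x := x0) hlt
  have hcx : Continuous fun y : ℝ => P b a ε y - y :=
    (continuous_P.comp (f := fun y : ℝ => (b, a, ε, y)) (by fun_prop)).sub continuous_id
  obtain ⟨y, hy⟩ := mem_range_of_exists_le_of_exists_ge hcx
    (c := 2 * Real.pi * r) ⟨x0, by linarith⟩ ⟨x, by linarith⟩
  exact hn ⟨y, by simp only at hy ⊢; linarith⟩

/-- If both branches are vertical on one side, the weighted mean of `cos` vanishes. -/
lemma tangency {r : ℤ} {ε b a σ : ℝ} (hσ : σ ≠ 0) {gm gp : ℝ → ℝ}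
    (hg : ∀ b' a', (b', a') ∈ Ls r ε ↔ gm a' ≤ b' ∧ b' ≤ gp a') (hle : ∀ a', gm a' ≤ gp a')
    (hall : ∀ x, P b a ε x = x + 2 * Real.pi * r)
    (hp : ∀ η, 0 < η → ∀ᶠ s in 𝓝[>] (0:ℝ), gp (a + σ * s) < b + η * s)
    (hm : ∀ η, 0 < η → ∀ᶠ s in 𝓝[>] (0:ℝ), b - η * s < gm (a + σ * s)) :
    ∫ u in (0:ℝ)..(2 * Real.pi), Real.cos u * Real.exp (ε * Cc (fl b a ε (Real.pi / 2)) u) = 0 := by
  set φ := fl b a ε (Real.pi / 2) with hφd
  have hφ : Sol b a ε φ := fl_sol _ _ _ _
  have hC := (Cc_per (hall (Real.pi / 2))).1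
  have hCc : Continuous (Cc φ) := continuous_iff_continuousAt.2 fun t => (Cc_deriv hφ.cont t).continuousAt
  set J := ∫ u in (0:ℝ)..(2 * Real.pi), Real.exp (ε * Cc φ u) with hJ
  set K := ∫ u in (0:ℝ)..(2 * Real.pi), Real.cos u * Real.exp (ε * Cc φ u) with hK
  have hJ0 : 0 < J := intervalIntegral.intervalIntegral_pos_of_pos
    (Continuous.intervalIntegrable (by fun_prop) _ _) (fun _ => Real.exp_pos _) Real.two_pi_pos
  have hlin : ∀ η : ℝ, ∫ u in (0:ℝ)..(2 * Real.pi), (η + σ * Real.cos u) * Real.exp (ε * Cc φ u) =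
      η * J + σ * K := by
    intro η
    have : ∀ u, (η + σ * Real.cos u) * Real.exp (ε * Cc φ u) = η * Real.exp (ε * Cc φ u) +
        σ * (Real.cos u * Real.exp (ε * Cc φ u)) := by intro u; ring
    simp_rw [this]
    rw [intervalIntegral.integral_add (Continuous.intervalIntegrable (by fun_prop) _ _)
      (Continuous.intervalIntegrable (by fun_prop) _ _), intervalIntegral.integral_const_mul,
      intervalIntegral.integral_const_mul]
  -- for η > 0
  have h1 : ∀ η, 0 < η → 0 ≤ η * J + σ * K := by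
    intro η hη
    by_contra hc
    push Not at hc
    have h2 := push_down (b := b) (a := a) (ε := ε) (x := Real.pi / 2) (η := η) (σ := σ) hC (by
      rw [← hφd, hlin]; exact hc)
    obtain ⟨s, hs1, hs2⟩ := (h2.and (hp η hη)).exists
    have h3 := right_of (b := b + η * s) ((hg (gp (a + σ * s)) (a + σ * s)).2 ⟨hle _, le_rfl⟩) hs2 (by
      rw [hg]; rintro ⟨-, h4⟩; linarith) (Real.pi / 2)
    rw [hall] at hs1
    linarith
  have h2 : ∀ η, 0 < η → -η * J + σ * K ≤ 0 := by
    intro η hη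
    by_contra hc
    push Not at hc
    have h2 := push_up (b := b) (a := a) (ε := ε) (x := Real.pi / 2) (η := -η) (σ := σ) hC (by
      rw [← hφd, hlin]; exact hc)
    obtain ⟨s, hs1, hs2⟩ := (h2.and (hm η hη)).exists
    have h3 := left_of (b := b + -η * s) ((hg (gm (a + σ * s)) (a + σ * s)).2 ⟨le_rfl, hle _⟩) (by linarith) (by
      rw [hg]; rintro ⟨h4, -⟩; linarith) (Real.pi / 2)
    rw [hall] at hs1
    linarith
  have h3 : σ * K = 0 := by
    by_contra hne
    rcases lt_or_gt_of_ne hne with h | h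
    · have h4 := h1 (-(σ * K) / (2 * J)) (div_pos (by linarith) (by positivity))
      have : -(σ * K) / (2 * J) * J = -(σ * K) / 2 := by field_simp
      rw [this] at h4; linarith
    · have h4 := h2 (σ * K / (2 * J)) (by positivity)
      have : -(σ * K / (2 * J)) * J = -(σ * K) / 2 := by field_simp
      rw [this] at h4; linarith
  exact (mul_eq_zero.1 h3).resolve_left hσ

end H535R3
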