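import Pool.Agent.H535R3.KG

set_option autoImplicit false
open Set Filter Topology Complex ComplexConjugate

namespace H535R3

lemma exp_decay0 {r : ℕ} {μ e : ℝ} (hμ : 0 < μ) (he : 0 < e) {a b : ℕ → ℝ}
    (ra : ∀ m : ℕ, ((m:ℝ) + 1) * a (m + 1) = μ * a m - e * b m)
    (rb : ∀ m : ℕ, μ * b (m + 1) = e * a (m + 1) - (r + 1 + m) * b m)
    (hC : ∃ C, ∀ m, |a m| ≤ C ∧ |b m| ≤ C) :
    ∃ D, 0 ≤ D ∧ ∀ m : ℕ, |a m| ≤ D / 2 ^ m ∧ |b m| ≤ D / 2 ^ m := by
  obtain ⟨C, hC⟩ := hC
  have hC0 : 0 ≤ C := (abs_nonneg _).trans (hC 0).1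
  obtain ⟨M0, hM0⟩ := exists_nat_ge (2 * (μ + e))
  have key : ∀ j i : ℕ, M0 + j ≤ i → |a i| ≤ C / 2 ^ j ∧ |b i| ≤ C / 2 ^ j := by
    intro j
    induction j with
    | zero => intro i _; simpa using hC i
    | succ j ih =>
      intro i hi
      obtain ⟨i', rfl⟩ : ∃ i', i = i' + 1 := ⟨i - 1, by omega⟩
      have hi' : M0 + j ≤ i' := by omega
      have hMi : (M0:ℝ) ≤ i' := by exact_mod_cast (by omega : M0 ≤ i')
      have hD0 : 0 ≤ C / 2 ^ j := by positivity
      have hn : (0:ℝ) ≤ r := r.cast_nonneg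
      have e1 : C / 2 ^ (j + 1) = C / 2 ^ j / 2 := by rw [pow_succ, div_div]
      rw [e1]
      set D := C / 2 ^ j
      constructor
      · have h1 : |((i':ℝ) + 1) * a (i' + 1)| ≤ (μ + e) * D := by
          rw [ra]
          refine (abs_sub _ _).trans ?_
          rw [abs_mul, abs_mul, abs_of_pos hμ, abs_of_pos he, add_mul]
          gcongr
          · exact (ih i' hi').1
          · exact (ih i' hi').2
        rw [abs_mul, abs_of_pos (by positivity : (0:ℝ) < (i':ℝ) + 1)] at h1
        have h2 : (μ + e) * D ≤ ((i':ℝ) + 1) * (D / 2) := by nlinarith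
        exact le_of_mul_le_mul_left (h1.trans h2) (by positivity)
      · have h0 := rb (i' + 1)
        have h1 : |((r:ℝ) + 1 + (i' + 1 : ℕ)) * b (i' + 1)| ≤ (μ + e) * D := by
          have : ((r:ℝ) + 1 + (i' + 1 : ℕ)) * b (i' + 1) = e * a (i' + 1 + 1) - μ * b (i' + 1 + 1) := by
            linarith
          rw [this]
          refine (abs_sub _ _).trans ?_
          rw [abs_mul, abs_mul, abs_of_pos hμ, abs_of_pos he, add_mul, add_comm]
          gcongr
          · exact (ih (i' + 1 + 1) (by omega)).2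
          · exact (ih (i' + 1 + 1) (by omega)).1
        rw [abs_mul, abs_of_pos (by positivity : (0:ℝ) < (r:ℝ) + 1 + (i' + 1 : ℕ))] at h1
        have h2 : (μ + e) * D ≤ ((r:ℝ) + 1 + (i' + 1 : ℕ)) * (D / 2) := by
          push_cast; nlinarith
        exact le_of_mul_le_mul_left (h1.trans h2) (by positivity)
  refine ⟨C * 2 ^ M0, by positivity, fun m => ?_⟩
  by_cases hm : M0 ≤ m
  · have h1 := key (m - M0) m (by omega)
    have e1 : C / 2 ^ (m - M0) = C * 2 ^ M0 / 2 ^ m := by
      rw [div_eq_div_iff (by positivity) (by positivity), mul_assoc, ← pow_add,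
        show M0 + (m - M0) = m by omega]
    rw [e1] at h1
    exact h1
  · have h2 : C ≤ C * 2 ^ M0 / 2 ^ m := by
      rw [le_div_iff₀ (by positivity)]
      have : (2:ℝ) ^ m ≤ 2 ^ M0 := pow_le_pow_right₀ (by norm_num) (by omega)
      gcongr
    exact ⟨(hC m).1.trans h2, (hC m).2.trans h2⟩


theorem Ic_ne0 {μ e : ℝ} (hμ : 0 < μ) (he : 0 < e)
    (hall : ∀ x, P 0 (2 * μ) (2 * e) x = x) :
    ∫ t in (-Real.pi)..Real.pi, Real.cos t *
      Real.exp (2 * e * Cc (fl 0 (2 * μ) (2 * e) (Real.pi / 2)) t) ≠ 0 := by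
  intro hI
  have hU : P 0 (2 * μ) (2 * e) (Real.pi / 2) = Real.pi / 2 + 2 * Real.pi * ((0:ℤ) : ℝ) := by
    rw [hall]; simp
  set φ := fl 0 (2 * μ) (2 * e) (Real.pi / 2) with hφ
  set G : ℝ → ℂ := fun t => exp (hh μ (2 * e) 0 φ t) with hG
  have hsol : ∀ t, HasDerivAt G (lvg 0 μ e 0 t (G t)) t := by
    intro t
    have := hh_sol (r := 0) (fl_sol 0 (2 * μ) (2 * e) (Real.pi / 2)) t
    rw [← hφ] at this
    refine this.congr_deriv ?_
    simp only [hG, lvg]
    push_cast
    ring
  have hcont : Continuous G := continuous_iff_continuousAt.2 fun t => (hsol t).continuousAt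
  have hper : ∀ t, G (t + 2 * Real.pi) = G t := by
    intro t
    simp only [hG]
    congr 1
    rw [hh, hh, hφ, (Cc_per hU).2, fl_per hU, Real.cos_add_two_pi]
    push_cast
    ring
  have hsym : ∀ t, G (-t) = conj (G t) := by
    intro t
    simp only [hG]
    rw [← exp_conj]
    congr 1
    rw [hh, hh, hφ, Cc_even, sym_sol, Real.cos_neg]
    simp only [map_add, map_mul, conj_ofReal, conj_I]
    push_cast
    ring
  have hreal : ∀ k, ((cf G k).re : ℂ) = cf G k := fun k => conj_eq_iff_re.1 (cf_conj hsym k)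
  have hper' : Function.Periodic G (2 * Real.pi) := hper
  obtain ⟨C, hC⟩ := (hper'.isBounded_of_continuous Real.two_pi_pos.ne' hcont).exists_norm_le
  set c : ℤ → ℝ := fun k => (cf G k).re with hc
  have hr : ∀ k : ℤ, μ * c (k + 1) - k * c k = e * c (-k) := by
    intro k
    have h1 := cf_rec3 (ν := 0) (μ := μ) (e := e) (r := 0) hsol hper hsym k
    rw [← hreal, ← hreal k, ← hreal (-0 - k), show -(0:ℤ) - k = -k by ring] at h1
    have h2 : μ * (cf G (k + 1)).re + (0 - (k:ℝ)) * (cf G k).re = e * (cf G (-k)).re := by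
      exact_mod_cast h1
    simp only [hc]
    linarith
  have hcb : ∀ k, |c k| ≤ C := fun k =>
    (abs_re_le_norm _).trans (cf_bound (fun t => hC _ (mem_range_self t)) k)
  -- second gauge
  set Z : ℝ → ℂ := fun t => exp ((2 * μ * Real.cos t : ℝ) : ℂ) * G (-t) with hZ
  have hZsol : ∀ t, HasDerivAt Z (lvg 0 (-μ) (-e) 0 t (Z t)) t := by
    intro t
    have h1 : HasDerivAt (fun t : ℝ => 2 * μ * Real.cos t) (2 * μ * (-Real.sin t)) t :=
      (Real.hasDerivAt_cos t).const_mul _
    have h3 : HasDerivAt (fun t : ℝ => G (-t)) ((-1 : ℝ) • (lvg 0 μ e 0 (-t : ℝ) (G (-t)))) t :=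
      (hsol (-t)).scomp t (hasDerivAt_neg t)
    have h2 := (h1.ofReal_comp.cexp).mul h3
    refine h2.congr_deriv ?_
    have e1 : exp (-(I * t)) = Real.cos t - I * Real.sin t := by
      rw [show -(I * (t:ℂ)) = ((-t : ℝ) : ℂ) * I by push_cast; ring, exp_mul_I]
      push_cast
      rw [Complex.cos_neg, Complex.sin_neg]; ring
    have e2 : exp (-(I * ((-t : ℝ) : ℂ))) = Real.cos t + I * Real.sin t := by
      rw [show -(I * ((-t : ℝ):ℂ)) = (t : ℂ) * I by push_cast; ring, exp_mul_I]
      push_cast; ring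
    simp only [lvg, hZ, map_mul, e1, e2, ← exp_conj, conj_ofReal, Int.cast_zero, mul_zero, zero_mul,
      neg_zero, exp_zero, mul_one, real_smul]
    push_cast
    have hI : I * I = -1 := I_mul_I
    linear_combination (-(2 * μ * Complex.sin t * exp (2 * μ * Complex.cos t) * G (-t))) * hI
  have hZper : ∀ t, Z (t + 2 * Real.pi) = Z t := by
    intro t
    simp only [hZ, Real.cos_add_two_pi]
    congr 1
    have := hper (-(t + 2 * Real.pi))
    rw [show -(t + 2 * Real.pi) + 2 * Real.pi = -t by ring] at this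
    exact this.symm
  have hZsym : ∀ t, Z (-t) = conj (Z t) := by
    intro t
    simp only [hZ, Real.cos_neg, map_mul, ← exp_conj, conj_ofReal]
    rw [← hsym (-t)]
  have hZreal : ∀ k, ((cf Z k).re : ℂ) = cf Z k := fun k => conj_eq_iff_re.1 (cf_conj hZsym k)
  have hZcont : Continuous Z := continuous_iff_continuousAt.2 fun t => (hZsol t).continuousAt
  have hZper' : Function.Periodic Z (2 * Real.pi) := hZper
  obtain ⟨C', hC'⟩ := (hZper'.isBounded_of_continuous Real.two_pi_pos.ne' hZcont).exists_norm_le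
  set F : ℤ → ℝ := fun k => (cf Z (-k)).re with hF
  have hFr : ∀ k : ℤ, k * F k = μ * F (k - 1) - e * F (-k) := by
    intro k
    have h1 := cf_rec3 (ν := 0) (μ := -μ) (e := -e) (r := 0) (by
      intro t; have := hZsol t; push_cast; simpa using this) hZper hZsym (-k)
    rw [← hZreal, ← hZreal (-k), ← hZreal (-0 - -k), show -(0:ℤ) - -k = - -k by ring] at h1
    have h2 : -μ * (cf Z (-k + 1)).re + (0 - ((-k : ℤ):ℝ)) * (cf Z (-k)).re = -e * (cf Z (- -k)).re := by
      exact_mod_cast h1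
    simp only [hF]
    rw [show -(k - 1) = -k + 1 by ring]
    push_cast at h2
    linarith
  have hFb : ∀ k, |F k| ≤ C' := fun k =>
    (abs_re_le_norm _).trans (cf_bound (fun t => hC' _ (mem_range_self t)) (-k))
  have ra : ∀ m : ℕ, ((m:ℝ) + 1) * F ((m + 1 : ℕ) : ℤ) = μ * F m - e * F (-1 - m) := by
    intro m
    have := hFr ((m + 1 : ℕ) : ℤ)
    rw [show ((m + 1 : ℕ) : ℤ) - 1 = m by push_cast; ring,
      show -((m + 1 : ℕ) : ℤ) = -1 - m by push_cast; ring] at this
    push_cast at this ⊢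
    linarith
  have rb : ∀ m : ℕ, μ * F (-1 - ((m + 1 : ℕ) : ℤ)) = e * F ((m + 1 : ℕ) : ℤ) -
      (((0:ℕ):ℝ) + 1 + m) * F (-1 - m) := by
    intro m
    have := hFr (-1 - m)
    rw [show (-1:ℤ) - m - 1 = -1 - ((m + 1 : ℕ) : ℤ) by push_cast; ring,
      show -((-1:ℤ) - m) = ((m + 1 : ℕ) : ℤ) by push_cast; ring] at this
    push_cast at this ⊢
    linarith
  have hb0 : μ * F (-1 - ((0:ℕ):ℤ)) = e * F ((0:ℕ):ℤ) := by
    have := hFr 0
    simp only [Int.cast_zero, zero_mul, zero_sub, neg_zero] at this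
    simp only [Nat.cast_zero, sub_zero]
    linarith
  obtain ⟨D, hD0, hD⟩ := exp_decay0 (r := 0) hμ he (a := fun m : ℕ => F m) (b := fun m : ℕ => F (-1 - m)) ra rb
    ⟨C', fun m => ⟨hFb _, hFb _⟩⟩
  have hgeo : Summable fun m : ℕ => D / 2 ^ m := by
    have : (fun m : ℕ => D / 2 ^ m) = fun m : ℕ => D * (1 / 2 : ℝ) ^ m := by
      funext m; rw [one_div, inv_pow]; rfl
    rw [this]
    exact (summable_geometric_of_lt_one (by norm_num) (by norm_num)).mul_left _
  have sF : Summable fun k => |F k| := by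
    refine Summable.of_nat_of_neg_add_one ?_ ?_
    · exact Summable.of_nonneg_of_le (fun _ => abs_nonneg _) (fun m => (hD m).1) hgeo
    · refine Summable.of_nonneg_of_le (fun _ => abs_nonneg _) (fun m => ?_) hgeo
      have := (hD m).2
      rwa [show -((m:ℤ) + 1) = -1 - m by ring]
  have hHF : ∀ t, HH F t = exp ((2 * μ * Real.cos t : ℝ) : ℂ) * G t := by
    intro t
    have s1 : Summable (cf Z) := by
      have h1 : Summable fun k => |F (-k)| := (Equiv.neg ℤ).summable_iff.2 sF
      have h2 : (cf Z) = fun k => ((F (-k) : ℝ) : ℂ) := by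
        funext k; simp only [hF, neg_neg]; exact (hZreal k).symm
      rw [h2]
      exact_mod_cast h1.of_abs
    have h3 := cf_expand hZcont hZper s1 (-t)
    have h4 := (Equiv.neg ℤ).hasSum_iff.2 h3
    have h5 : Z (-t) = exp ((2 * μ * Real.cos t : ℝ) : ℂ) * G t := by
      simp only [hZ, Real.cos_neg, neg_neg]
    rw [← h5, HH]
    refine HasSum.tsum_eq ?_
    refine h4.congr_fun fun k => ?_
    simp only [Function.comp, Equiv.neg_apply, hF]
    rw [hZreal]
    congr 2
    push_cast; ring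
  have hGne : ∀ t, G t ≠ 0 := fun t => exp_ne_zero _
  have hF0 : F ((0:ℕ):ℤ) ≠ 0 := by
    intro h0
    have key : ∀ m : ℕ, F m = 0 ∧ F (-1 - m) = 0 := by
      intro m
      induction m with
      | zero =>
        rw [h0, mul_zero] at hb0
        exact ⟨h0, (mul_eq_zero.1 hb0).resolve_left hμ.ne'⟩
      | succ m ih =>
        have h1 := ra m
        rw [ih.1, ih.2, mul_zero, mul_zero, sub_zero] at h1
        have h2 := (mul_eq_zero.1 h1).resolve_left (by positivity)
        have h3 := rb m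
        rw [h2, ih.2, mul_zero, mul_zero, sub_zero] at h3
        exact ⟨h2, (mul_eq_zero.1 h3).resolve_left hμ.ne'⟩
    have hz : ∀ k, F k = 0 := by
      intro k
      by_cases hk1 : 0 ≤ k
      · have := (key k.toNat).1
        rwa [show ((k.toNat : ℕ) : ℤ) = k by omega] at this
      · have := (key (-1 - k).toNat).2
        rwa [show (-1:ℤ) - (((-1 - k).toNat : ℕ) : ℤ) = k by omega] at this
    have h2 := hHF 0
    have h3 : HH F 0 = 0 := by rw [HH]; simp [hz]
    rw [h3] at h2
    exact mul_ne_zero (exp_ne_zero _) (hGne 0) h2.symm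
  have rp : ∀ m : ℕ, ((m:ℝ) + 1) * c (m + 1) = μ * c (((m + 1 : ℕ) : ℤ) + 1) - e * c (-((m + 1 : ℕ) : ℤ)) := by
    intro m
    have := hr (m + 1)
    push_cast at this ⊢
    linarith
  have rq : ∀ m : ℕ, (((0:ℕ):ℝ) + 1 + m) * c (-((m + 1 : ℕ) : ℤ)) = e * c (m + 1) - μ * c (-(m:ℤ)) := by
    intro m
    have := hr (-((m + 1 : ℕ) : ℤ))
    rw [show -((m + 1 : ℕ) : ℤ) + 1 = -m by push_cast; ring,
      show - -((m + 1 : ℕ) : ℤ) = m + 1 by push_cast; ring] at this
    push_cast at this ⊢
    linarith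
  have hp0 : μ * c (((0:ℕ):ℤ) + 1) = e * c (-((0:ℕ):ℤ)) := by
    have := hr 0
    simp only [Int.cast_zero, zero_mul, sub_zero, neg_zero] at this
    simpa using this
  have hc0 : c (-((0:ℕ):ℤ)) ≠ 0 := by
    intro h0
    have key : ∀ m : ℕ, c (m + 1) = 0 ∧ c (-(m:ℤ)) = 0 := by
      intro m
      induction m with
      | zero =>
        rw [h0, mul_zero] at hp0
        exact ⟨(mul_eq_zero.1 hp0).resolve_left hμ.ne', h0⟩
      | succ m ih =>
        have h1 := rq m
        rw [ih.1, ih.2, mul_zero, mul_zero, sub_zero] at h1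
        have h2 := (mul_eq_zero.1 h1).resolve_left (by positivity)
        have h3 := rp m
        rw [h2, ih.1, mul_zero, mul_zero, sub_zero] at h3
        exact ⟨(mul_eq_zero.1 h3.symm).resolve_left hμ.ne', h2⟩
    have hz : ∀ k, cf G k = 0 := by
      intro k
      rw [← hreal]
      have : c k = 0 := by
        by_cases hk1 : 1 ≤ k
        · have := (key (k - 1).toNat).1
          rwa [show (((k - 1).toNat : ℕ) : ℤ) + 1 = k by omega] at this
        · have := (key (-k).toNat).2
          rwa [show -(((-k).toNat : ℕ) : ℤ) = k by omega] at this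
      simp only [hc] at this
      rw [this]; simp
    have h1 : cf G = fun _ => 0 := funext hz
    have h2 := cf_expand hcont hper (by rw [h1]; exact summable_zero) 0
    simp only [hz, zero_mul] at h2
    exact hGne 0 (h2.unique hasSum_zero)
  have hCcc : Continuous (Cc φ) := continuous_iff_continuousAt.2 fun t =>
    (Cc_deriv (fl_sol _ _ _ _).cont t).continuousAt
  have hp := pairing (G := G) (c := c) (R := fun t => Real.exp (2 * e * Cc φ t)) hcont hreal sF (by
    intro t
    rw [hHF, map_mul, ← exp_conj, conj_ofReal]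
    simp only [hG]
    rw [← exp_conj, ← exp_add, ← exp_add, ofReal_exp]
    congr 1
    simp only [hh, map_add, map_mul, conj_ofReal, conj_I]
    push_cast; ring) (C := C) (fun t => hC _ (mem_range_self t)) (by fun_prop) hI
  have sf : Summable fun k : ℤ => F k * c (k + 1) := by
    refine Summable.of_norm_bounded (sF.mul_right C) fun k => ?_
    rw [Real.norm_eq_abs, abs_mul]
    gcongr
    exact hcb _
  have s1 : Summable fun m : ℕ => F m * c (m + 1) := sf.comp_injective Nat.cast_injective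
  have s2 : Summable fun m : ℕ => F (-(m + 1)) * c (-((m:ℤ) + 1) + 1) :=
    sf.comp_injective (i := fun m : ℕ => -((m:ℤ) + 1)) (fun a b h => by
      simp only [neg_inj, add_left_inj, Nat.cast_inj] at h; exact h)
  rw [tsum_of_nat_of_neg_add_one s1 s2, ← Summable.tsum_add s1 s2] at hp
  refine pair_ne (r := 0) hμ he (a := fun m : ℕ => F m) (b := fun m : ℕ => F (-1 - m))
    (p := fun m : ℕ => c (m + 1)) (q := fun m : ℕ => c (-(m:ℤ))) hF0 hb0 ra rb hD0 hD hc0 hp0 rp rq ?_
  rw [← hp]
  refine tsum_congr fun m => ?_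
  rw [show -((m:ℤ) + 1) = -1 - m by ring, show (-1:ℤ) - m + 1 = -m by ring]

end H535R3
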