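import Pool.Agent.H535R3.KH

set_option autoImplicit false
open Set Filter Topology

namespace H535R3

lemma shift_int {f : ℝ → ℝ} (hf : ∀ t, f (t + 2 * Real.pi) = f t) :
    ∫ t in (-Real.pi)..Real.pi, f t = ∫ t in (0:ℝ)..(2 * Real.pi), f t := by
  have hp : Function.Periodic f (2 * Real.pi) := hf
  have := hp.intervalIntegral_add_eq (-Real.pi) 0
  rw [show -Real.pi + 2 * Real.pi = Real.pi by ring, zero_add] at this
  exact this

lemma vert_core {r : ℕ} {ε b a σ : ℝ} (hε : 0 < ε) (ha : 0 < a) (hσ : σ ≠ 0) {gm gp : ℝ → ℝ}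
    (hg : ∀ b' a', (b', a') ∈ Ls r ε ↔ gm a' ≤ b' ∧ b' ≤ gp a') (hle : ∀ a', gm a' ≤ gp a')
    (h1 : gm a = b) (h2 : gp a = b)
    (hp : ∀ η, 0 < η → ∀ᶠ s in 𝓝[>] (0:ℝ), gp (a + σ * s) < b + η * s)
    (hm : ∀ η, 0 < η → ∀ᶠ s in 𝓝[>] (0:ℝ), b - η * s < gm (a + σ * s)) : False := by
  have hmem : (b, a) ∈ Ls r ε := (hg b a).2 ⟨h1.le, h2.ge⟩
  have hu : ∀ b', (b', a) ∈ Ls r ε → b' = b := by
    intro b' hb'
    obtain ⟨h3, h4⟩ := (hg b' a).1 hb'
    exact le_antisymm (h4.trans h2.le) (h1.ge.trans h3)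
  have hall := single_ident hmem hu
  have hK := tangency hσ hg hle hall hp hm
  have hI : ∫ t in (-Real.pi)..Real.pi, Real.cos t * Real.exp (ε * Cc (fl b a ε (Real.pi / 2)) t) = 0 := by
    rw [shift_int, hK]
    intro t
    rw [Real.cos_add_two_pi, (Cc_per (hall (Real.pi / 2))).2]
  obtain ⟨μ, hμ⟩ : ∃ μ, a = 2 * μ := ⟨a / 2, by ring⟩
  obtain ⟨e, he⟩ : ∃ e, ε = 2 * e := ⟨ε / 2, by ring⟩
  subst hμ he
  have hμ0 : 0 < μ := by linarith
  have he0 : 0 < e := by linarith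
  rcases Nat.eq_zero_or_pos r with h0 | h0
  · subst h0
    have hb0 : b = 0 := by
      have := hu _ (by simpa using Ls_neg hmem)
      linarith
    subst hb0
    refine Ic_ne0 hμ0 he0 (fun x => ?_) hI
    have := hall x
    push_cast at this
    rw [mul_zero, add_zero] at this
    exact this
  · have hb := ident_axis (ε := 2 * e) h0 hε ha (by exact_mod_cast hall)
    obtain ⟨n, rfl⟩ : ∃ n, r = n + 1 := ⟨r - 1, by omega⟩
    have hb' : b = (n:ℝ) + 1 := by rw [hb]; push_cast; ring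
    subst hb'
    refine Ic_ne (n := n) hμ0 he0 (fun x => ?_) hI
    have := hall x
    push_cast at this ⊢
    exact this

lemma vert_int {r : ℤ} {ε b a σ : ℝ} (hε : 0 < ε) (ha : 0 < a) (hσ : σ ≠ 0) {gm gp : ℝ → ℝ}
    (hg : ∀ b' a', (b', a') ∈ Ls r ε ↔ gm a' ≤ b' ∧ b' ≤ gp a') (hle : ∀ a', gm a' ≤ gp a')
    (h1 : gm a = b) (h2 : gp a = b)
    (hp : ∀ η, 0 < η → ∀ᶠ s in 𝓝[>] (0:ℝ), gp (a + σ * s) < b + η * s)
    (hm : ∀ η, 0 < η → ∀ᶠ s in 𝓝[>] (0:ℝ), b - η * s < gm (a + σ * s)) : False := by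
  rcases le_total 0 r with hr | hr
  · obtain ⟨n, rfl⟩ : ∃ n : ℕ, r = n := ⟨r.toNat, by omega⟩
    exact vert_core hε ha hσ hg hle h1 h2 hp hm
  · obtain ⟨n, hn⟩ : ∃ n : ℕ, -r = n := ⟨(-r).toNat, by omega⟩
    refine vert_core (r := n) (b := -b) (gm := fun x => -gp x) (gp := fun x => -gm x) hε ha hσ ?_ ?_
      (by simp only [h2]) (by simp only [h1]) ?_ ?_
    · intro b' a'
      have h3 : (b', a') ∈ Ls (n:ℤ) ε ↔ (-b', a') ∈ Ls r ε := by
        rw [← hn]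
        constructor
        · intro h
          have := Ls_neg h
          rwa [neg_neg] at this
        · intro h
          have := Ls_neg h
          rwa [neg_neg] at this
      rw [h3, hg]
      constructor
      · rintro ⟨h4, h5⟩
        exact ⟨by linarith, by linarith⟩
      · rintro ⟨h4, h5⟩
        exact ⟨by linarith, by linarith⟩
    · intro a'
      have := hle a'
      linarith
    · intro η hη
      filter_upwards [hm η hη] with s hs
      linarith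
    · intro η hη
      filter_upwards [hp η hη] with s hs
      linarith

lemma ev_bound {f : ℝ → ℝ} {A₀ σ ω : ℝ} (hω : 0 < ω) (hσ : |σ| = 1) {S : Set ℝ}
    (h : HasDerivWithinAt f 0 S A₀) (hS : ∀ s, 0 < s → A₀ + σ * s ∈ S) {η : ℝ} (hη : 0 < η) :
    ∀ᶠ s in 𝓝[>] (0:ℝ), |f (ω * (A₀ / ω + σ * s)) - f A₀| < η * (ω * s) := by
  have h1 := (hasDerivWithinAt_iff_isLittleO.1 h).def (half_pos hη)
  have h2 : Tendsto (fun s : ℝ => ω * (A₀ / ω + σ * s)) (𝓝[>] 0) (𝓝[S] A₀) := by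
    rw [tendsto_nhdsWithin_iff]
    constructor
    · have hc : Continuous fun s : ℝ => ω * (A₀ / ω + σ * s) := by fun_prop
      have := (hc.tendsto 0).mono_left (nhdsWithin_le_nhds (s := Ioi 0))
      rwa [mul_zero, add_zero, mul_div_cancel₀ _ hω.ne'] at this
    · filter_upwards [self_mem_nhdsWithin] with s hs
      have hs' : 0 < s := hs
      have := hS (ω * s) (by positivity)
      rwa [show ω * (A₀ / ω + σ * s) = A₀ + σ * (ω * s) by field_simp]
  filter_upwards [h2.eventually h1, self_mem_nhdsWithin] with s hs hs0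
  have hs' : 0 < s := hs0
  rw [smul_zero, sub_zero, Real.norm_eq_abs, Real.norm_eq_abs,
    show ω * (A₀ / ω + σ * s) - A₀ = σ * (ω * s) by field_simp; ring, abs_mul, hσ, one_mul,
    abs_of_pos (by positivity : 0 < ω * s)] at hs
  refine hs.trans_lt ?_
  have : 0 < ω * s := by positivity
  nlinarith

/-- Membership in the torus form. -/
lemma mem_torus {ω : ℝ} (hω : 0 < ω) (r : ℤ) (B A : ℝ) :
    (∃ φ : ℝ → ℝ, (∀ τ : ℝ, HasDerivAt φ (1 / ω * (-Real.sin (φ τ) + B + A * Real.cos τ)) τ) ∧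
            Tendsto (fun τ : ℝ => φ τ / τ) atTop (𝓝 (r : ℝ))) ↔
      (B / ω, A / ω) ∈ Ls r (1 / ω) := by
  have hS : ∀ φ : ℝ → ℝ, (∀ τ : ℝ, HasDerivAt φ (1 / ω * (-Real.sin (φ τ) + B + A * Real.cos τ)) τ) ↔
      Sol (B / ω) (A / ω) (1 / ω) φ := by
    intro φ
    constructor
    · intro h τ
      refine (h τ).congr_deriv ?_
      field_simp; ring
    · intro h τ
      refine (h τ).congr_deriv ?_
      field_simp; ring
  constructor
  · rintro ⟨φ, h1, h2⟩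
    exact Lk_iff.1 (Lk_of_one ((hS φ).1 h1) h2)
  · intro h
    exact ⟨fl (B / ω) (A / ω) (1 / ω) 0, (hS _).2 (fl_sol _ _ _ _), Lk_iff.2 h _ (fl_sol _ _ _ _)⟩

/-- The two boundary branches at an adjacency are not both vertical. -/
theorem not_both_vertical {ω : ℝ} (hω : 0 < ω) {r : ℤ} {gm gp : ℝ → ℝ} (hle : ∀ A, gm A ≤ gp A)
    (hL : ∀ B A : ℝ, (∃ φ : ℝ → ℝ,
        (∀ τ : ℝ, HasDerivAt φ (1 / ω * (-Real.sin (φ τ) + B + A * Real.cos τ)) τ) ∧
        Tendsto (fun τ : ℝ => φ τ / τ) atTop (𝓝 (r : ℝ))) ↔ gm A ≤ B ∧ B ≤ gp A)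
    {A₀ : ℝ} (hA₀ : 0 < A₀) (h0 : gm A₀ = gp A₀) {σ : ℝ} (hσ : |σ| = 1) {S : Set ℝ}
    (hS : ∀ s, 0 < s → A₀ + σ * s ∈ S) :
    ¬ (HasDerivWithinAt gm 0 S A₀ ∧ HasDerivWithinAt gp 0 S A₀) := by
  rintro ⟨h1, h2⟩
  refine vert_int (r := r) (ε := 1 / ω) (b := gm A₀ / ω) (a := A₀ / ω) (σ := σ)
    (gm := fun a => gm (ω * a) / ω) (gp := fun a => gp (ω * a) / ω) (by positivity) (by positivity)
    (by rintro rfl; simp at hσ) ?_ ?_ ?_ ?_ ?_ ?_
  · intro b' a'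
    have h3 := mem_torus hω r (ω * b') (ω * a')
    rw [mul_div_cancel_left₀ _ hω.ne', mul_div_cancel_left₀ _ hω.ne'] at h3
    rw [← h3, hL, div_le_iff₀ hω, le_div_iff₀ hω, mul_comm b' ω]
  · intro a'
    exact div_le_div_of_nonneg_right (hle _) hω.le
  · simp only [mul_div_cancel₀ _ hω.ne']
  · simp only [mul_div_cancel₀ _ hω.ne', h0]
  · intro η hη
    filter_upwards [ev_bound hω hσ h2 hS hη] with s hs
    rw [div_lt_iff₀ hω]
    have := (abs_lt.1 hs).2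
    rw [add_mul, div_mul_cancel₀ _ hω.ne', h0]
    linarith
  · intro η hη
    filter_upwards [ev_bound hω hσ h1 hS hη] with s hs
    rw [lt_div_iff₀ hω]
    have := (abs_lt.1 hs).1
    rw [sub_mul, div_mul_cancel₀ _ hω.ne']
    linarith

end H535R3
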