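import Pool.Agent.H535R3.KI

set_option autoImplicit false
open Set Filter Topology Complex

namespace H535R3

/-- Linear system. -/
noncomputable def vF (l m β : ℂ) (t : ℝ) (x : ℂ × ℂ) : ℂ × ℂ :=
  (-(I / 2) * (l + 2 * m * Real.cos t) * x.1 + β * x.2, β * x.1 + (I / 2) * (l + 2 * m * Real.cos t) * x.2)

lemma coef_bound (l m : ℂ) (t : ℝ) : ‖(I / 2) * (l + 2 * m * Real.cos t)‖ ≤ ‖l‖ + ‖m‖ := by
  have h1 : ‖(I / 2 : ℂ)‖ = 1 / 2 := by simp
  have h2 : ‖((Real.cos t : ℝ) : ℂ)‖ ≤ 1 := by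
    rw [Complex.norm_real, Real.norm_eq_abs]; exact Real.abs_cos_le_one t
  have h3 : ‖l + 2 * m * Real.cos t‖ ≤ ‖l‖ + 2 * ‖m‖ := by
    refine (norm_add_le _ _).trans ?_
    rw [norm_mul, norm_mul, Complex.norm_ofNat]
    have : 2 * ‖m‖ * ‖((Real.cos t : ℝ) : ℂ)‖ ≤ 2 * ‖m‖ * 1 := by gcongr
    linarith
  rw [norm_mul, h1]
  have := norm_nonneg l
  linarith

lemma vF_norm (l m β : ℂ) (t : ℝ) (x : ℂ × ℂ) : ‖vF l m β t x‖ ≤ (‖l‖ + ‖m‖ + ‖β‖) * ‖x‖ := by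
  have h1 := coef_bound l m t
  have h2 : ‖x.1‖ ≤ ‖x‖ := norm_fst_le x
  have h3 : ‖x.2‖ ≤ ‖x‖ := norm_snd_le x
  have hx := norm_nonneg x
  rw [vF, Prod.norm_mk]
  refine max_le ?_ ?_
  · refine (norm_add_le _ _).trans ?_
    have e1 : -(I / 2) * (l + 2 * m * Real.cos t) * x.1 = -((I / 2) * (l + 2 * m * Real.cos t) * x.1) := by ring
    rw [e1, norm_neg, norm_mul, norm_mul β]
    calc _ ≤ (‖l‖ + ‖m‖) * ‖x‖ + ‖β‖ * ‖x‖ := by gcongr
      _ = _ := by ring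
  · refine (norm_add_le _ _).trans ?_
    rw [norm_mul β, norm_mul]
    calc _ ≤ ‖β‖ * ‖x‖ + (‖l‖ + ‖m‖) * ‖x‖ := by gcongr
      _ = _ := by ring

lemma vF_sub (l m β : ℂ) (t : ℝ) (x y : ℂ × ℂ) : vF l m β t x - vF l m β t y = vF l m β t (x - y) := by
  simp only [vF, Prod.mk_sub_mk, Prod.fst_sub, Prod.snd_sub]
  congr 1 <;> ring

lemma vF_sub' (l m β m' β' : ℂ) (t : ℝ) (x : ℂ × ℂ) :
    vF l m β t x - vF l m' β' t x = vF 0 (m - m') (β - β') t x := by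
  simp only [vF, Prod.mk_sub_mk]
  congr 1 <;> ring

lemma vF_lip (l m β : ℂ) (t : ℝ) {K : NNReal} (hK : ‖l‖ + ‖m‖ + ‖β‖ ≤ K) :
    LipschitzWith K (vF l m β t) := by
  refine LipschitzWith.of_dist_le_mul fun x y => ?_
  rw [dist_eq_norm, dist_eq_norm, vF_sub]
  refine (vF_norm _ _ _ _ _).trans ?_
  gcongr

lemma vF_exists (l m β : ℂ) (x : ℂ × ℂ) : ∃ X : ℝ → ℂ × ℂ, X 0 = x ∧ ∀ t, HasDerivAt X (vF l m β t (X t)) t := by
  refine Haraux.global_ode (vF l m β) ⟨‖l‖ + ‖m‖ + ‖β‖, by positivity⟩ (fun t => vF_lip l m β t le_rfl) ?_ x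
  unfold vF Function.uncurry
  fun_prop

/-- Continuous dependence. -/
lemma cont_dep {l m₀ β₀ : ℂ} {X0 : ℝ → ℂ × ℂ} (h0 : ∀ t, HasDerivAt X0 (vF l m₀ β₀ t (X0 t)) t)
    {η : ℝ} (hη : 0 < η) : ∃ δ > 0, ∀ m β : ℂ, ‖m - m₀‖ < δ → ‖β - β₀‖ < δ → ∀ X : ℝ → ℂ × ℂ,
      (∀ t, HasDerivAt X (vF l m β t (X t)) t) → X 0 = X0 0 →
        ∀ t ∈ Icc (0:ℝ) (2 * Real.pi), ‖X t - X0 t‖ ≤ η := by
  have hc0 : Continuous X0 := continuous_iff_continuousAt.2 fun t => (h0 t).continuousAt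
  obtain ⟨M0, hM0⟩ := (isCompact_Icc (a := (0:ℝ)) (b := 2 * Real.pi)).exists_bound_of_continuousOn hc0.continuousOn
  set M := |M0| + 1 with hM
  have hMp : 0 < M := by positivity
  have hMb : ∀ t ∈ Icc (0:ℝ) (2 * Real.pi), ‖X0 t‖ ≤ M := fun t ht =>
    (hM0 t ht).trans (by have := le_abs_self M0; linarith)
  set K : NNReal := ⟨‖l‖ + (‖m₀‖ + 1) + (‖β₀‖ + 1), by positivity⟩ with hK
  have hKp : (0:ℝ) < K := by
    change 0 < ‖l‖ + (‖m₀‖ + 1) + (‖β₀‖ + 1)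
    positivity
  set R := Real.exp (K * (2 * Real.pi)) with hR
  have hRp : 0 < R := Real.exp_pos _
  refine ⟨min 1 (η * K / (2 * M * R)), by positivity, ?_⟩
  intro m β hm hβ X hX hX0 t ht
  set δ := min 1 (η * K / (2 * M * R)) with hδ
  have hδ1 : δ ≤ 1 := min_le_left _ _
  have hδ2 : δ * (2 * M * R) ≤ η * K := by
    have := min_le_right 1 (η * K / (2 * M * R))
    rwa [← hδ, le_div_iff₀ (by positivity)] at this
  have hm' : ‖m‖ ≤ ‖m₀‖ + 1 := by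
    have h1 : ‖m‖ ≤ ‖m - m₀‖ + ‖m₀‖ := by
      have := norm_add_le (m - m₀) m₀; rwa [sub_add_cancel] at this
    linarith
  have hβ' : ‖β‖ ≤ ‖β₀‖ + 1 := by
    have h1 : ‖β‖ ≤ ‖β - β₀‖ + ‖β₀‖ := by
      have := norm_add_le (β - β₀) β₀; rwa [sub_add_cancel] at this
    linarith
  have hLip : ∀ t, LipschitzWith K (vF l m β t) := fun t => vF_lip l m β t (by
    change _ ≤ ‖l‖ + (‖m₀‖ + 1) + (‖β₀‖ + 1)
    linarith)
  have hc : Continuous X := continuous_iff_continuousAt.2 fun t => (hX t).continuousAt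
  have hg := dist_le_of_approx_trajectories_ODE (δ := 0) (εf := 0) (εg := 2 * δ * M) hLip hc.continuousOn
    (fun t _ => (hX t).hasDerivWithinAt) (fun t _ => by rw [dist_self])
    hc0.continuousOn (fun t _ => (h0 t).hasDerivWithinAt) (fun t ht => by
      rw [dist_eq_norm, vF_sub']
      refine (vF_norm _ _ _ _ _).trans ?_
      rw [norm_zero, zero_add, norm_sub_rev m₀, norm_sub_rev β₀]
      have := hMb t ⟨ht.1, ht.2.le⟩
      calc (‖m - m₀‖ + ‖β - β₀‖) * ‖X0 t‖ ≤ (δ + δ) * M := by gcongr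
        _ = 2 * δ * M := by ring) (a := 0) (b := 2 * Real.pi) (by rw [hX0, dist_self]) t ht
  rw [dist_eq_norm, zero_add, sub_zero, gronwallBound_of_K_ne_0 hKp.ne'] at hg
  refine hg.trans ?_
  simp only [zero_mul, zero_add]
  have h3 : Real.exp (K * t) - 1 ≤ R := by
    have : Real.exp (K * t) ≤ R := Real.exp_le_exp.2 (mul_le_mul_of_nonneg_left ht.2 hKp.le)
    linarith
  have hδ0 : 0 < δ := by positivity
  calc 2 * δ * M / K * (Real.exp (K * t) - 1) ≤ 2 * δ * M / K * R := by gcongr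
    _ = δ * (2 * M * R) / K := by ring
    _ ≤ η * K / K := by gcongr
    _ = η := by field_simp

lemma hd_fst {X : ℝ → ℂ × ℂ} {x : ℂ × ℂ} {t : ℝ} (h : HasDerivAt X x t) :
    HasDerivAt (fun t => (X t).1) x.1 t :=
  (ContinuousLinearMap.fst ℝ ℂ ℂ).hasFDerivAt.comp_hasDerivAt t h

lemma hd_snd {X : ℝ → ℂ × ℂ} {x : ℂ × ℂ} {t : ℝ} (h : HasDerivAt X x t) :
    HasDerivAt (fun t => (X t).2) x.2 t :=
  (ContinuousLinearMap.snd ℝ ℂ ℂ).hasFDerivAt.comp_hasDerivAt t h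

/-- The wedge identity. -/
lemma wedge {l m₁ m₂ β : ℂ} {X Y : ℝ → ℂ × ℂ} (hX : ∀ t, HasDerivAt X (vF l m₁ β t (X t)) t)
    (hY : ∀ t, HasDerivAt Y (vF l m₂ β t (Y t)) t) (t : ℝ) :
    HasDerivAt (fun t => (X t).1 * (Y t).2 - (Y t).1 * (X t).2)
      (I * (m₂ - m₁) * (Real.cos t * ((X t).1 * (Y t).2 + (Y t).1 * (X t).2))) t := by
  have x1 := hd_fst (hX t)
  have x2 := hd_snd (hX t)
  have y1 := hd_fst (hY t)
  have y2 := hd_snd (hY t)
  refine ((x1.mul y2).sub (y1.mul x2)).congr_deriv ?_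
  simp only [vF]
  ring

/-- Trivial projective monodromy. -/
def Scal (l m β : ℂ) : Prop := ∀ X : ℝ → ℂ × ℂ, (∀ t, HasDerivAt X (vF l m β t (X t)) t) →
  (X (2 * Real.pi)).1 * (X 0).2 = (X 0).1 * (X (2 * Real.pi)).2

/-- Local injectivity. -/
lemma loc_inj {l m₀ β₀ : ℂ} {X0 : ℝ → ℂ × ℂ} (h0 : ∀ t, HasDerivAt X0 (vF l m₀ β₀ t (X0 t)) t)
    (hU : (X0 0).1 ≠ 0)
    (hJ : ∫ t in (0:ℝ)..(2 * Real.pi), (Real.cos t : ℂ) * ((X0 t).1 * (X0 t).2) ≠ 0) :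
    ∃ δ > 0, ∀ m₁ m₂ β : ℂ, ‖m₁ - m₀‖ < δ → ‖m₂ - m₀‖ < δ → ‖β - β₀‖ < δ →
      Scal l m₁ β → Scal l m₂ β → m₁ = m₂ := by
  set J := ∫ t in (0:ℝ)..(2 * Real.pi), (Real.cos t : ℂ) * ((X0 t).1 * (X0 t).2) with hJd
  have hc0 : Continuous X0 := continuous_iff_continuousAt.2 fun t => (h0 t).continuousAt
  obtain ⟨M0, hM0⟩ := (isCompact_Icc (a := (0:ℝ)) (b := 2 * Real.pi)).exists_bound_of_continuousOn hc0.continuousOn
  set M := |M0| + 1 with hM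
  have hMp : 0 < M := by positivity
  have hMb : ∀ t ∈ Icc (0:ℝ) (2 * Real.pi), ‖X0 t‖ ≤ M := fun t ht =>
    (hM0 t ht).trans (by have := le_abs_self M0; linarith)
  have hJp : 0 < ‖J‖ := norm_pos_iff.2 hJ
  have hpi := Real.pi_pos
  set η := min 1 (‖J‖ / (4 * Real.pi * (2 * M + 1))) with hη
  have hηp : 0 < η := by positivity
  have hη1 : η ≤ 1 := min_le_left _ _
  have hη2 : η * (4 * Real.pi * (2 * M + 1)) ≤ ‖J‖ := by
    have := min_le_right 1 (‖J‖ / (4 * Real.pi * (2 * M + 1)))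
    rwa [← hη, le_div_iff₀ (by positivity)] at this
  obtain ⟨δ, hδ, hdep⟩ := cont_dep h0 hηp
  refine ⟨δ, hδ, ?_⟩
  intro m₁ m₂ β h1 h2 hβ hs1 hs2
  by_contra hne
  obtain ⟨X, hX0, hX⟩ := vF_exists l m₁ β (X0 0)
  obtain ⟨Y, hY0, hY⟩ := vF_exists l m₂ β (X0 0)
  have dX := hdep m₁ β h1 hβ X hX hX0
  have dY := hdep m₂ β h2 hβ Y hY hY0
  have cX : Continuous X := continuous_iff_continuousAt.2 fun t => (hX t).continuousAt
  have cY : Continuous Y := continuous_iff_continuousAt.2 fun t => (hY t).continuousAt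
  have hint := intervalIntegral.integral_eq_sub_of_hasDerivAt (a := 0) (b := 2 * Real.pi)
    (fun t _ => wedge hX hY t) (Continuous.intervalIntegrable (by fun_prop) _ _)
  have eX := hs1 X hX
  have eY := hs2 Y hY
  rw [hX0] at eX
  rw [hY0] at eY
  have hz : (X (2 * Real.pi)).1 * (Y (2 * Real.pi)).2 - (Y (2 * Real.pi)).1 * (X (2 * Real.pi)).2 -
      ((X 0).1 * (Y 0).2 - (Y 0).1 * (X 0).2) = 0 := by
    rw [hX0, hY0]
    have h3 : (X0 0).1 * ((X (2 * Real.pi)).1 * (Y (2 * Real.pi)).2 -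
        (Y (2 * Real.pi)).1 * (X (2 * Real.pi)).2) = 0 := by
      linear_combination (Y (2 * Real.pi)).1 * eX - (X (2 * Real.pi)).1 * eY
    have h4 := (mul_eq_zero.1 h3).resolve_left hU
    rw [h4]; ring
  rw [hz, intervalIntegral.integral_const_mul] at hint
  have hne2 : (I * (m₂ - m₁) : ℂ) ≠ 0 := mul_ne_zero I_ne_zero (sub_ne_zero.2 (Ne.symm hne))
  have hint2 := (mul_eq_zero.1 hint).resolve_left hne2
  -- estimate
  have hdiff : ‖(∫ t in (0:ℝ)..(2 * Real.pi), (Real.cos t : ℂ) * ((X t).1 * (Y t).2 + (Y t).1 * (X t).2)) -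
      2 * J‖ ≤ (2 * (η * (2 * M + 1))) * |2 * Real.pi - 0| := by
    rw [hJd, ← intervalIntegral.integral_const_mul, ← intervalIntegral.integral_sub
      (Continuous.intervalIntegrable (by fun_prop) _ _) (Continuous.intervalIntegrable (by fun_prop) _ _)]
    refine intervalIntegral.norm_integral_le_of_norm_le_const fun t ht => ?_
    rw [uIoc_of_le (by positivity)] at ht
    have ht' : t ∈ Icc (0:ℝ) (2 * Real.pi) := ⟨ht.1.le, ht.2⟩
    have a0 := hMb t ht'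
    have a1 := dX t ht'
    have a2 := dY t ht'
    have b1 : ‖(X0 t).1‖ ≤ M := (norm_fst_le _).trans a0
    have b2 : ‖(X0 t).2‖ ≤ M := (norm_snd_le _).trans a0
    have b3 : ‖(X t).1 - (X0 t).1‖ ≤ η := (norm_fst_le (X t - X0 t)).trans a1
    have b4 : ‖(X t).2 - (X0 t).2‖ ≤ η := (norm_snd_le (X t - X0 t)).trans a1
    have b5 : ‖(Y t).1 - (X0 t).1‖ ≤ η := (norm_fst_le (Y t - X0 t)).trans a2
    have b6 : ‖(Y t).2 - (X0 t).2‖ ≤ η := (norm_snd_le (Y t - X0 t)).trans a2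
    have key : ∀ p q p0 q0 : ℂ, ‖p0‖ ≤ M → ‖q0‖ ≤ M → ‖p - p0‖ ≤ η → ‖q - q0‖ ≤ η →
        ‖p * q - p0 * q0‖ ≤ η * (2 * M + 1) := by
      intro p q p0 q0 g1 g2 g3 g4
      have e1 : p * q - p0 * q0 = (p - p0) * (q - q0) + p0 * (q - q0) + (p - p0) * q0 := by ring
      rw [e1]
      refine (norm_add_le _ _).trans ?_
      have e2 : ‖(p - p0) * (q - q0) + p0 * (q - q0)‖ ≤ η * 1 + M * η := by
        refine (norm_add_le _ _).trans ?_
        rw [norm_mul, norm_mul]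
        have : ‖q - q0‖ ≤ 1 := g4.trans hη1
        gcongr
      have e3 : ‖(p - p0) * q0‖ ≤ η * M := by rw [norm_mul]; gcongr
      linarith
    have k1 := key _ _ _ _ b1 b2 b3 b6
    have k2 := key _ _ _ _ b1 b2 b5 b4
    have e1 : (Real.cos t : ℂ) * ((X t).1 * (Y t).2 + (Y t).1 * (X t).2) -
        2 * ((Real.cos t : ℂ) * ((X0 t).1 * (X0 t).2)) = (Real.cos t : ℂ) *
        (((X t).1 * (Y t).2 - (X0 t).1 * (X0 t).2) + ((Y t).1 * (X t).2 - (X0 t).1 * (X0 t).2)) := by ring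
    rw [e1, norm_mul]
    have h2 : ‖((Real.cos t : ℝ) : ℂ)‖ ≤ 1 := by
      rw [Complex.norm_real, Real.norm_eq_abs]; exact Real.abs_cos_le_one t
    have h3 : ‖((X t).1 * (Y t).2 - (X0 t).1 * (X0 t).2) + ((Y t).1 * (X t).2 - (X0 t).1 * (X0 t).2)‖ ≤
        2 * (η * (2 * M + 1)) := by
      refine (norm_add_le _ _).trans ?_
      linarith
    calc _ ≤ 1 * (2 * (η * (2 * M + 1))) := by gcongr
      _ = _ := one_mul _
  rw [hint2, zero_sub, norm_neg, norm_mul, Complex.norm_ofNat, sub_zero, abs_of_pos (by positivity)] at hdiff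
  have h5 : 2 * (η * (2 * M + 1)) * (2 * Real.pi) = η * (4 * Real.pi * (2 * M + 1)) := by ring
  rw [h5] at hdiff
  linarith

end H535R3
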