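import Pool.Agent.H535R3.KJ

set_option autoImplicit false
open Set Filter Topology

namespace H535R3

def Idn (b a ε : ℝ) : Prop := ∃ r : ℤ, ∀ x, P b a ε x = x + 2 * Real.pi * r

def Gd (b a ε : ℝ) : Prop := ∃ φ, Sol b a ε φ ∧ (∀ t, Cc φ (t + 2 * Real.pi) = Cc φ t) ∧
  ∫ t in (0:ℝ)..(2 * Real.pi), Real.cos t * Real.exp (ε * Cc φ t) ≠ 0

lemma gd_pos {l : ℕ} {a ε : ℝ} (ha : 0 < a) (hε : 0 < ε) (h : Idn l a ε) : Gd l a ε := by
  obtain ⟨r, hall⟩ := h
  have hl0 : (0:ℝ) ≤ l := l.cast_nonneg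
  have hrl : r = l := by
    rcases lt_trichotomy r 0 with hr | hr | hr
    · exfalso
      have h1 : ((l:ℝ), a) ∈ Ls r ε := ⟨0, hall 0⟩
      obtain ⟨x, hx⟩ := Ls_neg h1
      obtain ⟨n, hn⟩ : ∃ n : ℕ, -r = n := ⟨(-r).toNat, by omega⟩
      have h2 := strictly_right hε (r := n) (by omega) (b := -(l:ℝ)) (a := a) ha.le ⟨x, by
        rw [hn] at hx; exact_mod_cast hx⟩
      have h3 : (1:ℝ) ≤ n := by exact_mod_cast (by omega : 1 ≤ n)
      linarith
    · subst hr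
      by_contra hne
      have hlp : (0:ℝ) < l := by
        have : 0 < l := by omega
        exact_mod_cast this
      have h1 : ((l:ℝ), a) ∈ Ls 0 ε := ⟨0, hall 0⟩
      obtain ⟨x, hx⟩ := Ls_neg h1
      simp only at hx
      have h2 := P_lt_of_b (a := a) (ε := ε) (x := x) (show -(l:ℝ) < l by linarith)
      rw [hall, hx] at h2
      push_cast at h2
      linarith
    · obtain ⟨n, rfl⟩ : ∃ n : ℕ, r = n := ⟨r.toNat, by omega⟩
      have h1 := ident_axis (b := (l:ℝ)) (r := n) (by omega) hε ha (by exact_mod_cast hall)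
      exact_mod_cast h1.symm
  subst hrl
  have hper := (Cc_per (hall (Real.pi / 2))).2
  refine ⟨fl l a ε (Real.pi / 2), fl_sol _ _ _ _, hper, ?_⟩
  rw [← shift_int (fun t => by rw [Real.cos_add_two_pi, hper])]
  obtain ⟨μ, hμ⟩ : ∃ μ, a = 2 * μ := ⟨a / 2, by ring⟩
  obtain ⟨e, he⟩ : ∃ e, ε = 2 * e := ⟨ε / 2, by ring⟩
  subst hμ he
  rcases Nat.eq_zero_or_pos l with h0 | h0
  · subst h0
    have h1 := Ic_ne0 (μ := μ) (e := e) (by linarith) (by linarith) (fun x => by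
      have := hall x
      push_cast at this
      rw [mul_zero, add_zero] at this
      exact this)
    simpa using h1
  · obtain ⟨n, rfl⟩ : ∃ n, l = n + 1 := ⟨l - 1, by omega⟩
    have h1 := Ic_ne (n := n) (μ := μ) (e := e) (by linarith) (by linarith) (fun x => by
      have := hall x
      push_cast at this ⊢
      exact this)
    push_cast
    exact h1

lemma idn_neg_e {b a ε : ℝ} (h : Idn b a ε) : Idn b a (-ε) := by
  obtain ⟨r, hr⟩ := h
  refine ⟨r, fun x => ?_⟩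
  have := (P_neg b a (-ε) x).1
  rw [neg_neg, hr] at this
  rw [this]; ring

lemma gd_neg_e {b a ε : ℝ} (h : Gd b a (-ε)) : Gd b a ε := by
  obtain ⟨φ, h1, h2, h3⟩ := h
  have hC : ∀ t, Cc (fun t => φ t + Real.pi) t = -Cc φ t := by
    intro t
    unfold Cc
    simp_rw [Real.cos_add_pi]
    rw [intervalIntegral.integral_neg]
  refine ⟨fun t => φ t + Real.pi, ?_, ?_, ?_⟩
  · have := h1.add_pi; rwa [neg_neg] at this
  · intro t; rw [hC, hC, h2]
  · simp_rw [hC]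
    have : ∀ t, ε * -Cc φ t = -ε * Cc φ t := fun t => by ring
    simp_rw [this]
    exact h3

lemma idn_flip {b a ε : ℝ} (h : Idn b a ε) : Idn (-b) (-a) ε := by
  obtain ⟨r, hr⟩ := h
  refine ⟨-r, fun x => ?_⟩
  have h1 : P (-b) (-a) ε (-(-x)) = -(P b a ε (-x)) := fl_flip b a ε (-x) (2 * Real.pi)
  rw [neg_neg, hr] at h1
  rw [h1]; push_cast; ring

lemma gd_flip {b a ε : ℝ} (h : Gd (-b) (-a) ε) : Gd b a ε := by
  obtain ⟨φ, h1, h2, h3⟩ := h
  have hC : ∀ t, Cc (fun t => -φ t) t = Cc φ t := by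
    intro t
    unfold Cc
    simp_rw [Real.cos_neg]
  refine ⟨fun t => -φ t, ?_, ?_, ?_⟩
  · intro t
    refine (h1 t).neg.congr_deriv ?_
    rw [Real.sin_neg]; ring
  · intro t; rw [hC, hC, h2]
  · simp_rw [hC]; exact h3

lemma idn_neg_a {b a ε : ℝ} (h : Idn b a ε) : Idn b (-a) ε := by
  obtain ⟨r, hr⟩ := h
  refine ⟨r, fun y => ?_⟩
  set ψ := fl b (-a) ε y with hψ
  have hψs : Sol b (-a) ε ψ := fl_sol _ _ _ _
  have hφ : Sol b a ε (fun t => ψ (t - Real.pi)) := by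
    intro t
    have h1 := (hψs (t - Real.pi)).comp_sub_const t Real.pi
    refine h1.congr_deriv ?_
    rw [Real.cos_sub_pi]; ring
  have h1 := hφ.eq_fl
  set x := ψ (0 - Real.pi) with hx
  have h2 := fl_per (m := r) (hr x) Real.pi
  have h3 := congrFun h1 Real.pi
  have h4 := congrFun h1 (Real.pi + 2 * Real.pi)
  beta_reduce at h3 h4
  rw [h2, ← h3, sub_self, show Real.pi + 2 * Real.pi - Real.pi = 2 * Real.pi by ring] at h4
  have h5 : ψ 0 = y := fl_zero _ _ _ _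
  rw [h5] at h4
  exact h4

lemma gd_neg_a {b a ε : ℝ} (h : Gd b (-a) ε) : Gd b a ε := by
  obtain ⟨φ, h1, h2, h3⟩ := h
  have hcont := h1.cont
  have hC : ∀ t, Cc (fun t => φ (t + Real.pi)) t = Cc φ (t + Real.pi) - Cc φ Real.pi := by
    intro t
    unfold Cc
    rw [intervalIntegral.integral_comp_add_right (fun s => Real.cos (φ s)) Real.pi, zero_add]
    rw [intervalIntegral.integral_interval_sub_left (Continuous.intervalIntegrable (by fun_prop) _ _)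
      (Continuous.intervalIntegrable (by fun_prop) _ _)]
  refine ⟨fun t => φ (t + Real.pi), ?_, ?_, ?_⟩
  · intro t
    have h4 := (h1 (t + Real.pi)).comp_add_const t Real.pi
    refine h4.congr_deriv ?_
    rw [Real.cos_add_pi]; ring
  · intro t
    rw [hC, hC, show t + 2 * Real.pi + Real.pi = t + Real.pi + 2 * Real.pi by ring, h2]
  · simp_rw [hC]
    have e1 : ∀ t, Real.cos t * Real.exp (ε * (Cc φ (t + Real.pi) - Cc φ Real.pi)) =
        (-Real.exp (-(ε * Cc φ Real.pi))) * ((fun s => Real.cos s * Real.exp (ε * Cc φ s)) (t + Real.pi)) := by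
      intro t
      simp only [Real.cos_add_pi]
      rw [mul_sub, sub_eq_add_neg, Real.exp_add]; ring
    simp_rw [e1]
    rw [intervalIntegral.integral_const_mul,
      intervalIntegral.integral_comp_add_right (fun s => Real.cos s * Real.exp (ε * Cc φ s)) Real.pi, zero_add]
    have hp : Function.Periodic (fun s => Real.cos s * Real.exp (ε * Cc φ s)) (2 * Real.pi) := by
      intro s; simp only [Real.cos_add_two_pi, h2]
    have h5 := hp.intervalIntegral_add_eq Real.pi 0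
    rw [zero_add] at h5
    rw [show 2 * Real.pi + Real.pi = Real.pi + 2 * Real.pi by ring, h5]
    exact mul_ne_zero (neg_ne_zero.2 (Real.exp_pos _).ne') h3

theorem gd_all {l : ℤ} {a ε : ℝ} (ha : a ≠ 0) (hε : ε ≠ 0) (h : Idn l a ε) : Gd l a ε := by
  have g2 : ∀ (l : ℕ) (a ε : ℝ), a ≠ 0 → 0 < ε → Idn l a ε → Gd l a ε := by
    intro l a ε ha hε h
    rcases lt_or_gt_of_ne ha with h1 | h1
    · exact gd_neg_a (gd_pos (by linarith) hε (idn_neg_a h))
    · exact gd_pos h1 hε h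
  have g3 : ∀ (l : ℤ) (a ε : ℝ), a ≠ 0 → 0 < ε → Idn l a ε → Gd l a ε := by
    intro l a ε ha hε h
    rcases le_total 0 l with h1 | h1
    · obtain ⟨n, rfl⟩ : ∃ n : ℕ, l = n := ⟨l.toNat, by omega⟩
      exact_mod_cast g2 n a ε ha hε (by exact_mod_cast h)
    · obtain ⟨n, hn⟩ : ∃ n : ℕ, -l = n := ⟨(-l).toNat, by omega⟩
      have h2 : -(l:ℝ) = n := by exact_mod_cast hn
      apply gd_flip
      have h3 := idn_flip h
      rw [h2] at h3 ⊢
      exact g2 n (-a) ε (neg_ne_zero.2 ha) hε h3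
  rcases lt_or_gt_of_ne hε with h1 | h1
  · exact gd_neg_e (g3 l a (-ε) ha (by linarith) (idn_neg_e h))
  · exact g3 l a ε ha h1 h

open Complex in
/-- The complex lift of a real solution. -/
noncomputable def lf (ε : ℝ) (φ : ℝ → ℝ) (t : ℝ) : ℂ × ℂ :=
  (exp (((ε / 2 * Cc φ t : ℝ) : ℂ) - I / 2 * φ t), exp (((ε / 2 * Cc φ t : ℝ) : ℂ) + I / 2 * φ t))

open Complex in
lemma lf_sol {b μ ε : ℝ} {φ : ℝ → ℝ} (h : Sol b (2 * μ) ε φ) (t : ℝ) :
    HasDerivAt (lf ε φ) (vF (b:ℝ) (μ:ℝ) ((ε / 2 : ℝ) : ℂ) t (lf ε φ t)) t := by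
  have h1 : HasDerivAt (fun t => ((ε / 2 * Cc φ t : ℝ) : ℂ)) ((ε / 2 * Real.cos (φ t) : ℝ) : ℂ) t :=
    ((Cc_deriv h.cont t).const_mul _).ofReal_comp
  have h2 : HasDerivAt (fun t => (I / 2 * (φ t : ℂ))) (I / 2 * ((b + 2 * μ * Real.cos t - ε * Real.sin (φ t) : ℝ) : ℂ)) t :=
    (h t).ofReal_comp.const_mul _
  have h3 : HasDerivAt (fun t => exp (((ε / 2 * Cc φ t : ℝ) : ℂ) - I / 2 * φ t))
      (exp (((ε / 2 * Cc φ t : ℝ) : ℂ) - I / 2 * φ t) * (((ε / 2 * Real.cos (φ t) : ℝ) : ℂ) -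
        I / 2 * ((b + 2 * μ * Real.cos t - ε * Real.sin (φ t) : ℝ) : ℂ))) t := (h1.sub h2).cexp
  have h4 : HasDerivAt (fun t => exp (((ε / 2 * Cc φ t : ℝ) : ℂ) + I / 2 * φ t))
      (exp (((ε / 2 * Cc φ t : ℝ) : ℂ) + I / 2 * φ t) * (((ε / 2 * Real.cos (φ t) : ℝ) : ℂ) +
        I / 2 * ((b + 2 * μ * Real.cos t - ε * Real.sin (φ t) : ℝ) : ℂ))) t := (h1.add h2).cexp
  refine (h3.prodMk h4).congr_deriv ?_
  have e3 : exp (((ε / 2 * Cc φ t : ℝ) : ℂ) + I / 2 * φ t) =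
      (Real.cos (φ t) + I * Real.sin (φ t)) * exp (((ε / 2 * Cc φ t : ℝ) : ℂ) - I / 2 * φ t) := by
    have : (Real.cos (φ t) + I * Real.sin (φ t) : ℂ) = exp (((φ t : ℝ) : ℂ) * I) := by
      rw [exp_mul_I]; push_cast; ring
    rw [this, ← exp_add]
    congr 1; ring
  have e4 : exp (((ε / 2 * Cc φ t : ℝ) : ℂ) - I / 2 * φ t) =
      (Real.cos (φ t) - I * Real.sin (φ t)) * exp (((ε / 2 * Cc φ t : ℝ) : ℂ) + I / 2 * φ t) := by
    have : (Real.cos (φ t) - I * Real.sin (φ t) : ℂ) = exp (((-(φ t) : ℝ) : ℂ) * I) := by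
      rw [exp_mul_I]; push_cast; rw [Complex.cos_neg, Complex.sin_neg]; ring
    rw [this, ← exp_add]
    congr 1; push_cast; ring
  have hI : I * I = -1 := I_mul_I
  simp only [vF, lf]
  refine Prod.ext ?_ ?_
  · simp only
    conv_rhs => rw [e3]
    push_cast
    ring
  · simp only
    conv_rhs => rw [e4]
    push_cast
    ring

open Complex in
/-- Real points of the complex locus. -/
lemma idn_of_scal {b μ ε : ℝ} (h : Scal (b:ℝ) (μ:ℝ) ((ε / 2 : ℝ) : ℂ)) : Idn b (2 * μ) ε := by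
  have h1 : ∀ x, ∃ N : ℤ, (P b (2 * μ) ε x - x) / (2 * Real.pi) = N := by
    intro x
    have h2 := h _ (lf_sol (fl_sol b (2 * μ) ε x))
    have h3 : P b (2 * μ) ε x = fl b (2 * μ) ε x (2 * Real.pi) := rfl
    simp only [lf, ← h3, Cc_zero, fl_zero] at h2
    rw [← exp_add, ← exp_add, exp_eq_exp_iff_exists_int] at h2
    obtain ⟨N, hN⟩ := h2
    refine ⟨-N, ?_⟩
    have h4 : I * ((P b (2 * μ) ε x - x : ℝ) : ℂ) = I * ((-(2 * Real.pi * N) : ℝ) : ℂ) := by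
      push_cast
      push_cast at hN
      linear_combination -hN
    have h5 := mul_left_cancel₀ I_ne_zero h4
    have h6 : P b (2 * μ) ε x - x = -(2 * Real.pi * N) := by exact_mod_cast h5
    rw [h6]
    have := Real.pi_ne_zero
    push_cast
    field_simp
  have hc : Continuous fun x => (P b (2 * μ) ε x - x) / (2 * Real.pi) :=
    ((continuous_P.comp (f := fun y : ℝ => (b, 2 * μ, ε, y)) (by fun_prop)).sub continuous_id).div_const _
  obtain ⟨r, hr⟩ := h1 0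
  refine ⟨r, fun x => ?_⟩
  have h2 := int_const hc h1 x 0
  rw [hr] at h2
  have := Real.two_pi_pos
  rw [div_eq_iff this.ne'] at h2
  linarith

open Complex in
/-- Local injectivity at real points. -/
theorem inj_real {l : ℤ} {μ₀ ω₀ : ℝ} (hμ : μ₀ ≠ 0) (hω : ω₀ ≠ 0)
    (h : Scal ((l:ℝ):ℂ) (μ₀:ℝ) (1 / (2 * (ω₀:ℂ)))) :
    ∃ δ > 0, ∀ μ₁ μ₂ ω : ℂ, ‖μ₁ - μ₀‖ < δ → ‖μ₂ - μ₀‖ < δ → ‖ω - ω₀‖ < δ →
      Scal ((l:ℝ):ℂ) μ₁ (1 / (2 * ω)) → Scal ((l:ℝ):ℂ) μ₂ (1 / (2 * ω)) → μ₁ = μ₂ := by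
  set ε : ℝ := 1 / ω₀ with hε
  have e1 : (1 / (2 * (ω₀:ℂ)) : ℂ) = ((ε / 2 : ℝ) : ℂ) := by
    rw [hε]; push_cast; field_simp
  rw [e1] at h
  obtain ⟨φ, h1, h2, h3⟩ := gd_all (l := l) (a := 2 * μ₀) (ε := ε) (mul_ne_zero two_ne_zero hμ)
    (one_div_ne_zero hω) (idn_of_scal h)
  obtain ⟨δ, hδ, hinj⟩ := loc_inj (lf_sol h1) (by simp only [lf]; exact exp_ne_zero _) (by
    have : ∀ t : ℝ, (Real.cos t : ℂ) * ((lf ε φ t).1 * (lf ε φ t).2) =
        ((Real.cos t * Real.exp (ε * Cc φ t) : ℝ) : ℂ) := by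
      intro t
      have e5 : ((Real.cos t * Real.exp (ε * Cc φ t) : ℝ) : ℂ) =
          (Real.cos t : ℂ) * exp ((ε * Cc φ t : ℝ) : ℂ) := by rw [ofReal_mul, ofReal_exp]
      rw [e5]
      simp only [lf]
      rw [← exp_add]
      congr 2
      push_cast; ring
    simp_rw [this]
    rw [intervalIntegral.integral_ofReal]
    exact_mod_cast h3)
  have hcont : ContinuousAt (fun ω : ℂ => 1 / (2 * ω)) (ω₀:ℂ) := by
    have : (2 * (ω₀:ℂ)) ≠ 0 := mul_ne_zero two_ne_zero (by exact_mod_cast hω)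
    exact ContinuousAt.div continuousAt_const (by fun_prop) this
  obtain ⟨δ', hδ', hcl⟩ := Metric.continuousAt_iff.1 hcont δ hδ
  refine ⟨min δ δ', lt_min hδ hδ', ?_⟩
  intro μ₁ μ₂ ω g1 g2 g3 s1 s2
  refine hinj μ₁ μ₂ (1 / (2 * ω)) (g1.trans_le (min_le_left _ _)) (g2.trans_le (min_le_left _ _)) ?_ s1 s2
  rw [← e1, ← dist_eq_norm]
  exact hcl (by rw [dist_eq_norm]; exact g3.trans_le (min_le_right _ _))

end H535R3
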