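import Pool.Agent.H535R3.KL

set_option autoImplicit false
open Set Filter Topology Metric

namespace H535R3

/-- An injective holomorphic function has non-zero derivative. -/
lemma inj_deriv {f : ℂ → ℂ} {ρ : ℝ} (hρ : 0 < ρ) (hf : DifferentiableOn ℂ f (ball 0 ρ))
    (hinj : InjOn f (ball 0 ρ)) : deriv f 0 ≠ 0 := by
  intro hd0
  have hb : ball (0:ℂ) ρ ∈ 𝓝 0 := ball_mem_nhds _ hρ
  have hfa : AnalyticAt ℂ f 0 := hf.analyticAt hb
  have hFa : AnalyticAt ℂ (fun z => f z - f 0) 0 := hfa.sub analyticAt_const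
  have hne : ¬ ∀ᶠ z in 𝓝 (0:ℂ), f z - f 0 = 0 := by
    intro h
    have h1 : ∀ᶠ z in 𝓝[≠] (0:ℂ), z ∈ ball (0:ℂ) ρ ∧ f z - f 0 = 0 ∧ z ≠ 0 := by
      have h2 : ∀ᶠ z in 𝓝[≠] (0:ℂ), z ∈ ball (0:ℂ) ρ ∧ f z - f 0 = 0 :=
        (((show ∀ᶠ z in 𝓝 (0:ℂ), z ∈ ball (0:ℂ) ρ from hb).and h)).filter_mono nhdsWithin_le_nhds
      filter_upwards [h2, self_mem_nhdsWithin] with z hz hz2
      exact ⟨hz.1, hz.2, hz2⟩
    obtain ⟨z, hz1, hz2, hz3⟩ := h1.exists
    exact hz3 (hinj hz1 (mem_ball_self hρ) (sub_eq_zero.1 hz2))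
  obtain ⟨k, g, hg, hg0, hFg⟩ := (hFa.exists_eventuallyEq_pow_smul_nonzero_iff).2 hne
  simp only [sub_zero, smul_eq_mul] at hFg
  have hk0 : k ≠ 0 := by
    rintro rfl
    have := hFg.self_of_nhds
    simp only [sub_self, pow_zero, one_mul] at this
    exact hg0 this.symm
  have hk1 : k ≠ 1 := by
    rintro rfl
    have h1 : HasDerivAt (fun z : ℂ => z ^ 1 * g z) (g 0) 0 := by
      have h2 : HasDerivAt (fun z : ℂ => z * g z) (1 * g 0 + 0 * deriv g 0) 0 :=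
        (hasDerivAt_id' (0:ℂ)).mul hg.differentiableAt.hasDerivAt
      rw [one_mul, zero_mul, add_zero] at h2
      simpa only [pow_one] using h2
    have h2 : HasDerivAt (fun z => f z - f 0) (g 0) 0 := h1.congr_of_eventuallyEq hFg
    have h3 : HasDerivAt (fun z => f z - f 0) (deriv f 0) 0 :=
      (hfa.differentiableAt.hasDerivAt).sub_const _
    rw [hd0] at h3
    exact hg0 (h2.unique h3)
  obtain ⟨c, hc⟩ := IsAlgClosed.exists_pow_nat_eq (g 0) (Nat.pos_of_ne_zero hk0)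
  have hc0 : c ≠ 0 := by
    rintro rfl
    rw [zero_pow hk0] at hc
    exact hg0 hc.symm
  set h : ℂ → ℂ := fun z => c * Complex.exp (Complex.log (g z / g 0) / k) with hh
  have hgd : AnalyticAt ℂ (fun z => g z / g 0) 0 := hg.div analyticAt_const hg0
  have hha : AnalyticAt ℂ h 0 := by
    have h1 : AnalyticAt ℂ (fun z => Complex.log (g z / g 0)) 0 :=
      hgd.clog (by simp only [div_self hg0]; exact Complex.one_mem_slitPlane)
    have h2 : AnalyticAt ℂ (fun z => Complex.log (g z / g 0) / (k:ℂ)) 0 :=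
      h1.div analyticAt_const (by exact_mod_cast hk0)
    exact analyticAt_const.mul h2.cexp
  have hh0 : h 0 = c := by simp [hh, div_self hg0]
  have hhk : ∀ᶠ z in 𝓝 (0:ℂ), h z ^ k = g z := by
    filter_upwards [hg.continuousAt.eventually_ne hg0] with z hz
    simp only [hh]
    rw [mul_pow, hc, ← Complex.exp_nat_mul]
    have hk' : (k:ℂ) ≠ 0 := by exact_mod_cast hk0
    rw [mul_div_cancel₀ _ hk', Complex.exp_log (div_ne_zero hz hg0)]
    field_simp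
  set ψ : ℂ → ℂ := fun z => z * h z with hψ
  have hψa : AnalyticAt ℂ ψ 0 := analyticAt_id.mul hha
  have hψd : HasDerivAt ψ c 0 := by
    have h2 := (hasDerivAt_id (0:ℂ)).mul hha.differentiableAt.hasDerivAt
    simp only [id, one_mul, zero_mul, add_zero] at h2
    rw [hh0] at h2
    exact h2
  have hψs : HasStrictDerivAt ψ c 0 := by
    have := hψa.hasStrictDerivAt
    rwa [hψd.deriv] at this
  have hmap := hψs.map_nhds_eq hc0
  have hψ0 : ψ 0 = 0 := by simp [hψ]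
  rw [hψ0] at hmap
  set V : Set ℂ := {z | z ∈ ball (0:ℂ) ρ ∧ f z - f 0 = ψ z ^ k} with hV
  have hVn : V ∈ 𝓝 (0:ℂ) := by
    filter_upwards [hb, hFg, hhk] with z h1 h2 h3
    refine ⟨h1, ?_⟩
    simp only [hψ]
    rw [h2, mul_pow, h3]
  have hS : ψ '' V ∈ 𝓝 (0:ℂ) := by rw [← hmap]; exact image_mem_map hVn
  have hζ := Complex.isPrimitiveRoot_exp k hk0
  set ζ := Complex.exp (2 * Real.pi * Complex.I / k) with hζd
  have hζ1 : ζ ≠ 1 := hζ.ne_one (by omega)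
  have hS2 : ∀ᶠ w in 𝓝 (0:ℂ), ζ * w ∈ ψ '' V := by
    have hcm : Tendsto (fun w : ℂ => ζ * w) (𝓝 0) (𝓝 0) := by
      have : Continuous fun w : ℂ => ζ * w := by fun_prop
      have := this.tendsto 0
      rwa [mul_zero] at this
    exact hcm.eventually hS
  have hex : ∀ᶠ w in 𝓝[≠] (0:ℂ), (w ∈ ψ '' V ∧ ζ * w ∈ ψ '' V) ∧ w ≠ 0 := by
    have h2 : ∀ᶠ w in 𝓝[≠] (0:ℂ), w ∈ ψ '' V ∧ ζ * w ∈ ψ '' V :=
      ((show ∀ᶠ w in 𝓝 (0:ℂ), w ∈ ψ '' V from hS).and hS2).filter_mono nhdsWithin_le_nhds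
    filter_upwards [h2, self_mem_nhdsWithin] with z hz hz2
    exact ⟨hz, hz2⟩
  obtain ⟨w, ⟨⟨z1, hz1, e1⟩, ⟨z2, hz2, e2⟩⟩, hw⟩ := hex.exists
  have h3 : f z1 = f z2 := by
    have a1 := hz1.2
    have a2 := hz2.2
    rw [e1] at a1
    rw [e2, mul_pow, hζ.pow_eq_one, one_mul] at a2
    rw [← a2] at a1
    exact sub_left_injective a1
  have h4 := hinj hz1.1 hz2.1 h3
  rw [h4, e2] at e1
  have h5 : (ζ - 1) * w = 0 := by linear_combination e1
  rcases mul_eq_zero.1 h5 with h6 | h6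
  · exact hζ1 (sub_eq_zero.1 h6)
  · exact hw h6

end H535R3
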